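import Pool.Agent.KlCD94.Base

/-!
# Ahlfors regular spaces: dimension and shadow weights (task A)
-/

open Set Filter Topology MeasureTheory
open scoped ENNReal NNReal

namespace Pool.Agent.KlCD94

namespace Ahlfors

theorem diam_pos {Y : Type} [MetricSpace Y] [CompactSpace Y] (hY : ¬ Subsingleton Y) :
    0 < Metric.diam (univ : Set Y) := by
  rw [not_subsingleton_iff_nontrivial] at hY
  obtain ⟨x, y, hxy⟩ := exists_pair_ne Y
  have hb : Bornology.IsBounded (univ : Set Y) := isCompact_univ.isBounded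
  exact (dist_pos.2 hxy).trans_le (Metric.dist_le_diam_of_mem hb (mem_univ _) (mem_univ _))

theorem dist_le {Y : Type} [MetricSpace Y] [CompactSpace Y] (x y : Y) :
    dist x y ≤ Metric.diam (univ : Set Y) :=
  Metric.dist_le_diam_of_mem isCompact_univ.isBounded (mem_univ _) (mem_univ _)

/-- finite multiplicity -/
theorem multiplicity {Y ι : Type} [MeasurableSpace Y] (μ : Measure Y) (F : Finset ι)
    (A : ι → Set Y) (hA : ∀ i ∈ F, MeasurableSet (A i)) (M : ℕ)
    (h : ∀ (y : Y) (F' : Finset ι), F' ⊆ F → (∀ i ∈ F', y ∈ A i) → F'.card ≤ M) :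
    ∑ i ∈ F, μ (A i) ≤ M * μ univ := by
  classical
  calc ∑ i ∈ F, μ (A i) = ∑ i ∈ F, ∫⁻ y, (A i).indicator 1 y ∂μ := by
        apply Finset.sum_congr rfl
        intro i hi
        rw [lintegral_indicator_one (hA i hi)]
    _ = ∫⁻ y, ∑ i ∈ F, (A i).indicator 1 y ∂μ := by
        rw [lintegral_finsetSum']
        intro i hi
        exact (measurable_one.indicator (hA i hi)).aemeasurable
    _ ≤ ∫⁻ _, (M : ℝ≥0∞) ∂μ := by
        apply lintegral_mono
        intro y
        have e : ∑ i ∈ F, (A i).indicator (1 : Y → ℝ≥0∞) y = ((F.filter fun i => y ∈ A i).card : ℝ≥0∞) := by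
          rw [Finset.card_filter]
          push_cast
          apply Finset.sum_congr rfl
          intro i _
          by_cases hy : y ∈ A i
          · simp [hy]
          · simp [hy]
        simp only [e]
        have := h y (F.filter fun i => y ∈ A i) (Finset.filter_subset _ _) (fun i hi =>
          (Finset.mem_filter.1 hi).2)
        exact_mod_cast this
    _ = M * μ univ := by rw [lintegral_const]

end Ahlfors

theorem ahlfors_Q_le {Y : Type} [MetricSpace Y] {Q : ℝ} (hQ : IsAhlforsRegular Y Q)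
    (hY : ¬ Subsingleton Y) [CompactSpace Y] : ENNReal.ofReal Q ≤ dimH (univ : Set Y) := by
  obtain ⟨hQ0, μ, C, hC, hμ⟩ := hQ
  let _ : MeasurableSpace Y := borel Y
  have _ : BorelSpace Y := ⟨rfl⟩
  have hΔ := Ahlfors.diam_pos hY
  set Δ := Metric.diam (univ : Set Y) with hΔd
  rcases hQ0.eq_or_lt with h0 | hQpos
  · rw [← h0]; simp
  have hCpos : 0 < C := by linarith
  have hC0 : ENNReal.ofReal C ≠ 0 := by simpa using hCpos
  have hC1 : ENNReal.ofReal C ≠ ⊤ := ENNReal.ofReal_ne_top
  -- points have measure zero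
  have hpt : ∀ y : Y, μ {y} = 0 := by
    intro y
    have h1 : ∀ r : ℝ, 0 < r → r ≤ Δ → μ {y} ≤ ENNReal.ofReal (C * r ^ Q) := by
      intro r hr hr'
      refine le_trans (measure_mono ?_) (hμ y r hr hr').2
      intro z hz
      rw [mem_singleton_iff] at hz
      rw [hz, Metric.mem_closedBall, dist_self]
      exact hr.le
    have h2 : Tendsto (fun r : ℝ => ENNReal.ofReal (C * r ^ Q)) (𝓝[>] 0) (𝓝 0) := by
      have h3 : Tendsto (fun r : ℝ => C * r ^ Q) (𝓝 0) (𝓝 0) := by
        have h4 : ContinuousAt (fun r : ℝ => C * r ^ Q) 0 :=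
          continuousAt_const.mul (Real.continuousAt_rpow_const 0 Q (Or.inr hQpos.le))
        have h5 : C * (0 : ℝ) ^ Q = 0 := by rw [Real.zero_rpow hQpos.ne', mul_zero]
        have := h4.tendsto
        rwa [h5] at this
      have := ENNReal.tendsto_ofReal (h3.mono_left nhdsWithin_le_nhds (y := 𝓝[>] (0 : ℝ)))
      rwa [ENNReal.ofReal_zero] at this
    have h6 : μ {y} ≤ 0 := by
      refine ge_of_tendsto h2 ?_
      have : ∀ᶠ r : ℝ in 𝓝[>] 0, r ∈ Ioc 0 Δ := Ioc_mem_nhdsGT hΔ
      filter_upwards [this] with r hr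
      exact h1 r hr.1 hr.2
    exact le_antisymm h6 bot_le
  have hle : (ENNReal.ofReal C)⁻¹ • μ ≤ Measure.hausdorffMeasure Q := by
    apply Measure.le_hausdorffMeasure Q _ (ENNReal.ofReal Δ) (by simpa using hΔ)
    intro s hs
    rw [Measure.smul_apply, smul_eq_mul]
    rcases s.eq_empty_or_nonempty with rfl | ⟨y, hy⟩
    · simp
    have hne : Metric.ediam s ≠ ⊤ := (hs.trans_lt ENNReal.ofReal_lt_top).ne
    have hsub : s ⊆ Metric.closedBall y (Metric.diam s) := by
      intro z hz
      rw [Metric.mem_closedBall]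
      exact Metric.dist_le_diam_of_mem (Metric.isBounded_iff_ediam_ne_top.2 hne) hz hy
    have hd : Metric.ediam s = ENNReal.ofReal (Metric.diam s) := by
      rw [Metric.diam, ENNReal.ofReal_toReal hne]
    rcases (Metric.diam_nonneg (s := s)).eq_or_lt with h0 | hpos
    · -- diameter zero
      have h1 : s ⊆ {y} := by
        intro z hz
        have := hsub hz
        rw [← h0, Metric.mem_closedBall] at this
        exact dist_le_zero.1 this
      have : μ s = 0 := measure_mono_null h1 (hpt y)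
      rw [this, mul_zero]
      exact bot_le
    · have hle' : Metric.diam s ≤ Δ := by
        rw [hd] at hs
        exact (ENNReal.ofReal_le_ofReal_iff hΔ.le).1 hs
      have h1 := (measure_mono hsub).trans (hμ y (Metric.diam s) hpos hle').2
      rw [hd, ENNReal.ofReal_rpow_of_pos hpos]
      rw [ENNReal.ofReal_mul hCpos.le] at h1
      calc (ENNReal.ofReal C)⁻¹ * μ s
          ≤ (ENNReal.ofReal C)⁻¹ * (ENNReal.ofReal C * ENNReal.ofReal (Metric.diam s ^ Q)) := by
            gcongr
        _ = ENNReal.ofReal (Metric.diam s ^ Q) := by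
            rw [← mul_assoc, ENNReal.inv_mul_cancel hC0 hC1, one_mul]
  have hne : Measure.hausdorffMeasure Q (univ : Set Y) ≠ 0 := by
    intro h
    have h1 : ((ENNReal.ofReal C)⁻¹ • μ) univ ≤ 0 := by
      rw [← h]; exact hle univ
    rw [Measure.smul_apply, smul_eq_mul, nonpos_iff_eq_zero, mul_eq_zero] at h1
    rcases h1 with h1 | h1
    · rw [ENNReal.inv_eq_zero] at h1
      exact hC1 h1
    · rw [not_subsingleton_iff_nontrivial] at hY
      obtain ⟨y⟩ := hY.to_nonempty
      have h2 := (hμ y Δ hΔ le_rfl).1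
      have h3 : μ (Metric.closedBall y Δ) ≤ 0 := by rw [← h1]; exact measure_mono (subset_univ _)
      have h4 := h2.trans h3
      rw [nonpos_iff_eq_zero, ENNReal.ofReal_eq_zero] at h4
      have : 0 < C⁻¹ * Δ ^ Q := by positivity
      linarith
  have key : ((Q.toNNReal : ℝ≥0) : ℝ≥0∞) ≤ dimH (univ : Set Y) := by
    apply le_dimH_of_hausdorffMeasure_ne_zero
    rwa [Real.coe_toNNReal _ hQ0]
  exact key


namespace Ahlfors

/-- the set of points at distance `≤ C3 e^{-n}` of `u` is mapped into a ball of radius `radius` -/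
noncomputable def rad {B Y : Type} [MetricSpace Y] (D : B → B → ℝ) (toY : B → Y) (c : ℝ) (u : B) :
    ℝ := ⨆ v : {v : B // D u v ≤ c}, dist (toY u) (toY v.1)

section rad
variable {B Y : Type} [MetricSpace Y] [CompactSpace Y] (D : B → B → ℝ) (toY : B → Y) (c : ℝ) (u : B)

theorem rad_bdd : BddAbove (range fun v : {v : B // D u v ≤ c} => dist (toY u) (toY v.1)) := by
  refine ⟨Metric.diam (univ : Set Y), ?_⟩
  rintro _ ⟨v, rfl⟩
  exact dist_le _ _

omit [CompactSpace Y] in
theorem rad_nonneg : 0 ≤ rad D toY c u := Real.iSup_nonneg fun _ => dist_nonneg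

theorem le_rad {v : B} (hv : D u v ≤ c) : dist (toY u) (toY v) ≤ rad D toY c u :=
  le_ciSup (rad_bdd D toY c u) ⟨v, hv⟩

omit [CompactSpace Y] in
theorem rad_le {e : ℝ} (he : 0 ≤ e) (h : ∀ v, D u v ≤ c → dist (toY u) (toY v) ≤ e) :
    rad D toY c u ≤ e := Real.iSup_le (fun v => h v.1 v.2) he

theorem exists_half (h : 0 < rad D toY c u) :
    ∃ v, D u v ≤ c ∧ rad D toY c u / 2 ≤ dist (toY u) (toY v) := by
  by_contra hcon
  push Not at hcon
  have := rad_le D toY c u (e := rad D toY c u / 2) (by linarith) (fun v hv => (hcon v hv).le)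
  linarith

end rad

end Ahlfors

open Ahlfors in
theorem weights_exist {B G Y : Type} [MetricSpace Y] [CompactSpace Y]
    (hAR : ∃ Q : ℝ, IsAhlforsRegular Y Q) (p : ℝ) (hp : dimH (univ : Set Y) < ENNReal.ofReal p)
    (D : B → B → ℝ) (toY : B → Y) (s : ℝ → B → G) (C1 : ℝ) (M : ℕ)
    (hC1 : 1 ≤ C1) (hD0 : ∀ u v, 0 ≤ D u v)
    (hs : ∀ n, 0 ≤ n → ∀ u u', s n u = s n u' → D u u' ≤ C1 * Real.exp (-n))
    (hqu : ∀ u v w, D u w ≤ C1 * max (D u v) (D v w))
    (hM : ∀ n : ℝ, 0 ≤ n → ∀ (v : B) (F : Finset G), (∀ g ∈ F, ∃ u, s n u = g ∧ D u v ≤ Real.exp (-n)) →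
      F.card ≤ M)
    (hfin : ∀ n, (range (s n)).Finite)
    (hsurj : Function.Surjective toY)
    (hQS : ∃ (η : ℝ≥0 ≃o ℝ≥0) (ε₀ C0 : ℝ), 0 < ε₀ ∧ 0 < C0 ∧ ∀ u v w, toY u ≠ toY w →
      D u v ^ ε₀ ≤ C0 * η (nndist (toY u) (toY v) / nndist (toY u) (toY w)) * D u w ^ ε₀)
    (huc : ∀ e > 0, ∃ c > 0, ∀ u v, D u v < c → dist (toY u) (toY v) < e)
    (κ K C2 : ℝ) (hκ : 0 < κ) (hK : 0 < K) (hC2 : 0 < C2) :
    ∃ N : ℝ, ∀ n ≥ N, ∃ r : G → ℝ, (∀ g, 0 ≤ r g) ∧ (∀ g, g ∉ range (s n) → r g = 0) ∧
      (∀ u v, D u v ≤ C2 * Real.exp (-n) → dist (toY u) (toY v) ≤ r (s n u)) ∧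
      (∀ g, r g ≤ κ) ∧ ∑ g ∈ (hfin n).toFinset, (K * r g) ^ p ≤ κ := by
  classical
  have hp0 : 0 < p := by
    by_contra hcon
    push Not at hcon
    rw [ENNReal.ofReal_of_nonpos hcon] at hp
    exact absurd hp not_lt_bot
  set C3 := C1 * max C1 C2 with hC3
  have hC1pos : 0 < C1 := by linarith
  have hC3pos : 0 < C3 := mul_pos hC1pos (lt_max_of_lt_left hC1pos)
  -- the radius at level `n`
  let c : ℝ → ℝ := fun n => C3 * Real.exp (-n)
  let U : ∀ n : ℝ, ∀ g : G, g ∈ range (s n) → B := fun n g h => Classical.choose h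
  have hU : ∀ n g h, s n (U n g h) = g := fun n g h => Classical.choose_spec h
  let R : ℝ → G → ℝ := fun n g => if h : g ∈ range (s n) then rad D toY (c n) (U n g h) else 0
  have hR0 : ∀ n g, 0 ≤ R n g := by
    intro n g
    by_cases h : g ∈ range (s n)
    · simp only [R, dif_pos h]; exact rad_nonneg _ _ _ _
    · simp only [R, dif_neg h]; exact le_rfl
  -- estimate of distances
  have hdist : ∀ n, 0 ≤ n → ∀ u v, D u v ≤ C2 * Real.exp (-n) →
      dist (toY u) (toY v) ≤ 2 * R n (s n u) := by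
    intro n hn u v huv
    have hg : s n u ∈ range (s n) := mem_range_self u
    simp only [R, dif_pos hg]
    have h1 : D (U n (s n u) hg) u ≤ C1 * Real.exp (-n) := hs n hn _ _ (hU n _ hg)
    have h2 : D (U n (s n u) hg) u ≤ c n := by
      refine h1.trans ?_
      change _ ≤ C1 * max C1 C2 * Real.exp (-n)
      have h3 : 1 ≤ max C1 C2 := hC1.trans (le_max_left _ _)
      exact mul_le_mul_of_nonneg_right (le_mul_of_one_le_right hC1pos.le h3) (Real.exp_pos _).le
    have h4 : D (U n (s n u) hg) v ≤ c n := by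
      refine (hqu _ u v).trans ?_
      change _ ≤ C1 * max C1 C2 * Real.exp (-n)
      rw [mul_assoc]
      refine mul_le_mul_of_nonneg_left ?_ hC1pos.le
      rw [max_mul_of_nonneg _ _ (Real.exp_pos _).le]
      exact max_le_max h1 huv
    have h5 := le_rad D toY (c n) _ h2
    have h6 := le_rad D toY (c n) _ h4
    have h7 := dist_triangle_left (toY u) (toY v) (toY (U n (s n u) hg))
    linarith
  -- the radius is uniformly small
  have hsmall : ∀ e > 0, ∃ N : ℝ, 0 ≤ N ∧ ∀ n ≥ N, ∀ g, R n g ≤ e := by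
    intro e he
    obtain ⟨c', hc', h⟩ := huc e he
    have h1 : Tendsto (fun n : ℝ => c n) atTop (𝓝 0) := by
      have : Tendsto (fun n : ℝ => C3 * Real.exp (-n)) atTop (𝓝 (C3 * 0)) :=
        (Real.tendsto_exp_neg_atTop_nhds_zero).const_mul C3
      rwa [mul_zero] at this
    obtain ⟨N, hN⟩ := eventually_atTop.1 (h1.eventually_lt_const hc')
    refine ⟨max N 0, le_max_right _ _, fun n hn g => ?_⟩
    have hcn := hN n ((le_max_left _ _).trans hn)
    by_cases hg : g ∈ range (s n)
    · simp only [R, dif_pos hg]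
      exact rad_le _ _ _ _ he.le fun v hv => (h _ v (hv.trans_lt hcn)).le
    · simp only [R, dif_neg hg]; exact he.le
  -- the main estimate
  have hmain : ∃ (Q Kc : ℝ), 0 ≤ Kc ∧ Q < p ∧ ∀ n, 0 ≤ n →
      ∑ g ∈ (hfin n).toFinset with 0 < R n g, R n g ^ Q ≤ Kc := by
    by_cases hY : Subsingleton Y
    · refine ⟨0, 0, le_rfl, hp0, fun n hn => ?_⟩
      have : ∀ g, R n g = 0 := by
        intro g
        apply le_antisymm _ (hR0 n g)
        by_cases hg : g ∈ range (s n)
        · simp only [R, dif_pos hg]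
          exact rad_le _ _ _ _ le_rfl fun v _ => by rw [Subsingleton.elim (toY _) (toY v), dist_self]
        · simp only [R, dif_neg hg]; exact le_rfl
      simp [this]
    · obtain ⟨Q, hQ⟩ := hAR
      have hQle := ahlfors_Q_le hQ hY
      have hQp : Q < p := (ENNReal.ofReal_lt_ofReal_iff hp0).1 (hQle.trans_lt hp)
      obtain ⟨hQ0, μ, C, hC, hμ⟩ := hQ
      let _ : MeasurableSpace Y := borel Y
      have _ : BorelSpace Y := ⟨rfl⟩
      have hΔ := diam_pos hY
      set Δ := Metric.diam (univ : Set Y) with hΔd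
      have hCpos : 0 < C := by linarith
      obtain ⟨η, ε₀, C0, hε₀, hC0, hη⟩ := hQS
      -- the constant `t`
      set b : ℝ≥0 := (1 / (C0 * C3 ^ ε₀)).toNNReal with hb
      have hbpos : 0 < b := by
        rw [hb, Real.toNNReal_pos]; positivity
      have hb' : (b : ℝ) = 1 / (C0 * C3 ^ ε₀) := by
        rw [hb, Real.coe_toNNReal]; positivity
      set t' : ℝ≥0 := η.symm b with ht'
      have ht'pos : 0 < t' := by
        have h0 : η.symm 0 = 0 := map_bot η.symm
        rw [ht', ← h0]
        exact η.symm.strictMono hbpos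
      set t : ℝ≥0 := min t' 1 with ht
      have htpos : 0 < t := lt_min ht'pos one_pos
      have ht1 : t ≤ 1 := min_le_right _ _
      have hηt : η t ≤ b := by
        have : η t ≤ η t' := η.monotone (min_le_left _ _)
        rwa [ht', η.apply_symm_apply] at this
      have htposR : (0 : ℝ) < t := by exact_mod_cast htpos
      have ht1R : (t : ℝ) ≤ 1 := by exact_mod_cast ht1
      have huniv : μ univ ≤ ENNReal.ofReal (C * Δ ^ Q) := by
        rw [not_subsingleton_iff_nontrivial] at hY
        obtain ⟨y⟩ := hY.to_nonempty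
        refine le_trans (measure_mono ?_) (hμ y Δ hΔ le_rfl).2
        intro z _
        exact dist_le z y
      refine ⟨Q, C * ((M * (C * Δ ^ Q)) / (t / 2) ^ Q), by positivity, hQp, fun n hn => ?_⟩
      set F := (hfin n).toFinset.filter (fun g => 0 < R n g) with hF
      have hFmem : ∀ g ∈ F, ∃ h : g ∈ range (s n), 0 < rad D toY (c n) (U n g h) ∧
          R n g = rad D toY (c n) (U n g h) := by
        intro g hg
        rw [hF, Finset.mem_filter, Set.Finite.mem_toFinset] at hg
        refine ⟨hg.1, ?_, ?_⟩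
        · have := hg.2
          simp only [R, dif_pos hg.1] at this
          exact this
        · simp only [R, dif_pos hg.1]
      let cen : G → Y := fun g => if h : g ∈ range (s n) then toY (U n g h) else toY (Classical.choice (by
        obtain ⟨y⟩ := (not_subsingleton_iff_nontrivial.1 hY).to_nonempty
        exact ⟨(hsurj y).choose⟩))
      let A : G → Set Y := fun g => Metric.closedBall (cen g) (t / 2 * R n g)
      -- the key inclusion
      have hkey : ∀ g ∈ F, ∀ w, toY w ∈ A g → ∃ u, s n u = g ∧ D u w ≤ Real.exp (-n) := by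
        intro g hg w hw
        obtain ⟨h, hpos, hRg⟩ := hFmem g hg
        obtain ⟨a, ha, hhalf⟩ := exists_half D toY (c n) (U n g h) hpos
        refine ⟨U n g h, hU n g h, ?_⟩
        have hne : toY (U n g h) ≠ toY a := by
          intro he
          rw [he, dist_self] at hhalf
          linarith
        have h1 := hη (U n g h) w a hne
        have hw' : dist (toY (U n g h)) (toY w) ≤ t / 2 * rad D toY (c n) (U n g h) := by
          have h2 : dist (toY w) (cen g) ≤ t / 2 * R n g := hw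
          simp only [cen, dif_pos h] at h2
          rw [hRg] at h2
          rwa [dist_comm]
        have hda : 0 < dist (toY (U n g h)) (toY a) := by linarith
        have hratio : nndist (toY (U n g h)) (toY w) / nndist (toY (U n g h)) (toY a) ≤ t := by
          rw [← NNReal.coe_le_coe]
          push_cast
          rw [div_le_iff₀ hda]
          calc dist (toY (U n g h)) (toY w) ≤ t / 2 * rad D toY (c n) (U n g h) := hw'
            _ = t * (rad D toY (c n) (U n g h) / 2) := by ring
            _ ≤ t * dist (toY (U n g h)) (toY a) := by gcongr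
        have h3 : ((η (nndist (toY (U n g h)) (toY w) / nndist (toY (U n g h)) (toY a)) : ℝ≥0) : ℝ)
            ≤ 1 / (C0 * C3 ^ ε₀) := by
          rw [← hb']
          exact_mod_cast (η.monotone hratio).trans hηt
        have h4 : D (U n g h) a ^ ε₀ ≤ (c n) ^ ε₀ := Real.rpow_le_rpow (hD0 _ _) ha hε₀.le
        have h5 : (c n) ^ ε₀ = C3 ^ ε₀ * (Real.exp (-n)) ^ ε₀ :=
          Real.mul_rpow hC3pos.le (Real.exp_pos _).le
        have h6 : D (U n g h) w ^ ε₀ ≤ (Real.exp (-n)) ^ ε₀ := by
          have hC3e : 0 < C3 ^ ε₀ := Real.rpow_pos_of_pos hC3pos _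
          calc D (U n g h) w ^ ε₀ ≤ _ := h1
            _ ≤ C0 * (1 / (C0 * C3 ^ ε₀)) * (C3 ^ ε₀ * (Real.exp (-n)) ^ ε₀) := by
              rw [← h5]
              have : 0 ≤ D (U n g h) a ^ ε₀ := Real.rpow_nonneg (hD0 _ _) _
              gcongr
            _ = (Real.exp (-n)) ^ ε₀ := by field_simp
        exact (Real.rpow_le_rpow_iff (hD0 _ _) (Real.exp_pos _).le hε₀).1 h6
      have hmult : ∑ g ∈ F, μ (A g) ≤ M * μ univ := by
        apply multiplicity μ F A (fun g _ => Metric.isClosed_closedBall.measurableSet) M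
        intro y F' hF' hy
        obtain ⟨w, rfl⟩ := hsurj y
        exact hM n hn w F' fun g hg => hkey g (hF' hg) w (hy g hg)
      have hlow : ∀ g ∈ F, ENNReal.ofReal (C⁻¹ * (t / 2 * R n g) ^ Q) ≤ μ (A g) := by
        intro g hg
        obtain ⟨h, hpos, hRg⟩ := hFmem g hg
        refine (hμ (cen g) (t / 2 * R n g) (by rw [hRg]; positivity) ?_).1
        have h1 : R n g ≤ Δ := by
          rw [hRg]
          exact rad_le _ _ _ _ hΔ.le fun v _ => dist_le _ _
        have h2 := hR0 n g
        nlinarith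
      have hsum : ENNReal.ofReal (∑ g ∈ F, C⁻¹ * (t / 2 * R n g) ^ Q) ≤
          ENNReal.ofReal (M * (C * Δ ^ Q)) := by
        rw [ENNReal.ofReal_sum_of_nonneg (fun g _ => by have := hR0 n g; positivity)]
        refine (Finset.sum_le_sum hlow).trans (hmult.trans ?_)
        rw [ENNReal.ofReal_mul (by positivity), ENNReal.ofReal_natCast]
        gcongr
      rw [ENNReal.ofReal_le_ofReal_iff (by positivity)] at hsum
      have e : ∑ g ∈ F, C⁻¹ * (t / 2 * R n g) ^ Q = C⁻¹ * (t / 2) ^ Q * ∑ g ∈ F, R n g ^ Q := by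
        rw [Finset.mul_sum]
        apply Finset.sum_congr rfl
        intro g _
        rw [Real.mul_rpow (by positivity) (hR0 n g)]
        ring
      rw [e] at hsum
      have ht2 : 0 < ((t : ℝ) / 2) ^ Q := Real.rpow_pos_of_pos (by positivity) _
      rw [mul_div_assoc', le_div_iff₀ ht2]
      calc (∑ g ∈ F, R n g ^ Q) * (t / 2) ^ Q
          = C * (C⁻¹ * (t / 2) ^ Q * ∑ g ∈ F, R n g ^ Q) := by field_simp
        _ ≤ C * (M * (C * Δ ^ Q)) := by gcongr
  obtain ⟨Q, Kc, hKc, hQp, hmain⟩ := hmain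
  -- choice of `e`
  have hlim : Tendsto (fun e : ℝ => (K * 2) ^ p * (e ^ (p - Q) * Kc)) (𝓝[>] 0) (𝓝 0) := by
    have h1 : ContinuousAt (fun e : ℝ => (K * 2) ^ p * (e ^ (p - Q) * Kc)) 0 :=
      continuousAt_const.mul ((Real.continuousAt_rpow_const 0 (p - Q)
        (Or.inr (by linarith))).mul continuousAt_const)
    have h2 : (K * 2) ^ p * ((0 : ℝ) ^ (p - Q) * Kc) = 0 := by
      rw [Real.zero_rpow (by linarith), zero_mul, mul_zero]
    have := h1.tendsto
    rw [h2] at this
    exact this.mono_left nhdsWithin_le_nhds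
  obtain ⟨e, he1, he2, he3⟩ : ∃ e : ℝ, 0 < e ∧ 2 * e ≤ κ ∧
      (K * 2) ^ p * (e ^ (p - Q) * Kc) ≤ κ := by
    have h1 : ∀ᶠ e : ℝ in 𝓝[>] 0, e ∈ Ioc 0 (κ / 2) := Ioc_mem_nhdsGT (by positivity)
    obtain ⟨e, h2, h3⟩ := (h1.and (hlim.eventually_lt_const hκ)).exists
    exact ⟨e, h2.1, by linarith [h2.2], h3.le⟩
  obtain ⟨N, hN0, hN⟩ := hsmall e he1
  refine ⟨N, fun n hn => ⟨fun g => 2 * R n g, fun g => ?_, fun g hg => ?_, ?_, fun g => ?_, ?_⟩⟩
  · have := hR0 n g; positivity
  · simp only [R, dif_neg hg, mul_zero]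
  · exact hdist n (hN0.trans hn)
  · have := hN n hn g; linarith
  · have hterm : ∀ g ∈ (hfin n).toFinset, (K * (2 * R n g)) ^ p ≤
        if 0 < R n g then (K * 2) ^ p * (e ^ (p - Q) * R n g ^ Q) else 0 := by
      intro g _
      split_ifs with h
      · have h1 : (K * (2 * R n g)) ^ p = (K * 2) ^ p * R n g ^ p := by
          rw [← mul_assoc, Real.mul_rpow (by positivity) h.le]
        have h2 : R n g ^ p = R n g ^ (p - Q) * R n g ^ Q := by
          rw [← Real.rpow_add h]; congr 1; ring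
        rw [h1, h2]
        have h3 : R n g ^ (p - Q) ≤ e ^ (p - Q) :=
          Real.rpow_le_rpow h.le (hN n hn g) (by linarith)
        have h4 : 0 ≤ R n g ^ Q := Real.rpow_nonneg h.le _
        gcongr
      · have h1 : R n g = 0 := le_antisymm (not_lt.1 h) (hR0 n g)
        rw [h1, mul_zero, mul_zero, Real.zero_rpow hp0.ne']
    refine (Finset.sum_le_sum hterm).trans ?_
    rw [← Finset.sum_filter, ← Finset.mul_sum, ← Finset.mul_sum]
    refine le_trans ?_ he3
    have h1 := hmain n (hN0.trans hn)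
    have h2 : 0 ≤ e ^ (p - Q) := Real.rpow_nonneg he1.le _
    gcongr

end Pool.Agent.KlCD94
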