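import Pool.Agent.KlCD94.Defs

/-!
# Abstract coarse geometry used for Kleiner's question (MP_0b9722_gt)

`d : G → G → ℝ` is a distance function on a set `G` (usually a group). Nothing here mentions
metric space instances.
-/

open Set Filter Topology

namespace Pool.Agent.KlCD94

/-- Gromov product of a distance function. -/
noncomputable def gp {G : Type} (d : G → G → ℝ) (o x y : G) : ℝ := (d o x + d o y - d x y) / 2

/-- Roughly geodesic pseudo-distance. -/
structure IsRG {G : Type} (d : G → G → ℝ) (R : ℝ) : Prop where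
  self : ∀ x, d x x = 0
  symm : ∀ x y, d x y = d y x
  tri : ∀ x y z, d x z ≤ d x y + d y z
  rough : ∀ x y, ∃ γ : ℝ → G, d x (γ 0) = 0 ∧ d (γ (d x y)) y = 0 ∧
    ∀ s ∈ Icc (0 : ℝ) (d x y), ∀ t ∈ Icc (0 : ℝ) (d x y), abs (d (γ s) (γ t) - |s - t|) ≤ R

/-- Four point hyperbolicity. -/
def Hyp {G : Type} (d : G → G → ℝ) (δ : ℝ) : Prop :=
  ∀ o x y z, min (gp d o x y) (gp d o y z) - δ ≤ gp d o x z

/-- Left invariance. -/
def LeftInv {G : Type} [Group G] (d : G → G → ℝ) : Prop := ∀ g x y, d (g * x) (g * y) = d x y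

/-- Finite balls. -/
def FinBalls {G : Type} [Group G] (d : G → G → ℝ) : Prop := ∀ r : ℝ, {g : G | d 1 g ≤ r}.Finite

/-- Sequences converging at infinity with respect to `d`. -/
def Conv {G : Type} (d : G → G → ℝ) (u : ℕ → G) : Prop :=
  ∀ o, Tendsto (fun p : ℕ × ℕ => gp d o (u p.1) (u p.2)) atTop atTop

/-- `DD d g u v` is `exp (-(u|v)_g)`. -/
noncomputable def DD {G : Type} (d : G → G → ℝ) (g : G) (u v : ℕ → G) : ℝ :=
  limsup (fun p : ℕ × ℕ => Real.exp (-(gp d g (u p.1) (v p.2)))) atTop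

/-- A left invariant metric with finite balls which is an exact path metric with steps of bounded
length (vertex metric of a weighted Cayley graph). -/
structure IsExactGeo {G : Type} [Group G] (ρ : G → G → ℝ) : Prop where
  self : ∀ x, ρ x x = 0
  pos : ∀ x y, x ≠ y → 0 < ρ x y
  symm : ∀ x y, ρ x y = ρ y x
  tri : ∀ x y z, ρ x z ≤ ρ x y + ρ y z
  left : LeftInv ρ
  fin : FinBalls ρ
  step : ∃ M : ℝ, ∀ x y, x ≠ y → ∃ z, z ≠ x ∧ ρ x z ≤ M ∧ ρ x y = ρ x z + ρ z y

end Pool.Agent.KlCD94
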