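import Mathlib

/-!
# The chain lemma
-/

namespace Pool.Agent.KlCD94

open Finset

theorem chain_lemma {G B : Type} (D D' Y : G → B → B → ℝ) (e : G → G → ℝ) (s : G → B → G)
    (c2 t K δ0 rmax c0 E : ℝ)
    (hD'0 : ∀ g u v, 0 ≤ D' g u v)
    (hself : ∀ g u, D g u u = 0)
    (hult : ∀ g u v w, D g u w ≤ E * max (D g u v) (D g v w))
    (hbranch : ∀ g u v, t ≤ D g u v → c2 ≤ D (s g u) u v)
    (hbig : ∀ g u v, t ≤ D g u v → c0 ≤ D' g u v)
    (he : ∀ g h, 0 ≤ e g h)
    (hbase : ∀ g h u v, e g h * D' h u v ≤ D' g u v)
    (hYtri : ∀ g u v w, Y g u w ≤ Y g u v + Y g v w)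
    (hYfar : ∀ g u v, c2 ≤ D g u v → δ0 ≤ Y g u v)
    (hYsmall : ∀ g u v, D g u v < t → Y g u v ≤ rmax)
    (hYw : ∀ g u v, D g u v ≤ E * t → K * Y g u v ≤ e g (s g u))
    (hK0 : 0 ≤ K) (hK : 1 ≤ K * (δ0 - rmax)) (hEt : E * t < c2) (ht : 0 < t) (hE : 0 ≤ E)
    (hc0 : 0 ≤ c0) :
    ∀ (k : ℕ) (g : G) (w : ℕ → B), c2 ≤ D g (w 0) (w k) →
      c0 ≤ ∑ i ∈ range k, D' g (w i) (w (i + 1)) := by
  intro k
  induction k using Nat.strong_induction_on with
  | _ k IH =>
    intro g w hw
    by_cases hbigstep : ∃ i, i < k ∧ t ≤ D g (w i) (w (i + 1))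
    · obtain ⟨i, hi, hit⟩ := hbigstep
      calc c0 ≤ D' g (w i) (w (i + 1)) := hbig _ _ _ hit
        _ ≤ ∑ i ∈ range k, D' g (w i) (w (i + 1)) :=
          single_le_sum (f := fun i => D' g (w i) (w (i + 1))) (fun j _ => hD'0 _ _ _)
            (mem_range.2 hi)
    push Not at hbigstep
    -- inner induction
    have inner : ∀ m a : ℕ, a + m ≤ k →
        c0 * K * (Y g (w a) (w (a + m)) - rmax) ≤
          ∑ i ∈ range m, D' g (w (a + i)) (w (a + i + 1)) := by
      intro m
      induction m using Nat.strong_induction_on with
      | _ m IHm =>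
        intro a ham
        by_cases hall : ∀ j ≤ m, D g (w a) (w (a + j)) < t
        · have h1 := hYsmall g _ _ (hall m le_rfl)
          have h2 : c0 * K * (Y g (w a) (w (a + m)) - rmax) ≤ 0 :=
            mul_nonpos_of_nonneg_of_nonpos (mul_nonneg hc0 hK0) (by linarith)
          exact h2.trans (sum_nonneg fun i _ => hD'0 _ _ _)
        · push Not at hall
          classical
          obtain ⟨hj1, hj2⟩ := Nat.find_spec hall
          set j := Nat.find hall with hjdef
          have hmin : ∀ i < j, D g (w a) (w (a + i)) < t := by
            intro i hi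
            have := Nat.find_min hall hi
            push Not at this
            exact this (by omega)
          have hjpos : 0 < j := by
            rcases Nat.eq_zero_or_pos j with h0 | h0
            · rw [h0, add_zero, hself] at hj2
              exact absurd hj2 (not_le.2 ht)
            · exact h0
          have hprev : D g (w a) (w (a + (j - 1))) < t := hmin _ (by omega)
          have hstep : D g (w (a + (j - 1))) (w (a + j)) < t := by
            have := hbigstep (a + (j - 1)) (by omega)
            have e1 : a + (j - 1) + 1 = a + j := by omega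
            rwa [e1] at this
          have hle : D g (w a) (w (a + j)) ≤ E * t := by
            refine (hult g (w a) (w (a + (j - 1))) (w (a + j))).trans ?_
            exact mul_le_mul_of_nonneg_left (max_le hprev.le hstep.le) hE
          have hjk : j < k := by
            rcases Nat.lt_or_ge j k with h | h
            · exact h
            · exfalso
              have ha0 : a = 0 := by omega
              have hjk' : a + j = k := by omega
              rw [hjk', ha0] at hle
              linarith
          have hfar := hbranch g (w a) (w (a + j)) hj2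
          have hIH := IH j hjk (s g (w a)) (fun i => w (a + i)) (by simpa using hfar)
          have h3 : e g (s g (w a)) * c0 ≤ ∑ i ∈ range j, D' g (w (a + i)) (w (a + i + 1)) := by
            calc e g (s g (w a)) * c0
                ≤ e g (s g (w a)) * ∑ i ∈ range j, D' (s g (w a)) (w (a + i)) (w (a + (i + 1))) :=
                  mul_le_mul_of_nonneg_left hIH (he _ _)
              _ = ∑ i ∈ range j, e g (s g (w a)) * D' (s g (w a)) (w (a + i)) (w (a + (i + 1))) :=
                  mul_sum _ _ _
              _ ≤ ∑ i ∈ range j, D' g (w (a + i)) (w (a + i + 1)) :=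
                  sum_le_sum fun i _ => hbase _ _ _ _
          have h4 : c0 * K * Y g (w a) (w (a + j)) ≤
              ∑ i ∈ range j, D' g (w (a + i)) (w (a + i + 1)) := by
            have := mul_le_mul_of_nonneg_left (hYw g (w a) (w (a + j)) hle) hc0
            linarith
          have h5 := IHm (m - j) (by omega) (a + j) (by omega)
          have e2 : a + j + (m - j) = a + m := by omega
          rw [e2] at h5
          have h6 : ∑ i ∈ range m, D' g (w (a + i)) (w (a + i + 1)) =
              ∑ i ∈ range j, D' g (w (a + i)) (w (a + i + 1)) +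
              ∑ i ∈ range (m - j), D' g (w (a + j + i)) (w (a + j + i + 1)) := by
            have e3 : m = j + (m - j) := by omega
            conv_lhs => rw [e3, sum_range_add]
            simp only [add_assoc]
          rw [h6]
          have h7 := hYtri g (w a) (w (a + j)) (w (a + m))
          have h8 : c0 * K * (Y g (w a) (w (a + m)) - rmax) ≤
              c0 * K * (Y g (w a) (w (a + j)) + (Y g (w (a + j)) (w (a + m)) - rmax)) :=
            mul_le_mul_of_nonneg_left (by linarith) (mul_nonneg hc0 hK0)
          linarith
    have h := inner k 0 (by omega)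
    simp only [zero_add] at h
    have h1 := hYfar g _ _ hw
    have h2 : c0 * (K * (δ0 - rmax)) ≤ c0 * K * (Y g (w 0) (w k) - rmax) := by
      rw [mul_assoc]
      exact mul_le_mul_of_nonneg_left (mul_le_mul_of_nonneg_left (by linarith) hK0) hc0
    have h3 : c0 ≤ c0 * (K * (δ0 - rmax)) := by
      have := mul_le_mul_of_nonneg_left hK hc0
      linarith
    linarith

end Pool.Agent.KlCD94
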