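import Pool.Agent.KlCD94.Near

/-!
# Compactness of the boundary
-/

open Set Filter Topology MeasureTheory
open scoped ENNReal NNReal

namespace Pool.Agent.KlCD94

theorem boundary_compact {G Z : Type} [Group G] [MetricSpace Z] {d : G → G → ℝ} {R δ ε C : ℝ}
    (hd : IsRG d R) (hl : LeftInv d) (hf : FinBalls d) (hδ : Hyp d δ)
    (bd : {u : ℕ → G // Conv d u} → Z) (hsurj : Function.Surjective bd) (hε : 0 < ε) (hC : 1 ≤ C)
    (hcmp : ∀ u v : {u : ℕ → G // Conv d u}, C⁻¹ * DD d 1 u.1 v.1 ^ ε ≤ dist (bd u) (bd v) ∧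
      dist (bd u) (bd v) ≤ C * DD d 1 u.1 v.1 ^ ε) : CompactSpace Z := by
  have _ := hl
  have hCpos : 0 < C := lt_of_lt_of_le one_pos hC
  choose us hus using hsurj
  -- totally bounded
  have htb : TotallyBounded (univ : Set Z) := by
    apply Metric.totallyBounded_of_finite_discretization
    intro τ hτ
    obtain ⟨C0, hC0, hnear⟩ := near_exists hd hδ
    -- choice of the depth
    have hlim : Tendsto (fun n : ℕ => C * Real.exp (-((n : ℝ) - 3 * C0)) ^ ε) atTop (𝓝 0) := by
      have h1 : Tendsto (fun n : ℕ => Real.exp (-(ε * ((n : ℝ) - 3 * C0)))) atTop (𝓝 0) := by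
        apply Real.tendsto_exp_neg_atTop_nhds_zero.comp
        apply Tendsto.const_mul_atTop hε
        exact tendsto_atTop_add_const_right _ _ tendsto_natCast_atTop_atTop
      have h2 := h1.const_mul C
      rw [mul_zero] at h2
      refine h2.congr fun n => ?_
      rw [← Real.exp_mul]
      congr 2
      ring
    obtain ⟨n, hn⟩ := (hlim.eventually (gt_mem_nhds hτ)).exists
    have hs : ∀ z : Z, ∃ s : G, |d 1 s - n| ≤ C0 ∧ ∀ᶠ j in atTop, gp d s 1 ((us z).1 j) ≤ C0 :=
      fun z => hnear 1 (us z).1 (us z).2 n (Nat.cast_nonneg n)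
    choose s hs1 hs2 using hs
    have hfin : Set.Finite {g : G | d 1 g ≤ n + C0} := hf _
    refine ⟨{g : G | d 1 g ≤ n + C0}, hfin.fintype,
      fun z => ⟨s z.1, by
        have := abs_le.1 (hs1 z.1)
        show d 1 (s z.1) ≤ n + C0
        linarith⟩, ?_⟩
    rintro ⟨x, hx'⟩ ⟨y, hy'⟩ hxy
    have hxy : s x = s y := congrArg Subtype.val hxy
    have h1 := near_shadow hd (g := (1 : G)) (hs2 x) (by rw [hxy]; exact hs2 y)
    have h2 := (hcmp (us x) (us y)).2
    rw [hus, hus] at h2
    have h3 : DD d 1 (us x).1 (us y).1 ≤ Real.exp (-((n : ℝ) - 3 * C0)) := by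
      refine h1.trans (Real.exp_le_exp.2 ?_)
      have := abs_le.1 (hs1 x)
      linarith
    have h4 : DD d 1 (us x).1 (us y).1 ^ ε ≤ Real.exp (-((n : ℝ) - 3 * C0)) ^ ε :=
      Real.rpow_le_rpow (DD_nonneg hd _ _ _) h3 hε.le
    calc dist x y ≤ C * DD d 1 (us x).1 (us y).1 ^ ε := h2
      _ ≤ C * Real.exp (-((n : ℝ) - 3 * C0)) ^ ε := by gcongr
      _ < τ := hn
  -- complete
  have hcomp : CompleteSpace Z := by
    refine Metric.complete_of_convergent_controlled_sequences
      (fun N : ℕ => C⁻¹ * Real.exp (-(N : ℝ)) ^ ε) (fun N => by positivity) ?_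
    intro z hz
    set u : ℕ → ℕ → G := fun k => (us (z k)).1 with hu
    have huc : ∀ k, Conv d (u k) := fun k => (us (z k)).2
    have hDD : ∀ n m : ℕ, DD d 1 (u n) (u m) < Real.exp (-((min n m : ℕ) : ℝ)) := by
      intro n m
      have h1 := hz (min n m) n m (min_le_left _ _) (min_le_right _ _)
      have h2 := (hcmp (us (z n)) (us (z m))).1
      rw [hus, hus] at h2
      have h3 : C⁻¹ * DD d 1 (u n) (u m) ^ ε < C⁻¹ * Real.exp (-((min n m : ℕ) : ℝ)) ^ ε :=
        lt_of_le_of_lt h2 h1
      have h4 : DD d 1 (u n) (u m) ^ ε < Real.exp (-((min n m : ℕ) : ℝ)) ^ ε :=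
        lt_of_mul_lt_mul_left h3 (by positivity)
      exact (Real.rpow_lt_rpow_iff (DD_nonneg hd _ _ _) (Real.exp_pos _).le hε).1 h4
    have hM : ∀ n m : ℕ, ∃ M : ℕ, ∀ i ≥ M, ∀ j ≥ M,
        ((min n m : ℕ) : ℝ) < gp d 1 (u n i) (u m j) := by
      intro n m
      have := eventually_of_DD_lt hd (hDD n m)
      rw [← prod_atTop_atTop_eq] at this
      obtain ⟨pa, hpa, pb, hpb, hab⟩ := eventually_prod_iff.1 this
      obtain ⟨a, ha⟩ := eventually_atTop.1 hpa
      obtain ⟨b, hb⟩ := eventually_atTop.1 hpb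
      exact ⟨max a b, fun i hi j hj => hab (ha i (le_trans (le_max_left _ _) hi))
        (hb j (le_trans (le_max_right _ _) hj))⟩
    choose M hM using hM
    set J : ℕ → ℕ := fun k => ∑ l ∈ Finset.range (k + 1), M l k with hJ
    have hJM : ∀ l k, l ≤ k → M l k ≤ J k := fun l k hlk =>
      Finset.single_le_sum (f := fun l => M l k) (fun _ _ => Nat.zero_le _)
        (Finset.mem_range.2 (by omega))
    set g : ℕ → G := fun k => u k (J k) with hg
    have hgg0 : ∀ l k : ℕ, l ≤ k → (l : ℝ) - δ ≤ gp d 1 (g l) (g k) := by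
      intro l k hlk
      set q := max (J l) (M l k) with hq
      have a1 := hM l l (J l) (hJM l l le_rfl) q ((hJM l l le_rfl).trans (le_max_left _ _))
      have a2 := hM l k q (le_max_right _ _) (J k) (hJM l k hlk)
      have a3 := hδ 1 (g l) (u l q) (g k)
      rw [min_self] at a1
      rw [min_eq_left hlk] at a2
      have a4 : (l : ℝ) ≤ min (gp d 1 (g l) (u l q)) (gp d 1 (u l q) (g k)) :=
        le_min a1.le a2.le
      linarith
    have hgg : ∀ l k : ℕ, ((min l k : ℕ) : ℝ) - δ ≤ gp d 1 (g l) (g k) := by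
      intro l k
      rcases le_total l k with h | h
      · rw [min_eq_left h]; exact hgg0 l k h
      · rw [min_eq_right h, gp_symm hd]; exact hgg0 k l h
    have hminlim : Tendsto (fun p : ℕ × ℕ => ((min p.1 p.2 : ℕ) : ℝ)) atTop atTop := by
      refine tendsto_natCast_atTop_atTop.comp ?_
      rw [← prod_atTop_atTop_eq]
      refine tendsto_atTop.2 fun b => ?_
      refine eventually_prod_iff.2 ⟨fun i => b ≤ i, eventually_ge_atTop _,
          fun j => b ≤ j, eventually_ge_atTop _, fun {i} hi {j} hj => le_min hi hj⟩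
    have hconv : Conv d g := by
      intro o
      refine tendsto_atTop_mono (fun p : ℕ × ℕ => ?_)
        (tendsto_atTop_add_const_right _ (-δ - d 1 o) hminlim)
      have h1 := hgg p.1 p.2
      have h2 := gp_base hd 1 o (g p.1) (g p.2)
      linarith
    refine ⟨bd ⟨g, hconv⟩, ?_⟩
    rw [tendsto_iff_dist_tendsto_zero]
    have hbound : ∀ k : ℕ, dist (z k) (bd ⟨g, hconv⟩) ≤
        C * Real.exp (-((k : ℝ) - 2 * |δ|)) ^ ε := by
      intro k
      have h1 := (hcmp (us (z k)) ⟨g, hconv⟩).2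
      rw [hus] at h1
      refine h1.trans ?_
      have h2 : DD d 1 (u k) g ≤ Real.exp (-((k : ℝ) - 2 * |δ|)) := by
        apply DD_le_of_eventually
        rw [← prod_atTop_atTop_eq]
        refine eventually_prod_iff.2 ⟨fun i => M k k ≤ i, eventually_ge_atTop _,
          fun j => k ≤ j, eventually_ge_atTop _, fun {i} hi {j} hj => ?_⟩
        have a1 := hM k k i hi (J k) (hJM k k le_rfl)
        rw [min_self] at a1
        have a2 := hgg0 k j hj
        have a3 := hδ 1 (u k i) (g k) (g j)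
        have a4 : (k : ℝ) - |δ| ≤ min (gp d 1 (u k i) (g k)) (gp d 1 (g k) (g j)) := by
          have := le_abs_self δ
          have := abs_nonneg δ
          exact le_min (by linarith) (by linarith)
        have := le_abs_self δ
        simp only
        linarith
      have h3 : DD d 1 (u k) g ^ ε ≤ Real.exp (-((k : ℝ) - 2 * |δ|)) ^ ε :=
        Real.rpow_le_rpow (DD_nonneg hd _ _ _) h2 hε.le
      gcongr
    refine squeeze_zero (fun k => dist_nonneg) hbound ?_
    have h1 : Tendsto (fun n : ℕ => Real.exp (-(ε * ((n : ℝ) - 2 * |δ|)))) atTop (𝓝 0) := by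
      apply Real.tendsto_exp_neg_atTop_nhds_zero.comp
      apply Tendsto.const_mul_atTop hε
      exact tendsto_atTop_add_const_right _ _ tendsto_natCast_atTop_atTop
    have h2 := h1.const_mul C
    rw [mul_zero] at h2
    refine h2.congr fun n => ?_
    rw [← Real.exp_mul]
    congr 2
    ring
  exact ⟨isCompact_iff_totallyBounded_isComplete.2 ⟨htb, completeSpace_iff_isComplete_univ.1 hcomp⟩⟩

end Pool.Agent.KlCD94
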