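import Pool.Agent.KlCD94.Near

/-!
# Contraction and minimality of the boundary action
-/

open Set Filter Topology

namespace Pool.Agent.KlCD94

namespace Contract

variable {G : Type} [Group G] {d : G → G → ℝ} {R δ : ℝ}

theorem dist_inv (hl : LeftInv d) (hd : IsRG d R) (h : G) : d 1 h⁻¹ = d 1 h := by
  have := hl h 1 h⁻¹
  rw [mul_one, mul_inv_cancel] at this
  rw [← this]; exact hd.symm _ _

/-- action formula -/
theorem gp_act (hd : IsRG d R) (hl : LeftInv d) (h x : G) :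
    gp d 1 h (h * x) = d 1 h - gp d 1 h⁻¹ x := by
  have e1 := dist_inv hl hd h
  have e2 : d h⁻¹ x = d 1 (h * x) := by
    have := hl h h⁻¹ x
    rw [mul_inv_cancel] at this
    exact this.symm
  have e3 : d h (h * x) = d 1 x := by
    have := hl h 1 x
    rw [mul_one] at this
    exact this
  unfold gp
  rw [e1, e2, e3]; ring

theorem gp_flip (hd : IsRG d R) (o s x : G) : gp d o s x = d o s - gp d s o x := by
  have := hd.symm s o
  unfold gp; linarith

theorem gp_move (hd : IsRG d R) (o h h' x : G) : gp d o h x - d h h' ≤ gp d o h' x := by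
  have h1 := hd.tri o h' h
  have h2 := hd.tri h' h x
  have h3 := hd.symm h h'
  unfold gp; linarith

theorem gp_shift (hd : IsRG d R) (hl : LeftInv d) (f x y : G) :
    gp d 1 x y - d 1 f ≤ gp d 1 (f * x) (f * y) := by
  have h1 := gp_left hl f f⁻¹ x y
  rw [mul_inv_cancel] at h1
  rw [h1]
  have h2 := gp_base hd 1 f⁻¹ x y
  rw [dist_inv hl hd] at h2
  linarith

/-- stability -/
theorem stab (hd : IsRG d R) (hδ : Hyp d δ) {u : ℕ → G} (hu : Conv d u) {x : G} {K : ℝ}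
    (h : ∃ᶠ j in atTop, gp d 1 x (u j) ≤ K) : ∀ᶠ j in atTop, gp d 1 x (u j) ≤ K + |δ| := by
  have h1 : ∀ᶠ p : ℕ × ℕ in atTop, K + |δ| + 1 ≤ gp d 1 (u p.1) (u p.2) :=
    (hu 1).eventually_ge_atTop _
  rw [← prod_atTop_atTop_eq] at h1
  obtain ⟨pa, hpa, pb, hpb, hab⟩ := eventually_prod_iff.1 h1
  obtain ⟨j', hj'1, hj'2⟩ := (h.and_eventually hpb).exists
  filter_upwards [hpa] with j hj
  have i1 := hab hj hj'2
  simp only at i1
  have i2 := hδ 1 x (u j) (u j')
  have hδ' := le_abs_self δ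
  by_contra hcon
  push Not at hcon
  have : K + |δ| < min (gp d 1 x (u j)) (gp d 1 (u j) (u j')) := by
    apply lt_min hcon; linarith
  linarith

theorem dicho (hd : IsRG d R) (hδ : Hyp d δ) {u : ℕ → G} (hu : Conv d u) (x : G) (K : ℝ) :
    (∀ᶠ j in atTop, gp d 1 x (u j) ≤ K + |δ|) ∨ ∀ᶠ j in atTop, K < gp d 1 x (u j) := by
  by_cases h : ∃ᶠ j in atTop, gp d 1 x (u j) ≤ K
  · exact Or.inl (stab hd hδ hu h)
  · right
    rw [not_frequently] at h
    filter_upwards [h] with j hj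
    exact not_le.1 hj

theorem far_of_close (hd : IsRG d R) (hδ : Hyp d δ) {u v : ℕ → G} (hv : Conv d v) {x : G}
    {κ' : ℝ} (hx : ∀ᶠ j in atTop, κ' + |δ| < gp d 1 x (u j)) (huv : Real.exp (-κ') < DD d 1 u v) :
    ∀ᶠ j in atTop, gp d 1 x (v j) ≤ κ' + 2 * |δ| := by
  have h1 := frequently_of_lt_DD huv
  have h2 : ∀ᶠ p : ℕ × ℕ in atTop, κ' + |δ| < gp d 1 x (u p.1) := by
    rw [← prod_atTop_atTop_eq]; exact hx.prod_inl _
  have hδ' := le_abs_self δ
  have h3 : ∃ᶠ p : ℕ × ℕ in atTop, gp d 1 x (v p.2) ≤ κ' + |δ| := by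
    refine (h1.and_eventually h2).mono ?_
    rintro p ⟨hp1, hp2⟩
    have i1 := hδ 1 (u p.1) x (v p.2)
    have i2 := gp_symm hd 1 (u p.1) x
    rcases le_total (gp d 1 (u p.1) x) (gp d 1 x (v p.2)) with h | h
    · rw [min_eq_left h] at i1
      exfalso; linarith
    · rw [min_eq_right h] at i1
      linarith
  have hsnd : Tendsto (fun p : ℕ × ℕ => p.2) atTop atTop := by
    rw [← prod_atTop_atTop_eq]; exact tendsto_snd
  have h4 : ∃ᶠ j in atTop, gp d 1 x (v j) ≤ κ' + |δ| := hsnd.frequently h3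
  have h5 := stab hd hδ hv h4
  refine h5.mono fun j hj => ?_
  linarith

/-- `h` maps points away from `h⁻¹` close to the direction `w` if `h` is near `w`. -/
theorem target (hd : IsRG d R) (hl : LeftInv d) (hδ : Hyp d δ) {w u : ℕ → G} {h : G} {a K : ℝ}
    (hw : ∀ᶠ j in atTop, a ≤ gp d 1 h (w j)) (hu : ∀ᶠ j in atTop, gp d 1 h⁻¹ (u j) ≤ K)
    (hK : a ≤ d 1 h - K) : DD d 1 w (fun i => h * u i) ≤ Real.exp (-(a - |δ|)) := by
  apply DD_le_of_eventually
  have b1 : ∀ᶠ p : ℕ × ℕ in atTop, a ≤ gp d 1 h (w p.1) := by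
    rw [← prod_atTop_atTop_eq]; exact hw.prod_inl _
  have b2 : ∀ᶠ p : ℕ × ℕ in atTop, gp d 1 h⁻¹ (u p.2) ≤ K := by
    rw [← prod_atTop_atTop_eq]; exact hu.prod_inr _
  filter_upwards [b1, b2] with p hp1 hp2
  have i1 := hδ 1 (w p.1) h (h * u p.2)
  have i2 := gp_act hd hl h (u p.2)
  have i3 := gp_symm hd 1 (w p.1) h
  have hδ' := le_abs_self δ
  have : a ≤ min (gp d 1 (w p.1) h) (gp d 1 h (h * u p.2)) := by
    apply le_min <;> linarith
  linarith

/-- The two candidates `h0` and `h0 * f⁻¹`. -/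
theorem two_cand (hd : IsRG d R) (hl : LeftInv d) (hδ : Hyp d δ) {C N : ℝ} {w : ℕ → G} {h0 f : G}
    (hs : |d 1 h0 - N| ≤ C) (hnear : ∀ᶠ j in atTop, gp d h0 1 (w j) ≤ C) :
    (∀ᶠ j in atTop, N - 2 * C ≤ gp d 1 h0 (w j)) ∧
    (∀ᶠ j in atTop, N - 2 * C - d 1 f ≤ gp d 1 (h0 * f⁻¹) (w j)) ∧
    d 1 (h0 * f⁻¹) ≤ N + C + d 1 f ∧ N - C - d 1 f ≤ d 1 (h0 * f⁻¹) := by
  have hb := abs_le.1 hs
  have e1 : d h0 (h0 * f⁻¹) = d 1 f := by
    have := hl h0 1 f⁻¹
    rw [mul_one] at this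
    rw [this, dist_inv hl hd]
  refine ⟨?_, ?_, ?_, ?_⟩
  · filter_upwards [hnear] with j hj
    have := gp_flip hd 1 h0 (w j)
    linarith
  · filter_upwards [hnear] with j hj
    have h1 := gp_flip hd 1 h0 (w j)
    have h2 := gp_move hd 1 h0 (h0 * f⁻¹) (w j)
    linarith
  · have := hd.tri 1 h0 (h0 * f⁻¹)
    linarith
  · have := hd.tri 1 (h0 * f⁻¹) h0
    have := hd.symm (h0 * f⁻¹) h0
    linarith

end Contract

open Contract

theorem contract {G : Type} [Group G] {d : G → G → ℝ} {R δ : ℝ}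
    (hd : IsRG d R) (hl : LeftInv d) (hf : FinBalls d) (hδ : Hyp d δ)
    (w0 : ℕ → G) (hw0 : Conv d w0) (f0 : G) (hmove : 0 < DD d 1 w0 (fun i => f0 * w0 i)) :
    ∃ κ > 0, ∀ τ > 0, ∃ F : Finset G, ∀ w : ℕ → G, Conv d w → ∃ h ∈ F,
      ∀ u : ℕ → G, Conv d u → DD d 1 w0 u ≤ κ → DD d 1 w (fun i => h * u i) ≤ τ := by
  obtain ⟨C, hC0, hnear⟩ := near_exists hd hδ
  have hδ0 := abs_nonneg δ
  have hδ' := le_abs_self δ
  have hf00 := hd.nonneg 1 f0
  set θ0 : ℝ := DD d 1 w0 (fun i => f0 * w0 i) with hθ0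
  set E : ℝ := Real.exp |δ| with hE
  have hE1 : 1 ≤ E := Real.one_le_exp hδ0
  have hE0 : 0 < E := Real.exp_pos _
  have hEδ : Real.exp δ ≤ E := Real.exp_le_exp.2 hδ'
  set F0 : ℝ := Real.exp (d 1 f0) with hF0
  have hF01 : 1 ≤ F0 := Real.one_le_exp hf00
  set κ : ℝ := θ0 / (2 * E ^ 2 * F0) with hκ
  have hκpos : 0 < κ := by positivity
  have hκ1 : E ^ 2 * F0 * κ < θ0 := by
    have : E ^ 2 * F0 * κ = θ0 / 2 := by rw [hκ]; field_simp
    rw [this]; linarith
  have hult : ∀ u v w : ℕ → G, DD d 1 u w ≤ E * max (DD d 1 u v) (DD d 1 v w) := by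
    intro u v w
    refine (DD_ultra hd hδ 1 u v w).trans ?_
    exact mul_le_mul_of_nonneg_right hEδ (le_max_of_le_left (DD_nonneg hd _ _ _))
  have htr : ∀ a b : ℕ → G, DD d 1 (fun i => f0 * a i) (fun i => f0 * b i) ≤ F0 * DD d 1 a b := by
    intro a b
    have h1 := DD_left hl f0 f0⁻¹ a b
    rw [mul_inv_cancel] at h1
    have h2 := DD_base hd 1 f0⁻¹ a b
    rw [h1]
    rw [dist_inv hl hd] at h2
    have h3 : F0 * (Real.exp (-(d 1 f0)) * DD d f0⁻¹ a b) = DD d f0⁻¹ a b := by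
      rw [hF0, ← mul_assoc, ← Real.exp_add]; simp
    rw [← h3]
    exact mul_le_mul_of_nonneg_left h2 (Real.exp_pos _).le
  -- separation of the ball and its image
  have hsep : ∀ u v : ℕ → G, DD d 1 w0 u ≤ κ → DD d 1 w0 v ≤ κ →
      θ0 / E ^ 2 ≤ DD d 1 u (fun i => f0 * v i) := by
    intro u v hu hv
    rw [div_le_iff₀ (by positivity)]
    have h1 := hult w0 u (fun i => f0 * w0 i)
    have h2 := hult u (fun i => f0 * v i) (fun i => f0 * w0 i)
    have h3 := htr v w0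
    rw [DD_symm hd 1 v w0] at h3
    have h4 : E * DD d 1 w0 u < θ0 := by
      have a1 : E * DD d 1 w0 u ≤ E * κ := mul_le_mul_of_nonneg_left hu hE0.le
      have a2 : E * κ ≤ E ^ 2 * F0 * κ := by
        apply mul_le_mul_of_nonneg_right _ hκpos.le
        nlinarith
      linarith
    rcases max_cases (DD d 1 w0 u) (DD d 1 u (fun i => f0 * w0 i)) with hm | hm
    · rw [hm.1] at h1
      exfalso; linarith
    · rw [hm.1] at h1
      have h5 : θ0 ≤ E * (E * max (DD d 1 u (fun i => f0 * v i))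
          (DD d 1 (fun i => f0 * v i) (fun i => f0 * w0 i))) :=
        h1.trans (mul_le_mul_of_nonneg_left h2 hE0.le)
      rcases max_cases (DD d 1 u (fun i => f0 * v i))
        (DD d 1 (fun i => f0 * v i) (fun i => f0 * w0 i)) with hm' | hm'
      · rw [hm'.1] at h5
        nlinarith
      · rw [hm'.1] at h5
        exfalso
        have a1 : E * (E * DD d 1 (fun i => f0 * v i) (fun i => f0 * w0 i)) ≤
            E * (E * (F0 * κ)) := by
          apply mul_le_mul_of_nonneg_left _ hE0.le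
          apply mul_le_mul_of_nonneg_left _ hE0.le
          exact h3.trans (mul_le_mul_of_nonneg_left hv (Real.exp_pos _).le)
        have a2 : E * (E * (F0 * κ)) = E ^ 2 * F0 * κ := by ring
        linarith
  set θ1 : ℝ := θ0 / E ^ 2 with hθ1
  have hθ1pos : 0 < θ1 := by positivity
  set κ' : ℝ := -Real.log θ1 + 1 with hκ'
  have hκ'1 : Real.exp (-κ') < θ1 := by
    have : -κ' = Real.log θ1 - 1 := by rw [hκ']; ring
    rw [this]
    calc Real.exp (Real.log θ1 - 1) < Real.exp (Real.log θ1) := Real.exp_lt_exp.2 (by linarith)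
      _ = θ1 := Real.exp_log hθ1pos
  refine ⟨κ, hκpos, ?_⟩
  intro τ hτ
  set K' : ℝ := κ' + |δ| + d 1 f0 with hK'
  obtain ⟨N, hN0, hN⟩ : ∃ N : ℝ, 0 ≤ N ∧
      -Real.log τ + 2 * C + d 1 f0 + 4 * |δ| + |K'| + |κ'| ≤ N := by
    refine ⟨max 0 (-Real.log τ + 2 * C + d 1 f0 + 4 * |δ| + |K'| + |κ'|), le_max_left _ _,
      le_max_right _ _⟩
  have hK'a := le_abs_self K'
  have hκ'a := le_abs_self κ'
  have hK'b := abs_nonneg K'
  have hκ'b := abs_nonneg κ'
  have hfin : ∀ a : ℝ, -Real.log τ ≤ a → Real.exp (-a) ≤ τ := by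
    intro a ha
    calc Real.exp (-a) ≤ Real.exp (Real.log τ) := Real.exp_le_exp.2 (by linarith)
      _ = τ := Real.exp_log hτ
  refine ⟨(hf (N + C + d 1 f0)).toFinset, ?_⟩
  intro w hw
  obtain ⟨h0, hs, hnw⟩ := hnear 1 w hw N hN0
  obtain ⟨c1, c2, c3, c4⟩ := two_cand (f := f0) hd hl hδ hs hnw
  have hsb := abs_le.1 hs
  by_cases hcase : ∀ u : ℕ → G, Conv d u → DD d 1 w0 u ≤ κ →
      ∀ᶠ j in atTop, gp d 1 h0⁻¹ (u j) ≤ K' + |δ|
  · refine ⟨h0, ?_, ?_⟩
    · simp only [Set.Finite.mem_toFinset]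
      show d 1 h0 ≤ N + C + d 1 f0
      linarith
    · intro u hu huκ
      have h1 := target (a := N - 2 * C - |δ| - |K'|) hd hl hδ
        (c1.mono fun j hj => by linarith) (hcase u hu huκ) (by linarith)
      exact h1.trans (hfin _ (by linarith))
  · push Not at hcase
    obtain ⟨u, hu, huκ, hnot⟩ := hcase
    have hdeep : ∀ᶠ j in atTop, K' < gp d 1 h0⁻¹ (u j) := by
      rcases dicho hd hδ hu h0⁻¹ K' with h | h
      · obtain ⟨j, a1, a2⟩ := (hnot.and_eventually h).exists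
        exact absurd a1 (not_lt.2 a2)
      · exact h
    have hdeep' : ∀ᶠ j in atTop, κ' + |δ| < gp d 1 (f0 * h0⁻¹) (f0 * u j) := by
      filter_upwards [hdeep] with j hj
      have := gp_shift hd hl f0 h0⁻¹ (u j)
      linarith
    refine ⟨h0 * f0⁻¹, ?_, ?_⟩
    · simp only [Set.Finite.mem_toFinset]
      show d 1 (h0 * f0⁻¹) ≤ N + C + d 1 f0
      exact c3
    · intro v hv hvκ
      have h1 : Real.exp (-κ') < DD d 1 (fun i => f0 * u i) v := by
        rw [DD_symm hd]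
        exact lt_of_lt_of_le hκ'1 (hsep v u hvκ huκ)
      have h2 := far_of_close hd hδ hv hdeep' h1
      have h3 : (h0 * f0⁻¹)⁻¹ = f0 * h0⁻¹ := by group
      have h4 := target (a := N - 2 * C - d 1 f0 - 2 * |δ| - |κ'|) (h := h0 * f0⁻¹) hd hl hδ
        (c2.mono fun j hj => by linarith) (by rw [h3]; exact h2) (by linarith)
      exact h4.trans (hfin _ (by linarith))

theorem minimal {G : Type} [Group G] {d : G → G → ℝ} {R δ : ℝ}
    (hd : IsRG d R) (hl : LeftInv d) (hf : FinBalls d) (hδ : Hyp d δ)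
    (w0 w : ℕ → G) (hw0 : Conv d w0) (hw : Conv d w) (f : G)
    (hmove : 0 < DD d 1 w (fun i => f * w i)) (τ : ℝ) (hτ : 0 < τ) :
    ∃ h : G, DD d 1 w0 (fun i => h * w i) ≤ τ := by
  obtain ⟨C, hC0, hnear⟩ := near_exists hd hδ
  have hδ0 := abs_nonneg δ
  have hδ' := le_abs_self δ
  have hf00 := hd.nonneg 1 f
  set θ1 : ℝ := DD d 1 w (fun i => f * w i) with hθ1
  set κ' : ℝ := -Real.log θ1 + 1 with hκ'
  have hκ'1 : Real.exp (-κ') < θ1 := by
    have : -κ' = Real.log θ1 - 1 := by rw [hκ']; ring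
    rw [this]
    calc Real.exp (Real.log θ1 - 1) < Real.exp (Real.log θ1) := Real.exp_lt_exp.2 (by linarith)
      _ = θ1 := Real.exp_log hmove
  set K' : ℝ := κ' + |δ| + d 1 f with hK'
  obtain ⟨N, hN0, hN⟩ : ∃ N : ℝ, 0 ≤ N ∧
      -Real.log τ + 2 * C + d 1 f + 4 * |δ| + |K'| + |κ'| ≤ N := by
    refine ⟨max 0 (-Real.log τ + 2 * C + d 1 f + 4 * |δ| + |K'| + |κ'|), le_max_left _ _,
      le_max_right _ _⟩
  have hK'a := le_abs_self K'
  have hκ'a := le_abs_self κ'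
  have hK'b := abs_nonneg K'
  have hκ'b := abs_nonneg κ'
  have hfin : ∀ a : ℝ, -Real.log τ ≤ a → Real.exp (-a) ≤ τ := by
    intro a ha
    calc Real.exp (-a) ≤ Real.exp (Real.log τ) := Real.exp_le_exp.2 (by linarith)
      _ = τ := Real.exp_log hτ
  obtain ⟨h0, hs, hnw⟩ := hnear 1 w0 hw0 N hN0
  obtain ⟨c1, c2, c3, c4⟩ := two_cand (f := f) hd hl hδ hs hnw
  have hsb := abs_le.1 hs
  rcases dicho hd hδ hw h0⁻¹ K' with h | h
  · refine ⟨h0, ?_⟩
    have h1 := target (a := N - 2 * C - |δ| - |K'|) hd hl hδ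
      (c1.mono fun j hj => by linarith) h (by linarith)
    exact h1.trans (hfin _ (by linarith))
  · have hdeep' : ∀ᶠ j in atTop, κ' + |δ| < gp d 1 (f * h0⁻¹) (f * w j) := by
      filter_upwards [h] with j hj
      have := gp_shift hd hl f h0⁻¹ (w j)
      linarith
    refine ⟨h0 * f⁻¹, ?_⟩
    have h1 : Real.exp (-κ') < DD d 1 (fun i => f * w i) w := by
      rw [DD_symm hd]
      exact hκ'1
    have h2 := far_of_close hd hδ hw hdeep' h1
    have h3 : (h0 * f⁻¹)⁻¹ = f * h0⁻¹ := by group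
    have h4 := target (a := N - 2 * C - d 1 f - 2 * |δ| - |κ'|) (h := h0 * f⁻¹) hd hl hδ
      (c2.mono fun j hj => by linarith) (by rw [h3]; exact h2) (by linarith)
    exact h4.trans (hfin _ (by linarith))

end Pool.Agent.KlCD94
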