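import Pool.Agent.KlCD94.Base

/-!
# Products at infinity and points on the way to infinity
-/

open Set Filter Topology

namespace Pool.Agent.KlCD94

section basic
variable {G : Type} {d : G → G → ℝ} {R δ : ℝ}

theorem IsRG.nonneg (hd : IsRG d R) (x y : G) : 0 ≤ d x y := by
  have h1 := hd.tri x y x
  have h2 := hd.self x
  have h3 := hd.symm x y
  linarith

theorem IsRG.R_nonneg (hd : IsRG d R) (x : G) : 0 ≤ R := by
  obtain ⟨γ, _, _, h⟩ := hd.rough x x
  have := h 0 ⟨le_refl _, hd.nonneg _ _⟩ 0 ⟨le_refl _, hd.nonneg _ _⟩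
  exact le_trans (abs_nonneg _) this

theorem gp_nonneg (hd : IsRG d R) (o x y : G) : 0 ≤ gp d o x y := by
  have h1 := hd.tri x o y
  have h2 := hd.symm x o
  unfold gp
  linarith

theorem gp_symm (hd : IsRG d R) (o x y : G) : gp d o x y = gp d o y x := by
  have h1 := hd.symm x y
  unfold gp
  linarith

theorem gp_base (hd : IsRG d R) (o s x y : G) : gp d o x y ≤ d o s + gp d s x y := by
  have h1 := hd.tri o s x
  have h2 := hd.tri o s y
  unfold gp
  linarith

theorem gp_identity (hd : IsRG d R) (o s x y : G) :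
    gp d o x y = d o s - gp d s o x - gp d s o y + gp d s x y := by
  have h1 := hd.symm s o
  unfold gp
  linarith

theorem gp_le_dist (hd : IsRG d R) (o x y : G) : gp d o x y ≤ d o x := by
  have h1 := hd.tri o x y
  unfold gp
  linarith

theorem gp_le_dist' (hd : IsRG d R) (o x y : G) : gp d o x y ≤ d o y := by
  rw [gp_symm hd]; exact gp_le_dist hd o y x

theorem gp_left [Group G] (hl : LeftInv d) (k o x y : G) :
    gp d (k * o) (k * x) (k * y) = gp d o x y := by
  unfold gp
  rw [hl, hl, hl]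

end basic

section DD
variable {G : Type} {d : G → G → ℝ} {R δ : ℝ}

theorem exp_bdd (hd : IsRG d R) (g : G) (u v : ℕ → G) (p : ℕ × ℕ) :
    Real.exp (-(gp d g (u p.1) (v p.2))) ≤ 1 := by
  rw [Real.exp_le_one_iff]
  have := gp_nonneg hd g (u p.1) (v p.2)
  linarith

theorem isBddU (hd : IsRG d R) (g : G) (u v : ℕ → G) :
    IsBoundedUnder (· ≤ ·) atTop (fun p : ℕ × ℕ => Real.exp (-(gp d g (u p.1) (v p.2)))) :=
  isBoundedUnder_of ⟨1, fun p => exp_bdd hd g u v p⟩

theorem isCobddU (g : G) (u v : ℕ → G) :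
    IsCoboundedUnder (· ≤ ·) atTop (fun p : ℕ × ℕ => Real.exp (-(gp d g (u p.1) (v p.2)))) :=
  IsBoundedUnder.isCoboundedUnder_le (isBoundedUnder_of ⟨0, fun p => (Real.exp_pos _).le⟩)

theorem DD_nonneg (hd : IsRG d R) (g : G) (u v : ℕ → G) : 0 ≤ DD d g u v := by
  unfold DD
  apply le_limsup_of_frequently_le _ (isBddU hd g u v)
  exact Eventually.frequently (Eventually.of_forall fun p => (Real.exp_pos _).le)

theorem DD_le_of_eventually {g : G} {u v : ℕ → G} {c : ℝ}
    (h : ∀ᶠ p : ℕ × ℕ in atTop, c ≤ gp d g (u p.1) (v p.2)) : DD d g u v ≤ Real.exp (-c) := by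
  unfold DD
  apply limsup_le_of_le (isCobddU g u v)
  filter_upwards [h] with p hp
  exact Real.exp_le_exp.2 (by linarith)

theorem le_DD_of_frequently (hd : IsRG d R) {g : G} {u v : ℕ → G} {c : ℝ}
    (h : ∃ᶠ p : ℕ × ℕ in atTop, gp d g (u p.1) (v p.2) ≤ c) : Real.exp (-c) ≤ DD d g u v := by
  unfold DD
  apply le_limsup_of_frequently_le _ (isBddU hd g u v)
  exact h.mono fun p hp => Real.exp_le_exp.2 (by linarith)

theorem eventually_of_DD_lt (hd : IsRG d R) {g : G} {u v : ℕ → G} {c : ℝ}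
    (h : DD d g u v < Real.exp (-c)) : ∀ᶠ p : ℕ × ℕ in atTop, c < gp d g (u p.1) (v p.2) := by
  unfold DD at h
  have := eventually_lt_of_limsup_lt h (isBddU hd g u v)
  filter_upwards [this] with p hp
  have := Real.exp_lt_exp.1 hp
  linarith

theorem frequently_of_lt_DD {g : G} {u v : ℕ → G} {c : ℝ}
    (h : Real.exp (-c) < DD d g u v) : ∃ᶠ p : ℕ × ℕ in atTop, gp d g (u p.1) (v p.2) < c := by
  unfold DD at h
  have := frequently_lt_of_lt_limsup (isCobddU g u v) h
  refine this.mono fun p hp => ?_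
  have := Real.exp_lt_exp.1 hp
  linarith

theorem DD_le_one (hd : IsRG d R) (g : G) (u v : ℕ → G) : DD d g u v ≤ 1 := by
  have : DD d g u v ≤ Real.exp (-0) :=
    DD_le_of_eventually (Eventually.of_forall fun p => gp_nonneg hd _ _ _)
  simpa using this

theorem swap_atTop : Tendsto (Prod.swap : ℕ × ℕ → ℕ × ℕ) atTop atTop := by
  rw [← prod_atTop_atTop_eq]
  exact tendsto_prod_swap

theorem DD_symm (hd : IsRG d R) (g : G) (u v : ℕ → G) : DD d g u v = DD d g v u := by
  have key : ∀ u v : ℕ → G, DD d g u v ≤ DD d g v u := by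
    intro u v
    apply le_of_forall_gt
    intro c hc
    have hc0 : 0 < c := lt_of_le_of_lt (DD_nonneg hd g v u) hc
    obtain ⟨c', hc1, hc2⟩ := exists_between hc
    have hc'0 : 0 < c' := lt_of_le_of_lt (DD_nonneg hd g v u) hc1
    have e1 : c' = Real.exp (-(-Real.log c')) := by rw [neg_neg, Real.exp_log hc'0]
    rw [e1] at hc1
    have h1 := eventually_of_DD_lt hd hc1
    have h2 := swap_atTop.eventually h1
    have h3 : DD d g u v ≤ Real.exp (-(-Real.log c')) := by
      apply DD_le_of_eventually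
      filter_upwards [h2] with p hp
      rw [gp_symm hd]
      exact hp.le
    rw [← e1] at h3
    exact lt_of_le_of_lt h3 hc2
  exact le_antisymm (key u v) (key v u)

/-- Exact change of base point. -/
theorem DD_base (hd : IsRG d R) (g s : G) (u v : ℕ → G) :
    Real.exp (-(d g s)) * DD d s u v ≤ DD d g u v := by
  by_contra hcon
  push Not at hcon
  have hpos : 0 < Real.exp (-(d g s)) * DD d s u v :=
    lt_of_le_of_lt (DD_nonneg hd g u v) hcon
  obtain ⟨c, hc1, hc2⟩ := exists_between hcon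
  have hc0 : 0 < c := lt_of_le_of_lt (DD_nonneg hd g u v) hc1
  have e1 : c = Real.exp (-(-Real.log c)) := by rw [neg_neg, Real.exp_log hc0]
  rw [e1] at hc1
  have h1 := eventually_of_DD_lt hd hc1
  have h3 : DD d s u v ≤ Real.exp (-(-Real.log c - d g s)) := by
    apply DD_le_of_eventually
    filter_upwards [h1] with p hp
    have := gp_base hd g s (u p.1) (v p.2)
    linarith
  have h4 : Real.exp (-(d g s)) * DD d s u v ≤ c := by
    calc Real.exp (-(d g s)) * DD d s u v
        ≤ Real.exp (-(d g s)) * Real.exp (-(-Real.log c - d g s)) := by gcongr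
      _ = c := by
        rw [← Real.exp_add]
        have : -(d g s) + -(-Real.log c - d g s) = Real.log c := by ring
        rw [this, Real.exp_log hc0]
  linarith

theorem DD_left [Group G] (hl : LeftInv d) (k g : G) (u v : ℕ → G) :
    DD d (k * g) (fun i => k * u i) (fun i => k * v i) = DD d g u v := by
  unfold DD
  simp only [gp_left hl]

theorem Conv_left [Group G] (hl : LeftInv d) (k : G) {u : ℕ → G} (hu : Conv d u) :
    Conv d (fun i => k * u i) := by
  intro o
  have := hu (k⁻¹ * o)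
  refine this.congr fun p => ?_
  have h := gp_left hl k (k⁻¹ * o) (u p.1) (u p.2)
  simp only [mul_inv_cancel_left] at h
  exact h.symm

theorem DD_ultra (hd : IsRG d R) (hδ : Hyp d δ) (g : G) (u v w : ℕ → G) :
    DD d g u w ≤ Real.exp δ * max (DD d g u v) (DD d g v w) := by
  by_contra hcon
  push Not at hcon
  have hexp := Real.exp_pos δ
  have h0 : max (DD d g u v) (DD d g v w) < DD d g u w / Real.exp δ := by
    rw [lt_div_iff₀ hexp]; linarith
  obtain ⟨c, hc1, hc2⟩ := exists_between h0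
  have hc0 : 0 < c := lt_of_le_of_lt (le_max_of_le_left (DD_nonneg hd g u v)) hc1
  have e1 : c = Real.exp (-(-Real.log c)) := by rw [neg_neg, Real.exp_log hc0]
  have hc1' := hc1
  rw [e1] at hc1
  have h1 := eventually_of_DD_lt hd (lt_of_le_of_lt (le_max_left _ _) hc1)
  have h2 := eventually_of_DD_lt hd (lt_of_le_of_lt (le_max_right _ _) hc1)
  rw [← prod_atTop_atTop_eq] at h1 h2
  have h3 : DD d g u w ≤ Real.exp (-(-Real.log c - δ)) := by
    apply DD_le_of_eventually
    rw [← prod_atTop_atTop_eq]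
    obtain ⟨pa, hpa, pb, hpb, hab⟩ := eventually_prod_iff.1 h1
    obtain ⟨qa, hqa, qb, hqb, hqab⟩ := eventually_prod_iff.1 h2
    obtain ⟨j, hj1, hj2⟩ := (hpb.and hqa).exists
    refine eventually_prod_iff.2 ⟨pa, hpa, qb, hqb, fun {x} hx {y} hy => ?_⟩
    have a1 := hab hx hj1
    have a2 := hqab hj2 hy
    have a3 := hδ g (u x) (v j) (w y)
    have a4 : -Real.log c ≤ min (gp d g (u x) (v j)) (gp d g (v j) (w y)) :=
      le_min a1.le a2.le
    simp only at a1 a2 ⊢
    linarith
  have h4 : Real.exp (-(-Real.log c - δ)) = c * Real.exp δ := by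
    rw [show -(-Real.log c - δ) = Real.log c + δ by ring, Real.exp_add, Real.exp_log hc0]
  rw [h4] at h3
  rw [lt_div_iff₀ hexp] at hc2
  linarith

theorem DD_self (hd : IsRG d R) (g : G) {u : ℕ → G} (hu : Conv d u) : DD d g u u = 0 := by
  apply le_antisymm _ (DD_nonneg hd g u u)
  apply le_of_forall_pos_le_add
  intro e he
  have e1 : e = Real.exp (-(-Real.log e)) := by rw [neg_neg, Real.exp_log he]
  have h : ∀ᶠ p : ℕ × ℕ in atTop, -Real.log e ≤ gp d g (u p.1) (u p.2) :=
    (hu g).eventually_ge_atTop _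
  have := DD_le_of_eventually (d := d) h
  rw [← e1] at this
  linarith

end DD

section near
variable {G : Type} {d : G → G → ℝ} {R δ : ℝ}

/-- Points on the way from `g` to a point at infinity. -/
theorem near_exists (hd : IsRG d R) (hδ : Hyp d δ) :
    ∃ C, 0 ≤ C ∧ ∀ (g : G) (u : ℕ → G), Conv d u → ∀ n : ℝ, 0 ≤ n →
      ∃ s, |d g s - n| ≤ C ∧ ∀ᶠ j in atTop, gp d s g (u j) ≤ C := by
  refine ⟨2 * |R| + |δ| + 1, by positivity, ?_⟩
  intro g u hu n hn
  have hR : 0 ≤ R := hd.R_nonneg g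
  have hRR := abs_of_nonneg hR
  have hδ' := le_abs_self δ
  have hδ0 := abs_nonneg δ
  rw [hRR]
  have h1 : ∀ᶠ p : ℕ × ℕ in atTop, n + 5 * R + |δ| + 1 ≤ gp d g (u p.1) (u p.2) :=
    (hu g).eventually_ge_atTop _
  rw [← prod_atTop_atTop_eq] at h1
  obtain ⟨pa, hpa, pb, hpb, hab⟩ := eventually_prod_iff.1 h1
  obtain ⟨i, hi⟩ := hpa.exists
  have hi' : ∀ j, pb j → n + 5 * R + |δ| + 1 ≤ gp d g (u i) (u j) := fun j hj => hab hi hj
  obtain ⟨j0, hj0⟩ := hpb.exists
  have hL : n ≤ d g (u i) := by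
    have := gp_le_dist hd g (u i) (u j0)
    have := hi' j0 hj0
    linarith
  obtain ⟨γ, hγ0, hγ1, hγ⟩ := hd.rough g (u i)
  have hdn := hd.nonneg g (u i)
  have m0 : (0 : ℝ) ∈ Icc (0 : ℝ) (d g (u i)) := ⟨le_refl _, hdn⟩
  have mL : d g (u i) ∈ Icc (0 : ℝ) (d g (u i)) := ⟨hdn, le_refl _⟩
  have mn : n ∈ Icc (0 : ℝ) (d g (u i)) := ⟨hn, hL⟩
  have a1 := abs_le.1 (hγ 0 m0 n mn)
  have a2 := abs_le.1 (hγ n mn _ mL)
  have e1 : |(0 : ℝ) - n| = n := by rw [zero_sub, abs_neg, abs_of_nonneg hn]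
  have e2 : |n - d g (u i)| = d g (u i) - n := by
    rw [abs_sub_comm, abs_of_nonneg (by linarith)]
  rw [e1] at a1
  rw [e2] at a2
  -- distances to γ n
  have b1 := hd.tri g (γ 0) (γ n)
  have b2 := hd.tri (γ 0) g (γ n)
  have b3 := hd.symm (γ 0) g
  have b4 := hd.tri (γ n) (γ (d g (u i))) (u i)
  have b5 := hd.tri (γ n) (u i) (γ (d g (u i)))
  have b6 := hd.symm (u i) (γ (d g (u i)))
  have b7 := hd.symm (γ n) g
  refine ⟨γ n, ?_, ?_⟩
  · rw [abs_le]; constructor <;> linarith
  · filter_upwards [hpb] with j hj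
    have hg := hi' j hj
    -- (g|u i)_s small
    have c1 : gp d (γ n) g (u i) ≤ R := by
      unfold gp; linarith
    have c2 := hδ (γ n) g (u j) (u i)
    have c3 := gp_base hd g (γ n) (u i) (u j)
    have c4 : gp d (γ n) (u j) (u i) = gp d (γ n) (u i) (u j) := gp_symm hd _ _ _
    rcases le_total (gp d (γ n) g (u j)) (gp d (γ n) (u j) (u i)) with h | h
    · rw [min_eq_left h] at c2
      linarith
    · rw [min_eq_right h] at c2
      exfalso
      linarith

/-- If `s` is on the way from `g` to `u` at distance `n` and `u`, `v` branch before `n`, then they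
are far apart as seen from `s`. -/
theorem near_branch (hd : IsRG d R) (hδ : Hyp d δ) {C : ℝ} {g s : G} {u v : ℕ → G} {n : ℝ}
    (hs : |d g s - n| ≤ C) (hnear : ∀ᶠ j in atTop, gp d s g (u j) ≤ C)
    (hb : Real.exp (-n) ≤ DD d g u v) :
    Real.exp (-(3 * C + |δ| + 1)) ≤ DD d s u v := by
  apply le_DD_of_frequently hd
  have h1 : Real.exp (-(n + 1)) < DD d g u v :=
    lt_of_lt_of_le (Real.exp_lt_exp.2 (by linarith)) hb
  have h2 := frequently_of_lt_DD h1
  have h3 : ∀ᶠ p : ℕ × ℕ in atTop, gp d s g (u p.1) ≤ C := by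
    rw [← prod_atTop_atTop_eq]
    exact hnear.prod_inl _
  refine (h2.and_eventually h3).mono ?_
  rintro p ⟨hp1, hp2⟩
  have hC := abs_le.1 hs
  have hδ' := le_abs_self δ
  have hδ0 := abs_nonneg δ
  have i1 := gp_identity hd g s (u p.1) (v p.2)
  have i2 := hδ s g (v p.2) (u p.1)
  have i3 := gp_symm hd s (v p.2) (u p.1)
  have i4 := gp_nonneg hd s g (u p.1)
  have i5 := gp_nonneg hd s g (v p.2)
  rcases le_total (gp d s g (v p.2)) (gp d s (v p.2) (u p.1)) with h | h
  · rw [min_eq_left h] at i2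
    linarith
  · rw [min_eq_right h] at i2
    linarith

/-- Shadows are small. -/
theorem near_shadow (hd : IsRG d R) {C : ℝ} {g s : G} {u v : ℕ → G}
    (hu : ∀ᶠ j in atTop, gp d s g (u j) ≤ C) (hv : ∀ᶠ j in atTop, gp d s g (v j) ≤ C) :
    DD d g u v ≤ Real.exp (-(d g s - 2 * C)) := by
  apply DD_le_of_eventually
  have h1 : ∀ᶠ p : ℕ × ℕ in atTop, gp d s g (u p.1) ≤ C := by
    rw [← prod_atTop_atTop_eq]; exact hu.prod_inl _
  have h2 : ∀ᶠ p : ℕ × ℕ in atTop, gp d s g (v p.2) ≤ C := by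
    rw [← prod_atTop_atTop_eq]; exact hv.prod_inr _
  filter_upwards [h1, h2] with p hp1 hp2
  have i1 := gp_identity hd g s (u p.1) (v p.2)
  have i2 := gp_nonneg hd s (u p.1) (v p.2)
  linarith

/-- If `s` is on the way from `g` to `u` at distance `n` and `v` is close to `u`, then `s` is on
the way to `v`. -/
theorem near_of_close (hd : IsRG d R) (hδ : Hyp d δ) {C : ℝ} {g s : G} {u v : ℕ → G} {n : ℝ}
    (hs : |d g s - n| ≤ C) (hnear : ∀ᶠ j in atTop, gp d s g (u j) ≤ C)
    (hb : DD d g u v ≤ Real.exp (-n)) :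
    ∀ᶠ j in atTop, gp d s g (v j) ≤ 2 * C + |δ| + 1 := by
  have h1 : DD d g u v < Real.exp (-(n - 1)) :=
    lt_of_le_of_lt hb (Real.exp_lt_exp.2 (by linarith))
  have h2 := eventually_of_DD_lt hd h1
  rw [← prod_atTop_atTop_eq] at h2
  obtain ⟨pa, hpa, pb, hpb, hab⟩ := eventually_prod_iff.1 h2
  obtain ⟨i, hi1, hi2⟩ := (hpa.and hnear).exists
  filter_upwards [hpb] with j hj
  have hp := hab hi1 hj
  simp only at hp
  have hC := abs_le.1 hs
  have hδ' := le_abs_self δ
  have hδ0 := abs_nonneg δ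
  have i1 := gp_identity hd g s (u i) (v j)
  have i2 := hδ s g (v j) (u i)
  have i3 := gp_symm hd s (v j) (u i)
  have i4 := gp_nonneg hd s g (u i)
  rcases le_total (gp d s g (v j)) (gp d s (v j) (u i)) with h | h
  · rw [min_eq_left h] at i2
    linarith
  · rw [min_eq_right h] at i2
    linarith

end near

end Pool.Agent.KlCD94
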