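import Pool.Agent.KlCD94.Base

/-!
# Orbit distances, Svarc-Milnor bound, exact path metrics, word metrics (MP_0b9722_gt, Task O)
-/

open Set Filter Topology

namespace Pool.Agent.KlCD94

namespace Orbit

theorem coarse_cobounded {G X : Type} [Group G] [MetricSpace X] [MulAction G X]
    (h : IsGeometric G X) (o : X) : ∃ D : ℝ, 0 ≤ D ∧ ∀ x : X, ∃ g : G, dist x (g • o) ≤ D := by
  obtain ⟨K, hK, hcov⟩ := h.cocompact
  obtain ⟨D, hD⟩ := hK.isBounded.subset_closedBall o
  refine ⟨max D 0, le_max_right _ _, fun x => ?_⟩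
  obtain ⟨g, hg⟩ := hcov x
  refine ⟨g⁻¹, ?_⟩
  have h1 : dist (g • x) o ≤ D := Metric.mem_closedBall.mp (hD hg)
  have h2 : dist (g • x) (g • (g⁻¹ • o)) = dist x (g⁻¹ • o) := h.isometric g x (g⁻¹ • o)
  rw [smul_inv_smul] at h2
  rw [← h2]
  exact h1.trans (le_max_left _ _)

/-- chain inequality -/
theorem chain_le {G : Type} {d' : G → G → ℝ} {R' M : ℝ} (hd' : IsRG d' R') (f : ℕ → G) (n : ℕ)
    (hM : ∀ i < n, d' (f i) (f (i + 1)) ≤ M) : d' (f 0) (f n) ≤ n * M := by
  induction n with
  | zero => simp [hd'.self]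
  | succ n ih =>
    have h1 := ih (fun i hi => hM i (by omega))
    have h2 := hM n (by omega)
    have h3 := hd'.tri (f 0) (f n) (f (n + 1))
    push_cast
    linarith

/-- a geodesic-like map towards `y` -/
theorem exact_path {G : Type} [Group G] {ρ : G → G → ℝ} (hρ : IsExactGeo ρ) {M : ℝ}
    (hM0 : 0 ≤ M)
    (hM : ∀ x y, x ≠ y → ∃ z, z ≠ x ∧ ρ x z ≤ M ∧ ρ x y = ρ x z + ρ z y) (y : G) :
    ∀ (n : ℕ) (x : G), ({g : G | ρ 1 g < ρ x y}).ncard ≤ n →
    ∃ γ : ℝ → G, γ 0 = x ∧ γ (ρ x y) = y ∧
      (∀ t, 0 ≤ t → t ≤ ρ x y → ρ x (γ t) ≤ t ∧ t ≤ ρ x (γ t) + M) ∧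
      ∀ s t, 0 ≤ s → s ≤ t → t ≤ ρ x y →
        ρ x (γ s) + ρ (γ s) (γ t) + ρ (γ t) y = ρ x y := by
  intro n
  induction n with
  | zero =>
    intro x hx
    by_cases hxy : x = y
    · subst hxy
      refine ⟨fun _ => x, rfl, rfl, ?_, ?_⟩
      · intro t ht0 ht1
        rw [hρ.self] at ht1
        have : ρ x x = 0 := hρ.self x
        simp only [this]
        constructor <;> linarith
      · intro s t _ _ _
        have : ρ x x = 0 := hρ.self x
        simp only [this]; norm_num
    · exfalso
      have hfin : ({g : G | ρ 1 g < ρ x y}).Finite :=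
        (hρ.fin (ρ x y)).subset (fun g (hg : ρ 1 g < ρ x y) => hg.le)
      have h0 : ({g : G | ρ 1 g < ρ x y}) = ∅ := by
        rw [← Set.ncard_eq_zero hfin]; omega
      have h1 : (1 : G) ∈ ({g : G | ρ 1 g < ρ x y}) := by
        show ρ 1 1 < ρ x y
        rw [hρ.self]
        exact hρ.pos x y hxy
      rw [h0] at h1
      exact h1
  | succ n ih =>
    intro x hx
    by_cases hxy : x = y
    · subst hxy
      refine ⟨fun _ => x, rfl, rfl, ?_, ?_⟩
      · intro t ht0 ht1
        rw [hρ.self] at ht1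
        have : ρ x x = 0 := hρ.self x
        simp only [this]
        constructor <;> linarith
      · intro s t _ _ _
        have : ρ x x = 0 := hρ.self x
        simp only [this]; norm_num
    · obtain ⟨z, hzx, hzM, hz⟩ := hM x y hxy
      have hpos : 0 < ρ x z := hρ.pos x z (Ne.symm hzx)
      have hlt : ρ z y < ρ x y := by linarith
      have hfin : ({g : G | ρ 1 g < ρ x y}).Finite :=
        (hρ.fin (ρ x y)).subset (fun g (hg : ρ 1 g < ρ x y) => hg.le)
      have hsub : ({g : G | ρ 1 g < ρ z y}) ⊂ ({g : G | ρ 1 g < ρ x y}) := by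
        refine ⟨fun g hg => lt_trans hg hlt, fun hcon => ?_⟩
        have h1 : z⁻¹ * y ∈ ({g : G | ρ 1 g < ρ x y}) := by
          show ρ 1 (z⁻¹ * y) < ρ x y
          have := hρ.left z 1 (z⁻¹ * y)
          rw [mul_one, mul_inv_cancel_left] at this
          rw [← this]; exact hlt
        have h2 := hcon h1
        have h3 : ρ 1 (z⁻¹ * y) < ρ z y := h2
        have := hρ.left z 1 (z⁻¹ * y)
        rw [mul_one, mul_inv_cancel_left] at this
        rw [← this] at h3
        exact lt_irrefl _ h3
      have hcard : ({g : G | ρ 1 g < ρ z y}).ncard ≤ n := by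
        have := Set.ncard_lt_ncard hsub hfin
        omega
      obtain ⟨γ', h0, h1, h2, h3⟩ := ih z hcard
      have key : ∀ t, 0 ≤ t → t ≤ ρ z y →
          ρ x (γ' t) = ρ x z + ρ z (γ' t) ∧ ρ x (γ' t) + ρ (γ' t) y = ρ x y := by
        intro t ht0 ht1
        have e1 := h3 t t ht0 le_rfl ht1
        rw [hρ.self] at e1
        have e2 := hρ.tri x z (γ' t)
        have e3 := hρ.tri x (γ' t) y
        constructor <;> linarith
      refine ⟨fun t => if t < ρ x z then x else γ' (t - ρ x z), ?_, ?_, ?_, ?_⟩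
      · simp [hpos]
      · have hnn : ¬ (ρ x y < ρ x z) := by
          have : 0 ≤ ρ z y := by
            have a1 := hρ.tri z y z
            rw [hρ.self, hρ.symm y z] at a1
            linarith
          linarith
        simp only [hnn, if_false]
        have : ρ x y - ρ x z = ρ z y := by linarith
        rw [this]; exact h1
      · intro t ht0 ht1
        by_cases ht : t < ρ x z
        · simp only [ht, if_true]
          rw [hρ.self]
          constructor <;> linarith
        · simp only [ht, if_false]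
          push Not at ht
          have hk := key (t - ρ x z) (by linarith) (by linarith)
          have h2' := h2 (t - ρ x z) (by linarith) (by linarith)
          constructor
          · linarith [hk.1, h2'.1]
          · linarith [hk.1, h2'.2]
      · intro s t hs hst ht1
        by_cases ht : t < ρ x z
        · have hs' : s < ρ x z := lt_of_le_of_lt hst ht
          simp only [ht, hs', if_true]
          rw [hρ.self]; ring
        · push Not at ht
          have hk := key (t - ρ x z) (by linarith) (by linarith)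
          by_cases hs' : s < ρ x z
          · simp only [hs', if_true, not_lt.mpr ht, if_false]
            rw [hρ.self]
            linarith [hk.2]
          · push Not at hs'
            simp only [not_lt.mpr hs', not_lt.mpr ht, if_false]
            have hk' := key (s - ρ x z) (by linarith) (by linarith)
            have h3' := h3 (s - ρ x z) (t - ρ x z) (by linarith) (by linarith) (by linarith)
            linarith [hk'.1]

section word

variable {G : Type} [Group G] (S : Set G)

/-- words in the generators -/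
def IsWord (l : List G) : Prop := ∀ s ∈ l, s ∈ S ∨ s⁻¹ ∈ S

theorem wordLength_le {l : List G} (hl : IsWord S l) : wordLength S l.prod ≤ l.length :=
  Nat.sInf_le ⟨l, rfl, hl, rfl⟩

theorem isWord_nil : IsWord S [] := by intro s hs; simp at hs

theorem isWord_append {l l' : List G} (h : IsWord S l) (h' : IsWord S l') :
    IsWord S (l ++ l') := by
  intro s hs
  rcases List.mem_append.mp hs with h1 | h1
  · exact h s h1
  · exact h' s h1

theorem isWord_inv {l : List G} (h : IsWord S l) : IsWord S ((l.map (·⁻¹)).reverse) := by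
  intro s hs
  rw [List.mem_reverse, List.mem_map] at hs
  obtain ⟨a, ha, rfl⟩ := hs
  rw [inv_inv]
  exact (h a ha).symm

theorem exists_word (hgen : Subgroup.closure S = ⊤) (g : G) :
    ∃ l : List G, IsWord S l ∧ l.prod = g := by
  have hg : g ∈ Subgroup.closure S := by rw [hgen]; exact Subgroup.mem_top g
  induction hg using Subgroup.closure_induction with
  | mem x hx =>
    refine ⟨[x], ?_, by simp⟩
    intro s hs
    rw [List.mem_singleton] at hs
    subst hs
    exact Or.inl hx
  | one => exact ⟨[], isWord_nil S, rfl⟩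
  | mul x y _ _ hx hy =>
    obtain ⟨l, hl, rfl⟩ := hx
    obtain ⟨l', hl', rfl⟩ := hy
    exact ⟨l ++ l', isWord_append S hl hl', List.prod_append⟩
  | inv x _ hx =>
    obtain ⟨l, hl, rfl⟩ := hx
    exact ⟨(l.map (·⁻¹)).reverse, isWord_inv S hl, (List.prod_inv_reverse l).symm⟩

theorem exists_min_word (hgen : Subgroup.closure S = ⊤) (g : G) :
    ∃ l : List G, l.length = wordLength S g ∧ IsWord S l ∧ l.prod = g := by
  have hne : {n | ∃ l : List G, l.length = n ∧ (∀ s ∈ l, s ∈ S ∨ s⁻¹ ∈ S) ∧ l.prod = g}.Nonempty := by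
    obtain ⟨l, hl, hp⟩ := exists_word S hgen g
    exact ⟨l.length, l, rfl, hl, hp⟩
  exact Nat.sInf_mem hne

theorem wordLength_one : wordLength S (1 : G) = 0 := by
  have := wordLength_le S (isWord_nil S)
  simpa using this

theorem eq_one_of_wordLength (hgen : Subgroup.closure S = ⊤) {g : G}
    (hg : wordLength S g = 0) : g = 1 := by
  obtain ⟨l, hlen, _, hp⟩ := exists_min_word S hgen g
  rw [hg, List.length_eq_zero_iff] at hlen
  subst hlen
  simpa using hp.symm

theorem wordLength_inv (hgen : Subgroup.closure S = ⊤) (g : G) :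
    wordLength S g⁻¹ = wordLength S g := by
  have key : ∀ g : G, wordLength S g⁻¹ ≤ wordLength S g := by
    intro g
    obtain ⟨l, hlen, hl, hp⟩ := exists_min_word S hgen g
    have h1 := wordLength_le S (isWord_inv S hl)
    rw [← List.prod_inv_reverse, hp] at h1
    simpa [hlen] using h1
  apply le_antisymm (key g)
  have := key g⁻¹
  rwa [inv_inv] at this

theorem wordLength_mul (hgen : Subgroup.closure S = ⊤) (g h : G) :
    wordLength S (g * h) ≤ wordLength S g + wordLength S h := by
  obtain ⟨l, hlen, hl, hp⟩ := exists_min_word S hgen g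
  obtain ⟨l', hlen', hl', hp'⟩ := exists_min_word S hgen h
  have h1 := wordLength_le S (isWord_append S hl hl')
  rw [List.prod_append, hp, hp', List.length_append, hlen, hlen'] at h1
  exact h1

theorem wordLength_fin (hS : S.Finite) (hgen : Subgroup.closure S = ⊤) (n : ℕ) :
    {g : G | wordLength S g ≤ n}.Finite := by
  have hT : (S ∪ S⁻¹).Finite := hS.union hS.inv
  have hfin : {l : List G | (∀ s ∈ l, s ∈ S ∪ S⁻¹) ∧ l.length ≤ n}.Finite := by
    have : Finite (S ∪ S⁻¹ : Set G) := hT.to_subtype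
    have hf := List.finite_length_le (S ∪ S⁻¹ : Set G) n
    refine (hf.image (List.map Subtype.val)).subset ?_
    rintro l ⟨hl, hlen⟩
    refine ⟨l.attach.map (fun s => ⟨s.1, hl s.1 s.2⟩), ?_, ?_⟩
    · show (l.attach.map _).length ≤ n
      simpa using hlen
    · rw [List.map_map]
      show List.map (fun s : {x // x ∈ l} => s.1) l.attach = l
      exact List.attach_map_subtype_val l
  refine (hfin.image List.prod).subset ?_
  intro g hg
  obtain ⟨l, hlen, hl, hp⟩ := exists_min_word S hgen g
  refine ⟨l, ⟨fun s hs => ?_, by rw [hlen]; exact hg⟩, hp⟩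
  rcases hl s hs with h1 | h1
  · exact Or.inl h1
  · exact Or.inr h1

end word

end Orbit

open Orbit

theorem orbit_isRG {G X : Type} [Group G] [MetricSpace X] [MulAction G X] (h : IsGeometric G X)
    (o : X) : ∃ R, IsRG (fun g h : G => dist (g • o) (h • o)) R ∧
      ∀ x : X, ∃ g : G, dist x (g • o) ≤ R := by
  obtain ⟨D, hD0, hD⟩ := coarse_cobounded h o
  choose c hc using hD
  refine ⟨2 * D, ⟨fun x => dist_self _, fun x y => dist_comm _ _, fun x y z => dist_triangle _ _ _,
    ?_⟩, fun x => ⟨c x, (hc x).trans (by linarith)⟩⟩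
  intro x y
  obtain ⟨γ₀, h0, h1, h2⟩ := h.geodesic (x • o) (y • o)
  by_cases hL : dist (x • o) (y • o) = 0
  · refine ⟨fun _ => x, dist_self _, hL, ?_⟩
    intro s hs t ht
    have hs' : s ∈ Icc (0 : ℝ) (dist (x • o) (y • o)) := hs
    have ht' : t ∈ Icc (0 : ℝ) (dist (x • o) (y • o)) := ht
    rw [hL] at hs' ht'
    have es : s = 0 := le_antisymm hs'.2 hs'.1
    have et : t = 0 := le_antisymm ht'.2 ht'.1
    subst es; subst et
    show abs (dist (x • o) (x • o) - abs ((0 : ℝ) - 0)) ≤ 2 * D
    rw [dist_self, sub_self, abs_zero, sub_self, abs_zero]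
    linarith
  · have key : ∀ t : ℝ, dist (γ₀ t)
        ((if t = 0 then x else if t = dist (x • o) (y • o) then y else c (γ₀ t)) • o) ≤ D := by
      intro t
      by_cases ht : t = 0
      · rw [if_pos ht, ht, h0, dist_self]; exact hD0
      · by_cases ht1 : t = dist (x • o) (y • o)
        · rw [if_neg ht, if_pos ht1]
          subst ht1
          rw [h1, dist_self]; exact hD0
        · rw [if_neg ht, if_neg ht1]
          exact hc _
    refine ⟨fun t => if t = 0 then x else if t = dist (x • o) (y • o) then y else c (γ₀ t),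
      ?_, ?_, ?_⟩
    · simp
    · simp [hL]
    · intro s hs t ht
      have e1 := h2 s hs t ht
      have k1 := key s
      have k2 := key t
      set p := (if s = 0 then x else if s = dist (x • o) (y • o) then y else c (γ₀ s)) • o
      set q := (if t = 0 then x else if t = dist (x • o) (y • o) then y else c (γ₀ t)) • o
      show abs (dist p q - |s - t|) ≤ 2 * D
      rw [← e1, abs_le]
      have t1 := dist_triangle4 p (γ₀ s) (γ₀ t) q
      have t2 := dist_triangle4 (γ₀ s) p q (γ₀ t)
      rw [dist_comm p (γ₀ s)] at t1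
      rw [dist_comm q (γ₀ t)] at t2
      constructor <;> linarith

theorem orbit_leftInv {G X : Type} [Group G] [MetricSpace X] [MulAction G X]
    (h : IsGeometric G X) (o : X) : LeftInv (fun g h : G => dist (g • o) (h • o)) := by
  intro g x y
  show dist ((g * x) • o) ((g * y) • o) = dist (x • o) (y • o)
  rw [mul_smul, mul_smul]
  exact h.isometric g _ _

theorem orbit_finBalls {G X : Type} [Group G] [MetricSpace X] [MulAction G X]
    (h : IsGeometric G X) (o : X) : FinBalls (fun g h : G => dist (g • o) (h • o)) := by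
  intro r
  have := h.properSpace
  refine (h.properlyDiscontinuous (Metric.closedBall o r) (isCompact_closedBall o r)).subset ?_
  intro g hg
  have hg' : dist ((1 : G) • o) (g • o) ≤ r := hg
  rw [one_smul] at hg'
  have hr : 0 ≤ r := dist_nonneg.trans hg'
  refine ⟨g • o, ⟨o, Metric.mem_closedBall_self hr, rfl⟩, ?_⟩
  rw [Metric.mem_closedBall, dist_comm]
  exact hg'

/-- Svarc-Milnor: any two left invariant roughly geodesic distances with finite balls are
quasi-isometric. -/
theorem qi_bound {G : Type} [Group G] {d d' : G → G → ℝ} {R R' : ℝ} (hd : IsRG d R)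
    (hd' : IsRG d' R') (hl : LeftInv d) (hf : FinBalls d) (hl' : LeftInv d') :
    ∃ A B, ∀ x y, d' x y ≤ A * d x y + B := by
  have hnn : ∀ x y, 0 ≤ d x y := by
    intro x y
    have h1 := hd.tri x y x
    rw [hd.self, hd.symm y x] at h1
    linarith
  have hnn' : ∀ x y, 0 ≤ d' x y := by
    intro x y
    have h1 := hd'.tri x y x
    rw [hd'.self, hd'.symm y x] at h1
    linarith
  have hR : 0 ≤ R := by
    obtain ⟨γ, _, _, h3⟩ := hd.rough 1 1
    have h4 := h3 0 ⟨le_rfl, hnn 1 1⟩ 0 ⟨le_rfl, hnn 1 1⟩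
    exact (abs_nonneg _).trans h4
  obtain ⟨M, hM⟩ := ((hf (1 + R)).image (fun g => d' 1 g)).bddAbove
  have hM' : ∀ x y, d x y ≤ 1 + R → d' x y ≤ M := by
    intro x y hxy
    have e1 : d 1 (x⁻¹ * y) = d x y := by
      have := hl x 1 (x⁻¹ * y)
      rw [mul_one, mul_inv_cancel_left] at this
      exact this.symm
    have e2 : d' 1 (x⁻¹ * y) = d' x y := by
      have := hl' x 1 (x⁻¹ * y)
      rw [mul_one, mul_inv_cancel_left] at this
      exact this.symm
    rw [← e2]
    apply hM
    refine ⟨x⁻¹ * y, ?_, rfl⟩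
    show d 1 (x⁻¹ * y) ≤ 1 + R
    rw [e1]; exact hxy
  have hM0 : 0 ≤ M := (hnn' 1 1).trans (hM' 1 1 (by rw [hd.self]; linarith))
  refine ⟨M, 3 * M, fun x y => ?_⟩
  obtain ⟨γ, h0, h1, h2⟩ := hd.rough x y
  set L := d x y with hL
  have hL0 : 0 ≤ L := hnn x y
  set n := ⌈L⌉₊ with hn
  have hnL : L ≤ n := Nat.le_ceil L
  have hnL' : (n : ℝ) < L + 1 := Nat.ceil_lt_add_one hL0
  set f : ℕ → G := fun i => γ (min (i : ℝ) L) with hf'
  have hstep : ∀ i < n, d' (f i) (f (i + 1)) ≤ M := by
    intro i _
    apply hM'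
    have hi0 : (0 : ℝ) ≤ i := Nat.cast_nonneg i
    have a1 : min (i : ℝ) L ∈ Icc (0 : ℝ) L := ⟨le_min hi0 hL0, min_le_right _ _⟩
    have a2 : min ((i + 1 : ℕ) : ℝ) L ∈ Icc (0 : ℝ) L :=
      ⟨le_min (Nat.cast_nonneg _) hL0, min_le_right _ _⟩
    have a3 := h2 _ a1 _ a2
    have a4 : |min (i : ℝ) L - min ((i + 1 : ℕ) : ℝ) L| ≤ 1 := by
      push_cast
      rw [abs_le]
      constructor
      · have : min ((i : ℝ) + 1) L ≤ min (i : ℝ) L + 1 := by
          rcases le_total (i : ℝ) L with hh | hh
          · rw [min_eq_left hh]; exact min_le_left _ _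
          · rw [min_eq_right hh]; exact (min_le_right _ _).trans (by linarith)
        linarith
      · have : min (i : ℝ) L ≤ min ((i : ℝ) + 1) L := min_le_min_right _ (by linarith)
        linarith
    have a5 := (abs_le.mp a3).2
    show d (γ (min (i : ℝ) L)) (γ (min ((i + 1 : ℕ) : ℝ) L)) ≤ 1 + R
    linarith
  have c1 := chain_le hd' f n hstep
  have f0 : f 0 = γ 0 := by
    show γ (min ((0 : ℕ) : ℝ) L) = γ 0
    rw [Nat.cast_zero, min_eq_left hL0]
  have fn : f n = γ L := by
    show γ (min (n : ℝ) L) = γ L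
    rw [min_eq_right hnL]
  rw [f0, fn] at c1
  have c2 : d' x (γ 0) ≤ M := hM' _ _ (by rw [h0]; linarith)
  have c3 : d' (γ L) y ≤ M := hM' _ _ (by rw [h1]; linarith)
  have c4 := hd'.tri x (γ 0) y
  have c5 := hd'.tri (γ 0) (γ L) y
  have c6 : (n : ℝ) * M ≤ (L + 1) * M := mul_le_mul_of_nonneg_right hnL'.le hM0
  nlinarith

theorem exactGeo_isRG {G : Type} [Group G] {ρ : G → G → ℝ} (hρ : IsExactGeo ρ) :
    ∃ R, IsRG ρ R := by
  obtain ⟨M, hM⟩ := hρ.step
  have hM' : ∀ x y, x ≠ y → ∃ z, z ≠ x ∧ ρ x z ≤ max M 0 ∧ ρ x y = ρ x z + ρ z y := by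
    intro x y hxy
    obtain ⟨z, h1, h2, h3⟩ := hM x y hxy
    exact ⟨z, h1, h2.trans (le_max_left _ _), h3⟩
  refine ⟨max M 0, hρ.self, hρ.symm, hρ.tri, fun x y => ?_⟩
  obtain ⟨γ, h0, h1, h2, h3⟩ := exact_path hρ (le_max_right M 0) hM' y _ x le_rfl
  refine ⟨γ, by rw [h0, hρ.self], by rw [h1, hρ.self], ?_⟩
  have key : ∀ s t, 0 ≤ s → s ≤ t → t ≤ ρ x y →
      ρ (γ s) (γ t) ≤ (t - s) + max M 0 ∧ (t - s) ≤ ρ (γ s) (γ t) + max M 0 := by
    intro s t hs hst ht
    have a1 := h3 s t hs hst ht
    have a2 := h3 t t (hs.trans hst) le_rfl ht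
    rw [hρ.self] at a2
    have b1 := h2 s hs (hst.trans ht)
    have b2 := h2 t (hs.trans hst) ht
    constructor
    · linarith [b1.1, b1.2, b2.1, b2.2]
    · linarith [b1.1, b1.2, b2.1, b2.2]
  intro s hs t ht
  rcases le_total s t with hst | hst
  · have := key s t hs.1 hst ht.2
    rw [abs_sub_comm s t, abs_of_nonneg (sub_nonneg.mpr hst), abs_le]
    constructor <;> linarith [this.1, this.2]
  · have := key t s ht.1 hst hs.2
    rw [hρ.symm (γ s) (γ t), abs_of_nonneg (sub_nonneg.mpr hst), abs_le]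
    constructor <;> linarith [this.1, this.2]

namespace Orbit

/-- the word distance is an exact path metric -/
theorem word_isExactGeo {G : Type} [Group G] (S : Set G) (hS : S.Finite)
    (hgen : Subgroup.closure S = ⊤) :
    IsExactGeo (fun x y : G => (wordLength S (x⁻¹ * y) : ℝ)) := by
  have hne : ∀ x y : G, x ≠ y → wordLength S (x⁻¹ * y) ≠ 0 := by
    intro x y hxy h0
    apply hxy
    have := eq_one_of_wordLength S hgen h0
    rw [inv_mul_eq_one] at this
    exact this
  refine ⟨?_, ?_, ?_, ?_, ?_, ?_, ?_⟩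
  · intro x
    show (wordLength S (x⁻¹ * x) : ℝ) = 0
    rw [inv_mul_cancel, wordLength_one]; simp
  · intro x y hxy
    show (0 : ℝ) < (wordLength S (x⁻¹ * y) : ℝ)
    exact_mod_cast Nat.pos_of_ne_zero (hne x y hxy)
  · intro x y
    show (wordLength S (x⁻¹ * y) : ℝ) = (wordLength S (y⁻¹ * x) : ℝ)
    rw [← wordLength_inv S hgen (x⁻¹ * y), mul_inv_rev, inv_inv]
  · intro x y z
    show (wordLength S (x⁻¹ * z) : ℝ) ≤ (wordLength S (x⁻¹ * y) : ℝ) + (wordLength S (y⁻¹ * z) : ℝ)
    have := wordLength_mul S hgen (x⁻¹ * y) (y⁻¹ * z)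
    have e : x⁻¹ * y * (y⁻¹ * z) = x⁻¹ * z := by group
    rw [e] at this
    exact_mod_cast this
  · intro g x y
    show (wordLength S ((g * x)⁻¹ * (g * y)) : ℝ) = (wordLength S (x⁻¹ * y) : ℝ)
    have e : (g * x)⁻¹ * (g * y) = x⁻¹ * y := by group
    rw [e]
  · intro r
    refine (wordLength_fin S hS hgen ⌊r⌋₊).subset ?_
    intro g hg
    have hg' : (wordLength S ((1 : G)⁻¹ * g) : ℝ) ≤ r := hg
    rw [inv_one, one_mul] at hg'
    exact Nat.le_floor hg'
  · refine ⟨1, fun x y hxy => ?_⟩
    obtain ⟨l, hlen, hl, hp⟩ := exists_min_word S hgen (x⁻¹ * y)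
    cases l with
    | nil =>
      exfalso
      exact hne x y hxy hlen.symm
    | cons s l =>
      have hs : wordLength S s ≤ 1 := by
        have h1 : IsWord S [s] := by
          intro t ht
          rw [List.mem_singleton] at ht
          rw [ht]
          exact hl s List.mem_cons_self
        have := wordLength_le S h1
        simpa using this
      have hl' : IsWord S l := fun t ht => hl t (List.mem_cons_of_mem s ht)
      have h2 := wordLength_le S hl'
      rw [List.prod_cons] at hp
      rw [List.length_cons] at hlen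
      have hlp : l.prod = s⁻¹ * (x⁻¹ * y) := by rw [← hp]; group
      have hs1 : s ≠ 1 := by
        intro h1
        rw [h1, inv_one, one_mul] at hlp
        rw [hlp] at h2
        omega
      have h3 := wordLength_mul S hgen s (s⁻¹ * (x⁻¹ * y))
      rw [mul_inv_cancel_left, ← hlp] at h3
      refine ⟨x * s, ?_, ?_, ?_⟩
      · intro h1
        exact hs1 (mul_eq_left.mp h1)
      · show (wordLength S (x⁻¹ * (x * s)) : ℝ) ≤ 1
        rw [inv_mul_cancel_left]
        exact_mod_cast hs
      · show (wordLength S (x⁻¹ * y) : ℝ) = (wordLength S (x⁻¹ * (x * s)) : ℝ) +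
          (wordLength S ((x * s)⁻¹ * y) : ℝ)
        have e : (x * s)⁻¹ * y = l.prod := by rw [hlp]; group
        rw [inv_mul_cancel_left, e]
        have : wordLength S (x⁻¹ * y) = wordLength S s + wordLength S l.prod := by omega
        exact_mod_cast this

end Orbit

/-- the word metric of a hyperbolic group, as a distance function -/
theorem hypGroup_dist {G : Type} [Group G] (hG : IsHyperbolicGroup G) :
    ∃ (d : G → G → ℝ) (R δ : ℝ), IsRG d R ∧ LeftInv d ∧ FinBalls d ∧ Hyp d δ := by
  obtain ⟨S, hS, hgen, δ, hδ⟩ := hG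
  have hE := word_isExactGeo S hS hgen
  obtain ⟨R, hR⟩ := exactGeo_isRG hE
  exact ⟨_, R, δ, hR, hE.left, hE.fin, hδ⟩

end Pool.Agent.KlCD94
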