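import Pool.Agent.KlCD94.Base

/-!
# The weighted word metric (Task W)
-/

open Set Filter Topology MeasureTheory
open scoped ENNReal NNReal

namespace Pool.Agent.KlCD94

namespace Words

variable {G : Type}

/-- Weight of a word. -/
noncomputable def wt (w : G → ℝ) (l : List G) : ℝ := (l.map w).sum

@[simp] theorem wt_nil (w : G → ℝ) : wt w [] = 0 := rfl
@[simp] theorem wt_cons (w : G → ℝ) (s : G) (l : List G) : wt w (s :: l) = w s + wt w l := by
  simp [wt]
theorem wt_append (w : G → ℝ) (l l' : List G) : wt w (l ++ l') = wt w l + wt w l' := by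
  simp [wt]
theorem wt_reverse (w : G → ℝ) (l : List G) : wt w l.reverse = wt w l := by
  simp [wt, List.sum_reverse]

theorem wt_ge (w : G → ℝ) (S : Finset G) (w0 : ℝ) (h : ∀ s ∈ S, w0 ≤ w s) (l : List G)
    (hl : ∀ s ∈ l, s ∈ S) : w0 * l.length ≤ wt w l := by
  induction l with
  | nil => simp
  | cons s l ih =>
    rw [wt_cons, List.length_cons]
    push_cast
    have h1 := h s (hl s (by simp))
    have h2 := ih (fun t ht => hl t (by simp [ht]))
    linarith

/-- words over `S` of length `k` -/
noncomputable def LS (S : Finset G) : ℕ → Finset (List G)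
  | 0 => {[]}
  | k + 1 => by
    classical
    exact (S ×ˢ LS S k).image (fun q => q.1 :: q.2)

theorem mem_LS (S : Finset G) (l : List G) (hl : ∀ s ∈ l, s ∈ S) : l ∈ LS S l.length := by
  classical
  induction l with
  | nil => simp [LS]
  | cons s l ih =>
    rw [List.length_cons, LS, Finset.mem_image]
    exact ⟨(s, l), Finset.mem_product.2 ⟨hl s (by simp), ih fun t ht => hl t (by simp [ht])⟩, rfl⟩

theorem sum_LS (S : Finset G) (v : G → ℝ) (k : ℕ) :
    ∑ l ∈ LS S k, (l.map v).prod = (∑ s ∈ S, v s) ^ k := by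
  classical
  induction k with
  | zero => simp [LS]
  | succ k ih =>
    rw [LS, Finset.sum_image, Finset.sum_product, pow_succ, mul_comm, Finset.sum_mul]
    · refine Finset.sum_congr rfl fun s _ => ?_
      rw [← ih, Finset.mul_sum]
      refine Finset.sum_congr rfl fun l _ => ?_
      simp
    · rintro ⟨s, l⟩ _ ⟨s', l'⟩ _ h
      simp only [List.cons.injEq] at h
      exact Prod.ext h.1 h.2

theorem finite_words (S : Finset G) (n : ℕ) :
    {l : List G | (∀ s ∈ l, s ∈ S) ∧ l.length ≤ n}.Finite := by
  classical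
  apply Set.Finite.subset (Finset.finite_toSet ((Finset.range (n + 1)).biUnion (LS S)))
  rintro l ⟨h1, h2⟩
  simp only [Finset.coe_biUnion, Set.mem_iUnion]
  exact ⟨l.length, by simpa using h2, mem_LS S l h1⟩

end Words

open Words in
/-- Task W. -/
theorem weighted_metric {G : Type} [Group G] (S : Finset G)
    (hgen : Subgroup.closure (S : Set G) = ⊤) (hinv : ∀ s ∈ S, s⁻¹ ∈ S) (a : G → ℝ)
    (ha0 : ∀ s ∈ S, 0 < a s) (hasym : ∀ s ∈ S, a s⁻¹ = a s) (p : ℝ) (hp : 0 < p)
    (hsum : ∑ s ∈ S, (a s) ^ p < 1) :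
    ∃ ρ : G → G → ℝ, IsExactGeo ρ ∧ (∀ s ∈ S, a s ≤ Real.exp (-(ρ 1 s))) ∧
      Summable (fun g : G => Real.exp (-(p * ρ 1 g))) := by
  classical
  -- the letters have weight in `(0, ∞)`
  have ha1 : ∀ s ∈ S, a s < 1 := by
    intro s hs
    by_contra hc
    push Not at hc
    have h1 : (1 : ℝ) ≤ a s ^ p := Real.one_le_rpow hc hp.le
    have h2 : a s ^ p ≤ ∑ s ∈ S, (a s) ^ p :=
      Finset.single_le_sum (f := fun s => a s ^ p)
        (fun t ht => (Real.rpow_pos_of_pos (ha0 t ht) p).le) hs
    linarith
  let w : G → ℝ := fun s => -Real.log (a s)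
  have hw : ∀ s ∈ S, 0 < w s := fun s hs => by
    have := Real.log_neg (ha0 s hs) (ha1 s hs)
    simp only [w]; linarith
  have hwinv : ∀ s ∈ S, w s⁻¹ = w s := fun s hs => by simp only [w, hasym s hs]
  obtain ⟨w0, hw0, hw0S⟩ : ∃ w0 : ℝ, 0 < w0 ∧ ∀ s ∈ S, w0 ≤ w s := by
    rcases S.eq_empty_or_nonempty with rfl | hS
    · exact ⟨1, one_pos, by simp⟩
    · obtain ⟨s, hs, hmin⟩ := S.exists_min_image w hS
      exact ⟨w s, hw s hs, hmin⟩
  have hwt0 : ∀ l : List G, (∀ s ∈ l, s ∈ S) → 0 ≤ wt w l := by
    intro l hl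
    have := wt_ge w S w0 hw0S l hl
    have h2 : 0 ≤ w0 * l.length := by positivity
    linarith
  have hlen : ∀ (l : List G) (r : ℝ), (∀ s ∈ l, s ∈ S) → wt w l ≤ r →
      l.length ≤ ⌊r / w0⌋₊ := by
    intro l r hl hr
    apply Nat.le_floor
    rw [le_div_iff₀ hw0]
    have := wt_ge w S w0 hw0S l hl
    linarith
  -- every element is a word
  have hword : ∀ g : G, ∃ l : List G, (∀ s ∈ l, s ∈ S) ∧ l.prod = g := by
    intro g
    have hg : g ∈ Subgroup.closure (S : Set G) := by rw [hgen]; trivial
    rw [← Subgroup.mem_toSubmonoid, Subgroup.closure_toSubmonoid] at hg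
    obtain ⟨l, hl, hprod⟩ := Submonoid.exists_list_of_mem_closure hg
    refine ⟨l, fun s hs => ?_, hprod⟩
    rcases hl s hs with h | h
    · exact h
    · have := hinv _ h
      simpa using this
  -- minimal words
  have hmin : ∀ g : G, ∃ l : List G, (∀ s ∈ l, s ∈ S) ∧ l.prod = g ∧
      ∀ l' : List G, (∀ s ∈ l', s ∈ S) → l'.prod = g → wt w l ≤ wt w l' := by
    intro g
    obtain ⟨l0, hl0, hp0⟩ := hword g
    have hfin : {l : List G | (∀ s ∈ l, s ∈ S) ∧ l.prod = g ∧ wt w l ≤ wt w l0}.Finite := by
      apply (finite_words S ⌊wt w l0 / w0⌋₊).subset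
      rintro l ⟨h1, -, h3⟩
      exact ⟨h1, hlen l _ h1 h3⟩
    obtain ⟨l, ⟨h1, h2, h3⟩, h4⟩ := hfin.exists_minimalFor (wt w) _ ⟨l0, hl0, hp0, le_rfl⟩
    refine ⟨l, h1, h2, fun l' h1' h2' => ?_⟩
    by_contra hc
    push Not at hc
    have := h4 (j := l') ⟨h1', h2', hc.le.trans h3⟩ hc.le
    linarith
  choose c hcS hcp hcmin using hmin
  let L : G → ℝ := fun g => wt w (c g)
  have hL : ∀ (g : G) (l : List G), (∀ s ∈ l, s ∈ S) → l.prod = g → L g ≤ wt w l :=
    fun g l h1 h2 => hcmin g l h1 h2
  have hL0 : ∀ g, 0 ≤ L g := fun g => hwt0 _ (hcS g)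
  have hL1 : L 1 = 0 := le_antisymm (by simpa using hL 1 [] (by simp) (by simp)) (hL0 1)
  have hLmul : ∀ g h, L (g * h) ≤ L g + L h := by
    intro g h
    have := hL (g * h) (c g ++ c h) (by
      intro s hs
      rcases List.mem_append.1 hs with h' | h'
      · exact hcS g s h'
      · exact hcS h s h') (by rw [List.prod_append, hcp, hcp])
    rwa [wt_append] at this
  have hLinv_le : ∀ g, L g⁻¹ ≤ L g := by
    intro g
    have h1 := hL g⁻¹ ((c g).map (fun x => x⁻¹)).reverse (by
      intro s hs
      rw [List.mem_reverse, List.mem_map] at hs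
      obtain ⟨t, ht, rfl⟩ := hs
      exact hinv t (hcS g t ht)) (by rw [← List.prod_inv_reverse, hcp])
    have h2 : wt w ((c g).map (fun x => x⁻¹)).reverse = wt w (c g) := by
      rw [wt_reverse]
      have : ∀ l : List G, (∀ s ∈ l, s ∈ S) → wt w (l.map (fun x => x⁻¹)) = wt w l := by
        intro l
        induction l with
        | nil => intro _; rfl
        | cons s l ih =>
          intro hl
          rw [List.map_cons, wt_cons, wt_cons, hwinv s (hl s (by simp)),
            ih fun t ht => hl t (by simp [ht])]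
      exact this _ (hcS g)
    rwa [h2] at h1
  have hLinv : ∀ g, L g⁻¹ = L g := fun g => le_antisymm (hLinv_le g) (by
    have := hLinv_le g⁻¹
    rwa [inv_inv] at this)
  have hLpos : ∀ g, g ≠ 1 → 0 < L g := by
    intro g hg
    have h1 : (c g) ≠ [] := by
      intro h
      apply hg
      rw [← hcp g, h]; rfl
    have h2 := wt_ge w S w0 hw0S (c g) (hcS g)
    have h3 : 1 ≤ (c g).length := List.length_pos_iff.2 h1
    have h4 : (1 : ℝ) ≤ (c g).length := by exact_mod_cast h3
    have h5 : w0 * 1 ≤ w0 * (c g).length := mul_le_mul_of_nonneg_left h4 hw0.le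
    show 0 < wt w (c g)
    linarith
  have hLs : ∀ s ∈ S, L s ≤ w s := by
    intro s hs
    simpa using hL s [s] (by simpa using hs) (by simp)
  refine ⟨fun x y => L (x⁻¹ * y), ⟨?_, ?_, ?_, ?_, ?_, ?_, ?_⟩, ?_, ?_⟩
  · intro x; simp [hL1]
  · intro x y hxy
    apply hLpos
    intro h
    exact hxy (inv_mul_eq_one.1 h)
  · intro x y
    have := hLinv (x⁻¹ * y)
    rw [← this]
    congr 1
    group
  · intro x y z
    have := hLmul (x⁻¹ * y) (y⁻¹ * z)
    rwa [show x⁻¹ * y * (y⁻¹ * z) = x⁻¹ * z by group] at this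
  · intro g x y
    show L ((g * x)⁻¹ * (g * y)) = L (x⁻¹ * y)
    congr 1
    group
  · intro r
    apply ((finite_words S ⌊r / w0⌋₊).image List.prod).subset
    intro g hg
    simp only [Set.mem_ofPred_eq, inv_one, one_mul] at hg
    exact ⟨c g, ⟨hcS g, hlen _ _ (hcS g) hg⟩, hcp g⟩
  · refine ⟨∑ s ∈ S, w s, fun x y hxy => ?_⟩
    set g := x⁻¹ * y with hg
    have hg1 : g ≠ 1 := fun h => hxy (inv_mul_eq_one.1 h)
    rcases hc : c g with _ | ⟨s, t⟩
    · exfalso
      apply hg1
      rw [← hcp g, hc]; rfl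
    · have hsS : s ∈ S := hcS g s (by rw [hc]; simp)
      have htS : ∀ t' ∈ t, t' ∈ S := fun t' ht' => hcS g t' (by rw [hc]; simp [ht'])
      have hprod : s * t.prod = g := by rw [← hcp g, hc]; simp
      have hLg : L g = w s + wt w t := by
        show wt w (c g) = _
        rw [hc, wt_cons]
      have hLt : L (s⁻¹ * g) ≤ wt w t := hL _ t htS (by rw [← hprod]; group)
      have hs1 : s ≠ 1 := by
        rintro rfl
        have h1 := hL g t htS (by rw [← hprod, one_mul])
        have h2 := hw 1 hsS
        linarith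
      have hadd : L g ≤ L s + L (s⁻¹ * g) := by
        have := hLmul s (s⁻¹ * g)
        rwa [mul_inv_cancel_left] at this
      have hs2 := hLs s hsS
      have heq : L g = L s + L (s⁻¹ * g) := le_antisymm hadd (by linarith)
      refine ⟨x * s, ?_, ?_, ?_⟩
      · intro h
        exact hs1 (mul_eq_left.1 h)
      · show L (x⁻¹ * (x * s)) ≤ _
        rw [inv_mul_cancel_left]
        exact hs2.trans (Finset.single_le_sum (f := w) (fun t ht => (hw t ht).le) hsS)
      · show L g = L (x⁻¹ * (x * s)) + L ((x * s)⁻¹ * y)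
        rw [inv_mul_cancel_left, mul_inv_rev, mul_assoc, ← hg]
        exact heq
  · intro s hs
    simp only [inv_one, one_mul]
    have h1 := hLs s hs
    calc a s = Real.exp (Real.log (a s)) := (Real.exp_log (ha0 s hs)).symm
      _ ≤ Real.exp (-(L s)) := Real.exp_le_exp.2 (by simp only [w] at h1; linarith)
  · simp only [inv_one, one_mul]
    let v : G → ℝ := fun s => a s ^ p
    have hv0 : ∀ s ∈ S, 0 ≤ v s := fun s hs => (Real.rpow_pos_of_pos (ha0 s hs) p).le
    have hV0 : ∀ l : List G, (∀ s ∈ l, s ∈ S) → 0 ≤ (l.map v).prod := by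
      intro l
      induction l with
      | nil => intro _; simp
      | cons s l ih =>
        intro hl
        rw [List.map_cons, List.prod_cons]
        exact mul_nonneg (hv0 s (hl s (by simp))) (ih fun t ht => hl t (by simp [ht]))
    have hexp : ∀ l : List G, (∀ s ∈ l, s ∈ S) →
        Real.exp (-(p * wt w l)) = (l.map v).prod := by
      intro l
      induction l with
      | nil => intro _; simp
      | cons s l ih =>
        intro hl
        rw [List.map_cons, List.prod_cons, wt_cons, ← ih fun t ht => hl t (by simp [ht])]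
        have : v s = Real.exp (-(p * w s)) := by
          simp only [v, w]
          rw [Real.rpow_def_of_pos (ha0 s (hl s (by simp)))]
          congr 1; ring
        rw [this, ← Real.exp_add]
        congr 1; ring
    set q := ∑ s ∈ S, v s with hq
    have hq0 : 0 ≤ q := Finset.sum_nonneg hv0
    have hq1 : q < 1 := hsum
    refine summable_of_sum_le (c := (1 - q)⁻¹) (fun g => (Real.exp_pos _).le) fun F => ?_
    have hmemS : ∀ k (l : List G), l ∈ LS S k → ∀ s ∈ l, s ∈ S := by
      intro k
      induction k with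
      | zero => intro l hl; simp [LS] at hl; subst hl; simp
      | succ k ih =>
        intro l hl
        rw [LS, Finset.mem_image] at hl
        obtain ⟨⟨s, t⟩, hst, rfl⟩ := hl
        rw [Finset.mem_product] at hst
        intro s' hs'
        rcases List.mem_cons.1 hs' with rfl | h
        · exact hst.1
        · exact ih t hst.2 s' h
    have hlenLS : ∀ k (l : List G), l ∈ LS S k → l.length = k := by
      intro k
      induction k with
      | zero => intro l hl; simp [LS] at hl; subst hl; simp
      | succ k ih =>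
        intro l hl
        rw [LS, Finset.mem_image] at hl
        obtain ⟨⟨s, t⟩, hst, rfl⟩ := hl
        rw [Finset.mem_product] at hst
        rw [List.length_cons, ih t hst.2]
    let n := F.sup (fun g => (c g).length)
    calc ∑ g ∈ F, Real.exp (-(p * L g)) = ∑ g ∈ F, ((c g).map v).prod :=
          Finset.sum_congr rfl fun g _ => hexp (c g) (hcS g)
      _ = ∑ l ∈ F.image c, (l.map v).prod := by
          rw [Finset.sum_image]
          intro g _ g' _ h
          rw [← hcp g, h, hcp g']
      _ ≤ ∑ l ∈ (Finset.range (n + 1)).biUnion (LS S), (l.map v).prod := by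
          apply Finset.sum_le_sum_of_subset_of_nonneg
          · intro l hl
            rw [Finset.mem_image] at hl
            obtain ⟨g, hg, rfl⟩ := hl
            rw [Finset.mem_biUnion]
            refine ⟨(c g).length, ?_, mem_LS S _ (hcS g)⟩
            rw [Finset.mem_range]
            exact Nat.lt_succ_of_le (Finset.le_sup (f := fun g => (c g).length) hg)
          · intro l hl _
            rw [Finset.mem_biUnion] at hl
            obtain ⟨k, -, hk⟩ := hl
            exact hV0 l (hmemS k l hk)
      _ ≤ ∑ k ∈ Finset.range (n + 1), ∑ l ∈ LS S k, (l.map v).prod := by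
          rw [Finset.sum_biUnion]
          intro i _ j _ hij
          rw [Function.onFun, Finset.disjoint_left]
          intro l hl hl'
          exact hij ((hlenLS i l hl).symm.trans (hlenLS j l hl'))
      _ = ∑ k ∈ Finset.range (n + 1), q ^ k := Finset.sum_congr rfl fun k _ => sum_LS S v k
      _ ≤ (1 - q)⁻¹ := by
          rw [← tsum_geometric_of_lt_one hq0 hq1]
          exact (summable_geometric_of_lt_one hq0 hq1).sum_le_tsum _ fun k _ => by positivity

end Pool.Agent.KlCD94
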