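import Pool.Agent.KlCD94.Morse
import Pool.Agent.KlCD94.Words
import Pool.Agent.KlCD94.Orbit
import Pool.Agent.KlCD94.Ahlfors
import Pool.Agent.KlCD94.Near
import Pool.Agent.KlCD94.Chain

/-!
# Core construction: a new left invariant metric from an Ahlfors regular metric on the boundary
-/

open Set Filter Topology MeasureTheory
open scoped ENNReal NNReal

namespace Pool.Agent.KlCD94

section closure
variable {G : Type} [Group G] {d : G → G → ℝ} {R : ℝ}

theorem closure_ball (hd : IsRG d R) (hl : LeftInv d) {r : ℝ} (hr : R + 1 ≤ r) :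
    Subgroup.closure {g : G | d 1 g ≤ r} = ⊤ := by
  rw [eq_top_iff]
  intro g _
  obtain ⟨γ, h0, h1, h⟩ := hd.rough 1 g
  set L := d 1 g with hL
  have hL0 : 0 ≤ L := hd.nonneg _ _
  have hR : 0 ≤ R := hd.R_nonneg g
  have hstep : ∀ x y : G, d x y ≤ r → x ∈ Subgroup.closure {g : G | d 1 g ≤ r} →
      y ∈ Subgroup.closure {g : G | d 1 g ≤ r} := by
    intro x y hxy hx
    have : d 1 (x⁻¹ * y) ≤ r := by
      have := hl x 1 (x⁻¹ * y)
      rw [mul_one, mul_inv_cancel_left] at this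
      rw [← this]; exact hxy
    have h2 := Subgroup.mul_mem _ hx (Subgroup.subset_closure this)
    rwa [mul_inv_cancel_left] at h2
  have hind : ∀ i : ℕ, γ (min (i : ℝ) L) ∈ Subgroup.closure {g : G | d 1 g ≤ r} := by
    intro i
    induction i with
    | zero =>
      have : min ((0 : ℕ) : ℝ) L = 0 := by
        rw [Nat.cast_zero]; exact min_eq_left hL0
      rw [this]
      apply Subgroup.subset_closure
      show d 1 (γ 0) ≤ r
      rw [h0]; linarith
    | succ i ih =>
      refine hstep _ _ ?_ ih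
      have m1 : min (i : ℝ) L ∈ Icc (0 : ℝ) L := ⟨le_min (Nat.cast_nonneg _) hL0, min_le_right _ _⟩
      have m2 : min ((i + 1 : ℕ) : ℝ) L ∈ Icc (0 : ℝ) L :=
        ⟨le_min (Nat.cast_nonneg _) hL0, min_le_right _ _⟩
      have h3 := (abs_le.1 (h _ m1 _ m2)).2
      have h4 : |min (i : ℝ) L - min ((i + 1 : ℕ) : ℝ) L| ≤ 1 := by
        refine (abs_min_sub_min_le_max _ _ _ _).trans ?_
        push_cast
        rw [sub_self, abs_zero]
        have : |(i : ℝ) - (i + 1)| = 1 := by
          rw [show (i : ℝ) - (i + 1) = -1 by ring]; simp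
        rw [this]; simp
      linarith
  obtain ⟨i, hi⟩ := exists_nat_ge L
  have h5 := hind i
  rw [min_eq_right hi] at h5
  exact hstep _ _ (by rw [h1]; linarith) h5

end closure

section compare
variable {G : Type} {d ρ : G → G → ℝ} {R R' A' B' : ℝ}

theorem conv_of_compare (hA : 0 < A') (h : ∀ o x y, gp ρ o x y ≤ A' * gp d o x y + B')
    {u : ℕ → G} (hu : Conv ρ u) : Conv d u := by
  intro o
  have h1 := hu o
  have h2 : Tendsto (fun p : ℕ × ℕ => (gp ρ o (u p.1) (u p.2) - B') / A') atTop atTop :=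
    (tendsto_atTop_add_const_right _ (-B') h1).atTop_div_const hA
  refine tendsto_atTop_mono (fun p => ?_) h2
  rw [div_le_iff₀ hA]
  have := h o (u p.1) (u p.2)
  linarith

theorem DD_zero_of_compare (hρ : IsRG ρ R') (hA : 0 < A')
    (hd : IsRG d R) (h : ∀ o x y, gp d o x y ≤ A' * gp ρ o x y + B') {g : G} {u v : ℕ → G}
    (h0 : DD d g u v = 0) : DD ρ g u v = 0 := by
  apply le_antisymm _ (DD_nonneg hρ g u v)
  apply le_of_forall_pos_le_add
  intro e he
  have h1 : DD d g u v < Real.exp (-(A' * (-Real.log e) + B')) := by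
    rw [h0]; exact Real.exp_pos _
  have h2 := eventually_of_DD_lt hd h1
  have h3 : DD ρ g u v ≤ Real.exp (-(-Real.log e)) := by
    apply DD_le_of_eventually
    filter_upwards [h2] with p hp
    have h4 := h g (u p.1) (v p.2)
    have h5 : A' * (-Real.log e) ≤ A' * gp ρ g (u p.1) (v p.2) := by linarith
    exact le_of_mul_le_mul_left h5 hA
  rw [neg_neg, Real.exp_log he] at h3
  linarith

theorem DD_big_of_compare (hρ : IsRG ρ R') (hA : 0 < A')
    (h : ∀ o x y, gp ρ o x y ≤ A' * gp d o x y + B') {g : G} {u v : ℕ → G} {n : ℝ}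
    (h0 : Real.exp (-n) ≤ DD d g u v) : Real.exp (-(A' * (n + 1) + B')) ≤ DD ρ g u v := by
  have h1 : Real.exp (-(n + 1)) < DD d g u v :=
    lt_of_lt_of_le (Real.exp_lt_exp.2 (by linarith)) h0
  have h2 := frequently_of_lt_DD h1
  apply le_DD_of_frequently hρ
  refine h2.mono fun p hp => ?_
  have h4 := h g (u p.1) (v p.2)
  have h5 : A' * gp d g (u p.1) (v p.2) ≤ A' * (n + 1) := mul_le_mul_of_nonneg_left hp.le hA.le
  linarith

end compare

theorem exists_b (p : ℝ) (hp : 0 < p) (N : ℕ) : ∃ b : ℝ, 0 < b ∧ (N : ℝ) * b ^ p ≤ 1 / 8 := by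
  refine ⟨(1 / (8 * (N + 1))) ^ (1 / p), by positivity, ?_⟩
  rw [← Real.rpow_mul (by positivity), one_div_mul_cancel hp.ne', Real.rpow_one]
  rw [mul_one_div, div_le_div_iff₀ (by positivity) (by norm_num)]
  nlinarith

theorem core {G Y : Type} [Group G] [MetricSpace Y] [CompactSpace Y] {d : G → G → ℝ} {R δ : ℝ}
    (hd : IsRG d R) (hl : LeftInv d) (hf : FinBalls d) (hδ0 : 0 ≤ δ) (hδ : Hyp d δ)
    (hAR : ∃ Q : ℝ, IsAhlforsRegular Y Q) (p : ℝ) (hp : dimH (univ : Set Y) < ENNReal.ofReal p)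
    (toY : {u : ℕ → G // Conv d u} → Y) (hsurj : Function.Surjective toY)
    (hQS : ∃ (η : ℝ≥0 ≃o ℝ≥0) (ε₀ C0 : ℝ), 0 < ε₀ ∧ 0 < C0 ∧
      ∀ u v w : {u : ℕ → G // Conv d u}, toY u ≠ toY w →
      DD d 1 u.1 v.1 ^ ε₀ ≤
        C0 * η (nndist (toY u) (toY v) / nndist (toY u) (toY w)) * DD d 1 u.1 w.1 ^ ε₀)
    (huc : ∀ e > 0, ∃ c > 0, ∀ u v : {u : ℕ → G // Conv d u}, DD d 1 u.1 v.1 < c →
      dist (toY u) (toY v) < e)
    (hfar : ∀ c > 0, ∃ e > 0, ∀ u v : {u : ℕ → G // Conv d u}, c ≤ DD d 1 u.1 v.1 →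
      e ≤ dist (toY u) (toY v)) :
    ∃ ρ : G → G → ℝ, IsExactGeo ρ ∧ Summable (fun g : G => Real.exp (-(p * ρ 1 g))) ∧
      ∃ c > 0, ∀ (k : ℕ) (w : ℕ → ℕ → G), (∀ i, Conv ρ (w i)) →
        c * DD ρ 1 (w 0) (w k) ≤ ∑ i ∈ Finset.range k, DD ρ 1 (w i) (w (i + 1)) := by
  classical
  have hp0 : 0 < p := by
    have : 0 < ENNReal.ofReal p := lt_of_le_of_lt bot_le hp
    simpa using this
  obtain ⟨C, hC0, hnear⟩ := near_exists hd hδ
  have hδabs : |δ| = δ := abs_of_nonneg hδ0
  -- points on the way, base point 1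
  have hnear1 : ∀ (n : ℝ) (u : {u : ℕ → G // Conv d u}), ∃ s, |d 1 s - max n 0| ≤ C ∧
      ∀ᶠ j in atTop, gp d s 1 (u.1 j) ≤ C := fun n u => hnear 1 u.1 u.2 _ (le_max_right _ _)
  choose s1 hs1a hs1b using hnear1
  -- constants
  set c2 : ℝ := Real.exp (-(3 * C + |δ| + 1)) with hc2
  have hc2pos : 0 < c2 := Real.exp_pos _
  obtain ⟨δ0, hδ0pos, hδfar⟩ := hfar c2 hc2pos
  set K : ℝ := 2 / δ0 with hK
  have hKpos : 0 < K := by positivity
  set κ : ℝ := min (δ0 / 2) (1 / 8) with hκ
  have hκpos : 0 < κ := by positivity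
  set E : ℝ := Real.exp δ with hE
  have hE1 : 1 ≤ E := by rw [hE]; exact Real.one_le_exp hδ0
  set CM : ℝ := 4 * C + 2 * (2 * C + |δ| + 1) + 2 * δ with hCM
  set C1 : ℝ := max (Real.exp (3 * C)) E with hC1
  have hfinr : ∀ n, (range (s1 n)).Finite := by
    intro n
    apply (hf (max n 0 + C)).subset
    rintro g ⟨u, rfl⟩
    have := (abs_le.1 (hs1a n u)).2
    show d 1 (s1 n u) ≤ _
    linarith
  obtain ⟨N, hN⟩ := weights_exist hAR p hp
    (fun u v : {u : ℕ → G // Conv d u} => DD d 1 u.1 v.1) toY s1 C1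
    (hf CM).toFinset.card
    (le_max_of_le_right hE1)
    (fun u v => DD_nonneg hd _ _ _)
    (by
      intro n hn u u' huu
      have h1 := hs1a n u
      rw [max_eq_left hn] at h1
      have h2 := near_shadow hd (hs1b n u) (by rw [huu]; exact hs1b n u' : ∀ᶠ j in atTop,
        gp d (s1 n u) 1 (u'.1 j) ≤ C)
      refine h2.trans ?_
      have h3 : Real.exp (-(d 1 (s1 n u) - 2 * C)) ≤ Real.exp (3 * C) * Real.exp (-n) := by
        rw [← Real.exp_add]
        apply Real.exp_le_exp.2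
        have := (abs_le.1 h1).1
        linarith
      exact h3.trans (mul_le_mul_of_nonneg_right (le_max_left _ _) (Real.exp_pos _).le))
    (by
      intro u v w
      refine (DD_ultra hd hδ 1 u.1 v.1 w.1).trans ?_
      exact mul_le_mul_of_nonneg_right (le_max_right _ _)
        (le_max_of_le_left (DD_nonneg hd _ _ _)))
    (by
      intro n hn v F hF
      rcases F.eq_empty_or_nonempty with h0 | ⟨g0, hg0⟩
      · rw [h0]; simp
      have key : ∀ g ∈ F, |d 1 g - n| ≤ C ∧
          ∀ᶠ j in atTop, gp d g 1 (v.1 j) ≤ 2 * C + |δ| + 1 := by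
        intro g hg
        obtain ⟨u, hu1, hu2⟩ := hF g hg
        have h1 := hs1a n u
        rw [max_eq_left hn, hu1] at h1
        have h2 := hs1b n u
        rw [hu1] at h2
        exact ⟨h1, near_of_close hd hδ h1 h2 hu2⟩
      have key2 : ∀ g ∈ F, d g0 g ≤ CM := by
        intro g hg
        obtain ⟨a1, a2⟩ := key g hg
        obtain ⟨b1, b2⟩ := key g0 hg0
        obtain ⟨j, hj1, hj2⟩ := (a2.and b2).exists
        have a3 := (abs_le.1 a1)
        have b3 := (abs_le.1 b1)
        have i1 := hδ 1 g0 (v.1 j) g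
        have i2 : gp d 1 g0 (v.1 j) = d 1 g0 - gp d g0 1 (v.1 j) := by
          have e1 := hd.symm g0 1
          have e2 := hd.symm 1 g0
          unfold gp; linarith
        have i3 : gp d 1 (v.1 j) g = d 1 g - gp d g 1 (v.1 j) := by
          have e1 := hd.symm g 1
          have e2 := hd.symm g (v.1 j)
          unfold gp; linarith
        have i4 : gp d 1 g0 g = (d 1 g0 + d 1 g - d g0 g) / 2 := rfl
        have i5 : n - C - (2 * C + |δ| + 1) ≤ min (gp d 1 g0 (v.1 j)) (gp d 1 (v.1 j) g) := by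
          apply le_min <;> linarith
        rw [hCM]
        linarith
      apply Finset.card_le_card_of_injOn (fun g => g0⁻¹ * g)
      · intro g hg
        simp only [Set.Finite.coe_toFinset, Set.mem_ofPred_eq]
        have := hl g0 1 (g0⁻¹ * g)
        rw [mul_one, mul_inv_cancel_left] at this
        rw [← this]
        exact key2 g hg
      · intro a _ b _ hab
        exact mul_left_cancel hab)
    hfinr hsurj hQS huc κ K E hκpos hKpos (Real.exp_pos _)
  -- the scale n
  set n : ℝ := max N (max 0 (3 * C + |δ| + 1 + δ + 1)) with hn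
  have hnN : N ≤ n := le_max_left _ _
  have hn0 : 0 ≤ n := (le_max_left _ _).trans (le_max_right _ _)
  have hn1 : 3 * C + |δ| + 1 + δ + 1 ≤ n := (le_max_right _ _).trans (le_max_right _ _)
  obtain ⟨r, hr0, hrz, hrY, hrκ, hrsum⟩ := hN n hnN
  have hs1a' : ∀ u, |d 1 (s1 n u) - n| ≤ C := by
    intro u; have := hs1a n u; rwa [max_eq_left hn0] at this
  set t : ℝ := Real.exp (-n) with ht
  have htpos : 0 < t := Real.exp_pos _
  have hEt : E * t < c2 := by
    rw [hE, ht, hc2, ← Real.exp_add]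
    apply Real.exp_lt_exp.2; linarith
  -- the generating set
  set r0 : ℝ := max (n + C) (R + 1) with hr0def
  set S : Finset G := (hf r0).toFinset with hS
  have hSmem : ∀ g, g ∈ S ↔ d 1 g ≤ r0 := by intro g; rw [hS]; simp
  have hSinv : ∀ s ∈ S, s⁻¹ ∈ S := by
    intro s hs
    rw [hSmem] at hs ⊢
    have := hl s⁻¹ 1 s
    rw [mul_one, inv_mul_cancel] at this
    rw [← hd.symm, this]; exact hs
  have hSgen : Subgroup.closure (S : Set G) = ⊤ := by
    have : (S : Set G) = {g : G | d 1 g ≤ r0} := by ext g; simp [hSmem]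
    rw [this]
    exact closure_ball hd hl (le_max_right _ _)
  obtain ⟨b, hb0, hb1⟩ := exists_b p hp0 S.card
  set a : G → ℝ := fun s => max (max (K * r s) (K * r s⁻¹)) b with ha
  have hapos : ∀ s, 0 < a s := fun s => lt_of_lt_of_le hb0 (le_max_right _ _)
  have hsumr : ∑ s ∈ S, (K * r s) ^ p ≤ κ := by
    refine le_trans ?_ hrsum
    rw [← Finset.sum_filter_add_sum_filter_not S (fun g => g ∈ range (s1 n))]
    have z : ∑ x ∈ S.filter (fun g => g ∉ range (s1 n)), (K * r x) ^ p = 0 := by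
      apply Finset.sum_eq_zero
      intro x hx
      rw [Finset.mem_filter] at hx
      rw [hrz x hx.2, mul_zero, Real.zero_rpow hp0.ne']
    rw [z, add_zero]
    apply Finset.sum_le_sum_of_subset_of_nonneg
    · intro x hx
      rw [Finset.mem_filter] at hx
      simpa using hx.2
    · intro x _ _
      exact Real.rpow_nonneg (mul_nonneg hKpos.le (hr0 x)) _
  have hsumr' : ∑ s ∈ S, (K * r s⁻¹) ^ p = ∑ s ∈ S, (K * r s) ^ p := by
    exact Finset.sum_nbij' (fun s => s⁻¹) (fun s => s⁻¹) hSinv hSinv (fun s _ => inv_inv s)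
      (fun s _ => inv_inv s) (fun s _ => rfl)
  have hsum : ∑ s ∈ S, (a s) ^ p < 1 := by
    have h1 : ∀ s ∈ S, (a s) ^ p ≤ (K * r s) ^ p + (K * r s⁻¹) ^ p + b ^ p := by
      intro s _
      have x0 : 0 ≤ K * r s := mul_nonneg hKpos.le (hr0 s)
      have y0 : 0 ≤ K * r s⁻¹ := mul_nonneg hKpos.le (hr0 s⁻¹)
      have hx := Real.rpow_nonneg x0 p
      have hy := Real.rpow_nonneg y0 p
      have hz := Real.rpow_nonneg hb0.le p
      rcases max_cases (max (K * r s) (K * r s⁻¹)) b with h | h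
      · rcases max_cases (K * r s) (K * r s⁻¹) with h' | h'
        · have : a s = K * r s := by rw [ha]; simp only; rw [h.1, h'.1]
          rw [this]; linarith
        · have : a s = K * r s⁻¹ := by rw [ha]; simp only; rw [h.1, h'.1]
          rw [this]; linarith
      · have : a s = b := by rw [ha]; simp only; rw [h.1]
        rw [this]; linarith
    have h2 := Finset.sum_le_sum h1
    rw [Finset.sum_add_distrib, Finset.sum_add_distrib, hsumr', Finset.sum_const,
      nsmul_eq_mul] at h2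
    have h3 : κ ≤ 1 / 8 := min_le_right _ _
    linarith
  obtain ⟨ρ, hρ, hρa, hρsum⟩ := weighted_metric S hSgen hSinv a (fun s _ => hapos s)
    (by
      intro s _
      simp only [ha]
      rw [inv_inv, max_comm (K * r s⁻¹)]) p hp0 hsum
  refine ⟨ρ, hρ, hρsum, ?_⟩
  -- comparison of d and ρ
  obtain ⟨R', hρR⟩ := exactGeo_isRG hρ
  obtain ⟨A₁, B₁, hq1⟩ := qi_bound hd hρR hl hf hρ.left
  obtain ⟨A₂, B₂, hq2⟩ := qi_bound hρR hd hρ.left hρ.fin hl
  have hq1' : ∀ x y, ρ x y ≤ max |A₁| |A₂| * d x y + max |B₁| |B₂| := by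
    intro x y
    have h0 := hd.nonneg x y
    have h1 := mul_le_mul_of_nonneg_right ((le_abs_self A₁).trans (le_max_left |A₁| |A₂|)) h0
    have h2 := (le_abs_self B₁).trans (le_max_left |B₁| |B₂|)
    linarith [hq1 x y]
  have hq2' : ∀ x y, d x y ≤ max |A₁| |A₂| * ρ x y + max |B₁| |B₂| := by
    intro x y
    have h0 := hρR.nonneg x y
    have h1 := mul_le_mul_of_nonneg_right ((le_abs_self A₂).trans (le_max_right |A₁| |A₂|)) h0
    have h2 := (le_abs_self B₂).trans (le_max_right |B₁| |B₂|)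
    linarith [hq2 x y]
  obtain ⟨A', B', hA', hcmp⟩ := gp_compare hd hρR hδ hq2' hq1'
  obtain ⟨r', hr'⟩ := morse hd hρR hδ hq2' hq1' (2 * C + |δ| + 1)
  set c0 : ℝ := Real.exp (-(A' * (n + 1) + B')) with hc0
  have hc0pos : 0 < c0 := Real.exp_pos _
  -- translation of sequences
  let tr : G → {u : ℕ → G // Conv d u} → {u : ℕ → G // Conv d u} :=
    fun g u => ⟨fun i => g⁻¹ * u.1 i, Conv_left hl g⁻¹ u.2⟩
  have htr : ∀ g u v, DD d 1 (tr g u).1 (tr g v).1 = DD d g u.1 v.1 := by
    intro g u v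
    have := DD_left hl g⁻¹ g u.1 v.1
    rw [inv_mul_cancel] at this
    exact this
  have hgp : ∀ (g s : G) (x : G), gp d (g * s) g x = gp d s 1 (g⁻¹ * x) := by
    intro g s x
    have := gp_left hl g s 1 (g⁻¹ * x)
    rw [mul_one, mul_inv_cancel_left] at this
    exact this
  have hchain := chain_lemma (G := G) (B := {u : ℕ → G // Conv d u})
    (fun g u v => DD d g u.1 v.1) (fun g u v => DD ρ g u.1 v.1)
    (fun g u v => dist (toY (tr g u)) (toY (tr g v)))
    (fun g h => Real.exp (-(ρ g h))) (fun g u => g * s1 n (tr g u))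
    c2 t K δ0 (δ0 / 2) c0 E
    (fun g u v => DD_nonneg hρR _ _ _)
    (fun g u => DD_self hd g u.2)
    (fun g u v w => DD_ultra hd hδ _ _ _ _)
    (by
      intro g u v huv
      have h1 : |d g (g * s1 n (tr g u)) - n| ≤ C := by
        have e1 := hl g 1 (s1 n (tr g u))
        rw [mul_one] at e1
        rw [e1]; exact hs1a' _
      have h2 : ∀ᶠ j in atTop, gp d (g * s1 n (tr g u)) g (u.1 j) ≤ C := by
        filter_upwards [hs1b n (tr g u)] with j hj
        rw [hgp]; exact hj
      exact near_branch hd hδ h1 h2 huv)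
    (by
      intro g u v huv
      exact DD_big_of_compare hρR hA' (fun o x y => (hcmp o x y).1) huv)
    (fun g h => (Real.exp_pos _).le)
    (fun g h u v => DD_base hρR g h u.1 v.1)
    (fun g u v w => dist_triangle _ _ _)
    (by
      intro g u v huv
      apply hδfar
      rw [htr]; exact huv)
    (by
      intro g u v huv
      have h1 : DD d 1 (tr g u).1 (tr g v).1 ≤ E * Real.exp (-n) := by
        rw [htr]
        have : t ≤ E * t := le_mul_of_one_le_left htpos.le hE1
        exact huv.le.trans this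
      exact (hrY _ _ h1).trans ((hrκ _).trans (min_le_left _ _)))
    (by
      intro g u v huv
      have h1 : DD d 1 (tr g u).1 (tr g v).1 ≤ E * Real.exp (-n) := by
        rw [htr]; exact huv
      have h2 := hrY _ _ h1
      have h3 : s1 n (tr g u) ∈ S := by
        rw [hSmem]
        have := (abs_le.1 (hs1a' (tr g u))).2
        have : d 1 (s1 n (tr g u)) ≤ n + C := by linarith
        exact this.trans (le_max_left _ _)
      have h4 := hρa _ h3
      have h5 : K * r (s1 n (tr g u)) ≤ a (s1 n (tr g u)) :=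
        (le_max_left _ _).trans (le_max_left _ _)
      have h6 := hρ.left g 1 (s1 n (tr g u))
      rw [mul_one] at h6
      rw [h6]
      have h7 := mul_le_mul_of_nonneg_left h2 hKpos.le
      linarith)
    hKpos.le
    (by
      have : K * (δ0 - δ0 / 2) = 1 := by
        rw [hK]; field_simp; ring
      rw [this])
    hEt htpos (Real.exp_pos _).le hc0pos.le
  -- the final inequality
  refine ⟨c0 * Real.exp (-(2 * r')), by positivity, ?_⟩
  intro k w hw
  have hwd : ∀ i, Conv d (w i) := fun i => conv_of_compare hA' (fun o x y => (hcmp o x y).1) (hw i)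
  have hsumnn : 0 ≤ ∑ i ∈ Finset.range k, DD ρ 1 (w i) (w (i + 1)) :=
    Finset.sum_nonneg fun i _ => DD_nonneg hρR _ _ _
  rcases (DD_nonneg hd 1 (w 0) (w k)).eq_or_lt with h0 | hpos
  · have := DD_zero_of_compare hρR hA' hd (fun o x y => (hcmp o x y).2) h0.symm
    rw [this, mul_zero]; exact hsumnn
  · set n' : ℝ := -Real.log (DD d 1 (w 0) (w k)) with hn'
    have hn'0 : 0 ≤ n' := by
      rw [hn']
      have := Real.log_nonpos hpos.le (DD_le_one hd 1 (w 0) (w k))
      linarith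
    have hexp : Real.exp (-n') = DD d 1 (w 0) (w k) := by
      rw [hn', neg_neg, Real.exp_log hpos]
    obtain ⟨m, hm1, hm2⟩ := hnear 1 (w 0) (hwd 0) n' hn'0
    have hb := near_branch hd hδ hm1 hm2 hexp.le
    have hm3 := near_of_close hd hδ hm1 hm2 hexp.ge
    have hm4 : ∀ᶠ j in atTop, gp ρ m 1 (w k j) ≤ r' := hm3.mono fun j hj => hr' _ _ _ hj
    have hm5 : ∀ᶠ j in atTop, gp ρ m 1 (w 0 j) ≤ r' := by
      refine hm2.mono fun j hj => hr' _ _ _ ?_
      have := abs_nonneg δ
      linarith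
    have hsh := near_shadow hρR hm5 hm4
    have hch := hchain k m (fun i => ⟨w i, hwd i⟩) hb
    have h6 : Real.exp (-(ρ 1 m)) * c0 ≤ ∑ i ∈ Finset.range k, DD ρ 1 (w i) (w (i + 1)) := by
      calc Real.exp (-(ρ 1 m)) * c0
          ≤ Real.exp (-(ρ 1 m)) * ∑ i ∈ Finset.range k, DD ρ m (w i) (w (i + 1)) :=
            mul_le_mul_of_nonneg_left hch (Real.exp_pos _).le
        _ = ∑ i ∈ Finset.range k, Real.exp (-(ρ 1 m)) * DD ρ m (w i) (w (i + 1)) :=
            Finset.mul_sum _ _ _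
        _ ≤ _ := Finset.sum_le_sum fun i _ => DD_base hρR 1 m _ _
    have h7 : Real.exp (-(2 * r')) * DD ρ 1 (w 0) (w k) ≤ Real.exp (-(ρ 1 m)) := by
      calc Real.exp (-(2 * r')) * DD ρ 1 (w 0) (w k)
          ≤ Real.exp (-(2 * r')) * Real.exp (-(ρ 1 m - 2 * r')) := by gcongr
        _ = Real.exp (-(ρ 1 m)) := by rw [← Real.exp_add]; congr 1; ring
    calc c0 * Real.exp (-(2 * r')) * DD ρ 1 (w 0) (w k)
        = c0 * (Real.exp (-(2 * r')) * DD ρ 1 (w 0) (w k)) := by ring
      _ ≤ c0 * Real.exp (-(ρ 1 m)) := mul_le_mul_of_nonneg_left h7 hc0pos.le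
      _ = Real.exp (-(ρ 1 m)) * c0 := mul_comm _ _
      _ ≤ _ := h6

end Pool.Agent.KlCD94
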