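import Mathlib

/-!
# Definitions for Kleiner's question on conformal dimension (MP_0b9722_gt)
-/

open Set Filter Topology MeasureTheory
open scoped ENNReal NNReal

namespace Pool.Agent.KlCD94

/-- Gromov product `(x|y)_o` in a metric space. -/
noncomputable def gprod {X : Type} [MetricSpace X] (o x y : X) : ℝ :=
  (dist o x + dist o y - dist x y) / 2

/-- Gromov hyperbolicity (four point condition). -/
def IsGromovHyperbolic (X : Type) [MetricSpace X] : Prop :=
  ∃ δ : ℝ, ∀ o x y z : X, min (gprod o x y) (gprod o y z) - δ ≤ gprod o x z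

/-- Geodesic metric space: any two points are joined by an isometrically embedded interval. -/
def IsGeodesic (X : Type) [MetricSpace X] : Prop :=
  ∀ x y : X, ∃ γ : ℝ → X, γ 0 = x ∧ γ (dist x y) = y ∧
    ∀ s ∈ Icc (0 : ℝ) (dist x y), ∀ t ∈ Icc (0 : ℝ) (dist x y), dist (γ s) (γ t) = |s - t|

/-- `G` acts geometrically on the (nonempty) proper geodesic metric space `X`: by isometries,
properly discontinuously and cocompactly. -/
structure IsGeometric (G X : Type) [Group G] [MetricSpace X] [MulAction G X] : Prop where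
  nonempty : Nonempty X
  properSpace : ProperSpace X
  geodesic : IsGeodesic X
  isometric : ∀ (g : G) (x y : X), dist (g • x) (g • y) = dist x y
  properlyDiscontinuous :
    ∀ K : Set X, IsCompact K → {g : G | ((fun x => g • x) '' K ∩ K).Nonempty}.Finite
  cocompact : ∃ K : Set X, IsCompact K ∧ ∀ x : X, ∃ g : G, g • x ∈ K

/-- A sequence in `X` converges at infinity. -/
def ConvergesAtInfinity {X : Type} [MetricSpace X] (u : ℕ → X) : Prop :=
  ∀ o : X, Tendsto (fun p : ℕ × ℕ => gprod o (u p.1) (u p.2)) atTop atTop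

/-- Two sequences (converging at infinity) define the same point at infinity. -/
def SameLimit {X : Type} [MetricSpace X] (u v : ℕ → X) : Prop :=
  ∀ o : X, Tendsto (fun p : ℕ × ℕ => gprod o (u p.1) (v p.2)) atTop atTop

/-- The Gromov boundary of a metric space: sequences converging at infinity modulo equivalence. -/
def Boundary (X : Type) [MetricSpace X] : Type :=
  Quot (fun u v : {u : ℕ → X // ConvergesAtInfinity u} => SameLimit u.1 v.1)

/-- The Gromov product `(ξ|η)_o` of two boundary points (supremum over representing sequences of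
the lower limit). -/
noncomputable def bprod {X : Type} [MetricSpace X] (o : X) (ξ η : Boundary X) : EReal :=
  ⨆ (u : {u : ℕ → X // ConvergesAtInfinity u}) (v : {u : ℕ → X // ConvergesAtInfinity u})
    (_ : Quot.mk _ u = ξ) (_ : Quot.mk _ v = η),
    liminf (fun p : ℕ × ℕ => (gprod o (u.1 p.1) (v.1 p.2) : EReal)) atTop

/-- A metric on the Gromov boundary is visual if it is comparable with `exp (-ε (ξ|η)_o)`. -/
def IsVisual {X : Type} [MetricSpace X] (m : MetricSpace (Boundary X)) : Prop :=
  ∃ (o : X) (ε C : ℝ), 0 < ε ∧ 1 ≤ C ∧ ∀ ξ η : Boundary X, ξ ≠ η →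
    C⁻¹ * Real.exp (-(ε * (bprod o ξ η).toReal)) ≤ m.dist ξ η ∧
    m.dist ξ η ≤ C * Real.exp (-(ε * (bprod o ξ η).toReal))

/-- Quasisymmetric homeomorphisms; the distortion function is an increasing bijection of
`[0, ∞)`. -/
def IsQuasisymmetric {Y Z : Type} [MetricSpace Y] [MetricSpace Z] (f : Y ≃ₜ Z) : Prop :=
  ∃ η : ℝ≥0 ≃o ℝ≥0, ∀ x y z : Y, x ≠ z →
    nndist (f x) (f y) ≤ η (nndist x y / nndist x z) * nndist (f x) (f z)

/-- Ahlfors `Q`-regular metric spaces. -/
def IsAhlforsRegular (Y : Type) [MetricSpace Y] (Q : ℝ) : Prop :=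
  0 ≤ Q ∧ ∃ (μ : @Measure Y (borel Y)) (C : ℝ), 1 ≤ C ∧
    ∀ (y : Y) (r : ℝ), 0 < r → r ≤ Metric.diam (univ : Set Y) →
      ENNReal.ofReal (C⁻¹ * r ^ Q) ≤ μ (Metric.closedBall y r) ∧
      μ (Metric.closedBall y r) ≤ ENNReal.ofReal (C * r ^ Q)

/-- `Y` belongs to the conformal gauge of the boundary of `G`: it is quasisymmetrically equivalent
to the boundary of a proper geodesic space with a geometric action of `G`, with a visual metric. -/
def InGauge (G Y : Type) [Group G] [MetricSpace Y] : Prop :=
  ∃ (X : Type) (_ : MetricSpace X) (_ : MulAction G X) (m : MetricSpace (Boundary X)),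
    IsGeometric G X ∧ IsVisual m ∧ ∃ f : Y ≃ₜ Boundary X, IsQuasisymmetric f

/-- Ahlfors regular conformal dimension of the boundary of `G`. -/
noncomputable def ACD (G : Type) [Group G] : ℝ≥0∞ :=
  sInf {D | ∃ (Y : Type) (_ : MetricSpace Y), CompactSpace Y ∧ InGauge G Y ∧
    (∃ Q : ℝ, IsAhlforsRegular Y Q) ∧ D = dimH (univ : Set Y)}

/-- Infimum of the Hausdorff dimensions of the visual metrics of all geometric actions of `G`. -/
noncomputable def VD (G : Type) [Group G] : ℝ≥0∞ :=
  sInf {D | ∃ (X : Type) (_ : MetricSpace X) (_ : MulAction G X) (_ : MetricSpace (Boundary X)),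
    IsGeometric G X ∧ IsVisual (X := X) inferInstance ∧ D = dimH (univ : Set (Boundary X))}

/-- Word length with respect to a set `S`. -/
noncomputable def wordLength {G : Type} [Group G] (S : Set G) (g : G) : ℕ :=
  sInf {n | ∃ l : List G, l.length = n ∧ (∀ s ∈ l, s ∈ S ∨ s⁻¹ ∈ S) ∧ l.prod = g}

/-- Gromov product for the word metric. -/
noncomputable def wordProd {G : Type} [Group G] (S : Set G) (o x y : G) : ℝ :=
  ((wordLength S (o⁻¹ * x) : ℝ) + wordLength S (o⁻¹ * y) - wordLength S (x⁻¹ * y)) / 2

/-- Finitely generated Gromov hyperbolic group. -/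
def IsHyperbolicGroup (G : Type) [Group G] : Prop :=
  ∃ S : Set G, S.Finite ∧ Subgroup.closure S = ⊤ ∧
    ∃ δ : ℝ, ∀ o x y z : G, min (wordProd S o x y) (wordProd S o y z) - δ ≤ wordProd S o x z

end Pool.Agent.KlCD94
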