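import Pool.Agent.KlCD94.Base

/-!
# Boundary dictionary (MP_0b9722_gt, task B)
-/

open Set Filter Topology MeasureTheory
open scoped ENNReal NNReal

namespace Pool.Agent.KlCD94
namespace Dict

variable {X : Type} [MetricSpace X]

lemma gprod_comm (o x y : X) : gprod o x y = gprod o y x := by
  unfold gprod
  rw [dist_comm x y]
  ring

lemma gprod_nonneg (o x y : X) : 0 ≤ gprod o x y := by
  unfold gprod
  have := dist_triangle x o y
  rw [dist_comm x o] at this
  linarith

lemma gprod_lip (o x y x' y' : X) : gprod o x y - (dist x x' + dist y y') ≤ gprod o x' y' := by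
  unfold gprod
  have h1 := dist_triangle o x' x
  have h2 := dist_triangle o y' y
  have h3 := dist_triangle4 x' x y y'
  rw [dist_comm x' x] at h1 h3
  rw [dist_comm y' y] at h2
  linarith

lemma gprod_base (o o' x y : X) : gprod o x y - dist o o' ≤ gprod o' x y := by
  unfold gprod
  have h1 := dist_triangle o o' x
  have h2 := dist_triangle o o' y
  linarith

/-- divergence to infinity along `ℕ × ℕ`. -/
lemma tendsto_iff (F : ℕ → ℕ → ℝ) :
    Tendsto (fun p : ℕ × ℕ => F p.1 p.2) atTop atTop ↔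
      ∀ c : ℝ, ∃ N : ℕ, ∀ i ≥ N, ∀ j ≥ N, c ≤ F i j := by
  rw [tendsto_atTop]
  constructor
  · intro h c
    obtain ⟨p, hp⟩ := eventually_atTop.1 (h c)
    refine ⟨max p.1 p.2, fun i hi j hj => hp (i, j) ⟨?_, ?_⟩⟩
    · exact le_trans (le_max_left _ _) hi
    · exact le_trans (le_max_right _ _) hj
  · intro h c
    obtain ⟨N, hN⟩ := h c
    exact eventually_atTop.2 ⟨(N, N), fun p hp => hN p.1 hp.1 p.2 hp.2⟩

lemma eventually_iff (P : ℕ → ℕ → Prop) :
    (∀ᶠ p : ℕ × ℕ in atTop, P p.1 p.2) ↔ ∃ N : ℕ, ∀ i ≥ N, ∀ j ≥ N, P i j := by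
  rw [eventually_atTop]
  constructor
  · rintro ⟨p, hp⟩
    refine ⟨max p.1 p.2, fun i hi j hj => hp (i, j) ⟨?_, ?_⟩⟩
    · exact le_trans (le_max_left _ _) hi
    · exact le_trans (le_max_right _ _) hj
  · rintro ⟨N, hN⟩
    exact ⟨(N, N), fun p hp => hN p.1 hp.1 p.2 hp.2⟩

/-- two sequences go to the same point, one basepoint. -/
def TT (o : X) (a b : ℕ → X) : Prop :=
  ∀ c : ℝ, ∃ N : ℕ, ∀ i ≥ N, ∀ j ≥ N, c ≤ gprod o (a i) (b j)

lemma TT_base {o : X} {a b : ℕ → X} (h : TT o a b) (o' : X) : TT o' a b := by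
  intro c
  obtain ⟨N, hN⟩ := h (c + dist o o')
  refine ⟨N, fun i hi j hj => ?_⟩
  have := hN i hi j hj
  have h2 := gprod_base o o' (a i) (b j)
  linarith

lemma TT_symm {o : X} {a b : ℕ → X} (h : TT o a b) : TT o b a := by
  intro c
  obtain ⟨N, hN⟩ := h c
  refine ⟨N, fun i hi j hj => ?_⟩
  rw [gprod_comm]
  exact hN j hj i hi

lemma TT_trans {δ : ℝ} (hδ : ∀ o x y z : X, min (gprod o x y) (gprod o y z) - δ ≤ gprod o x z)
    {o : X} {a b c : ℕ → X} (h1 : TT o a b) (h2 : TT o b c) : TT o a c := by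
  intro t
  obtain ⟨N, hN⟩ := h1 (t + δ)
  obtain ⟨N', hN'⟩ := h2 (t + δ)
  refine ⟨max N N', fun i hi j hj => ?_⟩
  have e1 := hN i (le_trans (le_max_left _ _) hi) (max N N') (le_max_left _ _)
  have e2 := hN' (max N N') (le_max_right _ _) j (le_trans (le_max_right _ _) hj)
  have e3 := hδ o (a i) (b (max N N')) (c j)
  have e4 := le_min e1 e2
  linarith

lemma TT_near {o : X} {a b a' b' : ℕ → X} {R : ℝ} (h : TT o a b)
    (ha : ∀ n, dist (a n) (a' n) ≤ R) (hb : ∀ n, dist (b n) (b' n) ≤ R) : TT o a' b' := by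
  intro c
  obtain ⟨N, hN⟩ := h (c + (R + R))
  refine ⟨N, fun i hi j hj => ?_⟩
  have e1 := hN i hi j hj
  have e2 := gprod_lip o (a i) (b j) (a' i) (b' j)
  have e3 := ha i
  have e4 := hb j
  linarith

lemma sameLimit_iff (o : X) (a b : ℕ → X) : SameLimit a b ↔ TT o a b := by
  constructor
  · intro h
    exact (tendsto_iff _).1 (h o)
  · intro h o'
    exact (tendsto_iff (fun i j => gprod o' (a i) (b j))).2 (TT_base h o')

lemma conv_iff (o : X) (a : ℕ → X) : ConvergesAtInfinity a ↔ TT o a a :=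
  sameLimit_iff o a a

lemma equiv (o : X) {δ : ℝ}
    (hδ : ∀ o x y z : X, min (gprod o x y) (gprod o y z) - δ ≤ gprod o x z) :
    Equivalence (fun u v : {u : ℕ → X // ConvergesAtInfinity u} => SameLimit u.1 v.1) where
  refl u := u.2
  symm {u v} h := by
    rw [sameLimit_iff o] at h ⊢
    exact TT_symm h
  trans {u v w} h1 h2 := by
    rw [sameLimit_iff o] at h1 h2 ⊢
    exact TT_trans hδ h1 h2

lemma mk_eq_iff (o : X) {δ : ℝ}
    (hδ : ∀ o x y z : X, min (gprod o x y) (gprod o y z) - δ ≤ gprod o x z)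
    (a b : {u : ℕ → X // ConvergesAtInfinity u}) :
    (Quot.mk _ a : Boundary X) = Quot.mk _ b ↔ TT o a.1 b.1 := by
  rw [(equiv o hδ).quot_mk_eq_iff, sameLimit_iff o]

section action
variable {G : Type} [Group G] [MulAction G X]

lemma gp_eq (o : X) (a x y : G) :
    gp (fun g h : G => dist (g • o) (h • o)) a x y = gprod (a • o) (x • o) (y • o) := rfl

lemma cobounded (h : IsGeometric G X) (o : X) : ∃ R : ℝ, ∀ x : X, ∃ g : G, dist x (g • o) ≤ R := by
  obtain ⟨K, hK, hc⟩ := h.cocompact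
  obtain ⟨R, hR⟩ := hK.isBounded.subset_closedBall o
  refine ⟨R, fun x => ?_⟩
  obtain ⟨g, hg⟩ := hc x
  refine ⟨g⁻¹, ?_⟩
  have h1 := hR hg
  rw [Metric.mem_closedBall] at h1
  rw [← h.isometric g x, smul_inv_smul]
  exact h1

lemma hypX (h : IsGeometric G X) (o : X)
    (hyp : ∃ δ, Hyp (fun g h : G => dist (g • o) (h • o)) δ) :
    ∃ δ : ℝ, ∀ o x y z : X, min (gprod o x y) (gprod o y z) - δ ≤ gprod o x z := by
  obtain ⟨δ, hδ⟩ := hyp
  obtain ⟨R, hR⟩ := cobounded h o
  refine ⟨δ + 6 * R, fun p x y z => ?_⟩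
  obtain ⟨gp', hp⟩ := hR p
  obtain ⟨gx, hx⟩ := hR x
  obtain ⟨gy, hy⟩ := hR y
  obtain ⟨gz, hz⟩ := hR z
  have key := hδ gp' gx gy gz
  simp only [gp_eq] at key
  have e1 : gprod p x y - 3 * R ≤ gprod (gp' • o) (gx • o) (gy • o) := by
    have a1 := gprod_base p (gp' • o) x y
    have a2 := gprod_lip (gp' • o) x y (gx • o) (gy • o)
    linarith
  have e2 : gprod p y z - 3 * R ≤ gprod (gp' • o) (gy • o) (gz • o) := by
    have a1 := gprod_base p (gp' • o) y z
    have a2 := gprod_lip (gp' • o) y z (gy • o) (gz • o)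
    linarith
  have e3 : gprod (gp' • o) (gx • o) (gz • o) - 3 * R ≤ gprod p x z := by
    have a1 := gprod_base (gp' • o) p (gx • o) (gz • o)
    have a2 := gprod_lip p (gx • o) (gz • o) x z
    rw [dist_comm] at hx hz hp
    linarith
  have e4 : min (gprod p x y) (gprod p y z) - 3 * R ≤
      min (gprod (gp' • o) (gx • o) (gy • o)) (gprod (gp' • o) (gy • o) (gz • o)) := by
    apply le_min
    · have := min_le_left (gprod p x y) (gprod p y z)
      linarith
    · have := min_le_right (gprod p x y) (gprod p y z)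
      linarith
  linarith

lemma Conv_iff (o : X) (u : ℕ → G) : Conv (fun g h : G => dist (g • o) (h • o)) u ↔
    TT o (fun n => u n • o) (fun n => u n • o) := by
  constructor
  · intro h
    have h1 := (tendsto_iff (fun i j => gp (fun g h : G => dist (g • o) (h • o)) 1 (u i) (u j))).1
      (h 1)
    simp only [gp_eq, one_smul] at h1
    exact h1
  · intro h a
    exact (tendsto_iff (fun i j => gprod (a • o) (u i • o) (u j • o))).2 (TT_base h (a • o))

lemma conv_orbit (o : X) {u : ℕ → G} (hu : Conv (fun g h : G => dist (g • o) (h • o)) u) :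
    ConvergesAtInfinity (fun n => u n • o) := by
  rw [conv_iff o]
  exact (Conv_iff o u).1 hu

end action

/-- the `limsup` of `exp (-(a|b))`. -/
noncomputable def LL (o : X) (a b : ℕ → X) : ℝ :=
  limsup (fun p : ℕ × ℕ => Real.exp (-(gprod o (a p.1) (b p.2)))) atTop

lemma exp_le_one (o : X) (a b : ℕ → X) (p : ℕ × ℕ) :
    Real.exp (-(gprod o (a p.1) (b p.2))) ≤ 1 := by
  rw [Real.exp_le_one_iff]
  have := gprod_nonneg o (a p.1) (b p.2)
  linarith

lemma bdd_le (o : X) (a b : ℕ → X) : IsBoundedUnder (· ≤ ·) atTop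
    (fun p : ℕ × ℕ => Real.exp (-(gprod o (a p.1) (b p.2)))) :=
  isBoundedUnder_of ⟨1, fun p => exp_le_one o a b p⟩

lemma bdd_ge (o : X) (a b : ℕ → X) : IsBoundedUnder (· ≥ ·) atTop
    (fun p : ℕ × ℕ => Real.exp (-(gprod o (a p.1) (b p.2)))) :=
  isBoundedUnder_of ⟨0, fun _ => (Real.exp_pos _).le⟩

lemma LL_le {o : X} {a b : ℕ → X} {c : ℝ} (h : ∃ N : ℕ, ∀ i ≥ N, ∀ j ≥ N, c ≤ gprod o (a i) (b j)) :
    LL o a b ≤ Real.exp (-c) := by
  unfold LL
  apply limsup_le_of_le (bdd_ge o a b).isCoboundedUnder_le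
  refine (eventually_iff (fun i j => Real.exp (-(gprod o (a i) (b j))) ≤ Real.exp (-c))).2 ?_
  obtain ⟨N, hN⟩ := h
  refine ⟨N, fun i hi j hj => ?_⟩
  have := hN i hi j hj
  exact Real.exp_le_exp.2 (by linarith)

lemma LL_lt {o : X} {a b : ℕ → X} {c : ℝ} (h : LL o a b < c) :
    ∃ N : ℕ, ∀ i ≥ N, ∀ j ≥ N, Real.exp (-(gprod o (a i) (b j))) < c :=
  (eventually_iff (fun i j => Real.exp (-(gprod o (a i) (b j))) < c)).1
    (eventually_lt_of_limsup_lt h (bdd_le o a b))

lemma LL_nonneg (o : X) (a b : ℕ → X) : 0 ≤ LL o a b := by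
  by_contra hlt
  rw [not_le] at hlt
  obtain ⟨N, hN⟩ := LL_lt hlt
  have := hN N le_rfl N le_rfl
  exact absurd this (not_lt.2 (Real.exp_pos _).le)

lemma LL_eq_zero_iff (o : X) (a b : ℕ → X) : LL o a b = 0 ↔ TT o a b := by
  constructor
  · intro h c
    have h1 : LL o a b < Real.exp (-c) := by
      rw [h]
      exact Real.exp_pos _
    obtain ⟨N, hN⟩ := LL_lt h1
    refine ⟨N, fun i hi j hj => ?_⟩
    have := Real.exp_lt_exp.1 (hN i hi j hj)
    linarith
  · intro h
    apply le_antisymm _ (LL_nonneg o a b)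
    apply le_of_forall_pos_lt_add
    intro ε hε
    have h1 := LL_le (h (-Real.log (ε / 2)))
    rw [neg_neg, Real.exp_log (by positivity)] at h1
    linarith

lemma lim_lower {o : X} {a b : ℕ → X} (hL : 0 < LL o a b) :
    ((-Real.log (2 * LL o a b) : ℝ) : EReal) ≤
      liminf (fun p : ℕ × ℕ => (gprod o (a p.1) (b p.2) : EReal)) atTop := by
  apply le_liminf_of_le
  · exact isCobounded_ge_of_top
  · have h1 : LL o a b < 2 * LL o a b := by linarith
    obtain ⟨N, hN⟩ := LL_lt h1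
    refine (eventually_iff (fun i j => ((-Real.log (2 * LL o a b) : ℝ) : EReal) ≤
      (gprod o (a i) (b j) : EReal))).2 ⟨N, fun i hi j hj => ?_⟩
    have h2 := hN i hi j hj
    rw [EReal.coe_le_coe_iff]
    have h3 : -(gprod o (a i) (b j)) < Real.log (2 * LL o a b) := by
      rw [Real.lt_log_iff_exp_lt (by linarith)]
      exact h2
    linarith

lemma lim_upper {δ : ℝ}
    (hδ : ∀ o x y z : X, min (gprod o x y) (gprod o y z) - δ ≤ gprod o x z)
    {o : X} {a b a' b' : ℕ → X} (ha : TT o a a') (hb : TT o b b') (hL : 0 < LL o a b) :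
    liminf (fun p : ℕ × ℕ => (gprod o (a' p.1) (b' p.2) : EReal)) atTop ≤
      ((-Real.log (LL o a b) + 2 * δ : ℝ) : EReal) := by
  apply le_of_forall_lt
  intro t ht
  obtain ⟨c, hc1, hc2⟩ := EReal.lt_iff_exists_real_btwn.1 ht
  refine lt_of_lt_of_le hc1 ?_
  rw [EReal.coe_le_coe_iff]
  have h1 := eventually_lt_of_lt_liminf hc2
  obtain ⟨N, hN⟩ := (eventually_iff (fun i j => (c : EReal) < (gprod o (a' i) (b' j) : EReal))).1 h1
  obtain ⟨N1, hN1⟩ := ha c
  obtain ⟨N2, hN2⟩ := hb c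
  have h2 : LL o a b ≤ Real.exp (-(c - 2 * δ)) := by
    apply LL_le
    refine ⟨max N (max N1 N2), fun i hi j hj => ?_⟩
    set k := max N (max N1 N2) with hk
    have k0 : N ≤ k := le_max_left _ _
    have k1 : N1 ≤ k := le_trans (le_max_left _ _) (le_max_right _ _)
    have k2 : N2 ≤ k := le_trans (le_max_right _ _) (le_max_right _ _)
    have f1 := hN1 i (le_trans k1 hi) k k1
    have f2 := EReal.coe_lt_coe_iff.1 (hN k k0 k k0)
    have f3 := hN2 j (le_trans k2 hj) k k2
    rw [gprod_comm] at f3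
    have g1 := hδ o (a i) (a' k) (b' k)
    have g2 := hδ o (a i) (b' k) (b j)
    have m1 := le_min f1 f2.le
    have m2 : c - δ ≤ min (gprod o (a i) (b' k)) (gprod o (b' k) (b j)) := by
      apply le_min
      · linarith
      · have d0 : 0 ≤ δ := by
          have := hδ (a i) (a i) (a i) (a i)
          rw [min_self] at this
          linarith
        linarith
    linarith
  have h4 : Real.log (LL o a b) ≤ -(c - 2 * δ) := by
    rw [Real.log_le_iff_le_exp hL]
    exact h2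
  linarith

lemma bprod_bounds {δ : ℝ}
    (hδ : ∀ o x y z : X, min (gprod o x y) (gprod o y z) - δ ≤ gprod o x z)
    (o : X) (a b : {u : ℕ → X // ConvergesAtInfinity u}) (hL : 0 < LL o a.1 b.1) :
    ((-Real.log (2 * LL o a.1 b.1) : ℝ) : EReal) ≤ bprod o (Quot.mk _ a) (Quot.mk _ b) ∧
    bprod o (Quot.mk _ a) (Quot.mk _ b) ≤ ((-Real.log (LL o a.1 b.1) + 2 * δ : ℝ) : EReal) := by
  constructor
  · refine le_trans (lim_lower hL) ?_
    unfold bprod
    exact le_iSup_of_le a (le_iSup_of_le b (le_iSup_of_le rfl (le_iSup_of_le rfl le_rfl)))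
  · unfold bprod
    refine iSup_le fun a' => iSup_le fun b' => iSup_le fun ha => iSup_le fun hb => ?_
    have ha' := TT_symm ((mk_eq_iff o hδ _ _).1 ha)
    have hb' := TT_symm ((mk_eq_iff o hδ _ _).1 hb)
    exact lim_upper hδ ha' hb' hL

lemma exp_bounds {δ : ℝ}
    (hδ : ∀ o x y z : X, min (gprod o x y) (gprod o y z) - δ ≤ gprod o x z)
    (o : X) (a b : {u : ℕ → X // ConvergesAtInfinity u}) (hL : 0 < LL o a.1 b.1) :
    Real.exp (-(2 * δ)) * LL o a.1 b.1 ≤
      Real.exp (-(bprod o (Quot.mk _ a) (Quot.mk _ b)).toReal) ∧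
    Real.exp (-(bprod o (Quot.mk _ a) (Quot.mk _ b)).toReal) ≤ 2 * LL o a.1 b.1 := by
  obtain ⟨h1, h2⟩ := bprod_bounds hδ o a b hL
  set β := bprod o (Quot.mk _ a) (Quot.mk _ b) with hβ
  have hb : β ≠ ⊥ := by
    intro h
    rw [h, le_bot_iff] at h1
    exact EReal.coe_ne_bot _ h1
  have ht : β ≠ ⊤ := by
    intro h
    rw [h, top_le_iff] at h2
    exact EReal.coe_ne_top _ h2
  have e := EReal.coe_toReal ht hb
  rw [← e, EReal.coe_le_coe_iff] at h1 h2
  constructor
  · have : Real.exp (-(2 * δ)) * LL o a.1 b.1 =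
        Real.exp (-(-Real.log (LL o a.1 b.1) + 2 * δ)) := by
      rw [neg_add, neg_neg, Real.exp_add, Real.exp_log hL, mul_comm]
    rw [this]
    exact Real.exp_le_exp.2 (by linarith)
  · have : 2 * LL o a.1 b.1 = Real.exp (-(-Real.log (2 * LL o a.1 b.1))) := by
      rw [neg_neg, Real.exp_log (by linarith)]
    rw [this]
    exact Real.exp_le_exp.2 (by linarith)

end Dict

/-- Dictionary between sequences in the group and the Gromov boundary. -/
theorem dict {G X : Type} [Group G] [MetricSpace X] [MulAction G X] (h : IsGeometric G X) (o : X)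
    (hyp : ∃ δ, Hyp (fun g h : G => dist (g • o) (h • o)) δ) :
    ∃ (bd : {u : ℕ → G // Conv (fun g h : G => dist (g • o) (h • o)) u} → Boundary X) (C : ℝ),
      1 ≤ C ∧ Function.Surjective bd ∧
      (∀ u v, bd u = bd v ↔ DD (fun g h : G => dist (g • o) (h • o)) 1 u.1 v.1 = 0) ∧
      ∀ u v, bd u ≠ bd v →
        C⁻¹ * DD (fun g h : G => dist (g • o) (h • o)) 1 u.1 v.1
            ≤ Real.exp (-(bprod o (bd u) (bd v)).toReal) ∧
        Real.exp (-(bprod o (bd u) (bd v)).toReal)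
            ≤ C * DD (fun g h : G => dist (g • o) (h • o)) 1 u.1 v.1 := by
  obtain ⟨δ, hδ⟩ := Dict.hypX h o hyp
  obtain ⟨R, hR⟩ := Dict.cobounded h o
  have hDD : ∀ u v : ℕ → G, DD (fun g h : G => dist (g • o) (h • o)) 1 u v =
      Dict.LL o (fun n => u n • o) (fun n => v n • o) := by
    intro u v
    unfold DD Dict.LL
    simp only [Dict.gp_eq, one_smul]
  have hiff : ∀ u v : {u : ℕ → G // Conv (fun g h : G => dist (g • o) (h • o)) u},
      (Quot.mk _ ⟨fun n => u.1 n • o, Dict.conv_orbit o u.2⟩ : Boundary X) =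
        Quot.mk _ ⟨fun n => v.1 n • o, Dict.conv_orbit o v.2⟩ ↔
      DD (fun g h : G => dist (g • o) (h • o)) 1 u.1 v.1 = 0 := by
    intro u v
    rw [Dict.mk_eq_iff o hδ, hDD, Dict.LL_eq_zero_iff]
  refine ⟨fun u => Quot.mk _ ⟨fun n => u.1 n • o, Dict.conv_orbit o u.2⟩,
    2 * Real.exp (2 * |δ|), ?_, ?_, hiff, ?_⟩
  · have : 1 ≤ Real.exp (2 * |δ|) := Real.one_le_exp (by positivity)
    linarith
  · intro ξ
    induction ξ using Quot.ind with
    | mk a =>
      choose g hg using hR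
      have hg0 : ∀ n, dist (a.1 n) (g (a.1 n) • o) ≤ R := fun n => hg (a.1 n)
      have haa : Dict.TT o a.1 a.1 := (Dict.conv_iff o a.1).1 a.2
      have hconv : Conv (fun g h : G => dist (g • o) (h • o)) (fun n => g (a.1 n)) := by
        rw [Dict.Conv_iff]
        exact Dict.TT_near haa hg0 hg0
      refine ⟨⟨fun n => g (a.1 n), hconv⟩, ?_⟩
      show (Quot.mk _ _ : Boundary X) = Quot.mk _ a
      rw [Dict.mk_eq_iff o hδ]
      have hR0 : 0 ≤ R := le_trans dist_nonneg (hg0 0)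
      exact Dict.TT_near haa hg0 (fun n => by rw [dist_self]; exact hR0)
  · intro u v huv
    have hL : 0 < Dict.LL o (fun n => u.1 n • o) (fun n => v.1 n • o) := by
      rcases (Dict.LL_nonneg o (fun n => u.1 n • o) (fun n => v.1 n • o)).lt_or_eq with h1 | h1
      · exact h1
      · exfalso
        exact huv ((hiff u v).2 (by rw [hDD]; exact h1.symm))
    obtain ⟨e1, e2⟩ := Dict.exp_bounds hδ o ⟨fun n => u.1 n • o, Dict.conv_orbit o u.2⟩
      ⟨fun n => v.1 n • o, Dict.conv_orbit o v.2⟩ hL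
    rw [hDD]
    have h1 : 1 ≤ Real.exp (2 * |δ|) := Real.one_le_exp (by positivity)
    have h0 : 0 < Real.exp (2 * |δ|) := Real.exp_pos _
    constructor
    · refine le_trans ?_ e1
      apply mul_le_mul_of_nonneg_right _ hL.le
      rw [mul_inv, ← Real.exp_neg]
      have h2 : Real.exp (-(2 * |δ|)) ≤ Real.exp (-(2 * δ)) :=
        Real.exp_le_exp.2 (by have := le_abs_self δ; linarith)
      have h3 : 0 < Real.exp (-(2 * |δ|)) := Real.exp_pos _
      nlinarith
    · refine le_trans e2 ?_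
      apply mul_le_mul_of_nonneg_right _ hL.le
      linarith

end Pool.Agent.KlCD94
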