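import Pool.Agent.KlCD94.Base

/-!
# Metric graph of an exact path metric on a group (MP_0b9722_gt)
-/

open Set Filter Topology

namespace Pool.Agent.KlCD94

namespace Realize

set_option linter.unusedSectionVars false

variable {G : Type} [Group G] {ρ : G → G → ℝ} {M : ℝ}

/-- Points of the metric graph: `t` units from `g` on the segment from `g` to `h`. -/
@[ext] structure Pt (ρ : G → G → ℝ) (M : ℝ) : Type where
  g : G
  h : G
  t : ℝ
  le : ρ g h ≤ M
  t0 : 0 ≤ t
  tL : t ≤ ρ g h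

/-- Distance from the point `x` to the vertex `z`. -/
noncomputable def ff (x : Pt ρ M) (z : G) : ℝ :=
  min (x.t + ρ x.g z) (ρ x.g x.h - x.t + ρ x.h z)

/-- Distance through vertices. -/
noncomputable def EE (x y : Pt ρ M) : ℝ := ⨅ v, (ff x v + ff y v)

open Classical in
/-- The distance of the metric graph. -/
noncomputable def dd (x y : Pt ρ M) : ℝ :=
  if x.g = y.g ∧ x.h = y.h then |x.t - y.t| else EE x y

theorem nonneg (hρ : IsExactGeo ρ) (x y : G) : 0 ≤ ρ x y := by
  by_cases h : x = y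
  · rw [h, hρ.self]
  · exact (hρ.pos x y h).le

theorem ff_nonneg (hρ : IsExactGeo ρ) (x : Pt ρ M) (z : G) : 0 ≤ ff x z := by
  unfold ff
  apply le_min
  · have := nonneg hρ x.g z
    have := x.t0
    linarith
  · have := nonneg hρ x.h z
    have := x.tL
    linarith

theorem ff_add (hρ : IsExactGeo ρ) (x : Pt ρ M) (v w : G) : ρ v w ≤ ff x v + ff x w := by
  unfold ff
  have h0 := x.t0
  have h1 := x.tL
  have a1 := hρ.tri v x.g w
  have a2 := hρ.tri v x.h w
  have a3 := hρ.tri x.g x.h w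
  have a4 := hρ.tri v x.h x.g
  have a5 := hρ.symm v x.g
  have a6 := hρ.symm v x.h
  have a7 := hρ.symm x.h x.g
  have a8 := hρ.tri x.h x.g w
  have a9 := hρ.tri v x.g x.h
  rcases min_choice (x.t + ρ x.g v) (ρ x.g x.h - x.t + ρ x.h v) with h | h <;>
    rcases min_choice (x.t + ρ x.g w) (ρ x.g x.h - x.t + ρ x.h w) with h' | h' <;>
    rw [h, h'] <;> linarith

theorem ff_lip (hρ : IsExactGeo ρ) (x : Pt ρ M) (v w : G) : ff x w ≤ ff x v + ρ v w := by
  unfold ff
  have a1 := hρ.tri x.g v w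
  have a2 := hρ.tri x.h v w
  rcases min_choice (x.t + ρ x.g v) (ρ x.g x.h - x.t + ρ x.h v) with h | h <;> rw [h]
  · exact (min_le_left _ _).trans (by linarith)
  · exact (min_le_right _ _).trans (by linarith)

theorem ff_g (hρ : IsExactGeo ρ) (x : Pt ρ M) : ff x x.g = x.t := by
  unfold ff
  have h1 := x.tL
  rw [hρ.self, hρ.symm x.h x.g, min_eq_left (by linarith)]
  ring

theorem ff_h (hρ : IsExactGeo ρ) (x : Pt ρ M) : ff x x.h = ρ x.g x.h - x.t := by
  unfold ff
  have h1 := x.t0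
  rw [hρ.self, min_eq_right (by linarith)]
  ring

theorem ff_same (x y : Pt ρ M) (hg : x.g = y.g) (hh : x.h = y.h) (v : G) :
    ff x v ≤ |x.t - y.t| + ff y v := by
  unfold ff
  rw [hg, hh]
  have h1 := le_abs_self (x.t - y.t)
  have h2 := neg_abs_le (x.t - y.t)
  rcases min_choice (y.t + ρ y.g v) (ρ y.g y.h - y.t + ρ y.h v) with h | h <;> rw [h]
  · exact (min_le_left _ _).trans (by linarith)
  · exact (min_le_right _ _).trans (by linarith)

theorem bdd (hρ : IsExactGeo ρ) (x y : Pt ρ M) : BddBelow (range fun v => ff x v + ff y v) :=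
  ⟨0, by
    rintro _ ⟨v, rfl⟩
    have := ff_nonneg hρ x v
    have := ff_nonneg hρ y v
    show 0 ≤ ff x v + ff y v
    linarith⟩

theorem EE_le (hρ : IsExactGeo ρ) (x y : Pt ρ M) (v : G) : EE x y ≤ ff x v + ff y v :=
  ciInf_le (bdd hρ x y) v

theorem EE_comm (x y : Pt ρ M) : EE x y = EE y x := by
  unfold EE
  congr 1
  funext v
  ring

theorem EE_tri (hρ : IsExactGeo ρ) (x y z : Pt ρ M) : EE x z ≤ EE x y + EE y z := by
  unfold EE
  apply le_ciInf_add_ciInf
  intro v w
  refine (EE_le hρ x z w).trans ?_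
  have h1 := ff_add hρ y v w
  have h2 := ff_lip hρ x v w
  linarith

theorem le_EE (hρ : IsExactGeo ρ) (x y : Pt ρ M) (hg : x.g = y.g) (hh : x.h = y.h) :
    |x.t - y.t| ≤ EE x y := by
  apply le_ciInf
  intro v
  have h0 := x.t0
  have h1 := x.tL
  have h2 := y.t0
  have h3 := y.tL
  have h4 := nonneg hρ y.g v
  have h5 := nonneg hρ y.h v
  have h6 := hρ.tri y.g v y.h
  have h7 := hρ.symm v y.h
  unfold ff
  rw [hg, hh] at *
  rw [abs_le]
  rcases min_choice (x.t + ρ y.g v) (ρ y.g y.h - x.t + ρ y.h v) with h | h <;>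
    rcases min_choice (y.t + ρ y.g v) (ρ y.g y.h - y.t + ρ y.h v) with h' | h' <;>
    rw [h, h'] <;> constructor <;> linarith

theorem EE_same_left (hρ : IsExactGeo ρ) (x y z : Pt ρ M) (hg : x.g = y.g) (hh : x.h = y.h) :
    EE x z ≤ |x.t - y.t| + EE y z := by
  rw [← sub_le_iff_le_add']
  apply le_ciInf
  intro v
  have h1 := EE_le hρ x z v
  have h2 := ff_same x y hg hh v
  linarith

theorem dd_same (x y : Pt ρ M) (hg : x.g = y.g) (hh : x.h = y.h) : dd x y = |x.t - y.t| := by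
  unfold dd
  rw [if_pos ⟨hg, hh⟩]

theorem dd_diff (x y : Pt ρ M) (h : ¬ (x.g = y.g ∧ x.h = y.h)) : dd x y = EE x y := by
  unfold dd
  rw [if_neg h]

theorem dd_le_EE (hρ : IsExactGeo ρ) (x y : Pt ρ M) : dd x y ≤ EE x y := by
  by_cases h : x.g = y.g ∧ x.h = y.h
  · rw [dd_same x y h.1 h.2]
    exact le_EE hρ x y h.1 h.2
  · rw [dd_diff x y h]

theorem dd_comm (x y : Pt ρ M) : dd x y = dd y x := by
  by_cases h : x.g = y.g ∧ x.h = y.h
  · rw [dd_same x y h.1 h.2, dd_same y x h.1.symm h.2.symm, abs_sub_comm]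
  · rw [dd_diff x y h, dd_diff y x (fun h' => h ⟨h'.1.symm, h'.2.symm⟩), EE_comm]

theorem dd_self (x : Pt ρ M) : dd x x = 0 := by
  rw [dd_same x x rfl rfl, sub_self, abs_zero]

theorem dd_tri (hρ : IsExactGeo ρ) (x y z : Pt ρ M) : dd x z ≤ dd x y + dd y z := by
  by_cases hxy : x.g = y.g ∧ x.h = y.h
  · by_cases hyz : y.g = z.g ∧ y.h = z.h
    · rw [dd_same x y hxy.1 hxy.2, dd_same y z hyz.1 hyz.2,
        dd_same x z (hxy.1.trans hyz.1) (hxy.2.trans hyz.2)]
      exact abs_sub_le _ _ _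
    · rw [dd_same x y hxy.1 hxy.2, dd_diff y z hyz]
      exact (dd_le_EE hρ x z).trans (EE_same_left hρ x y z hxy.1 hxy.2)
  · by_cases hyz : y.g = z.g ∧ y.h = z.h
    · rw [dd_diff x y hxy, dd_same y z hyz.1 hyz.2]
      refine (dd_le_EE hρ x z).trans ?_
      rw [EE_comm x z, EE_comm x y, abs_sub_comm, add_comm]
      exact EE_same_left hρ z y x hyz.1.symm hyz.2.symm
    · rw [dd_diff x y hxy, dd_diff y z hyz]
      exact (dd_le_EE hρ x z).trans (EE_tri hρ x y z)

noncomputable instance pm [hF : Fact (IsExactGeo ρ)] : PseudoMetricSpace (Pt ρ M) where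
  dist := dd
  dist_self := dd_self
  dist_comm := dd_comm
  dist_triangle := dd_tri hF.out

theorem dist_def [hF : Fact (IsExactGeo ρ)] (x y : Pt ρ M) : dist x y = dd x y := rfl

/-- The vertex `v`. -/
def vt [hF : Fact (IsExactGeo ρ)] [hM : Fact (0 ≤ M)] (v : G) : Pt ρ M where
  g := v
  h := v
  t := 0
  le := by rw [hF.out.self]; exact hM.out
  t0 := le_rfl
  tL := by rw [hF.out.self]

theorem dist_vt [hF : Fact (IsExactGeo ρ)] [hM : Fact (0 ≤ M)] (x : Pt ρ M) (v : G) :
    dist x (vt v) = ff x v := by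
  have hρ := hF.out
  have key : ∀ w, ff (vt v : Pt ρ M) w = ρ v w := by
    intro w
    unfold ff vt
    simp only [hρ.self]
    simp
  rw [dist_def]
  by_cases h : x.g = (vt v : Pt ρ M).g ∧ x.h = (vt v : Pt ρ M).h
  · rw [dd_same x _ h.1 h.2]
    have h1 : x.g = v := h.1
    have h2 : x.h = v := h.2
    have h3 := x.t0
    have h4 := x.tL
    rw [h1, h2, hρ.self] at h4
    have h5 : x.t = 0 := le_antisymm h4 h3
    have h6 : (vt v : Pt ρ M).t = 0 := rfl
    rw [h5, h6]
    unfold ff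
    rw [h1, h2, h5, hρ.self]
    simp
  · rw [dd_diff x _ h]
    apply le_antisymm
    · refine (EE_le hρ x _ v).trans ?_
      rw [key, hρ.self]
      simp
    · apply le_ciInf
      intro w
      rw [key]
      have := ff_lip hρ x w v
      rw [hρ.symm w v] at this
      exact this

theorem dist_vt_vt [hF : Fact (IsExactGeo ρ)] [hM : Fact (0 ≤ M)] (v w : G) :
    dist (vt v : Pt ρ M) (vt w) = ρ v w := by
  rw [dist_vt]
  unfold ff vt
  simp only [hF.out.self]
  simp

/-- `x` and `y` are joined by a geodesic. -/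
def Seg {X : Type} [PseudoMetricSpace X] (x y : X) : Prop :=
  ∃ γ : ℝ → X, γ 0 = x ∧ γ (dist x y) = y ∧
    ∀ s ∈ Icc (0 : ℝ) (dist x y), ∀ t ∈ Icc (0 : ℝ) (dist x y), dist (γ s) (γ t) = |s - t|

theorem Seg.symm {X : Type} [PseudoMetricSpace X] {x y : X} (h : Seg x y) : Seg y x := by
  obtain ⟨γ, h0, h1, h2⟩ := h
  refine ⟨fun t => γ (dist x y - t), ?_, ?_, ?_⟩
  · show γ (dist x y - 0) = y
    rw [sub_zero, h1]
  · show γ (dist x y - dist y x) = x
    rw [dist_comm y x, sub_self, h0]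
  · intro s hs t ht
    rw [dist_comm y x] at hs ht
    show dist (γ (dist x y - s)) (γ (dist x y - t)) = |s - t|
    rw [h2 _ ⟨by linarith [hs.2], by linarith [hs.1]⟩ _ ⟨by linarith [ht.2], by linarith [ht.1]⟩]
    rw [show dist x y - s - (dist x y - t) = t - s by ring, abs_sub_comm]

theorem Seg.trans {X : Type} [PseudoMetricSpace X] {x y z : X} (h : Seg x y) (h' : Seg y z)
    (hd : dist x z = dist x y + dist y z) : Seg x z := by
  obtain ⟨γ, h0, h1, h2⟩ := h
  obtain ⟨γ', h0', h1', h2'⟩ := h'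
  have p1 : 0 ≤ dist x y := dist_nonneg
  have p2 : 0 ≤ dist y z := dist_nonneg
  set a := dist x y with ha
  set b := dist y z with hb
  refine ⟨fun t => if t ≤ a then γ t else γ' (t - a), ?_, ?_, ?_⟩
  · simp only [if_pos p1]
    exact h0
  · by_cases hb0 : b = 0
    · rw [hd, hb0, add_zero]
      simp only [le_refl, if_true]
      have e1 : dist y z = 0 := by rw [← hb, hb0]
      rw [h1, ← h0', ← h1', hb0]
    · have : ¬ (dist x z ≤ a) := by
        rw [hd]
        intro hc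
        exact hb0 (le_antisymm (by linarith) p2)
      simp only [if_neg this]
      rw [hd, add_sub_cancel_left, h1']
  · rw [hd]
    have mix : ∀ s ∈ Icc 0 a, ∀ t ∈ Icc 0 b, dist (γ s) (γ' t) = t + a - s := by
      intro s hs t ht
      have e1 : dist (γ 0) (γ s) = s := by
        rw [h2 0 ⟨le_rfl, p1⟩ s hs]
        rw [zero_sub, abs_neg, abs_of_nonneg hs.1]
      have e2 : dist (γ s) (γ a) = a - s := by
        rw [h2 s hs a ⟨p1, le_rfl⟩]
        rw [abs_sub_comm, abs_of_nonneg (by linarith [hs.2])]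
      have e3 : dist (γ' 0) (γ' t) = t := by
        rw [h2' 0 ⟨le_rfl, p2⟩ t ht]
        rw [zero_sub, abs_neg, abs_of_nonneg ht.1]
      have e4 : dist (γ' t) (γ' b) = b - t := by
        rw [h2' t ht b ⟨p2, le_rfl⟩]
        rw [abs_sub_comm, abs_of_nonneg (by linarith [ht.2])]
      rw [h0] at e1
      rw [h1] at e2
      rw [h0'] at e3
      rw [h1'] at e4
      have t1 := dist_triangle (γ s) y (γ' t)
      have t2 := dist_triangle x (γ s) z
      have t3 := dist_triangle (γ s) (γ' t) z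
      rw [hd] at t2
      linarith
    intro s hs t ht
    by_cases h3 : s ≤ a
    · by_cases h4 : t ≤ a
      · simp only [if_pos h3, if_pos h4]
        exact h2 s ⟨hs.1, h3⟩ t ⟨ht.1, h4⟩
      · simp only [if_pos h3, if_neg h4]
        rw [mix s ⟨hs.1, h3⟩ (t - a) ⟨by linarith, by linarith [ht.2]⟩]
        rw [abs_sub_comm, abs_of_nonneg (by linarith)]
        ring
    · by_cases h4 : t ≤ a
      · simp only [if_neg h3, if_pos h4]
        rw [dist_comm, mix t ⟨ht.1, h4⟩ (s - a) ⟨by linarith, by linarith [hs.2]⟩]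
        rw [abs_of_nonneg (by linarith)]
        ring
      · simp only [if_neg h3, if_neg h4]
        rw [h2' (s - a) ⟨by linarith, by linarith [hs.2]⟩ (t - a)
          ⟨by linarith, by linarith [ht.2]⟩]
        rw [sub_sub_sub_cancel_right]

/-- The point at parameter `t` of the edge from `g` to `h`. -/
noncomputable def ed [hF : Fact (IsExactGeo ρ)] (g h : G) (hgh : ρ g h ≤ M) (t : ℝ) : Pt ρ M where
  g := g
  h := h
  t := max 0 (min (ρ g h) t)
  le := hgh
  t0 := le_max_left _ _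
  tL := max_le (nonneg hF.out g h) (min_le_left _ _)

theorem clamp_eq {L t : ℝ} (h0 : 0 ≤ t) (h1 : t ≤ L) : max 0 (min L t) = t := by
  rw [min_eq_right h1, max_eq_right h0]

theorem clamp_lip (L s t : ℝ) : |max 0 (min L s) - max 0 (min L t)| ≤ |s - t| := by
  have h1 := abs_max_sub_max_le_abs (min L s) (min L t) 0
  have h2 := abs_min_sub_min_le_max L s L t
  rw [max_comm 0, max_comm 0]
  refine h1.trans (h2.trans ?_)
  rw [sub_self, abs_zero]
  exact max_le (abs_nonneg _) le_rfl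

theorem ed_eq [hF : Fact (IsExactGeo ρ)] (x : Pt ρ M) {g h : G} (hgh : ρ g h ≤ M)
    (h1 : x.g = g) (h2 : x.h = h) : ed g h hgh x.t = x := by
  subst h1 h2
  ext
  · rfl
  · rfl
  · exact clamp_eq x.t0 x.tL

theorem seg_edge_aux [hF : Fact (IsExactGeo ρ)] (x y : Pt ρ M) (hg : x.g = y.g) (hh : x.h = y.h)
    (hle : x.t ≤ y.t) : Seg x y := by
  have hd : dist x y = y.t - x.t := by
    rw [dist_def, dd_same x y hg hh, abs_sub_comm, abs_of_nonneg (by linarith)]
  refine ⟨fun r => ed x.g x.h x.le (x.t + r), ?_, ?_, ?_⟩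
  · show ed x.g x.h x.le (x.t + 0) = x
    rw [add_zero]
    exact ed_eq x x.le rfl rfl
  · show ed x.g x.h x.le (x.t + dist x y) = y
    rw [hd, add_sub_cancel]
    exact ed_eq y x.le hg.symm hh.symm
  · intro s hs t ht
    rw [hd] at hs ht
    show dist (ed x.g x.h x.le (x.t + s)) (ed x.g x.h x.le (x.t + t)) = |s - t|
    rw [dist_def, dd_same (ed x.g x.h x.le (x.t + s)) (ed x.g x.h x.le (x.t + t)) rfl rfl]
    show |max 0 (min (ρ x.g x.h) (x.t + s)) - max 0 (min (ρ x.g x.h) (x.t + t))| = |s - t|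
    have h0 := x.t0
    have h1 := y.tL
    rw [← hg, ← hh] at h1
    rw [clamp_eq (by linarith [hs.1]) (by linarith [hs.2]),
      clamp_eq (by linarith [ht.1]) (by linarith [ht.2]), add_sub_add_left_eq_sub]

theorem seg_edge [hF : Fact (IsExactGeo ρ)] (x y : Pt ρ M) (hg : x.g = y.g) (hh : x.h = y.h) :
    Seg x y := by
  rcases le_total x.t y.t with h | h
  · exact seg_edge_aux x y hg hh h
  · exact (seg_edge_aux y x hg.symm hh.symm h).symm

theorem fin_ball (hρ : IsExactGeo ρ) (c : G) (r : ℝ) : {w | ρ c w ≤ r}.Finite := by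
  refine ((hρ.fin r).image fun g => c * g).subset ?_
  intro w hw
  refine ⟨c⁻¹ * w, ?_, mul_inv_cancel_left c w⟩
  show ρ 1 (c⁻¹ * w) ≤ r
  rw [← hρ.left c 1 (c⁻¹ * w), mul_one, mul_inv_cancel_left]
  exact hw

/-- The quotient metric graph. -/
abbrev XX (ρ : G → G → ℝ) (M : ℝ) [Fact (IsExactGeo ρ)] : Type := SeparationQuotient (Pt ρ M)

theorem Seg.map {X : Type} [PseudoMetricSpace X] {x y : X} (h : Seg x y) :
    Seg (SeparationQuotient.mk x) (SeparationQuotient.mk y) := by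
  obtain ⟨γ, h0, h1, h2⟩ := h
  refine ⟨fun t => SeparationQuotient.mk (γ t), ?_, ?_, ?_⟩
  · show SeparationQuotient.mk (γ 0) = _
    rw [h0]
  · show SeparationQuotient.mk (γ (dist (SeparationQuotient.mk x) (SeparationQuotient.mk y))) = _
    rw [SeparationQuotient.dist_mk, h1]
  · intro s hs t ht
    rw [SeparationQuotient.dist_mk] at hs ht
    show dist (SeparationQuotient.mk (γ s)) (SeparationQuotient.mk (γ t)) = _
    rw [SeparationQuotient.dist_mk, h2 s hs t ht]

theorem mk_eq_of_dist {X : Type} [PseudoMetricSpace X] {x y : X} (h : dist x y = 0) :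
    (SeparationQuotient.mk x) = SeparationQuotient.mk y := by
  apply eq_of_dist_eq_zero
  rw [SeparationQuotient.dist_mk, h]

/-- Vertices in the quotient. -/
noncomputable def vq [hF : Fact (IsExactGeo ρ)] [hM : Fact (0 ≤ M)] (v : G) : XX ρ M :=
  SeparationQuotient.mk (vt v)

theorem dist_vq [hF : Fact (IsExactGeo ρ)] [hM : Fact (0 ≤ M)] (x : Pt ρ M) (v : G) :
    dist (SeparationQuotient.mk x : XX ρ M) (vq v) = ff x v := by
  unfold vq
  rw [SeparationQuotient.dist_mk, dist_vt]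

theorem dist_vq_vq [hF : Fact (IsExactGeo ρ)] [hM : Fact (0 ≤ M)] (v w : G) :
    dist (vq v : XX ρ M) (vq w) = ρ v w := by
  unfold vq
  rw [SeparationQuotient.dist_mk, dist_vt_vt]

theorem seg_g [hF : Fact (IsExactGeo ρ)] [hM : Fact (0 ≤ M)] (x : Pt ρ M) :
    Seg (SeparationQuotient.mk x : XX ρ M) (vq x.g) := by
  have h := (seg_edge x (ed x.g x.h x.le 0) rfl rfl).map
  have e : (SeparationQuotient.mk (ed x.g x.h x.le 0) : XX ρ M) = vq x.g := by
    apply mk_eq_of_dist
    rw [dist_vt]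
    have h1 : ff (ed x.g x.h x.le 0 : Pt ρ M) x.g = (ed x.g x.h x.le 0 : Pt ρ M).t :=
      ff_g hF.out (ed x.g x.h x.le 0)
    rw [h1]
    show max 0 (min (ρ x.g x.h) 0) = 0
    exact clamp_eq le_rfl (nonneg hF.out _ _)
  rw [← e]
  exact h

theorem seg_h [hF : Fact (IsExactGeo ρ)] [hM : Fact (0 ≤ M)] (x : Pt ρ M) :
    Seg (SeparationQuotient.mk x : XX ρ M) (vq x.h) := by
  have h := (seg_edge x (ed x.g x.h x.le (ρ x.g x.h)) rfl rfl).map
  have e : (SeparationQuotient.mk (ed x.g x.h x.le (ρ x.g x.h)) : XX ρ M) = vq x.h := by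
    apply mk_eq_of_dist
    rw [dist_vt]
    have h1 : ff (ed x.g x.h x.le (ρ x.g x.h) : Pt ρ M) x.h = ρ x.g x.h -
        (ed x.g x.h x.le (ρ x.g x.h) : Pt ρ M).t :=
      ff_h hF.out (ed x.g x.h x.le (ρ x.g x.h))
    rw [h1]
    show ρ x.g x.h - max 0 (min (ρ x.g x.h) (ρ x.g x.h)) = 0
    rw [clamp_eq (nonneg hF.out _ _) le_rfl, sub_self]
  rw [← e]
  exact h

theorem seg_vq [hF : Fact (IsExactGeo ρ)] [hM : Fact (0 ≤ M)]
    (hstep : ∀ x y, x ≠ y → ∃ z, z ≠ x ∧ ρ x z ≤ M ∧ ρ x y = ρ x z + ρ z y) :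
    ∀ (n : ℕ) (x y : G), {w | ρ w y < ρ x y}.ncard ≤ n → Seg (vq x : XX ρ M) (vq y) := by
  have hρ := hF.out
  have hfin : ∀ x y, {w | ρ w y < ρ x y}.Finite := by
    intro x y
    refine (fin_ball hρ y (ρ x y)).subset ?_
    intro w hw
    have hw' : ρ w y < ρ x y := hw
    show ρ y w ≤ ρ x y
    rw [hρ.symm y w]
    exact hw'.le
  have hrefl : ∀ x, Seg (vq x : XX ρ M) (vq x) := by
    intro x
    exact (seg_edge (vt x : Pt ρ M) (vt x) rfl rfl).map
  intro n
  induction n with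
  | zero =>
    intro x y hc
    by_cases hxy : x = y
    · rw [hxy]
      exact hrefl y
    · exfalso
      rw [Nat.le_zero, Set.ncard_eq_zero (hfin x y)] at hc
      have : y ∈ {w | ρ w y < ρ x y} := by
        show ρ y y < ρ x y
        rw [hρ.self]
        exact hρ.pos x y hxy
      rw [hc] at this
      exact this
  | succ n ih =>
    intro x y hc
    by_cases hxy : x = y
    · rw [hxy]
      exact hrefl y
    · obtain ⟨z, hzx, hz1, hz2⟩ := hstep x y hxy
      have hpos := hρ.pos x z hzx.symm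
      have hlt : {w | ρ w y < ρ z y}.ncard < {w | ρ w y < ρ x y}.ncard := by
        apply Set.ncard_lt_ncard _ (hfin x y)
        rw [Set.ssubset_iff_exists]
        refine ⟨?_, z, ?_, ?_⟩
        · intro w hw
          have hw' : ρ w y < ρ z y := hw
          show ρ w y < ρ x y
          linarith
        · show ρ z y < ρ x y
          linarith
        · intro hw
          have hw' : ρ z y < ρ z y := hw
          exact lt_irrefl _ hw'
      have h1 := ih z y (by omega)
      have h2 : Seg (vq x : XX ρ M) (vq z) := by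
        have h3 := (seg_g (⟨x, z, ρ x z, hz1, hpos.le, le_rfl⟩ : Pt ρ M)).symm
        have h4 := seg_h (⟨x, z, 0, hz1, le_rfl, hpos.le⟩ : Pt ρ M)
        have e : (SeparationQuotient.mk (⟨x, z, 0, hz1, le_rfl, hpos.le⟩ : Pt ρ M) : XX ρ M)
            = vq x := by
          apply mk_eq_of_dist
          rw [dist_vt]
          exact ff_g hρ (⟨x, z, 0, hz1, le_rfl, hpos.le⟩ : Pt ρ M)
        rw [e] at h4
        exact h4
      refine h2.trans h1 ?_
      rw [dist_vq_vq, dist_vq_vq, dist_vq_vq]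
      exact hz2

theorem seg_pt_vq [hF : Fact (IsExactGeo ρ)] [hM : Fact (0 ≤ M)]
    (hstep : ∀ x y, x ≠ y → ∃ z, z ≠ x ∧ ρ x z ≤ M ∧ ρ x y = ρ x z + ρ z y) (x : Pt ρ M) (v : G) :
    Seg (SeparationQuotient.mk x : XX ρ M) (vq v) := by
  have hρ := hF.out
  rcases min_choice (x.t + ρ x.g v) (ρ x.g x.h - x.t + ρ x.h v) with h | h
  · refine (seg_g x).trans (seg_vq hstep _ x.g v le_rfl) ?_
    rw [dist_vq, dist_vq, dist_vq_vq, ff_g hρ]
    exact h
  · refine (seg_h x).trans (seg_vq hstep _ x.h v le_rfl) ?_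
    rw [dist_vq, dist_vq, dist_vq_vq, ff_h hρ]
    exact h

theorem EE_min [hF : Fact (IsExactGeo ρ)] (x y : Pt ρ M) :
    EE x y = ff x x.g + ff y x.g ∨ EE x y = ff x x.h + ff y x.h := by
  have hρ := hF.out
  have h1 := EE_le hρ x y x.g
  have h2 := EE_le hρ x y x.h
  have h3 : min (ff x x.g + ff y x.g) (ff x x.h + ff y x.h) ≤ EE x y := by
    apply le_ciInf
    intro v
    have e1 := ff_lip hρ y v x.g
    have e2 := ff_lip hρ y v x.h
    rw [hρ.symm v x.g] at e1
    rw [hρ.symm v x.h] at e2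
    rw [ff_g hρ, ff_h hρ]
    rcases min_choice (x.t + ρ x.g v) (ρ x.g x.h - x.t + ρ x.h v) with h | h
    · refine (min_le_left _ _).trans ?_
      have h' : ff x v = x.t + ρ x.g v := h
      rw [h']
      linarith
    · refine (min_le_right _ _).trans ?_
      have h' : ff x v = ρ x.g x.h - x.t + ρ x.h v := h
      rw [h']
      linarith
  rcases min_choice (ff x x.g + ff y x.g) (ff x x.h + ff y x.h) with h | h
  · left
    rw [h] at h3
    exact le_antisymm h1 h3
  · right
    rw [h] at h3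
    exact le_antisymm h2 h3

theorem geodesic [hF : Fact (IsExactGeo ρ)] [hM : Fact (0 ≤ M)]
    (hstep : ∀ x y, x ≠ y → ∃ z, z ≠ x ∧ ρ x z ≤ M ∧ ρ x y = ρ x z + ρ z y) :
    IsGeodesic (XX ρ M) := by
  have hρ := hF.out
  intro a b
  obtain ⟨x, rfl⟩ := SeparationQuotient.surjective_mk a
  obtain ⟨y, rfl⟩ := SeparationQuotient.surjective_mk b
  show Seg (SeparationQuotient.mk x : XX ρ M) (SeparationQuotient.mk y)
  by_cases h : x.g = y.g ∧ x.h = y.h
  · exact (seg_edge x y h.1 h.2).map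
  · have hd : dist (SeparationQuotient.mk x : XX ρ M) (SeparationQuotient.mk y) = EE x y := by
      rw [SeparationQuotient.dist_mk, dist_def, dd_diff x y h]
    rcases EE_min x y with h' | h'
    · refine (seg_pt_vq hstep x x.g).trans (seg_pt_vq hstep y x.g).symm ?_
      rw [hd, dist_vq, dist_comm (vq x.g : XX ρ M), dist_vq]
      exact h'
    · refine (seg_pt_vq hstep x x.h).trans (seg_pt_vq hstep y x.h).symm ?_
      rw [hd, dist_vq, dist_comm (vq x.h : XX ρ M), dist_vq]
      exact h'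

theorem cpt_edge [hF : Fact (IsExactGeo ρ)] (p : G × G) :
    IsCompact {y : Pt ρ M | y.g = p.1 ∧ y.h = p.2} := by
  by_cases hp : ρ p.1 p.2 ≤ M
  · have hc : Continuous (fun t : ℝ => (ed p.1 p.2 hp t : Pt ρ M)) := by
      have : LipschitzWith 1 (fun t : ℝ => (ed p.1 p.2 hp t : Pt ρ M)) := by
        apply LipschitzWith.of_dist_le_mul
        intro s t
        rw [dist_def, dd_same (ed p.1 p.2 hp s) (ed p.1 p.2 hp t) rfl rfl, NNReal.coe_one,
          one_mul, Real.dist_eq]
        exact clamp_lip _ _ _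
      exact this.continuous
    have h1 := (isCompact_Icc (a := (0 : ℝ)) (b := ρ p.1 p.2)).image hc
    have h2 : {y : Pt ρ M | y.g = p.1 ∧ y.h = p.2} =
        (fun t : ℝ => (ed p.1 p.2 hp t : Pt ρ M)) '' Icc 0 (ρ p.1 p.2) := by
      ext y
      constructor
      · rintro ⟨e1, e2⟩
        refine ⟨y.t, ⟨y.t0, ?_⟩, ed_eq y hp e1 e2⟩
        rw [← e1, ← e2]
        exact y.tL
      · rintro ⟨t, _, rfl⟩
        exact ⟨rfl, rfl⟩
    rw [h2]
    exact h1
  · have : {y : Pt ρ M | y.g = p.1 ∧ y.h = p.2} = ∅ := by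
      rw [Set.eq_empty_iff_forall_notMem]
      rintro y ⟨e1, e2⟩
      apply hp
      rw [← e1, ← e2]
      exact y.le
    rw [this]
    exact isCompact_empty

theorem cpt_ball [hF : Fact (IsExactGeo ρ)] [hM : Fact (0 ≤ M)] (x : Pt ρ M) (r : ℝ) :
    IsCompact (Metric.closedBall x r) := by
  have hρ := hF.out
  set A : Set (G × G) := {w | ρ x.g w ≤ r + 2 * M} ×ˢ {w | ρ x.g w ≤ r + 3 * M} with hA
  have hfin : A.Finite := (fin_ball hρ _ _).prod (fin_ball hρ _ _)
  have hc : IsCompact (⋃ p ∈ A, {y : Pt ρ M | y.g = p.1 ∧ y.h = p.2}) :=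
    hfin.isCompact_biUnion fun p _ => cpt_edge p
  refine hc.of_isClosed_subset Metric.isClosed_closedBall ?_
  intro y hy
  have hy' : dist y x ≤ r := hy
  rw [Set.mem_iUnion₂]
  have h1 := dist_triangle_right y (vt x.g) x
  have h2 : ρ x.g y.g ≤ r + 2 * M := by
    have e1 := dist_triangle (vt x.g : Pt ρ M) x (vt y.g)
    have e2 := dist_triangle x y (vt y.g)
    rw [dist_vt_vt] at e1
    rw [dist_comm (vt x.g : Pt ρ M) x, dist_vt, ff_g hρ] at e1
    rw [dist_vt y, ff_g hρ, dist_comm x y] at e2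
    have := x.tL.trans x.le
    have := y.tL.trans y.le
    linarith
  refine ⟨(y.g, y.h), ⟨h2, ?_⟩, rfl, rfl⟩
  show ρ x.g y.h ≤ r + 3 * M
  have := hρ.tri x.g y.g y.h
  have := y.le
  linarith

theorem proper [hF : Fact (IsExactGeo ρ)] [hM : Fact (0 ≤ M)] : ProperSpace (XX ρ M) := by
  refine ⟨fun a r => ?_⟩
  obtain ⟨x, rfl⟩ := SeparationQuotient.surjective_mk a
  have h := (cpt_ball x r).image SeparationQuotient.continuous_mk
  have e : Metric.closedBall (SeparationQuotient.mk x : XX ρ M) r =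
      SeparationQuotient.mk '' Metric.closedBall x r := by
    ext b
    constructor
    · intro hb
      obtain ⟨y, rfl⟩ := SeparationQuotient.surjective_mk b
      refine ⟨y, ?_, rfl⟩
      rw [Metric.mem_closedBall, SeparationQuotient.dist_mk] at hb
      exact hb
    · rintro ⟨y, hy, rfl⟩
      rw [Metric.mem_closedBall, SeparationQuotient.dist_mk]
      exact hy
  rw [e]
  exact h

noncomputable instance act [hF : Fact (IsExactGeo ρ)] : MulAction G (Pt ρ M) where
  smul a x := ⟨a * x.g, a * x.h, x.t, by rw [hF.out.left]; exact x.le, x.t0, by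
    rw [hF.out.left]; exact x.tL⟩
  one_smul x := by
    ext
    · exact one_mul x.g
    · exact one_mul x.h
    · rfl
  mul_smul a b x := by
    ext
    · exact mul_assoc a b x.g
    · exact mul_assoc a b x.h
    · rfl

theorem smul_g [hF : Fact (IsExactGeo ρ)] (a : G) (x : Pt ρ M) : (a • x).g = a * x.g := rfl

theorem smul_h [hF : Fact (IsExactGeo ρ)] (a : G) (x : Pt ρ M) : (a • x).h = a * x.h := rfl

theorem smul_t [hF : Fact (IsExactGeo ρ)] (a : G) (x : Pt ρ M) : (a • x).t = x.t := rfl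

theorem ff_smul [hF : Fact (IsExactGeo ρ)] (a : G) (x : Pt ρ M) (z : G) :
    ff (a • x) (a * z) = ff x z := by
  unfold ff
  rw [smul_g, smul_h, smul_t, hF.out.left, hF.out.left, hF.out.left]

theorem dist_smul' [hF : Fact (IsExactGeo ρ)] (a : G) (x y : Pt ρ M) :
    dist (a • x) (a • y) = dist x y := by
  have hE : EE (a • x) (a • y) = EE x y := by
    unfold EE
    refine (Equiv.iInf_congr (Equiv.mulLeft a) ?_).symm
    intro z
    show ff (a • x) (a * z) + ff (a • y) (a * z) = ff x z + ff y z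
    rw [ff_smul, ff_smul]
  rw [dist_def, dist_def]
  by_cases h : x.g = y.g ∧ x.h = y.h
  · rw [dd_same x y h.1 h.2, dd_same (a • x) (a • y) (by rw [smul_g, smul_g, h.1])
      (by rw [smul_h, smul_h, h.2]), smul_t, smul_t]
  · rw [dd_diff x y h, dd_diff, hE]
    rintro ⟨h1, h2⟩
    rw [smul_g, smul_g] at h1
    rw [smul_h, smul_h] at h2
    exact h ⟨mul_left_cancel h1, mul_left_cancel h2⟩

instance iso [hF : Fact (IsExactGeo ρ)] : IsIsometricSMul G (Pt ρ M) :=
  ⟨fun a => Isometry.of_dist_eq fun x y => dist_smul' a x y⟩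

theorem main [hF : Fact (IsExactGeo ρ)] [hM : Fact (0 ≤ M)]
    (hstep : ∀ x y, x ≠ y → ∃ z, z ≠ x ∧ ρ x z ≤ M ∧ ρ x y = ρ x z + ρ z y) :
    IsGeometric G (XX ρ M) ∧
      ∀ g h : G, dist (g • (vq 1 : XX ρ M)) (h • (vq 1 : XX ρ M)) = ρ g h := by
  have hρ := hF.out
  have hprop : ProperSpace (XX ρ M) := proper
  have hsm : ∀ (a : G) (x : Pt ρ M), a • (SeparationQuotient.mk x : XX ρ M) =
      SeparationQuotient.mk (a • x) := fun a x => rfl
  have hv : ∀ g : G, g • (vq 1 : XX ρ M) = vq g := by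
    intro g
    show SeparationQuotient.mk (g • (vt 1 : Pt ρ M)) = SeparationQuotient.mk (vt g)
    congr 1
    ext
    · exact mul_one g
    · exact mul_one g
    · rfl
  have hiso : ∀ (g : G) (x y : XX ρ M), dist (g • x) (g • y) = dist x y := by
    intro g a b
    obtain ⟨x, rfl⟩ := SeparationQuotient.surjective_mk a
    obtain ⟨y, rfl⟩ := SeparationQuotient.surjective_mk b
    rw [hsm, hsm, SeparationQuotient.dist_mk, SeparationQuotient.dist_mk, dist_smul']
  have hdist : ∀ g h : G, dist (g • (vq 1 : XX ρ M)) (h • (vq 1 : XX ρ M)) = ρ g h := by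
    intro g h
    rw [hv, hv, dist_vq_vq]
  refine ⟨⟨⟨vq 1⟩, hprop, geodesic hstep, hiso, ?_, ?_⟩, hdist⟩
  · intro K hK
    obtain ⟨r, hr⟩ := hK.isBounded.subset_closedBall (vq 1 : XX ρ M)
    refine (fin_ball hρ 1 (2 * r)).subset ?_
    rintro g ⟨y, ⟨x, hx, rfl⟩, hy⟩
    have h1 : dist x (vq 1 : XX ρ M) ≤ r := hr hx
    have h2 : dist (g • x) (vq 1 : XX ρ M) ≤ r := hr hy
    have h3 := hdist 1 g
    rw [one_smul] at h3
    show ρ 1 g ≤ 2 * r
    rw [← h3]
    have h4 := dist_triangle (vq 1 : XX ρ M) (g • x) (g • (vq 1 : XX ρ M))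
    rw [hiso, dist_comm (vq 1 : XX ρ M) (g • x)] at h4
    linarith
  · refine ⟨Metric.closedBall (vq 1 : XX ρ M) M, isCompact_closedBall _ _, ?_⟩
    intro a
    obtain ⟨x, rfl⟩ := SeparationQuotient.surjective_mk a
    refine ⟨x.g⁻¹, ?_⟩
    rw [Metric.mem_closedBall, hsm, dist_vq]
    have h1 := ff_smul x.g⁻¹ x x.g
    rw [inv_mul_cancel] at h1
    rw [h1, ff_g hρ]
    exact x.tL.trans x.le

end Realize

theorem realize {G : Type} [Group G] (ρ : G → G → ℝ) (hρ : IsExactGeo ρ) :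
    ∃ (X : Type) (_ : MetricSpace X) (_ : MulAction G X) (o : X),
      IsGeometric G X ∧ ∀ g h : G, dist (g • o) (h • o) = ρ g h := by
  obtain ⟨M, hM⟩ := hρ.step
  have : Fact (IsExactGeo ρ) := ⟨hρ⟩
  have : Fact ((0 : ℝ) ≤ max M 0) := ⟨le_max_right _ _⟩
  refine ⟨Realize.XX ρ (max M 0), inferInstance, inferInstance, Realize.vq 1, ?_⟩
  apply Realize.main
  intro x y hxy
  obtain ⟨z, h1, h2, h3⟩ := hM x y hxy
  exact ⟨z, h1, h2.trans (le_max_left _ _), h3⟩

end Pool.Agent.KlCD94
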