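import Pool.Agent.KlCD94.Base

/-!
# Task V: metric from chains and Hausdorff dimension
-/

open Set Filter Topology MeasureTheory Metric
open scoped ENNReal NNReal

namespace Pool.Agent.KlCD94.Visual

/-- A function satisfying the chain inequality is comparable to a metric. -/
theorem metric_of_chain {B : Type} (q : B → B → ℝ) (c : ℝ) (hc : 0 < c)
    (h0 : ∀ x y, 0 ≤ q x y) (hself : ∀ x, q x x = 0) (hsymm : ∀ x y, q x y = q y x)
    (hpos : ∀ x y, q x y = 0 → x = y)
    (hchain : ∀ (k : ℕ) (w : ℕ → B), c * q (w 0) (w k) ≤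
      ∑ i ∈ Finset.range k, q (w i) (w (i + 1))) :
    ∃ m : MetricSpace B, ∀ x y, c * q x y ≤ m.dist x y ∧ m.dist x y ≤ q x y := by
  classical
  let S : B → B → Set ℝ := fun x y =>
    {r | ∃ (k : ℕ) (w : ℕ → B), w 0 = x ∧ w k = y ∧
      r = ∑ i ∈ Finset.range k, q (w i) (w (i + 1))}
  have hlow : ∀ x y, ∀ r ∈ S x y, c * q x y ≤ r := by
    rintro x y r ⟨k, w, rfl, rfl, rfl⟩
    exact hchain k w
  have hbdd : ∀ x y, BddBelow (S x y) := fun x y => ⟨c * q x y, hlow x y⟩
  have hq : ∀ x y, q x y ∈ S x y := by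
    intro x y
    refine ⟨1, fun i => if i = 0 then x else y, by simp, by simp, by simp⟩
  have hne : ∀ x y, (S x y).Nonempty := fun x y => ⟨_, hq x y⟩
  let θ : B → B → ℝ := fun x y => sInf (S x y)
  have hθq : ∀ x y, θ x y ≤ q x y := fun x y => csInf_le (hbdd x y) (hq x y)
  have hθc : ∀ x y, c * q x y ≤ θ x y := fun x y => le_csInf (hne x y) (hlow x y)
  have hθ0 : ∀ x y, 0 ≤ θ x y := fun x y => (mul_nonneg hc.le (h0 x y)).trans (hθc x y)
  have hθself : ∀ x, θ x x = 0 := fun x => le_antisymm (by rw [← hself x]; exact hθq x x) (hθ0 x x)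
  have hθsymm : ∀ x y, θ x y ≤ θ y x := by
    intro x y
    refine le_csInf (hne y x) ?_
    rintro r ⟨k, w, rfl, rfl, rfl⟩
    refine csInf_le (hbdd _ _) ⟨k, fun i => w (k - i), by simp, by simp, ?_⟩
    rw [← Finset.sum_range_reflect]
    refine Finset.sum_congr rfl fun i hi => ?_
    rw [Finset.mem_range] at hi
    rw [hsymm]
    congr 2 <;> omega
  have hθtri : ∀ x y z, θ x z ≤ θ x y + θ y z := by
    intro x y z
    refine le_of_forall_pos_le_add fun ε hε => ?_
    obtain ⟨r, ⟨k, w, hw0, hwk, rfl⟩, hr⟩ := exists_lt_of_csInf_lt (hne x y)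
      (show θ x y < θ x y + ε / 2 by linarith)
    obtain ⟨r', ⟨k', w', hw0', hwk', rfl⟩, hr'⟩ := exists_lt_of_csInf_lt (hne y z)
      (show θ y z < θ y z + ε / 2 by linarith)
    have h1 : θ x z ≤ ∑ i ∈ Finset.range k, q (w i) (w (i + 1)) +
        ∑ i ∈ Finset.range k', q (w' i) (w' (i + 1)) := by
      refine csInf_le (hbdd _ _) ⟨k + k', fun i => if i < k then w i else w' (i - k), ?_, ?_, ?_⟩
      · by_cases hk : 0 < k
        · simp only [hk, if_true]; exact hw0
        · have hk0 : k = 0 := by omega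
          subst hk0
          simp only [lt_irrefl, if_false]
          rw [Nat.sub_zero, hw0', ← hwk, hw0]
      · have : ¬ k + k' < k := by omega
        simp only [this, if_false, Nat.add_sub_cancel_left]
        exact hwk'
      · rw [Finset.sum_range_add]
        congr 1
        · refine Finset.sum_congr rfl fun i hi => ?_
          rw [Finset.mem_range] at hi
          simp only [hi, if_true]
          by_cases hi' : i + 1 < k
          · simp only [hi', if_true]
          · have h3 : i + 1 = k := by omega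
            simp only [h3, lt_irrefl, if_false, Nat.sub_self]
            rw [hw0', hwk]
        · refine Finset.sum_congr rfl fun i _ => ?_
          have h3 : ¬ k + i < k := by omega
          have h4 : ¬ k + i + 1 < k := by omega
          simp only [h3, h4, if_false]
          congr 2 <;> omega
    linarith
  let m : MetricSpace B :=
    { dist := θ
      dist_self := hθself
      dist_comm := fun x y => le_antisymm (hθsymm x y) (hθsymm y x)
      dist_triangle := hθtri
      eq_of_dist_eq_zero := by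
        intro x y hxy
        refine hpos x y (le_antisymm ?_ (h0 x y))
        have h1 := hθc x y
        have h2 : θ x y = 0 := hxy
        rw [h2] at h1
        by_contra h3
        push Not at h3
        nlinarith }
  exact ⟨m, fun x y => ⟨hθc x y, hθq x y⟩⟩

/-- the dimension bound. -/
theorem dim_bound {B G : Type} (m : MetricSpace B) (len : G → ℝ) (p C1 C2 : ℝ) (hp : 0 < p)
    (hC2 : 0 < C2) (U : ℕ → G → Set B)
    (hcov : ∀ (n : ℕ) (x : B), ∃ s : G, |len s - n| ≤ C1 ∧ x ∈ U n s)
    (hdiam : ∀ (n : ℕ) (s : G) (x y : B), x ∈ U n s → y ∈ U n s →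
      m.dist x y ≤ C2 * Real.exp (-(len s)))
    (hsum : Summable fun s : G => Real.exp (-(p * len s))) :
    @dimH B m.toEMetricSpace univ ≤ ENNReal.ofReal p := by
  classical
  have hcount : Countable G := by
    have h1 := hsum.countable_support
    have h2 : Function.support (fun s : G => Real.exp (-(p * len s))) = univ := by
      ext s
      simp [Real.exp_ne_zero]
    rw [h2] at h1
    exact Set.countable_univ_iff.1 h1
  let _ : MeasurableSpace B := borel B
  have _ : BorelSpace B := ⟨rfl⟩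
  have hkey : μH[p] (univ : Set B) ≠ ∞ := by
    let t : ℕ → G → Set B := fun n s => if |len s - n| ≤ C1 then U n s else ∅
    have hd : ∀ n s, ediam (t n s) ≤ ENNReal.ofReal (C2 * Real.exp (-(len s))) := by
      intro n s
      by_cases h : |len s - n| ≤ C1
      · simp only [t, h, if_true]
        refine ediam_le fun x hx y hy => ?_
        rw [edist_dist]
        exact ENNReal.ofReal_le_ofReal (hdiam n s x y hx hy)
      · simp only [t, h, if_false, ediam_empty]
        exact bot_le
    have hbound : μH[p] (univ : Set B) ≤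
        liminf (fun n : ℕ => ∑' s : G, ediam (t n s) ^ p) atTop := by
      refine Measure.hausdorffMeasure_le_liminf_tsum p univ
        (fun n : ℕ => ENNReal.ofReal (C2 * Real.exp (-(n - C1)))) ?_ t ?_ ?_
      · rw [← ENNReal.ofReal_zero]
        refine ENNReal.tendsto_ofReal ?_
        have h1 : Tendsto (fun n : ℕ => -((n : ℝ) - C1)) atTop atBot := by
          refine tendsto_neg_atTop_atBot.comp ?_
          exact tendsto_atTop_add_const_right _ (-C1) tendsto_natCast_atTop_atTop
        have h2 := (Real.tendsto_exp_atBot.comp h1).const_mul C2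
        rw [mul_zero] at h2
        exact h2
      · refine Eventually.of_forall fun n s => ?_
        by_cases h : |len s - n| ≤ C1
        · refine (hd n s).trans (ENNReal.ofReal_le_ofReal ?_)
          refine mul_le_mul_of_nonneg_left (Real.exp_le_exp.2 ?_) hC2.le
          have := (abs_le.1 h).1
          linarith
        · simp only [t, h, if_false, ediam_empty]
          exact bot_le
      · refine Eventually.of_forall fun n x _ => ?_
        obtain ⟨s, hs, hx⟩ := hcov n x
        refine mem_iUnion.2 ⟨s, ?_⟩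
        simp only [t, hs, if_true]
        exact hx
    refine ne_top_of_le_ne_top ?_ hbound
    have h3 : ∀ n : ℕ, (∑' s : G, ediam (t n s) ^ p) ≤
        ∑' s : G, ENNReal.ofReal (C2 ^ p * Real.exp (-(p * len s))) := by
      intro n
      refine ENNReal.tsum_le_tsum fun s => ?_
      refine (ENNReal.rpow_le_rpow (hd n s) hp.le).trans ?_
      rw [ENNReal.ofReal_rpow_of_nonneg (by positivity) hp.le]
      refine ENNReal.ofReal_le_ofReal (le_of_eq ?_)
      rw [Real.mul_rpow hC2.le (Real.exp_pos _).le, ← Real.exp_mul]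
      congr 2
      ring
    have h4 : (∑' s : G, ENNReal.ofReal (C2 ^ p * Real.exp (-(p * len s)))) ≠ ∞ := by
      rw [← ENNReal.ofReal_tsum_of_nonneg (fun s => by positivity) (hsum.mul_left _)]
      exact ENNReal.ofReal_ne_top
    refine ne_top_of_le_ne_top h4 ?_
    refine (liminf_le_liminf (Eventually.of_forall h3)).trans (le_of_eq ?_)
    exact liminf_const _
  have h5 := dimH_le_of_hausdorffMeasure_ne_top (X := B) (s := univ) (d := p.toNNReal) (by
    rw [Real.coe_toNNReal p hp.le]
    exact hkey)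
  exact h5

section gp

variable {G : Type} {d : G → G → ℝ} {R δ : ℝ}

lemma gp_symm (hd : IsRG d R) (o x y : G) : gp d o x y = gp d o y x := by
  rw [gp, gp, hd.symm x y]
  ring

lemma gp_add (hd : IsRG d R) (o s x : G) : gp d s o x + gp d o s x = d o s := by
  rw [gp, gp, hd.symm s o]
  ring

lemma rg_nonneg (hd : IsRG d R) (x y : G) : 0 ≤ d x y := by
  have h1 := hd.tri x y x
  rw [hd.self, hd.symm y x] at h1
  linarith

/-- for a sequence converging at infinity there is a point on the way at each distance. -/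
theorem near (hd : IsRG d R) (hδ : Hyp d δ) (o : G) : ∃ C, 0 ≤ C ∧ ∀ u, Conv d u →
    ∀ n : ℝ, 0 ≤ n → ∃ s, |d o s - n| ≤ C ∧ ∀ᶠ j in atTop, gp d s o (u j) ≤ C := by
  refine ⟨2 * |R| + |δ|, by positivity, fun u hu n hn => ?_⟩
  have h1 := (hu o).eventually (eventually_ge_atTop n)
  obtain ⟨N, hN⟩ : ∃ a, ∀ k ≥ a, ∀ l ≥ a, n ≤ gp d o (u k) (u l) :=
    eventually_atTop_prod_self'.1 h1
  have hL : n ≤ d o (u N) := by
    have h2 := hN N le_rfl N le_rfl
    rw [gp, hd.self] at h2
    linarith
  obtain ⟨γ, hγ0, hγL, hγ⟩ := hd.rough o (u N)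
  have hn' : n ∈ Icc (0 : ℝ) (d o (u N)) := ⟨hn, hL⟩
  have h0' : (0 : ℝ) ∈ Icc (0 : ℝ) (d o (u N)) := ⟨le_rfl, hn.trans hL⟩
  have hL' : d o (u N) ∈ Icc (0 : ℝ) (d o (u N)) := ⟨hn.trans hL, le_rfl⟩
  have h3 := abs_le.1 (hγ 0 h0' n hn')
  have h4 := abs_le.1 (hγ n hn' _ hL')
  rw [zero_sub, abs_neg, abs_of_nonneg hn] at h3
  rw [abs_sub_comm n, abs_of_nonneg (sub_nonneg.2 hL)] at h4
  have hR : 0 ≤ R := by linarith [h3.1, h3.2]
  rw [abs_of_nonneg hR]
  have hδ0 := abs_nonneg δ
  have hδ1 := le_abs_self δ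
  have h5 : d o (γ n) ≤ n + R := by
    have := hd.tri o (γ 0) (γ n)
    linarith [h3.2]
  have h6 : n - R ≤ d o (γ n) := by
    have := hd.tri (γ 0) o (γ n)
    have h7 := hd.symm o (γ 0)
    linarith [h3.1]
  have h7 : d (γ n) (u N) ≤ d o (u N) - n + R := by
    have := hd.tri (γ n) (γ (d o (u N))) (u N)
    linarith [h4.2]
  refine ⟨γ n, ?_, ?_⟩
  · rw [abs_le]
    constructor <;> linarith
  · filter_upwards [eventually_ge_atTop N] with j hj
    have h8 := hδ o (γ n) (u N) (u j)
    have h9 : n - R ≤ gp d o (γ n) (u N) := by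
      rw [gp]
      linarith
    have h10 := hN N le_rfl j hj
    have h11 : n - R ≤ min (gp d o (γ n) (u N)) (gp d o (u N) (u j)) := le_min h9 (by linarith)
    have h12 := gp_add hd o (γ n) (u j)
    linarith

lemma DD_nonneg (g : G) (u v : ℕ → G) : 0 ≤ DD d g u v := by
  rw [DD, limsup_eq]
  refine Real.sInf_nonneg fun a ha => ?_
  obtain ⟨p, hp⟩ := ha.exists
  exact (Real.exp_pos _).le.trans hp

lemma DD_symm (hd : IsRG d R) (g : G) (u v : ℕ → G) : DD d g u v = DD d g v u := by
  have h1 : (fun p : ℕ × ℕ => Real.exp (-(gp d g (u p.1) (v p.2)))) =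
      (fun p : ℕ × ℕ => Real.exp (-(gp d g (v p.1) (u p.2)))) ∘
        (OrderIso.prodComm : ℕ × ℕ ≃o ℕ × ℕ) := by
    ext p
    simp only [Function.comp_apply, OrderIso.coe_prodComm, Prod.fst_swap, Prod.snd_swap]
    rw [gp_symm hd]
  rw [DD, DD, h1, limsup, limsup, ← map_map, OrderIso.map_atTop]

/-- sequences passing near a point are close. -/
lemma DD_le (hd : IsRG d R) (hδ : Hyp d δ) {o s : G} {u v : ℕ → G} {C : ℝ}
    (hu : ∀ᶠ j in atTop, gp d s o (u j) ≤ C) (hv : ∀ᶠ j in atTop, gp d s o (v j) ≤ C) :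
    DD d o u v ≤ Real.exp (-(d o s - C - δ)) := by
  rw [DD]
  refine limsup_le_of_le ?_ ?_
  · refine IsBoundedUnder.isCoboundedUnder_le ?_
    exact isBoundedUnder_of ⟨0, fun p => (Real.exp_pos _).le⟩
  · have h1 : ∀ᶠ p : ℕ × ℕ in atTop, gp d s o (u p.1) ≤ C ∧ gp d s o (v p.2) ≤ C := by
      rw [← prod_atTop_atTop_eq]
      exact hu.prod_mk hv
    filter_upwards [h1] with p hp
    refine Real.exp_le_exp.2 ?_
    have h2 := hδ o (u p.1) s (v p.2)
    have h3 := gp_add hd o s (u p.1)
    have h4 := gp_add hd o s (v p.2)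
    rw [gp_symm hd o (u p.1) s] at h2
    have h5 : d o s - C ≤ min (gp d o s (u p.1)) (gp d o s (v p.2)) :=
      le_min (by linarith [hp.1]) (by linarith [hp.2])
    linarith

end gp

/-- The theorem, from the dictionary. -/
theorem visual_metric_aux {G X : Type} [Group G] [MetricSpace X] [MulAction G X] (o : X)
    (d : G → G → ℝ) (hlen : ∀ s : G, d 1 s = dist o (s • o))
    (hRG : ∃ R, IsRG d R) (hyp : ∃ δ, Hyp d δ)
    (dict : ∃ (bd : {u : ℕ → G // Conv d u} → Boundary X)
      (C : ℝ), 1 ≤ C ∧ Function.Surjective bd ∧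
      (∀ u v, bd u = bd v ↔ DD d 1 u.1 v.1 = 0) ∧
      ∀ u v, bd u ≠ bd v →
        C⁻¹ * DD d 1 u.1 v.1 ≤ Real.exp (-(bprod o (bd u) (bd v)).toReal) ∧
        Real.exp (-(bprod o (bd u) (bd v)).toReal) ≤ C * DD d 1 u.1 v.1)
    (p : ℝ) (hp : 0 < p)
    (hsum : Summable (fun g : G => Real.exp (-(p * dist o (g • o)))))
    (hchain : ∃ c > 0, ∀ (k : ℕ) (w : ℕ → ℕ → G), (∀ i, Conv d (w i)) →
      c * DD d 1 (w 0) (w k) ≤ ∑ i ∈ Finset.range k, DD d 1 (w i) (w (i + 1))) :
    ∃ m : MetricSpace (Boundary X), IsVisual m ∧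
      @dimH (Boundary X) m.toEMetricSpace univ ≤ ENNReal.ofReal p := by
  obtain ⟨R, hd⟩ := hRG
  obtain ⟨δ, hδ⟩ := hyp
  obtain ⟨bd, C, hC, hsurj, hbd0, hbdC⟩ := dict
  obtain ⟨c, hc, hchain⟩ := hchain
  choose rep hrep using hsurj
  let q : Boundary X → Boundary X → ℝ := fun x y => DD d 1 (rep x).1 (rep y).1
  have hq0 : ∀ x y, 0 ≤ q x y := fun x y => DD_nonneg _ _ _
  have hqself : ∀ x, q x x = 0 := fun x => (hbd0 (rep x) (rep x)).1 rfl
  have hqsymm : ∀ x y, q x y = q y x := fun x y => DD_symm hd _ _ _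
  have hqpos : ∀ x y, q x y = 0 → x = y := by
    intro x y hxy
    have h1 := (hbd0 (rep x) (rep y)).2 hxy
    rwa [hrep, hrep] at h1
  obtain ⟨m, hm⟩ := metric_of_chain q c hc hq0 hqself hqsymm hqpos
    (fun k w => hchain k (fun i => (rep (w i)).1) (fun i => (rep (w i)).2))
  have hC0 : 0 < C := lt_of_lt_of_le one_pos hC
  refine ⟨m, ⟨o, 1, max C (C / c), one_pos, hC.trans (le_max_left _ _), fun ξ η hne => ?_⟩, ?_⟩
  · have h1 := hbdC (rep ξ) (rep η) (by rw [hrep, hrep]; exact hne)
    rw [hrep, hrep] at h1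
    obtain ⟨h1, h2⟩ := h1
    obtain ⟨h3, h4⟩ := hm ξ η
    rw [one_mul]
    have hE := Real.exp_pos (-(bprod o ξ η).toReal)
    constructor
    · refine le_trans ?_ h3
      have h5 : (max C (C / c))⁻¹ ≤ (C / c)⁻¹ :=
        inv_anti₀ (by positivity) (le_max_right _ _)
      calc (max C (C / c))⁻¹ * Real.exp (-(bprod o ξ η).toReal)
          ≤ (C / c)⁻¹ * Real.exp (-(bprod o ξ η).toReal) :=
            mul_le_mul_of_nonneg_right h5 hE.le
        _ ≤ (C / c)⁻¹ * (C * q ξ η) := mul_le_mul_of_nonneg_left h2 (by positivity)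
        _ = c * q ξ η := by field_simp
    · refine h4.trans ?_
      have h5 : q ξ η ≤ C * Real.exp (-(bprod o ξ η).toReal) := by
        have h6 : q ξ η = C * (C⁻¹ * q ξ η) := by field_simp
        rw [h6]
        exact mul_le_mul_of_nonneg_left h1 hC0.le
      exact h5.trans (mul_le_mul_of_nonneg_right (le_max_left _ _) hE.le)
  · obtain ⟨C1, hC1, hnear⟩ := near hd hδ (1 : G)
    refine dim_bound m (fun s : G => dist o (s • o)) p C1 (C * C * Real.exp (C1 + δ)) hp
      (by positivity)
      (fun _ s => {x | ∃ u, bd u = x ∧ ∀ᶠ j in atTop, gp d s 1 (u.1 j) ≤ C1}) ?_ ?_ hsum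
    · intro n x
      obtain ⟨s, hs1, hs2⟩ := hnear (rep x).1 (rep x).2 n (Nat.cast_nonneg n)
      refine ⟨s, ?_, rep x, hrep x, hs2⟩
      rw [← hlen]
      exact hs1
    · rintro n s x y ⟨u, rfl, hu⟩ ⟨v, rfl, hv⟩
      by_cases hne : bd u = bd v
      · rw [hne]
        have : m.dist (bd v) (bd v) = 0 := m.dist_self _
        rw [this]
        positivity
      · refine (hm _ _).2.trans ?_
        have h1 := (hbdC (rep (bd u)) (rep (bd v)) (by rw [hrep, hrep]; exact hne)).1
        rw [hrep, hrep] at h1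
        have h2 := (hbdC u v hne).2
        have h3 := DD_le hd hδ hu hv
        have h4 : q (bd u) (bd v) = C * (C⁻¹ * q (bd u) (bd v)) := by field_simp
        rw [h4]
        have h5 : Real.exp (-(d 1 s - C1 - δ)) = Real.exp (C1 + δ) * Real.exp (-(dist o (s • o))) := by
          rw [← Real.exp_add, hlen]
          congr 1
          ring
        rw [h5] at h3
        calc C * (C⁻¹ * q (bd u) (bd v)) ≤ C * (C * DD d 1 u.1 v.1) :=
              mul_le_mul_of_nonneg_left (h1.trans h2) hC0.le
          _ ≤ C * (C * (Real.exp (C1 + δ) * Real.exp (-(dist o (s • o))))) := by gcongr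
          _ = C * C * Real.exp (C1 + δ) * Real.exp (-(dist o (s • o))) := by ring

end Pool.Agent.KlCD94.Visual
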