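import Pool.Agent.KlCD94.Core
import Pool.Agent.KlCD94.Visual
import Pool.Agent.KlCD94.Dict
import Pool.Agent.KlCD94.Realize

/-!
# `V(G) ≤ ACD(∂G)` for hyperbolic groups
-/

open Set Filter Topology MeasureTheory
open scoped ENNReal NNReal

namespace Pool.Agent.KlCD94

theorem Hyp.abs {G : Type} {d : G → G → ℝ} {δ : ℝ} (h : Hyp d δ) : Hyp d |δ| := by
  intro o x y z
  have := h o x y z
  have := le_abs_self δ
  linarith

theorem qi_two {G : Type} [Group G] {d d' : G → G → ℝ} {R R' : ℝ} (hd : IsRG d R)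
    (hd' : IsRG d' R') (hl : LeftInv d) (hf : FinBalls d) (hl' : LeftInv d')
    (hf' : FinBalls d') :
    ∃ A B, (∀ x y, d x y ≤ A * d' x y + B) ∧ ∀ x y, d' x y ≤ A * d x y + B := by
  obtain ⟨A₁, B₁, h1⟩ := qi_bound hd hd' hl hf hl'
  obtain ⟨A₂, B₂, h2⟩ := qi_bound hd' hd hl' hf' hl
  refine ⟨max |A₁| |A₂|, max |B₁| |B₂|, ?_, ?_⟩
  · intro x y
    have h0 := hd'.nonneg x y
    have h3 := mul_le_mul_of_nonneg_right ((le_abs_self A₂).trans (le_max_right |A₁| |A₂|)) h0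
    have h4 := (le_abs_self B₂).trans (le_max_right |B₁| |B₂|)
    linarith [h2 x y]
  · intro x y
    have h0 := hd.nonneg x y
    have h3 := mul_le_mul_of_nonneg_right ((le_abs_self A₁).trans (le_max_left |A₁| |A₂|)) h0
    have h4 := (le_abs_self B₁).trans (le_max_left |B₁| |B₂|)
    linarith [h1 x y]

theorem hyp_of_group {G : Type} [Group G] (hG : IsHyperbolicGroup G) {d' : G → G → ℝ} {R' : ℝ}
    (hd' : IsRG d' R') (hl' : LeftInv d') (hf' : FinBalls d') : ∃ δ, Hyp d' δ := by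
  obtain ⟨d, R, δ, hd, hl, hf, hδ⟩ := hypGroup_dist hG
  obtain ⟨A, B, h1, h2⟩ := qi_two hd hd' hl hf hl' hf'
  exact hyp_transfer hd hd' hδ h1 h2

theorem visual_metric {G X : Type} [Group G] [MetricSpace X] [MulAction G X]
    (h : IsGeometric G X) (o : X)
    (hyp : ∃ δ, Hyp (fun g h : G => dist (g • o) (h • o)) δ) (p : ℝ) (hp : 0 < p)
    (hsum : Summable (fun g : G => Real.exp (-(p * dist o (g • o)))))
    (hchain : ∃ c > 0, ∀ (k : ℕ) (w : ℕ → ℕ → G),
      (∀ i, Conv (fun g h : G => dist (g • o) (h • o)) (w i)) →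
      c * DD (fun g h : G => dist (g • o) (h • o)) 1 (w 0) (w k) ≤
        ∑ i ∈ Finset.range k, DD (fun g h : G => dist (g • o) (h • o)) 1 (w i) (w (i + 1))) :
    ∃ m : MetricSpace (Boundary X), IsVisual m ∧
      @dimH (Boundary X) m.toEMetricSpace univ ≤ ENNReal.ofReal p :=
  Visual.visual_metric_aux o _ (fun s => by simp) ((orbit_isRG h o).imp fun R hR => hR.1) hyp
    (dict h o hyp) p hp hsum hchain

/-- In the gauge of `∂X`: comparison of a visual metric with `DD`. -/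
theorem visual_compare {G X : Type} [Group G] [MetricSpace X] [MulAction G X] {o : X} {ε C₀ C : ℝ}
    (m : MetricSpace (Boundary X)) {d : G → G → ℝ} {R : ℝ} (hd : IsRG d R)
    (bd : {u : ℕ → G // Conv d u} → Boundary X) (hε : 0 < ε) (hC₀ : 1 ≤ C₀) (hC : 1 ≤ C)
    (hv : ∀ ξ η : Boundary X, ξ ≠ η →
      C₀⁻¹ * Real.exp (-(ε * (bprod o ξ η).toReal)) ≤ m.dist ξ η ∧
      m.dist ξ η ≤ C₀ * Real.exp (-(ε * (bprod o ξ η).toReal)))
    (h0 : ∀ u v, bd u = bd v ↔ DD d 1 u.1 v.1 = 0)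
    (hb : ∀ u v, bd u ≠ bd v →
        C⁻¹ * DD d 1 u.1 v.1 ≤ Real.exp (-(bprod o (bd u) (bd v)).toReal) ∧
        Real.exp (-(bprod o (bd u) (bd v)).toReal) ≤ C * DD d 1 u.1 v.1) :
    ∃ C₁, 1 ≤ C₁ ∧ ∀ u v, C₁⁻¹ * DD d 1 u.1 v.1 ^ ε ≤ m.dist (bd u) (bd v) ∧
      m.dist (bd u) (bd v) ≤ C₁ * DD d 1 u.1 v.1 ^ ε := by
  have hC0 : 0 < C := by linarith
  have hC00 : 0 < C₀ := by linarith
  have hCe : 1 ≤ C ^ ε := Real.one_le_rpow hC hε.le
  refine ⟨C₀ * C ^ ε, ?_, ?_⟩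
  · nlinarith
  intro u v
  by_cases huv : bd u = bd v
  · have h1 : m.dist (bd u) (bd v) = 0 := by rw [huv]; exact m.dist_self _
    rw [(h0 u v).1 huv, Real.zero_rpow hε.ne', h1]
    simp
  · obtain ⟨h1, h2⟩ := hv _ _ huv
    obtain ⟨h3, h4⟩ := hb u v huv
    have hDn := DD_nonneg hd 1 u.1 v.1
    have e1 : Real.exp (-(ε * (bprod o (bd u) (bd v)).toReal)) =
        Real.exp (-(bprod o (bd u) (bd v)).toReal) ^ ε := by
      rw [← Real.exp_mul]; congr 1; ring
    rw [e1] at h1 h2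
    have h5 := Real.rpow_le_rpow (by positivity) h3 hε.le
    have h6 := Real.rpow_le_rpow (Real.exp_pos _).le h4 hε.le
    rw [Real.mul_rpow (by positivity) hDn, Real.inv_rpow hC0.le] at h5
    rw [Real.mul_rpow hC0.le hDn] at h6
    constructor
    · calc (C₀ * C ^ ε)⁻¹ * DD d 1 u.1 v.1 ^ ε
          = C₀⁻¹ * ((C ^ ε)⁻¹ * DD d 1 u.1 v.1 ^ ε) := by rw [mul_inv]; ring
        _ ≤ C₀⁻¹ * Real.exp (-(bprod o (bd u) (bd v)).toReal) ^ ε := by gcongr
        _ ≤ _ := h1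
    · calc m.dist (bd u) (bd v) ≤ C₀ * Real.exp (-(bprod o (bd u) (bd v)).toReal) ^ ε := h2
        _ ≤ C₀ * (C ^ ε * DD d 1 u.1 v.1 ^ ε) := by gcongr
        _ = C₀ * C ^ ε * DD d 1 u.1 v.1 ^ ε := by ring

theorem VD_le_ofReal {G : Type} [Group G] (hG : IsHyperbolicGroup G) {Y X : Type}
    [MetricSpace Y] [CompactSpace Y] [MetricSpace X] [MulAction G X]
    (m₀ : MetricSpace (Boundary X)) (hgeo : IsGeometric G X) (hvis : IsVisual m₀)
    (f : Y ≃ₜ Boundary X) (hqs : IsQuasisymmetric f) (hAR : ∃ Q : ℝ, IsAhlforsRegular Y Q)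
    (p : ℝ) (hp : dimH (univ : Set Y) < ENNReal.ofReal p) : VD G ≤ ENNReal.ofReal p := by
  have hp0 : 0 < p := by
    have : 0 < ENNReal.ofReal p := lt_of_le_of_lt bot_le hp
    simpa using this
  obtain ⟨o, ε, C₀, hε, hC₀, hv⟩ := hvis
  set d : G → G → ℝ := fun g h => dist (g • o) (h • o) with hd_def
  obtain ⟨R, hd, -⟩ := orbit_isRG hgeo o
  have hl : LeftInv d := orbit_leftInv hgeo o
  have hf : FinBalls d := orbit_finBalls hgeo o
  obtain ⟨δ, hδ⟩ := hyp_of_group hG hd hl hf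
  obtain ⟨bd, C, hC, hbsurj, hb0, hb⟩ := dict hgeo o ⟨δ, hδ⟩
  obtain ⟨C₁, hC₁, hcmp⟩ := visual_compare m₀ hd bd hε hC₀ hC hv hb0 hb
  have hC₁0 : 0 < C₁ := by linarith
  have : CompactSpace (Boundary X) := f.compactSpace
  let toY : {u : ℕ → G // Conv d u} → Y := fun u => f.symm (bd u)
  have hf' : ∀ u, f (toY u) = bd u := fun u => f.apply_symm_apply _
  have hucf : UniformContinuous f := CompactSpace.uniformContinuous_of_continuous f.continuous
  have hucs : UniformContinuous f.symm :=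
    CompactSpace.uniformContinuous_of_continuous f.symm.continuous
  have hcmp' : ∀ u v : {u : ℕ → G // Conv d u},
      C₁⁻¹ * DD d 1 u.1 v.1 ^ ε ≤ dist (bd u) (bd v) ∧
      dist (bd u) (bd v) ≤ C₁ * DD d 1 u.1 v.1 ^ ε := hcmp
  obtain ⟨ρ, hρ, hρsum, hρchain⟩ := core hd hl hf (abs_nonneg δ) hδ.abs hAR p hp toY
    (f.symm.surjective.comp hbsurj)
    (by
      obtain ⟨η, hη⟩ := hqs
      refine ⟨η, ε, C₁ ^ 2, hε, by positivity, ?_⟩
      intro u v w huw
      have h1 := hη (toY u) (toY v) (toY w) huw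
      rw [hf', hf', hf'] at h1
      have h2 : dist (bd u) (bd v) ≤
          (η (nndist (toY u) (toY v) / nndist (toY u) (toY w)) : ℝ) * dist (bd u) (bd w) := by
        rw [dist_nndist, dist_nndist]; exact_mod_cast h1
      have h3 := (hcmp' u v).1
      have h4 := (hcmp' u w).2
      have h5 : DD d 1 u.1 v.1 ^ ε ≤ C₁ * dist (bd u) (bd v) := by
        rw [inv_mul_le_iff₀ hC₁0] at h3
        exact h3
      have hη0 : (0 : ℝ) ≤ (η (nndist (toY u) (toY v) / nndist (toY u) (toY w)) : ℝ) :=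
        NNReal.coe_nonneg _
      calc DD d 1 u.1 v.1 ^ ε ≤ C₁ * dist (bd u) (bd v) := h5
        _ ≤ C₁ * ((η (nndist (toY u) (toY v) / nndist (toY u) (toY w)) : ℝ) *
            dist (bd u) (bd w)) := by gcongr
        _ ≤ C₁ * ((η (nndist (toY u) (toY v) / nndist (toY u) (toY w)) : ℝ) *
            (C₁ * DD d 1 u.1 w.1 ^ ε)) := by gcongr
        _ = _ := by ring)
    (by
      intro e he
      obtain ⟨c', hc', h⟩ := Metric.uniformContinuous_iff.1 hucs e he
      refine ⟨(c' / C₁) ^ (1 / ε), by positivity, ?_⟩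
      intro u v huv
      apply h
      have hDn := DD_nonneg hd 1 u.1 v.1
      have h1 := Real.rpow_lt_rpow hDn huv hε
      rw [← Real.rpow_mul (by positivity), one_div_mul_cancel hε.ne', Real.rpow_one,
        lt_div_iff₀ hC₁0] at h1
      have h2 := (hcmp' u v).2
      linarith)
    (by
      intro c hc
      obtain ⟨e, he, h⟩ := Metric.uniformContinuous_iff.1 hucf (C₁⁻¹ * c ^ ε) (by positivity)
      refine ⟨e, he, ?_⟩
      intro u v huv
      by_contra hcon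
      push Not at hcon
      have h1 := h hcon
      rw [hf', hf'] at h1
      have h2 := (hcmp' u v).1
      have h3 : C₁⁻¹ * c ^ ε ≤ C₁⁻¹ * DD d 1 u.1 v.1 ^ ε := by gcongr
      linarith)
  obtain ⟨X', mX', act', o', hgeo', ho'⟩ := realize ρ hρ
  have hρeq : (fun g h : G => dist (g • o') (h • o')) = ρ := by
    funext g h; exact ho' g h
  obtain ⟨R', hρR⟩ := exactGeo_isRG hρ
  have hyp' : ∃ δ', Hyp (fun g h : G => dist (g • o') (h • o')) δ' := by
    rw [hρeq]; exact hyp_of_group hG hρR hρ.left hρ.fin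
  have hone : ∀ g : G, dist o' (g • o') = ρ 1 g := by
    intro g; have := ho' 1 g; rwa [one_smul] at this
  obtain ⟨m, hm1, hm2⟩ := visual_metric hgeo' o' hyp' p hp0
    (by simpa only [hone] using hρsum)
    (by rw [hρeq]; exact hρchain)
  refine le_trans (sInf_le ?_) hm2
  exact ⟨X', mX', act', m, hgeo', hm1, rfl⟩

/-- Main inequality. -/
theorem VD_le_ACD {G : Type} [Group G] (hG : IsHyperbolicGroup G) : VD G ≤ ACD G := by
  apply le_sInf
  rintro D ⟨Y, mY, hcomp, ⟨X, mX, act, m₀, hgeo, hvis, f, hqs⟩, hAR, rfl⟩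
  apply le_of_forall_gt
  intro c hc
  obtain ⟨b, hb1, hb2⟩ := exists_between hc
  have hbtop : b ≠ ⊤ := ne_top_of_lt hb2
  have hb : ENNReal.ofReal b.toReal = b := ENNReal.ofReal_toReal hbtop
  refine lt_of_le_of_lt ?_ hb2
  rw [← hb] at hb1 ⊢
  exact VD_le_ofReal hG m₀ hgeo hvis f hqs hAR _ hb1

end Pool.Agent.KlCD94
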