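import Pool.Agent.KlCD94.Core

/-!
# No global fixed point at infinity if the boundary has three points (MP_0b9722_gt, task E2c)
-/

open Set Filter Topology MeasureTheory
open scoped ENNReal NNReal

namespace Pool.Agent.KlCD94
namespace NoFix

section plain
variable {G : Type} {d : G → G → ℝ} {R δ : ℝ}

theorem delta_nonneg (hd : IsRG d R) (hδ : Hyp d δ) (x : G) : 0 ≤ δ := by
  have h := hδ x x x x
  have h0 : gp d x x x = 0 := by unfold gp; rw [hd.self]; ring
  rw [h0, min_self] at h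
  linarith

/-- complementary products -/
theorem gp_compl (hd : IsRG d R) (o x y : G) : gp d o x y + gp d x o y = d o x := by
  have h1 := hd.symm x o
  unfold gp
  linarith

/-- change of one point -/
theorem gp_change (hd : IsRG d R) (o x x' y : G) : gp d o x y ≤ gp d o x' y + d x x' := by
  have h1 := hd.tri o x' x
  have h2 := hd.tri x' x y
  have h3 := hd.symm x x'
  unfold gp
  linarith

/-- the products `(x | u j)_1` do not oscillate -/
theorem gp_eventually (hδ : Hyp d δ) {u : ℕ → G} (hu : Conv d u) (o x : G)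
    {c : ℝ} (h : ∃ᶠ j in atTop, c < gp d o x (u j)) :
    ∀ᶠ j in atTop, c - δ ≤ gp d o x (u j) := by
  have h1 : ∀ᶠ p : ℕ × ℕ in atTop, c ≤ gp d o (u p.1) (u p.2) := (hu o).eventually_ge_atTop _
  rw [← prod_atTop_atTop_eq] at h1
  obtain ⟨pa, hpa, pb, hpb, hab⟩ := eventually_prod_iff.1 h1
  obtain ⟨j, hj1, hj2⟩ := (h.and_eventually hpa).exists
  filter_upwards [hpb] with i hi
  have a1 := hab hj2 hi
  simp only at a1
  have a2 := hδ o x (u j) (u i)
  have a3 : c ≤ min (gp d o x (u j)) (gp d o (u j) (u i)) := le_min hj1.le a1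
  linarith

/-- eventual lower bounds on products with a fixed point give a lower bound on the product at
infinity -/
theorem DD_le_of_two (hδ : Hyp d δ) (hd : IsRG d R) {u v : ℕ → G} (o x : G) {c : ℝ}
    (hu : ∀ᶠ j in atTop, c ≤ gp d o x (u j)) (hv : ∀ᶠ j in atTop, c ≤ gp d o x (v j)) :
    DD d o u v ≤ Real.exp (-(c - δ)) := by
  apply DD_le_of_eventually
  have h1 : ∀ᶠ p : ℕ × ℕ in atTop, c ≤ gp d o x (u p.1) := by
    rw [← prod_atTop_atTop_eq]; exact hu.prod_inl _
  have h2 : ∀ᶠ p : ℕ × ℕ in atTop, c ≤ gp d o x (v p.2) := by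
    rw [← prod_atTop_atTop_eq]; exact hv.prod_inr _
  filter_upwards [h1, h2] with p hp1 hp2
  have a1 := hδ o (u p.1) x (v p.2)
  rw [gp_symm hd o (u p.1) x] at a1
  have a2 : c ≤ min (gp d o x (u p.1)) (gp d o x (v p.2)) := le_min hp1 hp2
  linarith

end plain

section nofix
variable {G : Type} [Group G] {d : G → G → ℝ} {R δ : ℝ}

/-- a fixed point at infinity: near points move by a bounded amount -/
theorem near_move (hd : IsRG d R) (hl : LeftInv d) (hδ : Hyp d δ) {C : ℝ} {w : ℕ → G}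
    {n : ℝ} {h k : G} (hs : |d 1 h - n| ≤ C) (hnear : ∀ᶠ j in atTop, gp d h 1 (w j) ≤ C)
    (hfix : DD d 1 (fun i => k * w i) w = 0) :
    d h (k * h) ≤ 10 * C + 4 * δ + 2 + 5 * d 1 k := by
  have hδ0 : 0 ≤ δ := delta_nonneg hd hδ h
  have hk0 : 0 ≤ d 1 k := hd.nonneg _ _
  have hs2 : |d k (k * h) - n| ≤ C := by
    have := hl k 1 h
    rw [mul_one] at this
    rw [this]; exact hs
  have hnear2 : ∀ᶠ j in atTop, gp d (k * h) k (k * w j) ≤ C := by
    filter_upwards [hnear] with j hj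
    have := gp_left hl k h 1 (w j)
    rw [mul_one] at this
    rw [this]; exact hj
  have hb : DD d k (fun i => k * w i) w ≤ Real.exp (-n) := by
    have h1 := DD_base hd 1 k (fun i => k * w i) w
    rw [hfix] at h1
    have h2 : 0 < Real.exp (-(d 1 k)) := Real.exp_pos _
    have h3 : DD d k (fun i => k * w i) w ≤ 0 := by
      by_contra hcon
      push Not at hcon
      have := mul_pos h2 hcon
      linarith
    exact h3.trans (Real.exp_pos _).le
  have hn3 := near_of_close hd hδ hs2 hnear2 hb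
  obtain ⟨j, hj1, hj2⟩ := (hnear.and hn3).exists
  rw [abs_of_nonneg hδ0] at hj2
  have c1 := abs_le.1 hs
  have c2 := abs_le.1 hs2
  -- products seen from 1
  have e1 := gp_compl hd 1 h (w j)
  have e2 := gp_compl hd 1 (k * h) (w j)
  have e3 := gp_change hd (k * h) 1 k (w j)
  have e4 := hd.tri 1 k (k * h)
  have e5 := hd.tri k 1 (k * h)
  have e6 := hd.symm k 1
  have e7 := hδ 1 h (w j) (k * h)
  rw [gp_symm hd 1 (w j) (k * h)] at e7
  have e8 : n - 4 * C - δ - 1 - 2 * d 1 k ≤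
      min (gp d 1 h (w j)) (gp d 1 (k * h) (w j)) := by
    have hC : 0 ≤ C := le_trans (abs_nonneg _) hs
    refine le_min ?_ ?_ <;> linarith
  have e9 : gp d 1 h (k * h) = (d 1 h + d 1 (k * h) - d h (k * h)) / 2 := rfl
  rw [e9] at e7
  linarith

/-- if all elements fix a point at infinity, there are arbitrarily long central elements -/
theorem central_of_fixed (hd : IsRG d R) (hl : LeftInv d) (hf : FinBalls d) (hδ : Hyp d δ)
    {w : ℕ → G} (hw : Conv d w) (hfix : ∀ k : G, DD d 1 (fun i => k * w i) w = 0) (L : ℝ) :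
    ∃ z : G, (∀ g : G, g * z = z * g) ∧ L ≤ d 1 z := by
  obtain ⟨C, hC0, hC⟩ := near_exists hd hδ
  choose h hh1 hh2 using fun n : ℕ => hC 1 w hw n (Nat.cast_nonneg n)
  have hR : 0 ≤ R := hd.R_nonneg 1
  -- the finite generating set and the finite ball
  obtain ⟨S, hS⟩ : ∃ S : Set G, S = {g : G | d 1 g ≤ R + 1} := ⟨_, rfl⟩
  have hSf : S.Finite := hS ▸ hf (R + 1)
  have hgen : Subgroup.closure S = ⊤ := hS ▸ closure_ball hd hl le_rfl
  obtain ⟨B, hB⟩ : ∃ B : Set G, B = {g : G | d 1 g ≤ 10 * C + 4 * δ + 2 + 5 * (R + 1)} :=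
    ⟨_, rfl⟩
  have hBf : B.Finite := hB ▸ hf _
  haveI : Finite S := hSf
  haveI : Finite B := hBf
  have hmem : ∀ (n : ℕ) (k : S), (h n)⁻¹ * k * h n ∈ B := by
    intro n k
    have h1 := near_move hd hl hδ (hh1 n) (hh2 n) (hfix k)
    have h2 : d 1 (k : G) ≤ R + 1 := hS.subset k.2
    have h3 := hl (h n) 1 ((h n)⁻¹ * k * h n)
    rw [mul_one] at h3
    have h4 : h n * ((h n)⁻¹ * k * h n) = k * h n := by group
    rw [h4] at h3
    rw [hB]
    show d 1 ((h n)⁻¹ * k * h n) ≤ _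
    rw [← h3]
    linarith
  -- pigeonhole
  obtain ⟨F, hF⟩ : ∃ F : ℕ → (S → B), F = fun n k => ⟨(h n)⁻¹ * k * h n, hmem n k⟩ := ⟨_, rfl⟩
  obtain ⟨φ, hφ⟩ := Finite.exists_infinite_fiber F
  have hinf : (F ⁻¹' {φ}).Infinite := Set.infinite_coe_iff.1 hφ
  obtain ⟨m, hm⟩ := hinf.nonempty
  obtain ⟨N, hN⟩ := exists_nat_ge (L + C + d 1 (h m))
  obtain ⟨n, hn, hnN⟩ := hinf.exists_gt N
  refine ⟨h n * (h m)⁻¹, ?_, ?_⟩
  · have hcomm : ∀ k ∈ S, k * (h n * (h m)⁻¹) = (h n * (h m)⁻¹) * k := by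
      intro k hk
      have e1 : F n = F m := by rw [show F n = φ from hn, show F m = φ from hm]
      have e2 := congrFun e1 ⟨k, hk⟩
      rw [hF] at e2
      have e3 : (h n)⁻¹ * k * h n = (h m)⁻¹ * k * h m := congrArg Subtype.val e2
      have e4 : k * h n = h n * ((h m)⁻¹ * k * h m) := by rw [← e3]; group
      rw [← mul_assoc, e4]
      group
    have hle : Subgroup.closure S ≤ Subgroup.centralizer {h n * (h m)⁻¹} := by
      rw [Subgroup.closure_le]
      intro k hk
      rw [SetLike.mem_coe, Subgroup.mem_centralizer_iff]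
      intro y hy
      rw [Set.mem_singleton_iff] at hy
      rw [hy]
      exact (hcomm k hk).symm
    intro g
    have hg : g ∈ Subgroup.closure S := by rw [hgen]; exact Subgroup.mem_top g
    have := hle hg
    rw [Subgroup.mem_centralizer_iff] at this
    exact (this _ (Set.mem_singleton _)).symm
  · have a1 := hd.tri 1 (h n * (h m)⁻¹) (h n)
    have a2 := hl (h n * (h m)⁻¹) 1 (h m)
    rw [mul_one, inv_mul_cancel_right] at a2
    have a3 := (abs_le.1 (hh1 n)).1
    have a4 : (N : ℝ) < n := by exact_mod_cast hnN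
    linarith

/-- a central element fixes every point at infinity -/
theorem central_fixes (hd : IsRG d R) (hl : LeftInv d) {z : G} (hz : ∀ g : G, g * z = z * g)
    {u : ℕ → G} (hu : Conv d u) : DD d 1 (fun i => z * u i) u = 0 := by
  apply le_antisymm _ (DD_nonneg hd 1 _ u)
  apply le_of_forall_pos_le_add
  intro e he
  have e1 : e = Real.exp (-(-Real.log e)) := by rw [neg_neg, Real.exp_log he]
  have h : ∀ᶠ p : ℕ × ℕ in atTop, -Real.log e ≤ gp d 1 (z * u p.1) (u p.2) := by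
    have h1 : ∀ᶠ p : ℕ × ℕ in atTop, -Real.log e + d 1 z ≤ gp d 1 (u p.1) (u p.2) :=
      (hu 1).eventually_ge_atTop _
    filter_upwards [h1] with p hp
    have h2 := gp_change hd 1 (u p.1) (z * u p.1) (u p.2)
    have h3 := hl (u p.1) 1 z
    rw [mul_one, hz] at h3
    linarith
  have := DD_le_of_eventually (d := d) (u := fun i => z * u i) (v := u) h
  rw [← e1] at this
  linarith

/-- a point at infinity not in the direction of `z⁻¹` is moved by `z` close to `z` -/
theorem push_forward (hd : IsRG d R) (hl : LeftInv d) {z : G} {u : ℕ → G} {K : ℝ}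
    (h : ∀ᶠ j in atTop, gp d 1 z⁻¹ (u j) ≤ K) :
    ∀ᶠ j in atTop, d 1 z - K ≤ gp d 1 z (z * u j) := by
  filter_upwards [h] with j hj
  have h1 := gp_left hl z z⁻¹ 1 (u j)
  rw [mul_inv_cancel, mul_one] at h1
  have h2 := gp_compl hd 1 z⁻¹ (u j)
  have h3 := hl z 1 z⁻¹
  rw [mul_one, mul_inv_cancel] at h3
  have h4 := hd.symm z 1
  linarith

/-- two of the points are moved to nearby points: contradiction -/
theorem two_points (hd : IsRG d R) (hl : LeftInv d) (hδ : Hyp d δ) {z : G}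
    (hz : ∀ g : G, g * z = z * g) {u v : ℕ → G} (hu : Conv d u) (hv : Conv d v) {K : ℝ}
    (h1 : ∀ᶠ j in atTop, gp d 1 z⁻¹ (u j) ≤ K) (h2 : ∀ᶠ j in atTop, gp d 1 z⁻¹ (v j) ≤ K) :
    DD d 1 u v ≤ Real.exp (-(d 1 z - K - 3 * δ)) := by
  have hδ0 : 0 ≤ δ := delta_nonneg hd hδ 1
  have a1 := DD_le_of_two hδ hd (u := fun i => z * u i) (v := fun i => z * v i) 1 z
    (push_forward hd hl h1) (push_forward hd hl h2)
  have a2 := central_fixes hd hl hz hu
  have a3 := central_fixes hd hl hz hv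
  rw [DD_symm hd] at a2
  have a4 := DD_ultra hd hδ 1 u (fun i => z * u i) v
  have a5 := DD_ultra hd hδ 1 (fun i => z * u i) (fun i => z * v i) v
  have b1 : Real.exp (-(d 1 z - K - 3 * δ)) =
      Real.exp δ * (Real.exp δ * Real.exp (-(d 1 z - K - δ))) := by
    rw [← Real.exp_add, ← Real.exp_add]
    congr 1
    ring
  have hexp := Real.exp_pos δ
  have b2 : 0 ≤ Real.exp (-(d 1 z - K - δ)) := (Real.exp_pos _).le
  rw [a3, max_eq_left (DD_nonneg hd _ _ _)] at a5
  have a6 : DD d 1 (fun i => z * u i) v ≤ Real.exp δ * Real.exp (-(d 1 z - K - δ)) :=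
    a5.trans (mul_le_mul_of_nonneg_left a1 hexp.le)
  rw [a2, max_eq_right (DD_nonneg hd _ _ _)] at a4
  rw [b1]
  exact a4.trans (mul_le_mul_of_nonneg_left a6 hexp.le)

/-- dichotomy: of two different points at infinity at most one is in the direction of `x` -/
theorem dichotomy (hd : IsRG d R) (hδ : Hyp d δ) {x : G} {u v : ℕ → G} (hu : Conv d u)
    (hv : Conv d v) {K : ℝ} (hK : Real.exp (-(K - 2 * δ)) < DD d 1 u v) :
    (∀ᶠ j in atTop, gp d 1 x (u j) ≤ K) ∨ (∀ᶠ j in atTop, gp d 1 x (v j) ≤ K) := by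
  by_contra hcon
  rw [not_or] at hcon
  obtain ⟨h1, h2⟩ := hcon
  rw [not_eventually] at h1 h2
  have h3 := gp_eventually hδ hu 1 x (h1.mono fun j hj => not_le.1 hj)
  have h4 := gp_eventually hδ hv 1 x (h2.mono fun j hj => not_le.1 hj)
  have h5 := DD_le_of_two hδ hd 1 x h3 h4
  have h6 : K - δ - δ = K - 2 * δ := by ring
  rw [h6] at h5
  linarith

end nofix
end NoFix

open NoFix in
/-- no global fixed point if there are three points -/
theorem no_fixed {G : Type} [Group G] {d : G → G → ℝ} {R δ : ℝ}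
    (hd : IsRG d R) (hl : LeftInv d) (hf : FinBalls d) (hδ : Hyp d δ)
    (u₁ u₂ u₃ : ℕ → G) (h1 : Conv d u₁) (h2 : Conv d u₂) (h3 : Conv d u₃)
    (h12 : 0 < DD d 1 u₁ u₂) (h13 : 0 < DD d 1 u₁ u₃) (h23 : 0 < DD d 1 u₂ u₃)
    (w : ℕ → G) (hw : Conv d w) : ∃ f : G, 0 < DD d 1 w (fun i => f * w i) := by
  by_contra hcon
  push Not at hcon
  have hfix : ∀ k : G, DD d 1 (fun i => k * w i) w = 0 := by
    intro k
    rw [DD_symm hd]
    exact le_antisymm (hcon k) (DD_nonneg hd _ _ _)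
  obtain ⟨e, he⟩ : ∃ e : ℝ, e = min (DD d 1 u₁ u₂) (min (DD d 1 u₁ u₃) (DD d 1 u₂ u₃)) :=
    ⟨_, rfl⟩
  have he0 : 0 < e := by rw [he]; exact lt_min h12 (lt_min h13 h23)
  have e12 : e ≤ DD d 1 u₁ u₂ := he ▸ min_le_left _ _
  have e13 : e ≤ DD d 1 u₁ u₃ := he ▸ (min_le_right _ _).trans (min_le_left _ _)
  have e23 : e ≤ DD d 1 u₂ u₃ := he ▸ (min_le_right _ _).trans (min_le_right _ _)
  obtain ⟨K, hK⟩ : ∃ K : ℝ, K = 2 * δ - Real.log e + 1 := ⟨_, rfl⟩
  have hKe : Real.exp (-(K - 2 * δ)) < e := by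
    have : -(K - 2 * δ) = Real.log e - 1 := by rw [hK]; ring
    rw [this]
    calc Real.exp (Real.log e - 1) < Real.exp (Real.log e) := Real.exp_lt_exp.2 (by linarith)
      _ = e := Real.exp_log he0
  obtain ⟨z, hz, hzL⟩ := central_of_fixed hd hl hf hδ hw hfix (K + 3 * δ - Real.log e + 1)
  have hbig : Real.exp (-(d 1 z - K - 3 * δ)) < e := by
    calc Real.exp (-(d 1 z - K - 3 * δ)) < Real.exp (Real.log e) :=
        Real.exp_lt_exp.2 (by linarith)
      _ = e := Real.exp_log he0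
  have d12 := dichotomy hd hδ (x := z⁻¹) h1 h2 (hKe.trans_le e12)
  have d13 := dichotomy hd hδ (x := z⁻¹) h1 h3 (hKe.trans_le e13)
  have d23 := dichotomy hd hδ (x := z⁻¹) h2 h3 (hKe.trans_le e23)
  have c12 : (∀ᶠ j in atTop, gp d 1 z⁻¹ (u₁ j) ≤ K) → (∀ᶠ j in atTop, gp d 1 z⁻¹ (u₂ j) ≤ K) →
      False := fun a b => by
    have := two_points hd hl hδ hz h1 h2 a b
    linarith
  have c13 : (∀ᶠ j in atTop, gp d 1 z⁻¹ (u₁ j) ≤ K) → (∀ᶠ j in atTop, gp d 1 z⁻¹ (u₃ j) ≤ K) →
      False := fun a b => by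
    have := two_points hd hl hδ hz h1 h3 a b
    linarith
  have c23 : (∀ᶠ j in atTop, gp d 1 z⁻¹ (u₂ j) ≤ K) → (∀ᶠ j in atTop, gp d 1 z⁻¹ (u₃ j) ≤ K) →
      False := fun a b => by
    have := two_points hd hl hδ hz h2 h3 a b
    linarith
  rcases d12 with a | a <;> rcases d13 with b | b <;> rcases d23 with c | c <;>
    first
      | exact c12 a c
      | exact c13 a c
      | exact c12 b c
      | exact c13 b c
      | exact c23 a b

end Pool.Agent.KlCD94
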