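import Pool.Agent.KlCD94.Near

/-!
# Scaling near a boundary point
-/

open Set Filter Topology

namespace Pool.Agent.KlCD94

theorem scaling {G : Type} [Group G] {d : G → G → ℝ} {R δ : ℝ}
    (hd : IsRG d R) (hl : LeftInv d) (hδ : Hyp d δ) :
    ∃ K c, 1 ≤ K ∧ 0 < c ∧ ∀ (z : ℕ → G), Conv d z → ∀ n : ℝ, 0 ≤ n → ∃ s : G,
      (∀ u v : ℕ → G, Conv d u → Conv d v → DD d 1 z u ≤ Real.exp (-n) →
        DD d 1 z v ≤ Real.exp (-n) →
        DD d 1 u v ≤ K * Real.exp (-n) * DD d 1 (fun i => s⁻¹ * u i) (fun i => s⁻¹ * v i)) ∧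
      (∀ u v : ℕ → G, Conv d u → Conv d v →
        DD d 1 (fun i => s⁻¹ * z i) u ≤ c → DD d 1 (fun i => s⁻¹ * z i) v ≤ c →
        DD d 1 z (fun i => s * u i) ≤ Real.exp (-n) ∧
        Real.exp (-n) * DD d 1 u v ≤ K * DD d 1 (fun i => s * u i) (fun i => s * v i)) := by
  obtain ⟨C, hC0, hnear⟩ := near_exists hd hδ
  have hδ0 := abs_nonneg δ
  have hδ' := le_abs_self δ
  set K : ℝ := Real.exp (7 * C + 2 * |δ| + 3) with hK
  set k : ℝ := 4 * C + 2 * |δ| + 2 with hk
  refine ⟨K, Real.exp (-k), Real.one_le_exp (by positivity), Real.exp_pos _, ?_⟩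
  intro z hz n hn
  obtain ⟨s, hs1, hs2⟩ := hnear 1 z hz n hn
  have hsb := abs_le.1 hs1
  refine ⟨s, ?_, ?_⟩
  · intro u v hu hv hzu hzv
    have h1 := near_of_close hd hδ hs1 hs2 hzu
    have h2 := near_of_close hd hδ hs1 hs2 hzv
    have e1 : DD d 1 (fun i => s⁻¹ * u i) (fun i => s⁻¹ * v i) = DD d s u v := by
      have := DD_left hl s⁻¹ s u v
      rw [inv_mul_cancel] at this
      exact this
    rw [e1]
    -- compare DD d 1 u v with DD d s u v
    by_contra hcon
    push Not at hcon
    have hpos : 0 < DD d 1 u v := lt_of_le_of_lt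
      (mul_nonneg (by positivity) (DD_nonneg hd s u v)) hcon
    -- choose c between
    set a : ℝ := 2 * (2 * C + |δ| + 1) with ha
    have key : DD d 1 u v ≤ Real.exp (a - d 1 s) * DD d s u v := by
      by_contra hcon2
      push Not at hcon2
      have h3 : DD d s u v < DD d 1 u v / Real.exp (a - d 1 s) := by
        rw [lt_div_iff₀ (Real.exp_pos _)]; linarith
      obtain ⟨c, hc1, hc2⟩ := exists_between h3
      have hc0 : 0 < c := lt_of_le_of_lt (DD_nonneg hd s u v) hc1
      have e2 : c = Real.exp (-(-Real.log c)) := by rw [neg_neg, Real.exp_log hc0]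
      rw [e2] at hc1
      have h4 := eventually_of_DD_lt hd hc1
      have h5 : DD d 1 u v ≤ Real.exp (-(-Real.log c + d 1 s - a)) := by
        apply DD_le_of_eventually
        have b1 : ∀ᶠ p : ℕ × ℕ in atTop, gp d s 1 (u p.1) ≤ 2 * C + |δ| + 1 := by
          rw [← prod_atTop_atTop_eq]; exact h1.prod_inl _
        have b2 : ∀ᶠ p : ℕ × ℕ in atTop, gp d s 1 (v p.2) ≤ 2 * C + |δ| + 1 := by
          rw [← prod_atTop_atTop_eq]; exact h2.prod_inr _
        filter_upwards [h4, b1, b2] with p hp hp1 hp2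
        have i1 := gp_identity hd 1 s (u p.1) (v p.2)
        rw [ha]
        linarith
      have e3 : Real.exp (-(-Real.log c + d 1 s - a)) = c * Real.exp (a - d 1 s) := by
        rw [show -(-Real.log c + d 1 s - a) = Real.log c + (a - d 1 s) by ring, Real.exp_add,
          Real.exp_log hc0]
      rw [e3] at h5
      rw [lt_div_iff₀ (Real.exp_pos _)] at hc2
      linarith
    have h6 : Real.exp (a - d 1 s) ≤ K * Real.exp (-n) := by
      rw [hK, ← Real.exp_add]
      apply Real.exp_le_exp.2
      rw [ha]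
      linarith
    have h7 := mul_le_mul_of_nonneg_right h6 (DD_nonneg hd s u v)
    linarith
  · intro u v hu hv hzu hzv
    -- near: gp s 1 (s u) bounded
    have near' : ∀ u : ℕ → G, DD d 1 (fun i => s⁻¹ * z i) u ≤ Real.exp (-k) →
        ∀ᶠ j in atTop, gp d s 1 (s * u j) ≤ C + |δ| := by
      intro u hzu
      have h1 : DD d 1 (fun i => s⁻¹ * z i) u < Real.exp (-(k - 1)) :=
        lt_of_le_of_lt hzu (Real.exp_lt_exp.2 (by linarith))
      have h2 := eventually_of_DD_lt hd h1
      rw [← prod_atTop_atTop_eq] at h2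
      obtain ⟨pa, hpa, pb, hpb, hab⟩ := eventually_prod_iff.1 h2
      obtain ⟨i, hi1, hi2⟩ := (hpa.and hs2).exists
      filter_upwards [hpb] with j hj
      have hp := hab hi1 hj
      simp only at hp
      have e1 : gp d s (z i) (s * u j) = gp d 1 (s⁻¹ * z i) (u j) := by
        have := gp_left hl s 1 (s⁻¹ * z i) (u j)
        rw [mul_one, mul_inv_cancel_left] at this
        exact this
      have i2 := hδ s 1 (s * u j) (z i)
      have i3 := gp_symm hd s (s * u j) (z i)
      rcases le_total (gp d s 1 (s * u j)) (gp d s (s * u j) (z i)) with h | h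
      · rw [min_eq_left h] at i2
        linarith
      · rw [min_eq_right h] at i2
        exfalso
        rw [i3, e1] at i2
        rw [hk] at hp
        linarith
    constructor
    · apply DD_le_of_eventually
      have h1 : DD d 1 (fun i => s⁻¹ * z i) u < Real.exp (-(k - 1)) :=
        lt_of_le_of_lt hzu (Real.exp_lt_exp.2 (by linarith))
      have h2 := eventually_of_DD_lt hd h1
      have b1 : ∀ᶠ p : ℕ × ℕ in atTop, gp d s 1 (z p.1) ≤ C := by
        rw [← prod_atTop_atTop_eq]; exact hs2.prod_inl _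
      have b2 : ∀ᶠ p : ℕ × ℕ in atTop, gp d s 1 (s * u p.2) ≤ C + |δ| := by
        rw [← prod_atTop_atTop_eq]; exact (near' u hzu).prod_inr _
      filter_upwards [h2, b1, b2] with p hp hp1 hp2
      have e1 : gp d s (z p.1) (s * u p.2) = gp d 1 (s⁻¹ * z p.1) (u p.2) := by
        have := gp_left hl s 1 (s⁻¹ * z p.1) (u p.2)
        rw [mul_one, mul_inv_cancel_left] at this
        exact this
      have i1 := gp_identity hd 1 s (z p.1) (s * u p.2)
      rw [e1] at i1
      rw [hk] at hp
      linarith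
    · have h1 := DD_left hl s s⁻¹ u v
      rw [mul_inv_cancel] at h1
      have h2 := DD_base hd s⁻¹ 1 u v
      rw [← h1] at h2
      have e2 : d s⁻¹ 1 = d 1 s := by
        have := hl s s⁻¹ 1
        rw [mul_inv_cancel, mul_one] at this
        exact this.symm
      rw [e2] at h2
      have h3 : Real.exp (-n) ≤ K * Real.exp (-(d 1 s)) := by
        rw [hK, ← Real.exp_add]
        apply Real.exp_le_exp.2
        linarith
      calc Real.exp (-n) * DD d 1 u v ≤ K * Real.exp (-(d 1 s)) * DD d 1 u v :=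
            mul_le_mul_of_nonneg_right h3 (DD_nonneg hd 1 u v)
        _ = K * (Real.exp (-(d 1 s)) * DD d 1 u v) := by ring
        _ ≤ K * DD d 1 (fun i => s * u i) (fun i => s * v i) :=
            mul_le_mul_of_nonneg_left h2 (Real.exp_pos _).le

end Pool.Agent.KlCD94
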