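import Pool.Agent.KlCD94.SelfSim
import Pool.Agent.KlCD94.Compact
import Pool.Agent.KlCD94.NoFix
import Pool.Agent.KlCD94.Scaling
import Pool.Agent.KlCD94.Contract
import Pool.Agent.KlCD94.Final

/-!
# Visual metrics are Ahlfors regular; the equality `ACD = VD`
-/

open Set Filter Topology MeasureTheory
open scoped ENNReal NNReal

namespace Pool.Agent.KlCD94

section selfsim
variable {G Z : Type} [Group G] [MetricSpace Z] {d : G → G → ℝ} {R δ ε C : ℝ}

/-- translation of sequences -/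
def tr (hl : LeftInv d) (g : G) (u : {u : ℕ → G // Conv d u}) : {u : ℕ → G // Conv d u} :=
  ⟨fun i => g * u.1 i, Conv_left hl g u.2⟩

theorem DD_tr_le (hd : IsRG d R) (hl : LeftInv d) (g : G) (a b : ℕ → G) :
    DD d 1 (fun i => g * a i) (fun i => g * b i) ≤ Real.exp (d 1 g⁻¹) * DD d 1 a b := by
  have h1 := DD_left hl g g⁻¹ a b
  rw [mul_inv_cancel] at h1
  have h2 := DD_base hd 1 g⁻¹ a b
  rw [h1]
  have h3 : Real.exp (d 1 g⁻¹) * (Real.exp (-(d 1 g⁻¹)) * DD d g⁻¹ a b) = DD d g⁻¹ a b := by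
    rw [← mul_assoc, ← Real.exp_add]; simp
  rw [← h3]
  exact mul_le_mul_of_nonneg_left h2 (Real.exp_pos _).le

theorem le_DD_tr (hd : IsRG d R) (hl : LeftInv d) (g : G) (a b : ℕ → G) :
    Real.exp (-(d 1 g⁻¹)) * DD d 1 a b ≤ DD d 1 (fun i => g * a i) (fun i => g * b i) := by
  have h1 := DD_left hl g g⁻¹ a b
  rw [mul_inv_cancel] at h1
  have h2 := DD_base hd g⁻¹ 1 a b
  rw [h1, hd.symm 1 g⁻¹]
  exact h2

theorem selfsim_regular (hd : IsRG d R) (hl : LeftInv d) (hf : FinBalls d) (hδ : Hyp d δ)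
    (bd : {u : ℕ → G // Conv d u} → Z) (hsurj : Function.Surjective bd) (hε : 0 < ε)
    (hC : 1 ≤ C)
    (hcmp : ∀ u v : {u : ℕ → G // Conv d u}, C⁻¹ * DD d 1 u.1 v.1 ^ ε ≤ dist (bd u) (bd v) ∧
      dist (bd u) (bd v) ≤ C * DD d 1 u.1 v.1 ^ ε) [CompactSpace Z] :
    ∃ Q : ℝ, IsAhlforsRegular Z Q := by
  classical
  have hC0 : 0 < C := by linarith
  by_cases h3 : ∃ z₁ z₂ z₃ : Z, z₁ ≠ z₂ ∧ z₁ ≠ z₃ ∧ z₂ ≠ z₃
  swap
  · have : Finite Z := by
      by_contra hinf
      rw [not_finite_iff_infinite] at hinf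
      obtain ⟨s, hs⟩ := Infinite.exists_subset_card_eq Z 3
      obtain ⟨a, b, c, hab, hac, hbc, -⟩ := Finset.card_eq_three.1 hs
      exact h3 ⟨a, b, c, hab, hac, hbc⟩
    exact ahlfors_of_finite
  obtain ⟨z₁, z₂, z₃, h12, h13, h23⟩ := h3
  choose rep hrep using hsurj
  have hle : ∀ u v : {u : ℕ → G // Conv d u}, DD d 1 u.1 v.1 ^ ε ≤ C * dist (bd u) (bd v) := by
    intro u v
    have := (hcmp u v).1
    rwa [inv_mul_le_iff₀ hC0] at this
  have hle' : ∀ u v : {u : ℕ → G // Conv d u}, dist (bd u) (bd v) ≤ C * DD d 1 u.1 v.1 ^ ε :=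
    fun u v => (hcmp u v).2
  have hnn : ∀ u v : ℕ → G, 0 ≤ DD d 1 u v := fun u v => DD_nonneg hd 1 u v
  have hpos : ∀ x y : Z, x ≠ y → 0 < DD d 1 (rep x).1 (rep y).1 := by
    intro x y hxy
    rcases (hnn (rep x).1 (rep y).1).eq_or_lt with h | h
    · exfalso
      apply hxy
      have h1 := hle' (rep x) (rep y)
      rw [← h, Real.zero_rpow hε.ne', mul_zero, hrep, hrep] at h1
      exact dist_le_zero.1 h1
    · exact h
  -- D ≤ τ from dist
  have hsmall : ∀ (u v : {u : ℕ → G // Conv d u}) (t : ℝ), 0 ≤ t →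
      C * dist (bd u) (bd v) ≤ t ^ ε → DD d 1 u.1 v.1 ≤ t := by
    intro u v t ht h
    have h1 := (hle u v).trans h
    exact (Real.rpow_le_rpow_iff (hnn _ _) ht hε).1 h1
  -- the maps T g
  set T : G → Z → Z := fun g z => bd (tr hl g (rep z)) with hT
  have hTlip : ∀ g x y, dist (T g x) (T g y) ≤
      C ^ 2 * Real.exp (d 1 g⁻¹) ^ ε * dist x y := by
    intro g x y
    have h1 := hle' (tr hl g (rep x)) (tr hl g (rep y))
    have h2 := DD_tr_le hd hl g (rep x).1 (rep y).1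
    have h4 := Real.rpow_le_rpow (hnn _ _) h2 hε.le
    rw [Real.mul_rpow (Real.exp_pos _).le (hnn _ _)] at h4
    have h5 := hle (rep x) (rep y)
    rw [hrep, hrep] at h5
    have h6 : 0 ≤ Real.exp (d 1 g⁻¹) ^ ε := by positivity
    calc dist (T g x) (T g y) ≤ C * DD d 1 (tr hl g (rep x)).1 (tr hl g (rep y)).1 ^ ε := h1
      _ ≤ C * (Real.exp (d 1 g⁻¹) ^ ε * DD d 1 (rep x).1 (rep y).1 ^ ε) :=
          mul_le_mul_of_nonneg_left h4 hC0.le
      _ ≤ C * (Real.exp (d 1 g⁻¹) ^ ε * (C * dist x y)) :=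
          mul_le_mul_of_nonneg_left (mul_le_mul_of_nonneg_left h5 h6) hC0.le
      _ = _ := by ring
  have hTbd : ∀ g u, T g (bd u) = bd (tr hl g u) := by
    intro g u
    rw [← dist_le_zero]
    have h1 := hle' (tr hl g (rep (bd u))) (tr hl g u)
    have h2 := DD_tr_le hd hl g (rep (bd u)).1 u.1
    have h3 := hle (rep (bd u)) u
    rw [hrep, dist_self, mul_zero] at h3
    have h4 : DD d 1 (rep (bd u)).1 u.1 = 0 := by
      by_contra hne
      have : 0 < DD d 1 (rep (bd u)).1 u.1 := lt_of_le_of_ne (hnn _ _) (Ne.symm hne)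
      have := Real.rpow_pos_of_pos this ε
      linarith
    rw [h4, mul_zero] at h2
    have h5 : DD d 1 (tr hl g (rep (bd u))).1 (tr hl g u).1 = 0 := le_antisymm h2 (hnn _ _)
    rw [h5, Real.zero_rpow hε.ne', mul_zero] at h1
    exact h1
  have hTinv : ∀ g z, T g⁻¹ (T g z) = z := by
    intro g z
    have h1 : T g⁻¹ (T g z) = bd (tr hl g⁻¹ (tr hl g (rep z))) := hTbd g⁻¹ (tr hl g (rep z))
    rw [h1]
    have h2 : tr hl g⁻¹ (tr hl g (rep z)) = rep z := by
      apply Subtype.ext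
      funext i
      simp [tr]
    rw [h2, hrep]
  -- scaling
  obtain ⟨K, c, hK, hc, hscale⟩ := scaling hd hl hδ
  -- moved points
  have hnofix := no_fixed hd hl hf hδ (rep z₁).1 (rep z₂).1 (rep z₃).1 (rep z₁).2 (rep z₂).2
    (rep z₃).2 (hpos _ _ h12) (hpos _ _ h13) (hpos _ _ h23)
  set w0 : {u : ℕ → G // Conv d u} := rep z₁ with hw0
  obtain ⟨f0, hf0⟩ := hnofix w0.1 w0.2
  obtain ⟨κ, hκ, hcontr⟩ := contract hd hl hf hδ w0.1 w0.2 f0 hf0
  obtain ⟨F, hF⟩ := hcontr c hc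
  set c0 : ℝ := κ ^ ε / C with hc0
  have hc0pos : 0 < c0 := by positivity
  -- uniform bound for F
  obtain ⟨Λ, hΛ⟩ : ∃ Λ : ℝ, ∀ h ∈ F, d 1 h⁻¹ ≤ Λ := by
    obtain ⟨Λ, hΛ⟩ := (F.image (fun h => d 1 h⁻¹)).bddAbove
    exact ⟨Λ, fun h hh => hΛ (Finset.mem_coe.2 (Finset.mem_image_of_mem _ hh))⟩
  have hdiam0 : 0 ≤ Metric.diam (univ : Set Z) := Metric.diam_nonneg
  set C' : ℝ := C ^ 3 * K ^ ε + C ^ 2 * (K * Real.exp Λ) ^ ε *
    (C + Metric.diam (univ : Set Z)) with hC'
  have hKe : 1 ≤ K ^ ε := Real.one_le_rpow hK hε.le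
  have hK0 : 0 < K := by linarith
  have hfirst : 1 ≤ C ^ 3 * K ^ ε := by
    have : 1 ≤ C ^ 3 := one_le_pow₀ hC
    nlinarith
  have hsecond : 0 ≤ C ^ 2 * (K * Real.exp Λ) ^ ε * (C + Metric.diam (univ : Set Z)) := by
    positivity
  refine ahlfors_of_selfsimilar (bd w0) c0 C' hc0pos (by rw [hC']; linarith) ?_ ?_ ?_
  · -- H1
    intro z r hr _
    set t : ℝ := min 1 ((C * r) ^ (1 / ε)) with ht
    have htpos : 0 < t := by positivity
    have ht1 : t ≤ 1 := min_le_left _ _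
    have htε : t ^ ε ≤ C * r := by
      calc t ^ ε ≤ ((C * r) ^ (1 / ε)) ^ ε :=
            Real.rpow_le_rpow htpos.le (min_le_right _ _) hε.le
        _ = C * r := by
            rw [← Real.rpow_mul (by positivity), one_div_mul_cancel hε.ne', Real.rpow_one]
    set n : ℝ := -Real.log t with hn
    have hn0 : 0 ≤ n := by
      have := Real.log_nonpos htpos.le ht1
      rw [hn]; linarith
    have hen : Real.exp (-n) = t := by rw [hn, neg_neg, Real.exp_log htpos]
    obtain ⟨s, hs1, -⟩ := hscale (rep z).1 (rep z).2 n hn0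
    refine ⟨T s⁻¹, ?_⟩
    have hin : ∀ x ∈ Metric.closedBall z r, DD d 1 (rep z).1 (rep x).1 ≤ Real.exp (-n) := by
      intro x hx
      rw [hen, ht]
      apply le_min (DD_le_one hd 1 _ _)
      apply hsmall _ _ _ (by positivity)
      rw [hrep, hrep, ← Real.rpow_mul (by positivity), one_div_mul_cancel hε.ne', Real.rpow_one]
      rw [Metric.mem_closedBall, dist_comm] at hx
      exact mul_le_mul_of_nonneg_left hx hC0.le
    intro x hx y hy
    have h1 := hs1 (rep x).1 (rep y).1 (rep x).2 (rep y).2 (hin x hx) (hin y hy)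
    have h2 := Real.rpow_le_rpow (hnn _ _) h1 hε.le
    rw [Real.mul_rpow (by positivity) (hnn _ _), Real.mul_rpow hK0.le (Real.exp_pos _).le,
      hen] at h2
    have h4 := hle' (rep x) (rep y)
    rw [hrep, hrep] at h4
    have h5 : DD d 1 (fun i => s⁻¹ * (rep x).1 i) (fun i => s⁻¹ * (rep y).1 i) ^ ε ≤
        C * dist (T s⁻¹ x) (T s⁻¹ y) := hle (tr hl s⁻¹ (rep x)) (tr hl s⁻¹ (rep y))
    have hdn : 0 ≤ dist (T s⁻¹ x) (T s⁻¹ y) := dist_nonneg
    have hdd : 0 ≤ DD d 1 (fun i => s⁻¹ * (rep x).1 i) (fun i => s⁻¹ * (rep y).1 i) ^ ε :=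
      Real.rpow_nonneg (hnn _ _) ε
    have h6 : dist x y ≤ C ^ 3 * K ^ ε * r * dist (T s⁻¹ x) (T s⁻¹ y) := by
      calc dist x y ≤ C * DD d 1 (rep x).1 (rep y).1 ^ ε := h4
        _ ≤ C * (K ^ ε * t ^ ε * DD d 1 (fun i => s⁻¹ * (rep x).1 i)
              (fun i => s⁻¹ * (rep y).1 i) ^ ε) := mul_le_mul_of_nonneg_left h2 hC0.le
        _ ≤ C * (K ^ ε * (C * r) * (C * dist (T s⁻¹ x) (T s⁻¹ y))) := by
            gcongr
        _ = _ := by ring
    calc dist x y ≤ C ^ 3 * K ^ ε * r * dist (T s⁻¹ x) (T s⁻¹ y) := h6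
      _ ≤ C' * r * dist (T s⁻¹ x) (T s⁻¹ y) := by
          gcongr
          rw [hC']; linarith
  · -- H2
    intro z r hr hrd
    set t : ℝ := min 1 ((r / C) ^ (1 / ε)) with ht
    have htpos : 0 < t := by positivity
    have ht1 : t ≤ 1 := min_le_left _ _
    have htε : C * t ^ ε ≤ r := by
      have : t ^ ε ≤ r / C := by
        calc t ^ ε ≤ ((r / C) ^ (1 / ε)) ^ ε :=
              Real.rpow_le_rpow htpos.le (min_le_right _ _) hε.le
          _ = r / C := by
              rw [← Real.rpow_mul (by positivity), one_div_mul_cancel hε.ne', Real.rpow_one]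
      rw [le_div_iff₀ hC0] at this
      linarith
    have htlow : r ≤ (C + Metric.diam (univ : Set Z)) * t ^ ε := by
      rcases min_cases 1 ((r / C) ^ (1 / ε)) with h | h
      · rw [ht, h.1, Real.one_rpow]; linarith
      · rw [ht, h.1, ← Real.rpow_mul (by positivity), one_div_mul_cancel hε.ne', Real.rpow_one]
        have h1 : 0 ≤ r / C := by positivity
        have h2 : C * (r / C) = r := by field_simp
        nlinarith
    set n : ℝ := -Real.log t with hn
    have hn0 : 0 ≤ n := by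
      have := Real.log_nonpos htpos.le ht1
      rw [hn]; linarith
    have hen : Real.exp (-n) = t := by rw [hn, neg_neg, Real.exp_log htpos]
    obtain ⟨s, -, hs2⟩ := hscale (rep z).1 (rep z).2 n hn0
    obtain ⟨h, hhF, hh⟩ := hF (fun i => s⁻¹ * (rep z).1 i) (Conv_left hl s⁻¹ (rep z).2)
    have hin : ∀ a ∈ Metric.closedBall (bd w0) c0, DD d 1 (fun i => s⁻¹ * (rep z).1 i)
        (tr hl h (rep a)).1 ≤ c := by
      intro a ha
      apply hh _ (rep a).2
      apply hsmall _ _ _ hκ.le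
      rw [Metric.mem_closedBall, dist_comm] at ha
      rw [show bd (rep a) = a from hrep a]
      calc C * dist (bd w0) a ≤ C * c0 := mul_le_mul_of_nonneg_left ha hC0.le
        _ = κ ^ ε := by rw [hc0]; field_simp
    refine ⟨fun a => bd (tr hl s (tr hl h (rep a))), ?_, ?_⟩
    · intro a ha
      have h1 := (hs2 (tr hl h (rep a)).1 (tr hl h (rep a)).1 (tr hl h (rep a)).2
        (tr hl h (rep a)).2 (hin a ha) (hin a ha)).1
      have h2 := hle' (rep z) (tr hl s (tr hl h (rep a)))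
      rw [hrep] at h2
      rw [Metric.mem_closedBall, dist_comm]
      refine h2.trans (le_trans ?_ htε)
      rw [hen] at h1
      exact mul_le_mul_of_nonneg_left (Real.rpow_le_rpow (hnn _ _) h1 hε.le) hC0.le
    · intro a ha b hb
      have h1 := (hs2 (tr hl h (rep a)).1 (tr hl h (rep b)).1 (tr hl h (rep a)).2
        (tr hl h (rep b)).2 (hin a ha) (hin b hb)).2
      have h2 := le_DD_tr hd hl h (rep a).1 (rep b).1
      have h4 : Real.exp (-Λ) ≤ Real.exp (-(d 1 h⁻¹)) :=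
        Real.exp_le_exp.2 (by linarith [hΛ h hhF])
      have h5 : t * (Real.exp (-Λ) * DD d 1 (rep a).1 (rep b).1) ≤
          K * DD d 1 (tr hl s (tr hl h (rep a))).1 (tr hl s (tr hl h (rep b))).1 := by
        rw [hen] at h1
        refine le_trans ?_ h1
        apply mul_le_mul_of_nonneg_left _ htpos.le
        exact (mul_le_mul_of_nonneg_right h4 (hnn _ _)).trans h2
      have h6 : t * DD d 1 (rep a).1 (rep b).1 ≤ K * Real.exp Λ *
          DD d 1 (tr hl s (tr hl h (rep a))).1 (tr hl s (tr hl h (rep b))).1 := by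
        have e1 : Real.exp Λ * (t * (Real.exp (-Λ) * DD d 1 (rep a).1 (rep b).1)) =
            t * DD d 1 (rep a).1 (rep b).1 := by
          rw [Real.exp_neg]; field_simp
        rw [← e1]
        calc Real.exp Λ * (t * (Real.exp (-Λ) * DD d 1 (rep a).1 (rep b).1))
            ≤ Real.exp Λ * (K * DD d 1 (tr hl s (tr hl h (rep a))).1
              (tr hl s (tr hl h (rep b))).1) :=
              mul_le_mul_of_nonneg_left h5 (Real.exp_pos _).le
          _ = _ := by ring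
      have h7 := Real.rpow_le_rpow (mul_nonneg htpos.le (hnn _ _)) h6 hε.le
      rw [Real.mul_rpow htpos.le (hnn _ _), Real.mul_rpow (by positivity) (hnn _ _)] at h7
      have h8 := hle' (rep a) (rep b)
      rw [hrep, hrep] at h8
      have h9 := hle (tr hl s (tr hl h (rep a))) (tr hl s (tr hl h (rep b)))
      have hDab := Real.rpow_nonneg (hnn (rep a).1 (rep b).1) ε
      have hdn : 0 ≤ dist (bd (tr hl s (tr hl h (rep a)))) (bd (tr hl s (tr hl h (rep b)))) :=
        dist_nonneg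
      have hKΛ : 0 ≤ (K * Real.exp Λ) ^ ε := by positivity
      calc r * dist a b ≤ ((C + Metric.diam (univ : Set Z)) * t ^ ε) *
            (C * DD d 1 (rep a).1 (rep b).1 ^ ε) :=
            mul_le_mul htlow h8 dist_nonneg (by positivity)
        _ = (C + Metric.diam (univ : Set Z)) * C * (t ^ ε * DD d 1 (rep a).1 (rep b).1 ^ ε) := by
            ring
        _ ≤ (C + Metric.diam (univ : Set Z)) * C * ((K * Real.exp Λ) ^ ε *
            (C * dist (bd (tr hl s (tr hl h (rep a)))) (bd (tr hl s (tr hl h (rep b)))))) := by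
            apply mul_le_mul_of_nonneg_left _ (by positivity)
            exact h7.trans (mul_le_mul_of_nonneg_left h9 hKΛ)
        _ = C ^ 2 * (K * Real.exp Λ) ^ ε * (C + Metric.diam (univ : Set Z)) *
            dist (bd (tr hl s (tr hl h (rep a)))) (bd (tr hl s (tr hl h (rep b)))) := by ring
        _ ≤ C' * dist (bd (tr hl s (tr hl h (rep a)))) (bd (tr hl s (tr hl h (rep b)))) := by
            apply mul_le_mul_of_nonneg_right _ hdn
            rw [hC']; linarith
  · -- H3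
    have hcont : ∀ g, Continuous (T g) := by
      intro g
      have : LipschitzWith (Real.toNNReal (C ^ 2 * Real.exp (d 1 g⁻¹) ^ ε)) (T g) := by
        apply LipschitzWith.of_dist_le_mul
        intro x y
        rw [Real.coe_toNNReal _ (by positivity)]
        exact hTlip g x y
      exact this.continuous
    have hcover : (univ : Set Z) ⊆ ⋃ g : G, T g ⁻¹' Metric.ball (bd w0) (c0 / 2) := by
      intro z _
      obtain ⟨f, hfz⟩ := hnofix (rep z).1 (rep z).2
      set τ : ℝ := (c0 / 4 / C) ^ (1 / ε) with hτ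
      obtain ⟨h, hh⟩ := minimal hd hl hf hδ w0.1 (rep z).1 w0.2 (rep z).2 f hfz τ (by positivity)
      rw [mem_iUnion]
      refine ⟨h, ?_⟩
      show T h z ∈ Metric.ball (bd w0) (c0 / 2)
      rw [Metric.mem_ball, dist_comm]
      have h1 := hle' w0 (tr hl h (rep z))
      have h2 := Real.rpow_le_rpow (hnn _ _) hh hε.le
      rw [hτ, ← Real.rpow_mul (by positivity), one_div_mul_cancel hε.ne', Real.rpow_one] at h2
      have h4 : C * (c0 / 4 / C) = c0 / 4 := by field_simp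
      calc dist (bd w0) (T h z) ≤ C * DD d 1 w0.1 (tr hl h (rep z)).1 ^ ε := h1
        _ ≤ C * (c0 / 4 / C) := mul_le_mul_of_nonneg_left h2 hC0.le
        _ = c0 / 4 := h4
        _ < c0 / 2 := by linarith
    obtain ⟨S, hS⟩ := isCompact_univ.elim_finite_subcover _
      (fun g => Metric.isOpen_ball.preimage (hcont g)) hcover
    obtain ⟨L, hL⟩ : ∃ L : ℝ, ∀ g ∈ S, C ^ 2 * Real.exp (d 1 g⁻¹⁻¹) ^ ε ≤ L := by
      obtain ⟨L, hL⟩ := (S.image (fun g => C ^ 2 * Real.exp (d 1 g⁻¹⁻¹) ^ ε)).bddAbove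
      exact ⟨L, fun g hg => hL (Finset.mem_coe.2
        (Finset.mem_image_of_mem (fun g => C ^ 2 * Real.exp (d 1 g⁻¹⁻¹) ^ ε) hg))⟩
    refine ⟨S.card, fun i => T ((S.equivFin.symm i).1)⁻¹, Real.toNNReal L, ?_, ?_⟩
    · intro i
      apply LipschitzWith.of_dist_le_mul
      intro x y
      have h1 := hTlip ((S.equivFin.symm i).1)⁻¹ x y
      have h2 := hL _ (S.equivFin.symm i).2
      have h4 : L ≤ (Real.toNNReal L : ℝ) := Real.le_coe_toNNReal L
      exact h1.trans (mul_le_mul_of_nonneg_right (h2.trans h4) dist_nonneg)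
    · rw [eq_univ_iff_forall]
      intro z
      have hz := hS (mem_univ z)
      rw [mem_iUnion₂] at hz
      obtain ⟨g, hg, hz⟩ := hz
      rw [mem_iUnion]
      refine ⟨S.equivFin ⟨g, hg⟩, ?_⟩
      show z ∈ T ((S.equivFin.symm (S.equivFin ⟨g, hg⟩)).1)⁻¹ '' Metric.ball (bd w0) (c0 / 2)
      rw [Equiv.symm_apply_apply]
      exact ⟨T g z, hz, hTinv g z⟩

end selfsim

theorem ACD_le_VD {G : Type} [Group G] (hG : IsHyperbolicGroup G) : ACD G ≤ VD G := by
  apply le_sInf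
  rintro D ⟨X, mX, act, m, hgeo, hvis, rfl⟩
  have hvis0 := hvis
  obtain ⟨o, ε, C₀, hε, hC₀, hv⟩ := hvis
  set d : G → G → ℝ := fun g h => dist (g • o) (h • o) with hd_def
  obtain ⟨R, hd, -⟩ := orbit_isRG hgeo o
  have hl : LeftInv d := orbit_leftInv hgeo o
  have hf : FinBalls d := orbit_finBalls hgeo o
  obtain ⟨δ, hδ⟩ := hyp_of_group hG hd hl hf
  obtain ⟨bd, C, hC, hbsurj, hb0, hb⟩ := dict hgeo o ⟨δ, hδ⟩
  obtain ⟨C₁, hC₁, hcmp⟩ := visual_compare m hd bd hε hC₀ hC hv hb0 hb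
  have hcomp : CompactSpace (Boundary X) := boundary_compact hd hl hf hδ bd hbsurj hε hC₁ hcmp
  have hAR := selfsim_regular hd hl hf hδ bd hbsurj hε hC₁ hcmp
  apply sInf_le
  refine ⟨Boundary X, m, hcomp, ⟨X, mX, act, m, hgeo, hvis0, Homeomorph.refl _, ?_⟩, hAR, rfl⟩
  refine ⟨OrderIso.refl _, ?_⟩
  intro x y z hxz
  have h1 : nndist x z ≠ 0 := by
    rw [ne_eq, nndist_eq_zero]; exact hxz
  show nndist x y ≤ (nndist x y / nndist x z) * nndist x z
  rw [div_mul_cancel₀ _ h1]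

/-- Kleiner's question: equality. -/
theorem ACD_eq_VD {G : Type} [Group G] (hG : IsHyperbolicGroup G) : ACD G = VD G :=
  le_antisymm (ACD_le_VD hG) (VD_le_ACD hG)

end Pool.Agent.KlCD94
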