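import Pool.Agent.KlCD94.Base

/-!
# Stability of rough geodesics, centers and comparison of Gromov products (MP_0b9722_gt, task M)
-/

open Set Filter Topology

namespace Pool.Agent.KlCD94
namespace Morse

variable {G : Type} {d d' : G → G → ℝ} {R R' δ A B : ℝ}

theorem nonneg (hd : IsRG d R) (x y : G) : 0 ≤ d x y := by
  have h := hd.tri x y x
  rw [hd.self, hd.symm y x] at h
  linarith

theorem R_nonneg (hd : IsRG d R) (x : G) : 0 ≤ R := by
  obtain ⟨γ, h0, h1, h2⟩ := hd.rough x x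
  have h := h2 0 ⟨le_rfl, nonneg hd _ _⟩ 0 ⟨le_rfl, nonneg hd _ _⟩
  exact le_trans (abs_nonneg _) h

theorem delta_nonneg (hd : IsRG d R) (hδ : Hyp d δ) (x : G) : 0 ≤ δ := by
  have h := hδ x x x x
  simp only [gp, hd.self, min_self] at h
  linarith

theorem gp_nonneg (hd : IsRG d R) (o x y : G) : 0 ≤ gp d o x y := by
  have h := hd.tri x o y
  rw [hd.symm x o] at h
  unfold gp; linarith

theorem gp_comm (hd : IsRG d R) (o x y : G) : gp d o x y = gp d o y x := by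
  unfold gp; rw [hd.symm x y]; ring

/-- four point condition in distance form -/
theorem four (hδ : Hyp d δ) (o x y z : G) :
    d x z + d o y ≤ max (d x y + d o z) (d y z + d o x) + 2 * δ := by
  have h := hδ o x y z
  have h1 := le_max_left (d x y + d o z) (d y z + d o x)
  have h2 := le_max_right (d x y + d o z) (d y z + d o x)
  unfold gp at h
  rcases min_choice ((d o x + d o y - d x y) / 2) ((d o y + d o z - d y z) / 2) with h3 | h3 <;>
    rw [h3] at h <;> linarith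

theorem gp_ge (hd : IsRG d R) (p u w : G) : d p u - d u w ≤ gp d p u w := by
  have h := hd.tri p w u
  rw [hd.symm w u] at h
  unfold gp; linarith

/-- halving -/
theorem chain (hd : IsRG d R) (hδ : Hyp d δ) (o : G) (c : ℕ → G) (e : ℝ) (k : ℕ) :
    ∀ a b : ℕ, a ≤ b → b - a ≤ 2 ^ k → (∀ i, a ≤ i → i < b → e ≤ gp d o (c i) (c (i + 1))) →
      (∀ i, a ≤ i → i ≤ b → e ≤ d o (c i)) → e - k * δ ≤ gp d o (c a) (c b) := by
  induction k with
  | zero =>
    intro a b hab hk h1 h2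
    rw [pow_zero] at hk
    have hb : b = a ∨ b = a + 1 := by omega
    rcases hb with rfl | rfl
    · have h := h2 b le_rfl le_rfl
      unfold gp; rw [hd.self]
      push_cast; linarith
    · have h := h1 a le_rfl (Nat.lt_succ_self a)
      push_cast; linarith
  | succ k ih =>
    intro a b hab hk h1 h2
    have hk' : 2 ^ (k + 1) = 2 * 2 ^ k := by ring
    have hd2 : (b - a) / 2 * 2 ≤ b - a := Nat.div_mul_le_self _ _
    have hd3 : b - a < (b - a) / 2 * 2 + 2 := by omega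
    obtain ⟨m, hm⟩ : ∃ m, m = a + (b - a) / 2 := ⟨_, rfl⟩
    have h3 := ih a m (by omega) (by omega) (fun i hi hi' => h1 i hi (by omega))
      (fun i hi hi' => h2 i hi (by omega))
    have h4 := ih m b (by omega) (by omega) (fun i hi hi' => h1 i (by omega) hi')
      (fun i hi hi' => h2 i (by omega) hi')
    have h5 := hδ o (c a) (c m) (c b)
    have h6 : e - k * δ ≤ min (gp d o (c a) (c m)) (gp d o (c m) (c b)) := le_min h3 h4
    push_cast; linarith

theorem growth (α β : ℝ) : ∃ k0 : ℕ, ∀ k : ℕ, (2 : ℝ) ^ k ≤ α + β * k → k ≤ k0 := by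
  have h1 : Tendsto (fun k : ℕ => α * (1 / (2 : ℝ) ^ k) + β * ((k : ℝ) ^ 1 / (2 : ℝ) ^ k)) atTop
      (𝓝 (α * 0 + β * 0)) := by
    have h2 := tendsto_pow_const_div_const_pow_of_one_lt 1 (r := (2 : ℝ)) (by norm_num)
    have h3 := tendsto_pow_const_div_const_pow_of_one_lt 0 (r := (2 : ℝ)) (by norm_num)
    simp only [pow_zero] at h3
    exact (h3.const_mul α).add (h2.const_mul β)
  rw [mul_zero, mul_zero, add_zero] at h1
  have h4 := h1.eventually (gt_mem_nhds (show (0 : ℝ) < 1 by norm_num))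
  obtain ⟨k0, hk0⟩ := eventually_atTop.1 h4
  refine ⟨k0, fun k hk => ?_⟩
  by_contra hlt
  have h5 := hk0 k (by omega)
  have h6 : (0 : ℝ) < 2 ^ k := by positivity
  have h7 : α * (1 / (2 : ℝ) ^ k) + β * ((k : ℝ) ^ 1 / (2 : ℝ) ^ k) = (α + β * k) / 2 ^ k := by
    rw [pow_one]; ring
  rw [h7, div_lt_one h6] at h5
  linarith

/-- key lemma: a rough geodesic stays close to a quasi-geodesic chain -/
theorem chain_close (hd : IsRG d R) (hδ : Hyp d δ) (J A B : ℝ) (hA : 0 ≤ A) (hJ : 0 ≤ J) :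
    ∃ D0 : ℝ, ∀ (x y : G) (c : ℕ → G) (N : ℕ) (γ : ℝ → G),
      d x (γ 0) = 0 → d (γ (d x y)) y = 0 →
      (∀ s ∈ Icc (0 : ℝ) (d x y), ∀ t ∈ Icc (0 : ℝ) (d x y), abs (d (γ s) (γ t) - |s - t|) ≤ R) →
      c 0 = x → c N = y → (∀ i < N, d (c i) (c (i + 1)) ≤ J) →
      (∀ i j, i ≤ j → j ≤ N → ((j : ℝ) - i) ≤ A * d (c i) (c j) + B) →
      ∀ t ∈ Icc (0 : ℝ) (d x y), ∃ i ≤ N, d (γ t) (c i) ≤ D0 := by
  obtain ⟨a, ha⟩ : ∃ a : ℝ, a = 1 + J + R + 3 * R / 2 + 2 * δ := ⟨_, rfl⟩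
  obtain ⟨k0, hk0⟩ := growth (A * (6 * (a + δ) + R) + B) (6 * A * δ)
  refine ⟨a + (k0 + 1) * δ, ?_⟩
  intro x y c N γ hγ0 hγL hγ hc0 hcN hJc hAB
  have hR : 0 ≤ R := R_nonneg hd x
  have hδ0 : 0 ≤ δ := delta_nonneg hd hδ x
  obtain ⟨L, hL⟩ : ∃ L, L = d x y := ⟨_, rfl⟩
  rw [← hL] at hγL hγ ⊢
  have hL0 : 0 ≤ L := hL ▸ nonneg hd x y
  have hne : (Finset.range (N + 1)).Nonempty := ⟨0, Finset.mem_range.2 (Nat.succ_pos _)⟩
  obtain ⟨ρ, hρ⟩ : ∃ ρ : ℝ → ℝ, ρ = fun t => (Finset.range (N + 1)).inf' hne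
    (fun i => d (γ t) (c i)) := ⟨_, rfl⟩
  have hρle : ∀ t i, i ≤ N → ρ t ≤ d (γ t) (c i) := by
    intro t i hi
    rw [hρ]
    exact Finset.inf'_le (fun i => d (γ t) (c i)) (Finset.mem_range.2 (by omega))
  have hρex : ∀ t, ∃ i ≤ N, ρ t = d (γ t) (c i) := by
    intro t
    obtain ⟨i, hi, hi'⟩ := Finset.exists_mem_eq_inf' hne (fun i => d (γ t) (c i))
    refine ⟨i, by have := Finset.mem_range.1 hi; omega, ?_⟩
    rw [hρ]; exact hi'
  have h0L : (0 : ℝ) ∈ Icc (0 : ℝ) L := ⟨le_rfl, hL0⟩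
  have hbdd : BddAbove (ρ '' Icc 0 L) := by
    refine ⟨L + R, ?_⟩
    rintro _ ⟨t, ht, rfl⟩
    have h1 := hρle t 0 (Nat.zero_le _)
    have h2 := hd.tri (γ t) (γ 0) x
    have h3 := hγ t ht 0 h0L
    rw [sub_zero, abs_of_nonneg ht.1] at h3
    have h4 := (abs_le.1 h3).2
    rw [hd.symm (γ 0) x, hγ0] at h2
    rw [hc0] at h1
    linarith [ht.2]
  have hnon : (ρ '' Icc 0 L).Nonempty := ⟨ρ 0, 0, h0L, rfl⟩
  obtain ⟨D, hD⟩ : ∃ D, D = sSup (ρ '' Icc 0 L) := ⟨_, rfl⟩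
  have hρD : ∀ t ∈ Icc 0 L, ρ t ≤ D := fun t ht => hD ▸ le_csSup hbdd ⟨t, ht, rfl⟩
  obtain ⟨t0, ht0, ht0D⟩ : ∃ t0 ∈ Icc 0 L, D - 1 < ρ t0 := by
    obtain ⟨_, ⟨t0, ht0, rfl⟩, h⟩ := exists_lt_of_lt_csSup hnon
      (show D - 1 < sSup (ρ '' Icc 0 L) by rw [← hD]; linarith)
    exact ⟨t0, ht0, h⟩
  have hD0 : 0 ≤ D := by
    have h1 := hρD 0 h0L
    obtain ⟨i, hi, hi'⟩ := hρex 0
    have := nonneg hd (γ 0) (c i)
    linarith
  have hp : ∀ i ≤ N, D - 1 ≤ d (γ t0) (c i) := fun i hi => by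
    have := hρle t0 i hi
    linarith
  -- left point
  obtain ⟨tm, htm, htm', i, hi, hui, hgi, hci⟩ : ∃ tm ∈ Icc 0 L, t0 - 2 * D ≤ tm ∧ ∃ i ≤ N,
      tm ≤ t0 ∧ D - 1 - R ≤ gp d (γ t0) (γ tm) (c i) ∧ d (γ tm) (c i) ≤ D := by
    rcases le_total 0 (t0 - 2 * D) with h | h
    · have hm : t0 - 2 * D ∈ Icc 0 L := ⟨h, by linarith [ht0.2]⟩
      obtain ⟨i, hi, hi'⟩ := hρex (t0 - 2 * D)
      refine ⟨t0 - 2 * D, hm, le_rfl, i, hi, by linarith, ?_, ?_⟩
      · have h1 := gp_ge hd (γ t0) (γ (t0 - 2 * D)) (c i)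
        have h2 := hρD _ hm
        have h3 := (abs_le.1 (hγ t0 ht0 _ hm)).1
        rw [show t0 - (t0 - 2 * D) = 2 * D by ring, abs_of_nonneg (by linarith)] at h3
        linarith
      · have h2 := hρD _ hm
        linarith
    · refine ⟨0, h0L, h, 0, Nat.zero_le _, ht0.1, ?_, ?_⟩
      · have h1 := hp 0 (Nat.zero_le _)
        have h2 := gp_ge hd (γ t0) (c 0) (γ 0)
        rw [gp_comm hd]
        rw [hc0] at h1 h2 ⊢
        rw [hγ0] at h2
        linarith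
      · rw [hc0, hd.symm, hγ0]; exact hD0
  obtain ⟨tp, htp, htp', j, hj, huj, hgj, hcj⟩ : ∃ tp ∈ Icc 0 L, tp ≤ t0 + 2 * D ∧ ∃ j ≤ N,
      t0 ≤ tp ∧ D - 1 - R ≤ gp d (γ t0) (γ tp) (c j) ∧ d (γ tp) (c j) ≤ D := by
    rcases le_total (t0 + 2 * D) L with h | h
    · have hm : t0 + 2 * D ∈ Icc 0 L := ⟨by linarith [ht0.1], h⟩
      obtain ⟨i, hi, hi'⟩ := hρex (t0 + 2 * D)
      refine ⟨t0 + 2 * D, hm, le_rfl, i, hi, by linarith, ?_, ?_⟩
      · have h1 := gp_ge hd (γ t0) (γ (t0 + 2 * D)) (c i)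
        have h2 := hρD _ hm
        have h3 := (abs_le.1 (hγ t0 ht0 _ hm)).1
        rw [show t0 - (t0 + 2 * D) = -(2 * D) by ring, abs_neg, abs_of_nonneg (by linarith)] at h3
        linarith
      · have h2 := hρD _ hm
        linarith
    · refine ⟨L, ⟨hL0, le_rfl⟩, h, N, le_rfl, ht0.2, ?_, ?_⟩
      · have h1 := hp N le_rfl
        have h2 := gp_ge hd (γ t0) (c N) (γ L)
        rw [gp_comm hd]
        rw [hcN] at h1 h2 ⊢
        rw [hd.symm y, hγL] at h2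
        linarith
      · rw [hcN, hγL]; exact hD0
  -- distance between chain points
  have huv : d (γ tm) (γ tp) ≤ 4 * D + R := by
    have h3 := (abs_le.1 (hγ tm htm tp htp)).2
    rw [abs_sub_comm, abs_of_nonneg (by linarith)] at h3
    linarith
  have hcc : d (c i) (c j) ≤ 6 * D + R := by
    have h1 := hd.tri (c i) (γ tm) (c j)
    have h2 := hd.tri (γ tm) (γ tp) (c j)
    rw [hd.symm (c i) (γ tm)] at h1
    linarith
  -- gp between chain points
  have hstep : ∀ l < N, D - 1 - J ≤ gp d (γ t0) (c l) (c (l + 1)) := by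
    intro l hl
    have h1 := gp_ge hd (γ t0) (c l) (c (l + 1))
    have h2 := hp l hl.le
    have h3 := hJc l hl
    linarith
  have key : ∀ i j, i ≤ j → j ≤ N → d (c i) (c j) ≤ 6 * D + R → ∃ k : ℕ,
      (k = 0 ∨ (2 : ℝ) ^ (k - 1) ≤ A * (6 * D + R) + B) ∧
      D - 1 - J - k * δ ≤ gp d (γ t0) (c i) (c j) := by
    intro i j hij hj hcc
    refine ⟨Nat.clog 2 (j - i), ?_, ?_⟩
    · rcases Nat.lt_or_ge 1 (j - i) with h | h
      · right
        have h1 := Nat.pow_pred_clog_lt_self (b := 2) (by norm_num) h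
        have h2 : ((2 ^ (Nat.clog 2 (j - i)).pred : ℕ) : ℝ) ≤ ((j - i : ℕ) : ℝ) := by
          exact_mod_cast h1.le
        rw [Nat.cast_sub hij] at h2
        push_cast at h2
        have h3 := hAB i j hij hj
        have h4 : A * d (c i) (c j) ≤ A * (6 * D + R) := mul_le_mul_of_nonneg_left hcc hA
        rw [Nat.pred_eq_sub_one] at h2
        linarith
      · left
        exact Nat.clog_of_right_le_one h 2
    · refine chain hd hδ (γ t0) c (D - 1 - J) (Nat.clog 2 (j - i)) i j hij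
        (Nat.le_pow_clog (by norm_num) _) (fun l _ hl => hstep l (by omega)) (fun l _ hl => ?_)
      have := hp l (by omega)
      linarith
  have key2 : ∃ k : ℕ, (k = 0 ∨ (2 : ℝ) ^ (k - 1) ≤ A * (6 * D + R) + B) ∧
      D - 1 - J - k * δ ≤ gp d (γ t0) (c i) (c j) := by
    rcases le_total i j with h | h
    · exact key i j h hj hcc
    · obtain ⟨k, hk1, hk2⟩ := key j i h hi (by rw [hd.symm]; exact hcc)
      exact ⟨k, hk1, by rw [gp_comm hd]; exact hk2⟩
  obtain ⟨k, hk1, hk2⟩ := key2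
  have hkδ : 0 ≤ (k : ℝ) * δ := mul_nonneg (Nat.cast_nonneg _) hδ0
  -- four points twice
  have h1 := hδ (γ t0) (γ tm) (c i) (c j)
  have h2 := hδ (γ t0) (γ tm) (c j) (γ tp)
  rw [gp_comm hd (γ t0) (c j) (γ tp)] at h2
  have h3 : D - 1 - J - R - k * δ ≤ min (gp d (γ t0) (γ tm) (c i)) (gp d (γ t0) (c i) (c j)) :=
    le_min (by linarith) (by linarith)
  have h4 : D - 1 - J - R - k * δ - δ ≤ min (gp d (γ t0) (γ tm) (c j)) (gp d (γ t0) (γ tp) (c j)) :=
    le_min (by linarith) (by linarith)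
  have h5 : gp d (γ t0) (γ tm) (γ tp) ≤ 3 * R / 2 := by
    have e1 := (abs_le.1 (hγ t0 ht0 tm htm)).2
    have e2 := (abs_le.1 (hγ t0 ht0 tp htp)).2
    have e3 := (abs_le.1 (hγ tm htm tp htp)).1
    rw [abs_of_nonneg (by linarith)] at e1
    rw [abs_sub_comm, abs_of_nonneg (by linarith)] at e2 e3
    unfold gp
    linarith
  have hDa : D ≤ a + k * δ := by rw [ha]; linarith
  have hDfin : D ≤ a + (k0 + 1) * δ := by
    rcases Nat.eq_zero_or_pos k with hk | hk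
    · rw [hk] at hDa
      have : 0 ≤ ((k0 : ℝ) + 1) * δ := by positivity
      push_cast at hDa
      linarith
    · rcases hk1 with hk1 | hk1
      · omega
      · have e1 : ((k - 1 : ℕ) : ℝ) = (k : ℝ) - 1 := by
          rw [Nat.cast_sub (by omega)]; push_cast; ring
        have e2 : k - 1 ≤ k0 := by
          apply hk0
          rw [e1]
          have : A * (6 * D + R) ≤ A * (6 * (a + k * δ) + R) :=
            mul_le_mul_of_nonneg_left (by linarith) hA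
          nlinarith
        have e3 : (k : ℝ) ≤ k0 + 1 := by
          have : ((k - 1 : ℕ) : ℝ) ≤ k0 := by exact_mod_cast e2
          linarith
        have := mul_le_mul_of_nonneg_right e3 hδ0
        linarith
  intro t ht
  obtain ⟨i, hi, hi'⟩ := hρex t
  exact ⟨i, hi, by have := hρD t ht; linarith⟩

/-- points with small Gromov product are close to the rough geodesic -/
theorem near_geodesic (hd : IsRG d R) (hδ : Hyp d δ) (m x y : G) (γ : ℝ → G)
    (hγ0 : d x (γ 0) = 0) (hγL : d (γ (d x y)) y = 0)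
    (hγ : ∀ s ∈ Icc (0 : ℝ) (d x y), ∀ t ∈ Icc (0 : ℝ) (d x y),
      abs (d (γ s) (γ t) - |s - t|) ≤ R) :
    ∃ t ∈ Icc (0 : ℝ) (d x y), d m (γ t) ≤ gp d m x y + R + 2 * δ := by
  have hL0 : 0 ≤ d x y := nonneg hd x y
  have ht : (d x m + d x y - d m y) / 2 ∈ Icc (0 : ℝ) (d x y) := by
    constructor
    · have := hd.tri m x y
      rw [hd.symm m x] at this
      linarith
    · have := hd.tri x m y
      have h2 := hd.tri x y m
      rw [hd.symm y m] at h2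
      linarith
  refine ⟨_, ht, ?_⟩
  obtain ⟨t, htt⟩ : ∃ t, t = (d x m + d x y - d m y) / 2 := ⟨_, rfl⟩
  rw [← htt] at ht ⊢
  have e1 : d x (γ t) ≤ t + R := by
    have h1 := hd.tri x (γ 0) (γ t)
    have h2 := (abs_le.1 (hγ 0 ⟨le_rfl, hL0⟩ t ht)).2
    rw [zero_sub, abs_neg, abs_of_nonneg ht.1] at h2
    linarith
  have e2 : d (γ t) y ≤ d x y - t + R := by
    have h1 := hd.tri (γ t) (γ (d x y)) y
    have h2 := (abs_le.1 (hγ t ht (d x y) ⟨hL0, le_rfl⟩)).2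
    rw [abs_sub_comm, abs_of_nonneg (by linarith [ht.2])] at h2
    linarith
  have h := four hδ x m y (γ t)
  have e3 : max (d m y + d x (γ t)) (d y (γ t) + d x m) ≤ gp d m x y + d x y + R := by
    rw [hd.symm y (γ t)]
    unfold gp
    rw [hd.symm m x]
    refine max_le ?_ ?_ <;> linarith
  linarith

/-- on a rough geodesic all Gromov products are small -/
theorem gp_geodesic (hd : IsRG d R) (x y : G) (γ : ℝ → G)
    (hγ0 : d x (γ 0) = 0) (hγL : d (γ (d x y)) y = 0)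
    (hγ : ∀ s ∈ Icc (0 : ℝ) (d x y), ∀ t ∈ Icc (0 : ℝ) (d x y),
      abs (d (γ s) (γ t) - |s - t|) ≤ R) (t : ℝ) (ht : t ∈ Icc (0 : ℝ) (d x y)) :
    d x (γ t) ≤ t + R ∧ d (γ t) y ≤ d x y - t + R ∧ gp d (γ t) x y ≤ R := by
  have hL0 : 0 ≤ d x y := nonneg hd x y
  have e1 : d x (γ t) ≤ t + R := by
    have h1 := hd.tri x (γ 0) (γ t)
    have h2 := (abs_le.1 (hγ 0 ⟨le_rfl, hL0⟩ t ht)).2
    rw [zero_sub, abs_neg, abs_of_nonneg ht.1] at h2
    linarith
  have e2 : d (γ t) y ≤ d x y - t + R := by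
    have h1 := hd.tri (γ t) (γ (d x y)) y
    have h2 := (abs_le.1 (hγ t ht (d x y) ⟨hL0, le_rfl⟩)).2
    rw [abs_sub_comm, abs_of_nonneg (by linarith [ht.2])] at h2
    linarith
  refine ⟨e1, e2, ?_⟩
  unfold gp
  rw [hd.symm (γ t) x]
  linarith

theorem gp_move (hd : IsRG d R) (m p x y : G) : gp d m x y ≤ gp d p x y + d m p := by
  have h1 := hd.tri m p x
  have h2 := hd.tri m p y
  unfold gp; linarith

/-- the chain coming from a rough `d'`-geodesic -/
theorem morse_aux (hd : IsRG d R) (hd' : IsRG d' R') (hδ : Hyp d δ) (hA : 0 ≤ A) (hB : 0 ≤ B)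
    (h1 : ∀ x y, d x y ≤ A * d' x y + B) (h2 : ∀ x y, d' x y ≤ A * d x y + B) (r : ℝ) :
    ∃ r', ∀ m x y, gp d m x y ≤ r → gp d' m x y ≤ r' := by
  by_cases hG : Nonempty G
  swap
  · exact ⟨0, fun m => (hG ⟨m⟩).elim⟩
  obtain ⟨g0⟩ := hG
  have hR : 0 ≤ R := R_nonneg hd g0
  have hR' : 0 ≤ R' := R_nonneg hd' g0
  have hδ0 : 0 ≤ δ := delta_nonneg hd hδ g0
  obtain ⟨J, hJ⟩ : ∃ J, J = A * (1 + R') + B := ⟨_, rfl⟩
  have hJ0 : 0 ≤ J := by rw [hJ]; positivity
  obtain ⟨D0, hD0⟩ := chain_close hd hδ J A (B + R' + 3) hA hJ0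
  refine ⟨R' + (A * (r + R + 2 * δ + D0) + B), ?_⟩
  intro m x y hm
  obtain ⟨γ, hγ0, hγL, hγ⟩ := hd.rough x y
  obtain ⟨γ', hγ0', hγL', hγ'⟩ := hd'.rough x y
  obtain ⟨t, ht, htm⟩ := near_geodesic hd hδ m x y γ hγ0 hγL hγ
  obtain ⟨L', hL'⟩ : ∃ L', L' = d' x y := ⟨_, rfl⟩
  have hL0' : 0 ≤ L' := hL' ▸ nonneg hd' x y
  rw [← hL'] at hγL' hγ'
  obtain ⟨n, hn⟩ : ∃ n : ℕ, n = ⌈L'⌉₊ := ⟨_, rfl⟩
  have hn1 : L' ≤ n := hn ▸ Nat.le_ceil L'
  have hn2 : (n : ℝ) < L' + 1 := hn ▸ Nat.ceil_lt_add_one hL0'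
  obtain ⟨τ, hτ⟩ : ∃ τ : ℕ → ℝ, τ = fun i => min ((i - 1 : ℕ) : ℝ) L' := ⟨_, rfl⟩
  obtain ⟨c, hc⟩ : ∃ c : ℕ → G, c = fun i => if i = 0 then x else if i = n + 2 then y else
    γ' (τ i) := ⟨_, rfl⟩
  have hτmem : ∀ i, τ i ∈ Icc 0 L' := fun i => by
    rw [hτ]
    exact ⟨le_min (Nat.cast_nonneg _) hL0', min_le_right _ _⟩
  have hτ0 : τ 0 = 0 := by rw [hτ]; simp [hL0']
  have hτn : τ (n + 2) = L' := by
    rw [hτ]
    apply min_eq_right
    push_cast [show n + 2 - 1 = n + 1 by omega]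
    linarith
  have hc0 : c 0 = x := by rw [hc]; simp
  have hcn : c (n + 2) = y := by rw [hc]; simp
  have hcτ : ∀ i, d' (c i) (γ' (τ i)) = 0 := by
    intro i
    by_cases h0 : i = 0
    · rw [h0, hc0, hτ0]; exact hγ0'
    · by_cases h3 : i = n + 2
      · rw [h3, hcn, hτn, hd'.symm]; exact hγL'
      · rw [hc]; simp only [h0, h3, if_false]; exact hd'.self _
  have hcc : ∀ i j, abs (d' (c i) (c j) - |τ i - τ j|) ≤ R' := by
    intro i j
    have e1 := hd'.tri (c i) (γ' (τ i)) (c j)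
    have e2 := hd'.tri (γ' (τ i)) (γ' (τ j)) (c j)
    have e3 := hd'.tri (γ' (τ i)) (c i) (γ' (τ j))
    have e4 := hd'.tri (c i) (c j) (γ' (τ j))
    rw [hd'.symm (γ' (τ j)) (c j)] at e2
    rw [hd'.symm (γ' (τ i)) (c i)] at e3
    rw [hcτ] at e1 e2 e3 e4
    have e5 : d' (c i) (c j) = d' (γ' (τ i)) (γ' (τ j)) := le_antisymm (by linarith) (by linarith)
    rw [e5]
    exact hγ' _ (hτmem i) _ (hτmem j)
  have hsucc : ∀ i, |τ i - τ (i + 1)| ≤ 1 := by
    intro i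
    have e1 : (((i + 1 - 1 : ℕ)) : ℝ) = i := by push_cast [Nat.add_sub_cancel]; rfl
    have e2 : (i : ℝ) - 1 ≤ ((i - 1 : ℕ) : ℝ) := by
      rcases Nat.eq_zero_or_pos i with h | h
      · rw [h]; norm_num
      · rw [Nat.cast_sub h]; push_cast; linarith
    have e3 : ((i - 1 : ℕ) : ℝ) ≤ i := by exact_mod_cast Nat.sub_le i 1
    rw [hτ]
    simp only [e1]
    rw [abs_le]
    rcases min_cases ((i - 1 : ℕ) : ℝ) L' with ⟨h4, h5⟩ | ⟨h4, h5⟩ <;>
      rcases min_cases (i : ℝ) L' with ⟨h6, h7⟩ | ⟨h6, h7⟩ <;> rw [h4, h6] <;>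
      constructor <;> linarith
  have hJc : ∀ i < n + 2, d (c i) (c (i + 1)) ≤ J := by
    intro i _
    have e1 := (abs_le.1 (hcc i (i + 1))).2
    have e2 := hsucc i
    have e3 := h1 (c i) (c (i + 1))
    have e4 : A * d' (c i) (c (i + 1)) ≤ A * (1 + R') :=
      mul_le_mul_of_nonneg_left (by linarith) hA
    rw [hJ]; linarith
  have hAB : ∀ i j, i ≤ j → j ≤ n + 2 → ((j : ℝ) - i) ≤ A * d (c i) (c j) + (B + R' + 3) := by
    intro i j hij hj
    have e1 := (abs_le.1 (hcc i j)).1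
    have e2 := h2 (c i) (c j)
    have e3 : τ j - τ i ≤ |τ i - τ j| := by
      rw [abs_sub_comm]; exact le_abs_self _
    have e4 : τ i ≤ i := by
      rw [hτ]
      refine (min_le_left _ _).trans ?_
      exact_mod_cast Nat.sub_le i 1
    have e5 : (j : ℝ) - 3 ≤ τ j := by
      rw [hτ]
      have e6 : (j : ℝ) - 1 ≤ ((j - 1 : ℕ) : ℝ) := by
        rcases Nat.eq_zero_or_pos j with h | h
        · rw [h]; norm_num
        · rw [Nat.cast_sub h]; push_cast; linarith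
      have e7 : (j : ℝ) ≤ n + 2 := by exact_mod_cast hj
      refine le_min ?_ ?_ <;> linarith
    linarith
  obtain ⟨i, hi, hi'⟩ := hD0 x y c (n + 2) γ hγ0 hγL hγ hc0 hcn hJc hAB t ht
  have e1 : d m (c i) ≤ r + R + 2 * δ + D0 := by
    have := hd.tri m (γ t) (c i)
    linarith
  have e2 : d' m (c i) ≤ A * (r + R + 2 * δ + D0) + B := by
    have e3 := h2 m (c i)
    have e4 := mul_le_mul_of_nonneg_left e1 hA
    linarith
  have e3 : gp d' (c i) x y ≤ R' := by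
    rw [hL'] at hγL' hγ' hτmem
    have e4 := (gp_geodesic hd' x y γ' hγ0' hγL' hγ' (τ i) (hτmem i)).2.2
    have e5 := gp_move hd' (c i) (γ' (τ i)) x y
    rw [hcτ] at e5
    linarith
  have e4 := gp_move hd' m (c i) x y
  linarith

end Morse

open Morse

section M
variable {G : Type} {d d' : G → G → ℝ} {R R' δ A B : ℝ}

theorem morse (hd : IsRG d R) (hd' : IsRG d' R') (hδ : Hyp d δ)
    (h1 : ∀ x y, d x y ≤ A * d' x y + B) (h2 : ∀ x y, d' x y ≤ A * d x y + B) (r : ℝ) :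
    ∃ r', ∀ m x y, gp d m x y ≤ r → gp d' m x y ≤ r' := by
  refine morse_aux hd hd' hδ (A := max A 0) (B := max B 0) (le_max_right _ _) (le_max_right _ _)
    (fun x y => (h1 x y).trans ?_) (fun x y => (h2 x y).trans ?_) r
  · exact add_le_add (mul_le_mul_of_nonneg_right (le_max_left _ _) (nonneg hd' x y))
      (le_max_left _ _)
  · exact add_le_add (mul_le_mul_of_nonneg_right (le_max_left _ _) (nonneg hd x y))
      (le_max_left _ _)

theorem exists_center (hd : IsRG d R) (hδ : Hyp d δ) :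
    ∃ r, ∀ o x y, ∃ m, gp d m o x ≤ r ∧ gp d m o y ≤ r ∧ gp d m x y ≤ r := by
  refine ⟨R + δ, fun o x y => ?_⟩
  have hR : 0 ≤ R := R_nonneg hd o
  have hδ0 : 0 ≤ δ := delta_nonneg hd hδ o
  obtain ⟨γ, hγ0, hγL, hγ⟩ := hd.rough o x
  have ht : gp d o x y ∈ Icc (0 : ℝ) (d o x) := by
    refine ⟨gp_nonneg hd _ _ _, ?_⟩
    have := hd.tri o x y
    unfold gp; linarith
  obtain ⟨e1, e2, e3⟩ := gp_geodesic hd o x γ hγ0 hγL hγ _ ht
  obtain ⟨m, hm⟩ : ∃ m, m = γ (gp d o x y) := ⟨_, rfl⟩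
  rw [← hm] at e1 e2 e3
  obtain ⟨t, htt⟩ : ∃ t, t = gp d o x y := ⟨_, rfl⟩
  have htt' : 2 * t = d o x + d o y - d x y := by rw [htt]; unfold gp; ring
  rw [← htt] at e1 e2
  -- bound of d m y
  have h := four hδ x m o y
  have e4 : max (d m o + d x y) (d o y + d x m) ≤ t + R + d x y := by
    rw [hd.symm m o, hd.symm x m]
    refine max_le ?_ ?_ <;> linarith
  have e5 : d m y ≤ t + R + d x y - d o x + 2 * δ := by
    rw [hd.symm x o] at h
    linarith
  refine ⟨m, by linarith, ?_, ?_⟩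
  · unfold gp
    rw [hd.symm m o]
    linarith
  · unfold gp
    linarith

namespace Morse

theorem gp_identity (hd : IsRG d R) (o x y m : G) :
    gp d o x y = d o m - gp d m o x - gp d m o y + gp d m x y := by
  unfold gp
  rw [hd.symm m o]
  ring

theorem gp_le (hd : IsRG d R) {o x y m : G} {r : ℝ} (h3 : gp d m x y ≤ r) :
    gp d o x y ≤ d o m + r := by
  rw [gp_identity hd o x y m]
  have h1 := gp_nonneg hd m o x
  have h2 := gp_nonneg hd m o y
  linarith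

theorem le_gp (hd : IsRG d R) {o x y m : G} {r : ℝ} (h1 : gp d m o x ≤ r) (h2 : gp d m o y ≤ r) :
    d o m - 2 * r ≤ gp d o x y := by
  rw [gp_identity hd o x y m]
  have h3 := gp_nonneg hd m x y
  linarith

end Morse

theorem gp_compare (hd : IsRG d R) (hd' : IsRG d' R') (hδ : Hyp d δ)
    (h1 : ∀ x y, d x y ≤ A * d' x y + B) (h2 : ∀ x y, d' x y ≤ A * d x y + B) :
    ∃ A' B', 0 < A' ∧ ∀ o x y, gp d' o x y ≤ A' * gp d o x y + B' ∧
      gp d o x y ≤ A' * gp d' o x y + B' := by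
  obtain ⟨r0, hr0⟩ := exists_center hd hδ
  obtain ⟨r1, hr1⟩ := morse hd hd' hδ h1 h2 r0
  obtain ⟨A', hA'⟩ : ∃ A', A' = max A 1 := ⟨_, rfl⟩
  have hA1 : 1 ≤ A' := hA' ▸ le_max_right _ _
  have hA2 : A ≤ A' := hA' ▸ le_max_left _ _
  refine ⟨A', max (A' * (2 * r0) + B + r1) (A' * (2 * r1) + B + r0), by linarith,
    fun o x y => ?_⟩
  obtain ⟨m, hm1, hm2, hm3⟩ := hr0 o x y
  have e1 := hr1 _ _ _ hm1
  have e2 := hr1 _ _ _ hm2
  have e3 := hr1 _ _ _ hm3
  constructor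
  · have f1 := gp_le hd' (o := o) e3
    have f2 := h2 o m
    have f3 : A * d o m ≤ A' * d o m := mul_le_mul_of_nonneg_right hA2 (nonneg hd _ _)
    have f4 := le_gp hd hm1 hm2
    have f5 : A' * d o m ≤ A' * (gp d o x y + 2 * r0) :=
      mul_le_mul_of_nonneg_left (by linarith) (by linarith)
    have f6 := le_max_left (A' * (2 * r0) + B + r1) (A' * (2 * r1) + B + r0)
    linarith
  · have f1 := gp_le hd (o := o) hm3
    have f2 := h1 o m
    have f3 : A * d' o m ≤ A' * d' o m := mul_le_mul_of_nonneg_right hA2 (nonneg hd' _ _)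
    have f4 := le_gp hd' e1 e2
    have f5 : A' * d' o m ≤ A' * (gp d' o x y + 2 * r1) :=
      mul_le_mul_of_nonneg_left (by linarith) (by linarith)
    have f6 := le_max_right (A' * (2 * r0) + B + r1) (A' * (2 * r1) + B + r0)
    linarith

theorem hyp_transfer (hd : IsRG d R) (hd' : IsRG d' R') (hδ : Hyp d δ)
    (h1 : ∀ x y, d x y ≤ A * d' x y + B) (h2 : ∀ x y, d' x y ≤ A * d x y + B) :
    ∃ δ', Hyp d' δ' := by
  obtain ⟨r0, hr0⟩ := exists_center hd hδ
  obtain ⟨r1, hr1⟩ := morse hd hd' hδ h1 h2 r0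
  obtain ⟨C, hC⟩ : ∃ C, C = max (r0 + δ) (7 * r0 + 3 * δ) := ⟨_, rfl⟩
  obtain ⟨r2, hr2⟩ := morse hd hd' hδ h1 h2 C
  have key : ∀ o x y z, gp d o y z ≤ gp d o x y → gp d' o y z ≤ gp d' o x z +
      (3 * r1 + 2 * r2) := by
    intro o x y z hle
    obtain ⟨a, ha1, ha2, ha3⟩ := hr0 o y z
    obtain ⟨b, hb1, hb2, hb3⟩ := hr0 o x z
    have f1 : gp d o y z - δ ≤ gp d o x z := by
      have := hδ o x y z
      rw [min_eq_right hle] at this
      exact this
    have f2 := le_gp hd ha1 ha2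
    have f3 := gp_le hd (o := o) hb3
    -- d o a ≤ d o b + 3 r0 + δ
    have f4 : d o a ≤ d o b + 3 * r0 + δ := by linarith
    have f5 : gp d a o b ≤ C := by
      rw [hC]
      have g1 := hδ a o b z
      rcases min_choice (gp d a o b) (gp d a b z) with h | h
      · rw [h] at g1
        exact le_max_of_le_left (by linarith)
      · rw [h] at g1
        refine le_max_of_le_right ?_
        have g2 : gp d a b z ≤ r0 + δ := by linarith
        have g3 := hd.tri o a z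
        unfold gp at g2 hb2
        rw [hd.symm b o] at hb2
        have g4 : d a b ≤ 7 * r0 + 3 * δ := by linarith
        have g5 := hd.tri a b o
        have g6 := hd.tri a b o
        unfold gp
        rw [hd.symm b o] at g5
        linarith
    have f6 := hr2 _ _ _ f5
    have f7 := gp_le hd' (o := o) (hr1 _ _ _ ha3)
    have f8 := le_gp hd' (hr1 _ _ _ hb1) (hr1 _ _ _ hb2)
    have f9 : d' o a ≤ d' o b + 2 * r2 := by
      have g1 := nonneg hd' a b
      unfold gp at f6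
      rw [hd'.symm a o] at f6
      linarith
    linarith
  refine ⟨3 * r1 + 2 * r2, fun o x y z => ?_⟩
  rcases le_total (gp d o y z) (gp d o x y) with h | h
  · have := key o x y z h
    have h3 := min_le_right (gp d' o x y) (gp d' o y z)
    linarith
  · rw [gp_comm hd o x y, gp_comm hd o y z] at h
    have := key o z y x h
    rw [gp_comm hd' o y x, gp_comm hd' o z x] at this
    have h3 := min_le_left (gp d' o x y) (gp d' o y z)
    linarith
end M
end Pool.Agent.KlCD94
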