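import Pool.Agent.KlCD94.Defs

/-!
# Quasi-self-similar compact metric spaces are Ahlfors regular (implicit theorem)
-/

set_option autoImplicit false

open Set Filter Topology MeasureTheory
open scoped ENNReal NNReal

namespace Pool.Agent.KlCD94

namespace SelfSim

/-- finite covers by balls with small sum of powers of the radii, for null compact sets -/
theorem finite_cover {Z : Type} [MetricSpace Z] [MeasurableSpace Z] [BorelSpace Z]
    (K : Set Z) (hK : IsCompact K) (w0 : Z) (t : ℝ) (ht : 0 < t)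
    (hnull : Measure.hausdorffMeasure t K = 0) (η : ℝ) (hη : 0 < η) :
    ∃ (F : Finset ℕ) (z : ℕ → Z) (r : ℕ → ℝ), (∀ n, 0 < r n) ∧
      K ⊆ ⋃ n ∈ F, Metric.closedBall (z n) (r n) ∧ ∑ n ∈ F, (r n) ^ t < η := by
  classical
  set η' : ℝ := η / (4 * (2 : ℝ) ^ t) with hη'def
  have h2t : (0 : ℝ) < (2 : ℝ) ^ t := Real.rpow_pos_of_pos two_pos t
  have hη' : 0 < η' := by positivity
  rw [Measure.hausdorffMeasure_apply] at hnull
  have h1 : (⨅ (U : ℕ → Set Z), ⨅ (_ : K ⊆ ⋃ n, U n),
      ⨅ (_ : ∀ (n : ℕ), Metric.ediam (U n) ≤ 1),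
        ∑' (n : ℕ), ⨆ (_ : (U n).Nonempty), Metric.ediam (U n) ^ t) = 0 := by
    have := (ENNReal.iSup_eq_zero.mp hnull) 1
    have := (ENNReal.iSup_eq_zero.mp this) one_pos
    exact this
  have h2 : (⨅ (U : ℕ → Set Z), ⨅ (_ : K ⊆ ⋃ n, U n),
      ⨅ (_ : ∀ (n : ℕ), Metric.ediam (U n) ≤ 1),
        ∑' (n : ℕ), ⨆ (_ : (U n).Nonempty), Metric.ediam (U n) ^ t) < ENNReal.ofReal η' := by
    rw [h1]; exact ENNReal.ofReal_pos.mpr hη'
  simp only [iInf_lt_iff] at h2
  obtain ⟨U, hU, hdiam, hsum⟩ := h2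
  -- the diameters as real numbers
  set D : ℕ → ℝ := fun n => (Metric.ediam (U n)).toReal with hD
  have hfin : ∀ n, Metric.ediam (U n) ≠ ∞ := fun n => ne_top_of_le_ne_top ENNReal.one_ne_top (hdiam n)
  have hterm : ∀ n, Metric.ediam (U n) ^ t ≤ ⨆ (_ : (U n).Nonempty), Metric.ediam (U n) ^ t := by
    intro n
    rcases (U n).eq_empty_or_nonempty with h | h
    · rw [h]; simp [ht]
    · exact le_iSup (fun _ : (U n).Nonempty => Metric.ediam (U n) ^ t) h
  have hsumF : ∀ F : Finset ℕ, ∑ n ∈ F, (D n) ^ t ≤ η' := by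
    intro F
    have h3 : ∑ n ∈ F, Metric.ediam (U n) ^ t ≤ ENNReal.ofReal η' := by
      refine le_trans (Finset.sum_le_sum fun n _ => hterm n) ?_
      exact le_trans (ENNReal.sum_le_tsum F) hsum.le
    have h4 : ENNReal.ofReal (∑ n ∈ F, (D n) ^ t) ≤ ENNReal.ofReal η' := by
      rw [ENNReal.ofReal_sum_of_nonneg (fun n _ => Real.rpow_nonneg ENNReal.toReal_nonneg t)]
      refine le_trans (Finset.sum_le_sum fun n _ => ?_) h3
      rw [← ENNReal.ofReal_rpow_of_nonneg ENNReal.toReal_nonneg ht.le,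
        ENNReal.ofReal_toReal (hfin n)]
    exact (ENNReal.ofReal_le_ofReal_iff hη'.le).mp h4
  set e : ℕ → ℝ := fun n => (η' * (1 / 2 : ℝ) ^ (n + 1)) ^ (1 / t) with he
  have hepos : ∀ n, 0 < e n := fun n => Real.rpow_pos_of_pos (by positivity) _
  have het : ∀ n, (e n) ^ t = η' * (1 / 2 : ℝ) ^ (n + 1) := by
    intro n
    rw [he]
    simp only
    rw [← Real.rpow_mul (by positivity), one_div_mul_cancel ht.ne', Real.rpow_one]
  have hsumE : ∀ F : Finset ℕ, ∑ n ∈ F, (e n) ^ t ≤ η' := by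
    intro F
    have hs : HasSum (fun n : ℕ => η' * (1 / 2 : ℝ) ^ (n + 1)) η' := by
      have h := (hasSum_geometric_two).mul_left (η' / 2)
      have e1 : (fun n : ℕ => η' / 2 * (1 / 2 : ℝ) ^ n) = fun n : ℕ => η' * (1 / 2 : ℝ) ^ (n + 1) := by
        funext n; rw [pow_succ]; ring
      rw [e1] at h
      have h' : η' / 2 * 2 = η' := by ring
      rw [h'] at h
      exact h
    simp only [het]
    exact sum_le_hasSum F (fun n _ => by positivity) hs
  set r : ℕ → ℝ := fun n => 2 * max (D n) (e n) with hr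
  have hrpos : ∀ n, 0 < r n := fun n => by
    have : 0 < max (D n) (e n) := lt_max_of_lt_right (hepos n)
    simp only [hr]; positivity
  have hrD : ∀ n, D n < r n := by
    intro n
    have h0 : 0 < max (D n) (e n) := lt_max_of_lt_right (hepos n)
    have h1 : D n ≤ max (D n) (e n) := le_max_left _ _
    simp only [hr]; linarith
  set z : ℕ → Z := fun n => if h : (U n).Nonempty then h.some else w0 with hz
  have hcov : ∀ n, U n ⊆ Metric.ball (z n) (r n) := by
    intro n x hx
    have hne : (U n).Nonempty := ⟨x, hx⟩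
    have hzn : z n ∈ U n := by
      simp only [hz, hne, dif_pos]; exact hne.some_mem
    have h3 : edist x (z n) ≤ Metric.ediam (U n) := Metric.edist_le_ediam_of_mem hx hzn
    have h4 : dist x (z n) ≤ D n := by
      rw [dist_edist]
      exact ENNReal.toReal_mono (hfin n) h3
    exact lt_of_le_of_lt h4 (hrD n)
  obtain ⟨F, hF⟩ := hK.elim_finite_subcover (fun n => Metric.ball (z n) (r n))
    (fun n => Metric.isOpen_ball) (hU.trans (iUnion_mono hcov))
  refine ⟨F, z, r, hrpos, ?_, ?_⟩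
  · intro x hx
    have := hF hx
    simp only [mem_iUnion] at this ⊢
    obtain ⟨n, hn, hx⟩ := this
    exact ⟨n, hn, Metric.ball_subset_closedBall hx⟩
  · have hDn : ∀ n, 0 ≤ D n := fun n => ENNReal.toReal_nonneg
    have h5 : ∀ n, (r n) ^ t ≤ (2 : ℝ) ^ t * ((D n) ^ t + (e n) ^ t) := by
      intro n
      simp only [hr]
      rw [Real.mul_rpow two_pos.le (le_max_of_le_left (hDn n))]
      refine mul_le_mul_of_nonneg_left ?_ h2t.le
      rcases max_cases (D n) (e n) with ⟨h, _⟩ | ⟨h, _⟩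
      · rw [h]; have := Real.rpow_nonneg (hepos n).le t; linarith
      · rw [h]; have := Real.rpow_nonneg (hDn n) t; linarith
    calc ∑ n ∈ F, (r n) ^ t ≤ ∑ n ∈ F, (2 : ℝ) ^ t * ((D n) ^ t + (e n) ^ t) :=
          Finset.sum_le_sum fun n _ => h5 n
      _ = (2 : ℝ) ^ t * (∑ n ∈ F, (D n) ^ t + ∑ n ∈ F, (e n) ^ t) := by
          rw [← Finset.mul_sum, Finset.sum_add_distrib]
      _ ≤ (2 : ℝ) ^ t * (η' + η') := by
          refine mul_le_mul_of_nonneg_left (add_le_add (hsumF F) (hsumE F)) h2t.le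
      _ = η / 2 := by rw [hη'def]; field_simp; ring
      _ < η := by linarith

/-- `P2`: covers of the reference ball have large sum of powers of the diameters. -/
theorem cover_lower {Z ι : Type} [MetricSpace Z] (w0 : Z) (c0 C r t : ℝ)
    (hr : 0 < r) (hC : 0 < C) (ht : 0 < t) (S : Finset Z) (hS : 2 ≤ S.card)
    (hsub : ∀ z ∈ S, Metric.closedBall z r ⊆ Metric.closedBall w0 c0)
    (hsep : ∀ z ∈ S, ∀ z' ∈ S, z ≠ z' → 4 * r < dist z z')
    (ψ : Z → Z → Z)
    (hψ1 : ∀ z ∈ S, ∀ a ∈ Metric.closedBall w0 c0, ψ z a ∈ Metric.closedBall z r)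
    (hψ2 : ∀ z ∈ S, ∀ a ∈ Metric.closedBall w0 c0, ∀ b ∈ Metric.closedBall w0 c0,
        r * dist a b ≤ C * dist (ψ z a) (ψ z b))
    (hM : 1 ≤ (S.card : ℝ) * (r / C) ^ t) (J : Finset ι) :
    ∀ (U : ι → Set Z) (a : ι → ℝ), (∀ j ∈ J, 0 < a j) →
      (∀ j ∈ J, ∀ x ∈ U j, ∀ y ∈ U j, dist x y ≤ a j) →
      Metric.closedBall w0 c0 ⊆ ⋃ j ∈ J, U j → r ^ t ≤ ∑ j ∈ J, a j ^ t := by
  classical
  induction J using Finset.strongInduction with
  | H J ih =>
  intro U a ha hd hcov
  by_cases hbig : ∃ j ∈ J, 2 * r ≤ a j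
  · obtain ⟨j, hj, hj2⟩ := hbig
    calc r ^ t ≤ a j ^ t := Real.rpow_le_rpow hr.le (by linarith) ht.le
      _ ≤ ∑ j ∈ J, a j ^ t :=
        Finset.single_le_sum (fun i hi => Real.rpow_nonneg (ha i hi).le t) hj
  push Not at hbig
  set Jz : Z → Finset ι := fun z => J.filter (fun j => (U j ∩ Metric.closedBall z r).Nonempty)
    with hJz
  have hdisj : ∀ z ∈ S, ∀ z' ∈ S, z ≠ z' → Disjoint (Jz z) (Jz z') := by
    intro z hz z' hz' hne
    rw [Finset.disjoint_left]
    intro j hj hj'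
    simp only [hJz, Finset.mem_filter] at hj hj'
    obtain ⟨x, hxU, hxz⟩ := hj.2
    obtain ⟨y, hyU, hyz⟩ := hj'.2
    have h1 := hd j hj.1 x hxU y hyU
    have h2 := hbig j hj.1
    have h3 := hsep z hz z' hz' hne
    rw [Metric.mem_closedBall] at hxz hyz
    have h4 : dist z z' ≤ dist z x + dist x y + dist y z' := dist_triangle4 z x y z'
    rw [dist_comm z x] at h4
    linarith
  have hne : ∀ z ∈ S, (Jz z).Nonempty := by
    intro z hz
    have h1 : z ∈ Metric.closedBall w0 c0 := hsub z hz (Metric.mem_closedBall_self hr.le)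
    have h2 := hcov h1
    simp only [mem_iUnion] at h2
    obtain ⟨j, hj, hzj⟩ := h2
    exact ⟨j, Finset.mem_filter.mpr ⟨hj, z, hzj, Metric.mem_closedBall_self hr.le⟩⟩
  have hss : ∀ z ∈ S, Jz z ⊂ J := by
    intro z hz
    refine ⟨Finset.filter_subset _ _, fun hle => ?_⟩
    obtain ⟨z', hz', hne'⟩ := Finset.exists_mem_ne (by omega : 1 < S.card) z
    obtain ⟨j, hj⟩ := hne z' hz'
    have hjJ : j ∈ J := (Finset.mem_filter.mp hj).1
    exact Finset.disjoint_left.mp (hdisj z' hz' z hz hne') hj (hle hjJ)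
  have hpart : ∀ z ∈ S, (r / C) ^ t * r ^ t ≤ ∑ j ∈ Jz z, a j ^ t := by
    intro z hz
    have h1 := ih (Jz z) (hss z hz)
      (fun j => {x | x ∈ Metric.closedBall w0 c0 ∧ ψ z x ∈ U j}) (fun j => C * a j / r)
      (fun j hj => by
        have := ha j (Finset.mem_filter.mp hj).1
        positivity)
      (fun j hj x hx y hy => by
        have h2 := hψ2 z hz x hx.1 y hy.1
        have h3 := hd j (Finset.mem_filter.mp hj).1 _ hx.2 _ hy.2
        rw [le_div_iff₀ hr]
        have h4 : C * dist (ψ z x) (ψ z y) ≤ C * a j := mul_le_mul_of_nonneg_left h3 hC.le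
        linarith)
      (fun x hx => by
        have h2 := hψ1 z hz x hx
        have h3 := hcov (hsub z hz h2)
        simp only [mem_iUnion] at h3 ⊢
        obtain ⟨j, hj, hxj⟩ := h3
        exact ⟨j, Finset.mem_filter.mpr ⟨hj, _, hxj, h2⟩, hx, hxj⟩)
    have h5 : ∀ j ∈ Jz z, (C * a j / r) ^ t = (C / r) ^ t * a j ^ t := by
      intro j hj
      have := ha j (Finset.mem_filter.mp hj).1
      rw [show C * a j / r = (C / r) * a j by ring, Real.mul_rpow (by positivity) this.le]
    rw [Finset.sum_congr rfl h5, ← Finset.mul_sum] at h1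
    have h6 : (r / C) ^ t * ((C / r) ^ t * ∑ j ∈ Jz z, a j ^ t) = ∑ j ∈ Jz z, a j ^ t := by
      rw [← mul_assoc, ← Real.mul_rpow (by positivity) (by positivity)]
      have : r / C * (C / r) = 1 := by field_simp
      rw [this, Real.one_rpow, one_mul]
    rw [← h6]
    exact mul_le_mul_of_nonneg_left h1 (Real.rpow_nonneg (by positivity) t)
  calc r ^ t ≤ ((S.card : ℝ) * (r / C) ^ t) * r ^ t := by
        have : 0 ≤ r ^ t := Real.rpow_nonneg hr.le t
        nlinarith
    _ = ∑ z ∈ S, (r / C) ^ t * r ^ t := by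
        rw [Finset.sum_const, nsmul_eq_mul]; ring
    _ ≤ ∑ z ∈ S, ∑ j ∈ Jz z, a j ^ t := Finset.sum_le_sum hpart
    _ = ∑ j ∈ S.biUnion Jz, a j ^ t := by
        rw [Finset.sum_biUnion]
        intro z hz z' hz' hne'
        exact hdisj z hz z' hz' hne'
    _ ≤ ∑ j ∈ J, a j ^ t := by
        refine Finset.sum_le_sum_of_subset_of_nonneg ?_
          (fun i hi _ => Real.rpow_nonneg (ha i hi).le t)
        intro j hj
        obtain ⟨z, _, hj⟩ := Finset.mem_biUnion.mp hj
        exact (Finset.mem_filter.mp hj).1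

/-- expanding maps and Hausdorff measure -/
theorem measure_le_of_expand {Z : Type} [MetricSpace Z] [MeasurableSpace Z] [BorelSpace Z]
    (f : Z → Z) (B : Set Z) (K s : ℝ) (hK : 0 ≤ K) (hs : 0 ≤ s)
    (hf : ∀ x ∈ B, ∀ y ∈ B, dist x y ≤ K * dist (f x) (f y)) :
    Measure.hausdorffMeasure s B ≤ ENNReal.ofReal (K ^ s) * Measure.hausdorffMeasure s (f '' B) := by
  classical
  rcases isEmpty_or_nonempty Z with hE | hN
  · have : B = ∅ := Set.eq_empty_of_isEmpty B
    rw [this]; simp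
  have hinj : InjOn f B := by
    intro x hx y hy hxy
    have := hf x hx y hy
    rw [hxy, dist_self, mul_zero] at this
    exact dist_le_zero.mp this
  set g : Z → Z := Function.invFunOn f B with hg
  have hgf : ∀ x ∈ B, g (f x) = x := fun x hx => hinj.leftInvOn_invFunOn hx
  have hlip : LipschitzOnWith K.toNNReal g (f '' B) := by
    refine LipschitzOnWith.of_dist_le_mul ?_
    rintro _ ⟨x, hx, rfl⟩ _ ⟨y, hy, rfl⟩
    rw [hgf x hx, hgf y hy, Real.coe_toNNReal K hK]
    exact hf x hx y hy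
  have himg : g '' (f '' B) = B := by
    rw [image_image]
    ext x
    constructor
    · rintro ⟨y, hy, rfl⟩
      have h1 : g (f y) = y := hgf y hy
      simpa only [h1] using hy
    · intro hx; exact ⟨x, hx, hgf x hx⟩
  have h := hlip.hausdorffMeasure_image_le hs
  rw [himg] at h
  refine h.trans (le_of_eq ?_)
  congr 1
  rw [← ENNReal.ofReal_rpow_of_nonneg hK hs]
  rfl

/-- `P1`: self-similar covers bound the Hausdorff measure from above. -/
theorem upper_of_cover {Z : Type} [MetricSpace Z] [CompactSpace Z] [MeasurableSpace Z]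
    [BorelSpace Z] [Nonempty Z] (C : ℝ) (hC : 0 < C)
    (H1 : ∀ (z : Z) (r : ℝ), 0 < r → r ≤ Metric.diam (univ : Set Z) → ∃ φ : Z → Z,
      ∀ x ∈ Metric.closedBall z r, ∀ y ∈ Metric.closedBall z r,
        dist x y ≤ C * r * dist (φ x) (φ y))
    {ι : Type} [Fintype ι] (z : ι → Z) (r : ι → ℝ) (hr : ∀ i, 0 < r i)
    (hrD : ∀ i, r i ≤ Metric.diam (univ : Set Z)) (hρ : ∀ i, C * r i < 1)
    (hcov : ∀ x, ∃ i, x ∈ Metric.closedBall (z i) (r i)) (t : ℝ) (ht : 0 < t)
    (hsum : ∑ i, (C * r i) ^ t ≤ 1) :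
    Measure.hausdorffMeasure t (univ : Set Z) ≤
      ENNReal.ofReal ((Metric.diam (univ : Set Z)) ^ t) := by
  classical
  set D := Metric.diam (univ : Set Z) with hD
  have hD0 : 0 ≤ D := Metric.diam_nonneg
  obtain ⟨x0⟩ := ‹Nonempty Z›
  obtain ⟨i1, _⟩ := hcov x0
  have : Nonempty ι := ⟨i1⟩
  obtain ⟨i0, hi0⟩ := Finite.exists_max (fun i => C * r i)
  set q := C * r i0 with hq
  have hq0 : 0 < q := mul_pos hC (hr i0)
  have hq1 : q < 1 := hρ i0
  have hstep : ∀ k : ℕ, ∃ (κ : Type) (_ : Fintype κ) (A : κ → Set Z) (a : κ → ℝ),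
      (∀ i, 0 ≤ a i) ∧ (∀ i, a i ≤ q ^ k * D) ∧ (∀ i, ∀ x ∈ A i, ∀ y ∈ A i, dist x y ≤ a i) ∧
      (∀ x, ∃ i, x ∈ A i) ∧ ∑ i, a i ^ t ≤ D ^ t := by
    intro k
    induction k with
    | zero =>
      refine ⟨Unit, inferInstance, fun _ => univ, fun _ => D, fun _ => hD0, fun _ => by simp,
        fun _ x _ y _ => Metric.dist_le_diam_of_mem isCompact_univ.isBounded (mem_univ x)
          (mem_univ y), fun x => ⟨(), mem_univ x⟩, by simp⟩
    | succ k ih =>
      obtain ⟨κ, hκ, A, a, ha0, haq, hAd, hAc, hAs⟩ := ih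
      choose φ hφ using fun i => H1 (z i) (r i) (hr i) (hrD i)
      refine ⟨ι × κ, inferInstance, fun p => {x | x ∈ Metric.closedBall (z p.1) (r p.1) ∧
        φ p.1 x ∈ A p.2}, fun p => C * r p.1 * a p.2, ?_, ?_, ?_, ?_, ?_⟩
      · rintro ⟨i, j⟩
        have := hr i; have := ha0 j
        positivity
      · rintro ⟨i, j⟩
        have h1 : C * r i ≤ q := hi0 i
        have h2 := haq j
        have h3 : 0 < C * r i := mul_pos hC (hr i)
        calc C * r i * a j ≤ q * (q ^ k * D) :=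
              mul_le_mul h1 h2 (ha0 j) hq0.le
          _ = q ^ (k + 1) * D := by ring
      · rintro ⟨i, j⟩ x ⟨hx1, hx2⟩ y ⟨hy1, hy2⟩
        have h1 := hφ i x hx1 y hy1
        have h2 := hAd j _ hx2 _ hy2
        exact h1.trans (mul_le_mul_of_nonneg_left h2 (mul_pos hC (hr i)).le)
      · intro x
        obtain ⟨i, hi⟩ := hcov x
        obtain ⟨j, hj⟩ := hAc (φ i x)
        exact ⟨(i, j), hi, hj⟩
      · rw [Fintype.sum_prod_type]
        have h1 : ∀ i, ∑ j, (C * r i * a j) ^ t = (C * r i) ^ t * ∑ j, a j ^ t := by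
          intro i
          rw [Finset.mul_sum]
          refine Finset.sum_congr rfl fun j _ => ?_
          rw [Real.mul_rpow (mul_pos hC (hr i)).le (ha0 j)]
        simp only [h1]
        rw [← Finset.sum_mul]
        have h2 : 0 ≤ ∑ j, a j ^ t := Finset.sum_nonneg fun j _ => Real.rpow_nonneg (ha0 j) t
        calc (∑ i, (C * r i) ^ t) * ∑ j, a j ^ t ≤ 1 * ∑ j, a j ^ t :=
              mul_le_mul_of_nonneg_right hsum h2
          _ = ∑ j, a j ^ t := one_mul _
          _ ≤ D ^ t := hAs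
  choose κ hκ A a ha0 haq hAd hAc hAs using hstep
  have htend : Tendsto (fun k : ℕ => ENNReal.ofReal (q ^ k * D)) atTop (𝓝 0) := by
    have h1 : Tendsto (fun k : ℕ => q ^ k * D) atTop (𝓝 (0 * D)) :=
      (tendsto_pow_atTop_nhds_zero_of_lt_one hq0.le hq1).mul_const D
    rw [zero_mul] at h1
    have h2 := ENNReal.tendsto_ofReal h1
    rwa [ENNReal.ofReal_zero] at h2
  have hdA : ∀ k i, Metric.ediam (A k i) ≤ ENNReal.ofReal (a k i) := by
    intro k i
    refine Metric.ediam_le fun x hx y hy => ?_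
    rw [edist_dist]
    exact ENNReal.ofReal_le_ofReal (hAd k i x hx y hy)
  have h := Measure.hausdorffMeasure_le_liminf_sum (X := Z) (ι := κ) t (univ : Set Z)
    (l := atTop) (fun k => ENNReal.ofReal (q ^ k * D)) htend A
    (Eventually.of_forall fun k i => (hdA k i).trans (ENNReal.ofReal_le_ofReal (haq k i)))
    (Eventually.of_forall fun k x _ => mem_iUnion.mpr (hAc k x))
  refine h.trans ?_
  have h3 : ∀ k, ∑ i, Metric.ediam (A k i) ^ t ≤ ENNReal.ofReal (D ^ t) := by
    intro k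
    calc ∑ i, Metric.ediam (A k i) ^ t ≤ ∑ i, ENNReal.ofReal (a k i ^ t) := by
          refine Finset.sum_le_sum fun i _ => ?_
          rw [← ENNReal.ofReal_rpow_of_nonneg (ha0 k i) ht.le]
          exact ENNReal.rpow_le_rpow (hdA k i) ht.le
      _ = ENNReal.ofReal (∑ i, a k i ^ t) :=
          (ENNReal.ofReal_sum_of_nonneg fun i _ => Real.rpow_nonneg (ha0 k i) t).symm
      _ ≤ ENNReal.ofReal (D ^ t) := ENNReal.ofReal_le_ofReal (hAs k)
  refine (liminf_le_liminf (Eventually.of_forall h3)).trans ?_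
  simp

/-- separated subsets of the reference ball are small -/
theorem sep_card {Z : Type} [MetricSpace Z] [CompactSpace Z] [MeasurableSpace Z]
    [BorelSpace Z] (w0 : Z) (c0 C : ℝ) (hC : 1 ≤ C)
    (H2 : ∀ (z : Z) (r : ℝ), 0 < r → r ≤ Metric.diam (univ : Set Z) → ∃ ψ : Z → Z,
      (∀ a ∈ Metric.closedBall w0 c0, ψ a ∈ Metric.closedBall z r) ∧
      ∀ a ∈ Metric.closedBall w0 c0, ∀ b ∈ Metric.closedBall w0 c0,
        r * dist a b ≤ C * dist (ψ a) (ψ b))
    (hfin : dimH (univ : Set Z) ≠ ∞) (r : ℝ) (hr : 0 < r) (hrc : r ≤ c0 / 2) (hr1 : r ≤ C)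
    (hrD : r ≤ Metric.diam (univ : Set Z)) (S : Finset Z)
    (hS : ∀ z ∈ S, z ∈ Metric.ball w0 (c0 / 2))
    (hsep : ∀ z ∈ S, ∀ z' ∈ S, z ≠ z' → 4 * r < dist z z') :
    (S.card : ℝ) ≤ (C / r) ^ (dimH (univ : Set Z)).toReal := by
  classical
  set s := (dimH (univ : Set Z)).toReal with hs
  have hs0 : 0 ≤ s := ENNReal.toReal_nonneg
  have hC0 : 0 < C := by linarith
  have hCr : 1 ≤ C / r := by rw [le_div_iff₀ hr]; linarith
  rcases le_or_gt S.card 1 with h1 | h1
  · have : (1 : ℝ) ≤ (C / r) ^ s := Real.one_le_rpow hCr hs0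
    have h2 : (S.card : ℝ) ≤ 1 := by exact_mod_cast h1
    linarith
  by_contra hcon
  push Not at hcon
  -- an exponent slightly larger than `s`
  have hcont : Continuous fun t : ℝ => (C / r) ^ t := Real.continuous_const_rpow (by positivity)
  have hev : ∀ᶠ t in 𝓝 s, (C / r) ^ t < (S.card : ℝ) :=
    hcont.continuousAt.eventually_lt continuousAt_const hcon
  have hev2 : ∀ᶠ t in 𝓝[>] s, (C / r) ^ t < (S.card : ℝ) := hev.filter_mono nhdsWithin_le_nhds
  obtain ⟨t, ht1, ht2⟩ := (hev2.and self_mem_nhdsWithin).exists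
  have hts : s < t := ht2
  have ht0 : 0 < t := lt_of_le_of_lt hs0 hts
  have hlt : dimH (univ : Set Z) < (t.toNNReal : ℝ≥0∞) := by
    rw [← ENNReal.ofReal_toReal hfin]
    exact (ENNReal.ofReal_lt_ofReal_iff ht0).mpr hts
  have hnull0 := hausdorffMeasure_of_dimH_lt hlt
  rw [Real.coe_toNNReal t ht0.le] at hnull0
  have hnull : Measure.hausdorffMeasure t (Metric.closedBall w0 c0) = 0 :=
    measure_mono_null (subset_univ _) hnull0
  obtain ⟨F, z, ρ, hρ, hcov, hsum⟩ := finite_cover (Metric.closedBall w0 c0)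
    Metric.isClosed_closedBall.isCompact w0 t ht0 hnull ((r / 2) ^ t) (by positivity)
  choose ψ hψ1 hψ2 using fun z : Z => H2 z r hr hrD
  have hsub : ∀ z ∈ S, Metric.closedBall z r ⊆ Metric.closedBall w0 c0 := by
    intro z hz x hx
    have h2 := hS z hz
    rw [Metric.mem_closedBall] at hx ⊢
    rw [Metric.mem_ball] at h2
    have := dist_triangle x z w0
    linarith
  have hM : 1 ≤ (S.card : ℝ) * (r / C) ^ t := by
    have h2 : (C / r) ^ t * (r / C) ^ t = 1 := by
      rw [← Real.mul_rpow (by positivity) (by positivity)]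
      have : C / r * (r / C) = 1 := by field_simp
      rw [this, Real.one_rpow]
    rw [← h2]
    exact mul_le_mul_of_nonneg_right ht1.le (Real.rpow_nonneg (by positivity) t)
  have hlow := cover_lower w0 c0 C r t hr hC0 ht0 S h1 hsub hsep ψ
    (fun z _ => hψ1 z) (fun z _ => hψ2 z) hM F
    (fun n => Metric.closedBall (z n) (ρ n)) (fun n => 2 * ρ n)
    (fun n _ => by have := hρ n; positivity)
    (fun n _ x hx y hy => by
      rw [Metric.mem_closedBall] at hx hy
      have := dist_triangle_right x y (z n)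
      linarith) hcov
  have h5 : ∑ n ∈ F, (2 * ρ n) ^ t = (2 : ℝ) ^ t * ∑ n ∈ F, (ρ n) ^ t := by
    rw [Finset.mul_sum]
    exact Finset.sum_congr rfl fun n _ => Real.mul_rpow two_pos.le (hρ n).le
  rw [h5] at hlow
  have h6 : (2 : ℝ) ^ t * ∑ n ∈ F, (ρ n) ^ t < (2 : ℝ) ^ t * (r / 2) ^ t :=
    mul_lt_mul_of_pos_left hsum (Real.rpow_pos_of_pos two_pos t)
  rw [← Real.mul_rpow two_pos.le (by positivity)] at h6
  have h7 : 2 * (r / 2) = r := by ring
  rw [h7] at h6
  linarith

/-- existence of maximal separated sets -/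
theorem exists_net {Z : Type} [MetricSpace Z] (E : Set Z) (ρ : ℝ) (hρ : 0 ≤ ρ) (B : ℕ)
    (hB : ∀ S : Finset Z, (∀ z ∈ S, z ∈ E) → (∀ z ∈ S, ∀ z' ∈ S, z ≠ z' → ρ < dist z z') →
      S.card ≤ B) :
    ∃ S : Finset Z, (∀ z ∈ S, z ∈ E) ∧ (∀ z ∈ S, ∀ z' ∈ S, z ≠ z' → ρ < dist z z') ∧
      ∀ x ∈ E, ∃ z ∈ S, dist x z ≤ ρ := by
  classical
  by_contra hcon
  push Not at hcon
  have : ∀ n : ℕ, ∃ S : Finset Z, (∀ z ∈ S, z ∈ E) ∧
      (∀ z ∈ S, ∀ z' ∈ S, z ≠ z' → ρ < dist z z') ∧ S.card = n := by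
    intro n
    induction n with
    | zero => exact ⟨∅, by simp, by simp, by simp⟩
    | succ n ih =>
      obtain ⟨S, h1, h2, h3⟩ := ih
      obtain ⟨x, hx, hx2⟩ := hcon S h1 h2
      by_cases hmem : x ∈ S
      · have h4 := hx2 x hmem
        rw [dist_self] at h4
        linarith
      · refine ⟨insert x S, ?_, ?_, ?_⟩
        · intro z hz
          rcases Finset.mem_insert.mp hz with rfl | hz
          · exact hx
          · exact h1 z hz
        · intro z hz z' hz' hne
          rcases Finset.mem_insert.mp hz with h | h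
          · rcases Finset.mem_insert.mp hz' with h' | h'
            · exact absurd (h.trans h'.symm) hne
            · rw [h]; exact hx2 z' h'
          · rcases Finset.mem_insert.mp hz' with h' | h'
            · rw [h', dist_comm]; exact hx2 z h
            · exact h2 z h z' h' hne
        · rw [Finset.card_insert_of_notMem hmem, h3]
  obtain ⟨S, h1, h2, h3⟩ := this (B + 1)
  have := hB S h1 h2
  omega

/-- finiteness of the measure of the half ball -/
theorem half_ball_finite {Z : Type} [MetricSpace Z] [CompactSpace Z] [MeasurableSpace Z]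
    [BorelSpace Z] (w0 : Z) (c0 C : ℝ) (hc0 : 0 < c0) (hC : 1 ≤ C)
    (hD : 0 < Metric.diam (univ : Set Z))
    (H2 : ∀ (z : Z) (r : ℝ), 0 < r → r ≤ Metric.diam (univ : Set Z) → ∃ ψ : Z → Z,
      (∀ a ∈ Metric.closedBall w0 c0, ψ a ∈ Metric.closedBall z r) ∧
      ∀ a ∈ Metric.closedBall w0 c0, ∀ b ∈ Metric.closedBall w0 c0,
        r * dist a b ≤ C * dist (ψ a) (ψ b))
    (hfin : dimH (univ : Set Z) ≠ ∞) :
    Measure.hausdorffMeasure (dimH (univ : Set Z)).toReal (Metric.ball w0 (c0 / 2)) ≤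
      ENNReal.ofReal ((8 * C) ^ (dimH (univ : Set Z)).toReal) := by
  classical
  set s := (dimH (univ : Set Z)).toReal with hs
  have hs0 : 0 ≤ s := ENNReal.toReal_nonneg
  have hC0 : 0 < C := by linarith
  set D := Metric.diam (univ : Set Z) with hDdef
  set r0 := min (min (c0 / 2) C) D with hr0
  have hr0pos : 0 < r0 := lt_min (lt_min (by linarith) hC0) hD
  set ρ : ℕ → ℝ := fun k => r0 / (k + 1) with hρ
  have hρpos : ∀ k, 0 < ρ k := fun k => by simp only [hρ]; positivity
  have hρle : ∀ k, ρ k ≤ r0 := by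
    intro k
    simp only [hρ]
    rw [div_le_iff₀ (by positivity)]
    have : (0 : ℝ) ≤ k := Nat.cast_nonneg k
    nlinarith
  have hρc : ∀ k, ρ k ≤ c0 / 2 := fun k =>
    (hρle k).trans ((min_le_left _ _).trans (min_le_left _ _))
  have hρC : ∀ k, ρ k ≤ C := fun k => (hρle k).trans ((min_le_left _ _).trans (min_le_right _ _))
  have hρD : ∀ k, ρ k ≤ D := fun k => (hρle k).trans (min_le_right _ _)
  have hnet : ∀ k : ℕ, ∃ S : Finset Z, (∀ z ∈ S, z ∈ Metric.ball w0 (c0 / 2)) ∧
      (∀ z ∈ S, ∀ z' ∈ S, z ≠ z' → 4 * ρ k < dist z z') ∧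
      ∀ x ∈ Metric.ball w0 (c0 / 2), ∃ z ∈ S, dist x z ≤ 4 * ρ k := by
    intro k
    refine exists_net _ _ (by have := hρpos k; positivity) ⌊(C / ρ k) ^ s⌋₊ ?_
    intro S h1 h2
    exact Nat.le_floor (sep_card w0 c0 C hC H2 hfin (ρ k) (hρpos k) (hρc k) (hρC k) (hρD k) S
      h1 h2)
  choose S hS1 hS2 hS3 using hnet
  have htend : Tendsto (fun k : ℕ => ENNReal.ofReal (8 * ρ k)) atTop (𝓝 0) := by
    have h1 : Tendsto (fun k : ℕ => 8 * ρ k) atTop (𝓝 0) := by
      have h2 : Tendsto (fun k : ℕ => r0 * (1 / ((k : ℝ) + 1))) atTop (𝓝 (r0 * 0)) :=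
        tendsto_one_div_add_atTop_nhds_zero_nat.const_mul r0
      have h3 := h2.const_mul 8
      rw [mul_zero, mul_zero] at h3
      refine h3.congr fun k => ?_
      simp only [hρ]; ring
    have h2 := ENNReal.tendsto_ofReal h1
    rwa [ENNReal.ofReal_zero] at h2
  have hd : ∀ k (z : S k), Metric.ediam (Metric.closedBall (z : Z) (4 * ρ k)) ≤
      ENNReal.ofReal (8 * ρ k) := by
    intro k z
    refine Metric.ediam_le fun x hx y hy => ?_
    rw [edist_dist]
    refine ENNReal.ofReal_le_ofReal ?_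
    rw [Metric.mem_closedBall] at hx hy
    have := dist_triangle_right x y (z : Z)
    linarith
  have h := Measure.hausdorffMeasure_le_liminf_sum (X := Z) (ι := fun k => S k) s
    (Metric.ball w0 (c0 / 2)) (l := atTop) (fun k => ENNReal.ofReal (8 * ρ k)) htend
    (fun k z => Metric.closedBall (z : Z) (4 * ρ k))
    (Eventually.of_forall fun k z => hd k z)
    (Eventually.of_forall fun k x hx => by
      obtain ⟨z, hz, hxz⟩ := hS3 k x hx
      exact mem_iUnion.mpr ⟨⟨z, hz⟩, Metric.mem_closedBall.mpr hxz⟩)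
  refine h.trans ?_
  have h3 : ∀ k, ∑ z : S k, Metric.ediam (Metric.closedBall (z : Z) (4 * ρ k)) ^ s ≤
      ENNReal.ofReal ((8 * C) ^ s) := by
    intro k
    have hρk := hρpos k
    have h4 := sep_card w0 c0 C hC H2 hfin (ρ k) (hρpos k) (hρc k) (hρC k) (hρD k) (S k)
      (hS1 k) (hS2 k)
    calc ∑ z : S k, Metric.ediam (Metric.closedBall (z : Z) (4 * ρ k)) ^ s
        ≤ ∑ _z : S k, ENNReal.ofReal ((8 * ρ k) ^ s) := by
          refine Finset.sum_le_sum fun z _ => ?_
          rw [← ENNReal.ofReal_rpow_of_nonneg (by positivity) hs0]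
          exact ENNReal.rpow_le_rpow (hd k z) hs0
      _ = ((S k).card : ℝ≥0∞) * ENNReal.ofReal ((8 * ρ k) ^ s) := by
          rw [Finset.sum_const, nsmul_eq_mul, Finset.card_univ, Fintype.card_coe]
      _ = ENNReal.ofReal (((S k).card : ℝ) * (8 * ρ k) ^ s) := by
          rw [ENNReal.ofReal_mul (Nat.cast_nonneg _), ENNReal.ofReal_natCast]
      _ ≤ ENNReal.ofReal ((8 * C) ^ s) := by
          refine ENNReal.ofReal_le_ofReal ?_
          calc ((S k).card : ℝ) * (8 * ρ k) ^ s ≤ (C / ρ k) ^ s * (8 * ρ k) ^ s :=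
                mul_le_mul_of_nonneg_right h4 (Real.rpow_nonneg (by positivity) s)
            _ = (8 * C) ^ s := by
                rw [← Real.mul_rpow (by positivity) (by positivity)]
                congr 1
                field_simp
  refine (liminf_le_liminf (Eventually.of_forall h3)).trans ?_
  simp

/-- finiteness of the dimension -/
theorem dimH_finite {Z : Type} [MetricSpace Z] [CompactSpace Z] [MeasurableSpace Z]
    [BorelSpace Z] [Nonempty Z] (C : ℝ) (hC : 1 ≤ C)
    (hD : 0 < Metric.diam (univ : Set Z))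
    (H1 : ∀ (z : Z) (r : ℝ), 0 < r → r ≤ Metric.diam (univ : Set Z) → ∃ φ : Z → Z,
      ∀ x ∈ Metric.closedBall z r, ∀ y ∈ Metric.closedBall z r,
        dist x y ≤ C * r * dist (φ x) (φ y)) :
    dimH (univ : Set Z) ≠ ∞ := by
  classical
  have hC0 : 0 < C := by linarith
  set D := Metric.diam (univ : Set Z) with hDdef
  set r0 := min D (1 / (2 * C)) with hr0
  have hr0pos : 0 < r0 := lt_min hD (by positivity)
  obtain ⟨T, _, hTfin, hT⟩ := Metric.finite_approx_of_totallyBounded
    (isCompact_univ (X := Z)).totallyBounded r0 hr0pos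
  have hCr : C * r0 ≤ 1 / 2 := by
    have : r0 ≤ 1 / (2 * C) := min_le_right _ _
    calc C * r0 ≤ C * (1 / (2 * C)) := mul_le_mul_of_nonneg_left this hC0.le
      _ = 1 / 2 := by field_simp
  set F := hTfin.toFinset with hF
  set N := F.card with hN
  have h := upper_of_cover C hC0 H1 (ι := F) (fun z => (z : Z)) (fun _ => r0) (fun _ => hr0pos)
    (fun _ => min_le_left _ _) (fun _ => by linarith)
    (fun x => by
      have h1 := hT (mem_univ x)
      simp only [mem_iUnion] at h1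
      obtain ⟨y, hy, hxy⟩ := h1
      exact ⟨⟨y, by simpa [hF] using hy⟩, Metric.ball_subset_closedBall hxy⟩)
    ((N : ℝ) + 1) (by positivity) (by
      rw [Finset.sum_const, nsmul_eq_mul, Finset.card_univ, Fintype.card_coe]
      have h1 : (C * r0) ^ ((N : ℝ) + 1) ≤ (1 / 2 : ℝ) ^ ((N : ℝ) + 1) :=
        Real.rpow_le_rpow (by positivity) hCr (by positivity)
      have h2 : (1 / 2 : ℝ) ^ ((N : ℝ) + 1) = (1 / 2 : ℝ) ^ (N + 1) := by
        rw [← Real.rpow_natCast]; push_cast; rfl
      rw [h2] at h1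
      have h3 : (N : ℝ) ≤ 2 ^ N := by
        exact_mod_cast (Nat.lt_two_pow_self (n := N)).le
      calc (N : ℝ) * (C * r0) ^ ((N : ℝ) + 1) ≤ 2 ^ N * (1 / 2 : ℝ) ^ (N + 1) :=
            mul_le_mul h3 h1 (Real.rpow_nonneg (by positivity) _) (by positivity)
        _ = 1 / 2 := by
            rw [pow_succ, ← mul_assoc, ← mul_pow]; norm_num
        _ ≤ 1 := by norm_num)
  have h5 : Measure.hausdorffMeasure (((N : ℝ≥0) + 1 : ℝ≥0) : ℝ) (univ : Set Z) ≠ ∞ := by
    push_cast
    exact ne_top_of_le_ne_top ENNReal.ofReal_ne_top h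
  have h6 := dimH_le_of_hausdorffMeasure_ne_top h5
  exact ne_top_of_le_ne_top ENNReal.coe_ne_top h6

/-- positivity of the critical measure -/
theorem measure_pos {Z : Type} [MetricSpace Z] [CompactSpace Z] [MeasurableSpace Z]
    [BorelSpace Z] [Nonempty Z] (C : ℝ) (hC : 1 ≤ C)
    (hD : 0 < Metric.diam (univ : Set Z))
    (H1 : ∀ (z : Z) (r : ℝ), 0 < r → r ≤ Metric.diam (univ : Set Z) → ∃ φ : Z → Z,
      ∀ x ∈ Metric.closedBall z r, ∀ y ∈ Metric.closedBall z r,
        dist x y ≤ C * r * dist (φ x) (φ y))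
    (hs : 0 < (dimH (univ : Set Z)).toReal) :
    Measure.hausdorffMeasure (dimH (univ : Set Z)).toReal (univ : Set Z) ≠ 0 := by
  classical
  intro hnull
  set s := (dimH (univ : Set Z)).toReal with hsdef
  set D := Metric.diam (univ : Set Z) with hDdef
  have hC0 : 0 < C := by linarith
  obtain ⟨w0⟩ := ‹Nonempty Z›
  have hCs : 0 < C ^ s := Real.rpow_pos_of_pos hC0 s
  obtain ⟨F, z, ρ, hρ, hcov, hsum⟩ := finite_cover (univ : Set Z) isCompact_univ w0 s hs hnull
    (1 / (2 * C ^ s)) (by positivity)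
  set r : F → ℝ := fun n => min (ρ n) D with hr
  have hrpos : ∀ n, 0 < r n := fun n => lt_min (hρ n) hD
  have hrs : ∑ n : F, (C * r n) ^ s ≤ 1 / 2 := by
    have h1 : ∀ n : F, (C * r n) ^ s ≤ C ^ s * (ρ n) ^ s := by
      intro n
      rw [← Real.mul_rpow hC0.le (hρ n).le]
      exact Real.rpow_le_rpow (mul_pos hC0 (hrpos n)).le
        (mul_le_mul_of_nonneg_left (min_le_left _ _) hC0.le) hs.le
    calc ∑ n : F, (C * r n) ^ s ≤ ∑ n : F, C ^ s * (ρ n) ^ s := Finset.sum_le_sum fun n _ => h1 n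
      _ = C ^ s * ∑ n ∈ F, (ρ n) ^ s := by
          rw [← Finset.mul_sum, Finset.sum_coe_sort F (fun n => (ρ n) ^ s)]
      _ ≤ C ^ s * (1 / (2 * C ^ s)) := mul_le_mul_of_nonneg_left hsum.le hCs.le
      _ = 1 / 2 := by field_simp
  have hlt1 : ∀ n, C * r n < 1 := by
    intro n
    by_contra hcon
    push Not at hcon
    have h1 : (1 : ℝ) ≤ (C * r n) ^ s := Real.one_le_rpow hcon hs.le
    have h2 : (C * r n) ^ s ≤ ∑ n : F, (C * r n) ^ s :=
      Finset.single_le_sum (f := fun n : F => (C * r n) ^ s)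
        (fun i _ => Real.rpow_nonneg (mul_pos hC0 (hrpos i)).le s) (Finset.mem_univ n)
    linarith
  have hcont : Continuous fun t : ℝ => ∑ n : F, (C * r n) ^ t :=
    continuous_finsetSum _ fun n _ => Real.continuous_const_rpow (mul_pos hC0 (hrpos n)).ne'
  have hev : ∀ᶠ t in 𝓝 s, ∑ n : F, (C * r n) ^ t < 1 :=
    hcont.continuousAt.eventually_lt continuousAt_const (by linarith)
  have hev0 : ∀ᶠ t in 𝓝 s, 0 < t := lt_mem_nhds hs
  have hev2 : ∀ᶠ t in 𝓝[<] s, (∑ n : F, (C * r n) ^ t < 1 ∧ 0 < t) :=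
    (hev.and hev0).filter_mono nhdsWithin_le_nhds
  obtain ⟨t, ⟨ht1, ht0⟩, hts⟩ := (hev2.and self_mem_nhdsWithin).exists
  have hts' : t < s := hts
  have h := upper_of_cover C hC0 H1 (ι := F) (fun n => z n) r hrpos (fun n => min_le_right _ _)
    hlt1 (fun x => by
      have h1 := hcov (mem_univ x)
      simp only [mem_iUnion] at h1
      obtain ⟨n, hn, hxn⟩ := h1
      refine ⟨⟨n, hn⟩, ?_⟩
      rw [Metric.mem_closedBall] at hxn ⊢
      exact le_min hxn (Metric.dist_le_diam_of_mem isCompact_univ.isBounded (mem_univ _)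
        (mem_univ _))) t ht0 ht1.le
  have h5 : Measure.hausdorffMeasure ((t.toNNReal : ℝ≥0) : ℝ) (univ : Set Z) ≠ ∞ := by
    rw [Real.coe_toNNReal t ht0.le]
    exact ne_top_of_le_ne_top ENNReal.ofReal_ne_top h
  have h6 := dimH_le_of_hausdorffMeasure_ne_top h5
  have h7 : s ≤ t := by
    have h8 := ENNReal.toReal_mono ENNReal.coe_ne_top h6
    rw [ENNReal.coe_toReal, Real.coe_toNNReal t ht0.le] at h8
    exact h8
  linarith

end SelfSim

theorem ahlfors_of_finite {Z : Type} [MetricSpace Z] [Finite Z] :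
    ∃ Q : ℝ, IsAhlforsRegular Z Q := by
  classical
  let _ : MeasurableSpace Z := borel Z
  have : BorelSpace Z := ⟨rfl⟩
  have := Fintype.ofFinite Z
  refine ⟨0, le_refl 0, Measure.count, max (1 : ℝ) (Fintype.card Z : ℝ), le_max_left _ _, ?_⟩
  intro y r hr _
  have hC1 : (1 : ℝ) ≤ max (1 : ℝ) (Fintype.card Z : ℝ) := le_max_left _ _
  rw [Real.rpow_zero, mul_one, mul_one]
  constructor
  · have h1 : ({y} : Set Z) ⊆ Metric.closedBall y r := by
      intro x hx
      rw [mem_singleton_iff.mp hx]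
      exact Metric.mem_closedBall_self hr.le
    have h2 : Measure.count ({y} : Set Z) ≤ Measure.count (Metric.closedBall y r) :=
      measure_mono h1
    rw [Measure.count_singleton] at h2
    refine le_trans ?_ h2
    rw [← ENNReal.ofReal_one]
    exact ENNReal.ofReal_le_ofReal (inv_le_one_of_one_le₀ hC1)
  · have h1 : Measure.count (Metric.closedBall y r) ≤ Measure.count (univ : Set Z) :=
      measure_mono (subset_univ _)
    refine h1.trans ?_
    rw [Measure.count_apply MeasurableSet.univ, Set.encard_univ, ENat.card_eq_coe_fintype_card]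
    have h2 : ((Fintype.card Z : ℕ∞) : ℝ≥0∞) = ENNReal.ofReal (Fintype.card Z : ℝ) := by
      rw [ENNReal.ofReal_natCast]; rfl
    rw [h2]
    exact ENNReal.ofReal_le_ofReal (le_max_right _ _)

theorem ahlfors_of_selfsimilar {Z : Type} [MetricSpace Z] [CompactSpace Z] (w0 : Z) (c0 C : ℝ)
    (hc0 : 0 < c0) (hC : 1 ≤ C)
    (H1 : ∀ (z : Z) (r : ℝ), 0 < r → r ≤ Metric.diam (univ : Set Z) → ∃ φ : Z → Z,
      ∀ x ∈ Metric.closedBall z r, ∀ y ∈ Metric.closedBall z r,
        dist x y ≤ C * r * dist (φ x) (φ y))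
    (H2 : ∀ (z : Z) (r : ℝ), 0 < r → r ≤ Metric.diam (univ : Set Z) → ∃ ψ : Z → Z,
      (∀ a ∈ Metric.closedBall w0 c0, ψ a ∈ Metric.closedBall z r) ∧
      ∀ a ∈ Metric.closedBall w0 c0, ∀ b ∈ Metric.closedBall w0 c0,
        r * dist a b ≤ C * dist (ψ a) (ψ b))
    (H3 : ∃ (n : ℕ) (h : Fin n → Z → Z) (L : ℝ≥0), (∀ i, LipschitzWith L (h i)) ∧
      (⋃ i, h i '' Metric.ball w0 (c0 / 2)) = univ) :
    ∃ Q : ℝ, IsAhlforsRegular Z Q := by
  classical
  have hC0 : 0 < C := by linarith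
  have hne : Nonempty Z := ⟨w0⟩
  rcases (Metric.diam_nonneg (s := (univ : Set Z))).eq_or_lt with hD | hD
  · -- one point
    have : Subsingleton Z := by
      refine ⟨fun x y => ?_⟩
      have h1 := Metric.dist_le_diam_of_mem (isCompact_univ (X := Z)).isBounded (mem_univ x)
        (mem_univ y)
      rw [← hD] at h1
      exact dist_le_zero.mp h1
    exact ahlfors_of_finite
  let _ : MeasurableSpace Z := borel Z
  have hB : BorelSpace Z := ⟨rfl⟩
  have hfin := SelfSim.dimH_finite C hC hD H1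
  set s := (dimH (univ : Set Z)).toReal with hs
  have hs0 : 0 ≤ s := ENNReal.toReal_nonneg
  obtain ⟨n, h, L, hLip, hun⟩ := H3
  rcases hs0.eq_or_lt with hs1 | hspos
  · -- dimension zero
    have hsub : (Metric.ball w0 (c0 / 2)).Subsingleton := by
      intro x hx y hy
      by_contra hxy
      have hd : 0 < dist x y := dist_pos.mpr hxy
      set r := min (min (min (c0 / 2) C) (Metric.diam (univ : Set Z))) (dist x y / 8) with hr
      have hrpos : 0 < r := lt_min (lt_min (lt_min (by linarith) hC0) hD) (by positivity)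
      have h4 : r ≤ dist x y / 8 := min_le_right _ _
      have h1 := SelfSim.sep_card w0 c0 C hC H2 hfin r hrpos
        ((min_le_left _ _).trans ((min_le_left _ _).trans (min_le_left _ _)))
        ((min_le_left _ _).trans ((min_le_left _ _).trans (min_le_right _ _)))
        ((min_le_left _ _).trans (min_le_right _ _)) {x, y}
        (fun z hz => by
          rcases Finset.mem_insert.mp hz with h | h
          · rw [h]; exact hx
          · rw [Finset.mem_singleton.mp h]; exact hy)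
        (fun z hz z' hz' hne' => by
          rcases Finset.mem_insert.mp hz with h | h
          · rcases Finset.mem_insert.mp hz' with h' | h'
            · exact absurd (h.trans h'.symm) hne'
            · rw [h, Finset.mem_singleton.mp h']; linarith
          · rcases Finset.mem_insert.mp hz' with h' | h'
            · rw [h', Finset.mem_singleton.mp h, dist_comm]; linarith
            · exact absurd ((Finset.mem_singleton.mp h).trans (Finset.mem_singleton.mp h').symm)
                hne')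
      rw [← hs, ← hs1, Real.rpow_zero, Finset.card_pair hxy] at h1
      norm_num at h1
    have hfinite : (univ : Set Z).Finite := by
      rw [← hun]
      exact Set.finite_iUnion fun i => (hsub.image (h i)).finite
    have : Finite Z := Set.finite_univ_iff.mp hfinite
    exact ahlfors_of_finite
  -- positive dimension
  set μ : Measure Z := Measure.hausdorffMeasure s with hμ
  have hball : μ (Metric.ball w0 (c0 / 2)) ≠ ∞ :=
    ne_top_of_le_ne_top ENNReal.ofReal_ne_top (SelfSim.half_ball_finite w0 c0 C hc0 hC hD H2 hfin)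
  have huniv : μ (univ : Set Z) ≤ (n : ℝ≥0∞) * ((L : ℝ≥0∞) ^ s * μ (Metric.ball w0 (c0 / 2))) := by
    rw [← hun]
    refine (measure_iUnion_fintype_le μ _).trans ?_
    calc ∑ i, μ (h i '' Metric.ball w0 (c0 / 2))
        ≤ ∑ _i : Fin n, (L : ℝ≥0∞) ^ s * μ (Metric.ball w0 (c0 / 2)) :=
          Finset.sum_le_sum fun i _ => (hLip i).hausdorffMeasure_image_le hs0 _
      _ = (n : ℝ≥0∞) * ((L : ℝ≥0∞) ^ s * μ (Metric.ball w0 (c0 / 2))) := by
          rw [Finset.sum_const, nsmul_eq_mul, Finset.card_univ, Fintype.card_fin]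
  have huniv_top : μ (univ : Set Z) ≠ ∞ := by
    refine ne_top_of_le_ne_top ?_ huniv
    exact ENNReal.mul_ne_top (ENNReal.natCast_ne_top n)
      (ENNReal.mul_ne_top (ENNReal.rpow_ne_top_of_nonneg hs0 ENNReal.coe_ne_top) hball)
  have huniv_pos : μ (univ : Set Z) ≠ 0 := SelfSim.measure_pos C hC hD H1 hspos
  have hball_pos : μ (Metric.ball w0 (c0 / 2)) ≠ 0 := by
    intro h0
    rw [h0, mul_zero, mul_zero] at huniv
    exact huniv_pos (le_antisymm huniv bot_le)
  set B0 := Metric.closedBall w0 c0 with hB0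
  have hB0_top : μ B0 ≠ ∞ := ne_top_of_le_ne_top huniv_top (measure_mono (subset_univ _))
  have hB0_pos : μ B0 ≠ 0 := by
    intro h0
    refine hball_pos (measure_mono_null ?_ h0)
    intro x hx
    rw [Metric.mem_ball] at hx
    rw [hB0, Metric.mem_closedBall]
    linarith
  set m1 := (μ B0).toReal with hm1
  set m2 := (μ (univ : Set Z)).toReal with hm2
  have hm1pos : 0 < m1 := ENNReal.toReal_pos hB0_pos hB0_top
  have hm2pos : 0 < m2 := ENNReal.toReal_pos huniv_pos huniv_top
  have hCs : 0 < C ^ s := Real.rpow_pos_of_pos hC0 s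
  set C' := max 1 (max (C ^ s * m2) (C ^ s / m1)) with hC'
  have hC'1 : 1 ≤ C' := le_max_left _ _
  have hC'2 : C ^ s * m2 ≤ C' := (le_max_left _ _).trans (le_max_right _ _)
  have hC'3 : C ^ s / m1 ≤ C' := (le_max_right _ _).trans (le_max_right _ _)
  refine ⟨s, hs0, μ, C', hC'1, ?_⟩
  intro y r hr hrD
  have hrs : 0 < r ^ s := Real.rpow_pos_of_pos hr s
  constructor
  · obtain ⟨ψ, hψ1, hψ2⟩ := H2 y r hr hrD
    have h1 := SelfSim.measure_le_of_expand ψ B0 (C / r) s (by positivity) hs0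
      (fun a ha b hb => by
        have := hψ2 a ha b hb
        rw [div_mul_eq_mul_div, le_div_iff₀ hr]
        linarith)
    have h2 : μ (ψ '' B0) ≤ μ (Metric.closedBall y r) := by
      refine measure_mono ?_
      rintro _ ⟨a, ha, rfl⟩
      exact hψ1 a ha
    have h3 : μ B0 ≤ ENNReal.ofReal ((C / r) ^ s) * μ (Metric.closedBall y r) :=
      h1.trans (mul_le_mul_right h2 _)
    have h4 : ENNReal.ofReal m1 ≤ ENNReal.ofReal ((C / r) ^ s) * μ (Metric.closedBall y r) := by
      rw [hm1, ENNReal.ofReal_toReal hB0_top]; exact h3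
    have hyt : μ (Metric.closedBall y r) ≠ ∞ :=
      ne_top_of_le_ne_top huniv_top (measure_mono (subset_univ _))
    rw [← ENNReal.ofReal_toReal hyt]
    refine ENNReal.ofReal_le_ofReal ?_
    rw [← ENNReal.ofReal_toReal hyt, ← ENNReal.ofReal_mul (Real.rpow_nonneg (by positivity) s),
      ENNReal.ofReal_le_ofReal_iff (mul_nonneg (Real.rpow_nonneg (by positivity) s)
        ENNReal.toReal_nonneg), Real.div_rpow hC0.le hr.le] at h4
    have h5 : m1 * r ^ s ≤ C ^ s * (μ (Metric.closedBall y r)).toReal := by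
      have h6 := mul_le_mul_of_nonneg_right h4 hrs.le
      calc m1 * r ^ s ≤ C ^ s / r ^ s * (μ (Metric.closedBall y r)).toReal * r ^ s := h6
        _ = C ^ s * (μ (Metric.closedBall y r)).toReal := by field_simp
    have h7 : C ^ s ≤ C' * m1 := by
      rw [div_le_iff₀ hm1pos] at hC'3; exact hC'3
    have hC'0 : 0 < C' := by linarith
    rw [inv_mul_le_iff₀ hC'0]
    have h8 : C ^ s * r ^ s ≤ C ^ s * (C' * (μ (Metric.closedBall y r)).toReal) := by
      calc C ^ s * r ^ s ≤ (C' * m1) * r ^ s := mul_le_mul_of_nonneg_right h7 hrs.le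
        _ = C' * (m1 * r ^ s) := by ring
        _ ≤ C' * (C ^ s * (μ (Metric.closedBall y r)).toReal) :=
            mul_le_mul_of_nonneg_left h5 hC'0.le
        _ = _ := by ring
    exact le_of_mul_le_mul_left h8 hCs
  · obtain ⟨φ, hφ⟩ := H1 y r hr hrD
    have h1 := SelfSim.measure_le_of_expand φ (Metric.closedBall y r) (C * r) s (by positivity)
      hs0 hφ
    refine h1.trans ?_
    have h2 : μ (φ '' Metric.closedBall y r) ≤ ENNReal.ofReal m2 := by
      rw [hm2, ENNReal.ofReal_toReal huniv_top]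
      exact measure_mono (subset_univ _)
    calc ENNReal.ofReal ((C * r) ^ s) * μ (φ '' Metric.closedBall y r)
        ≤ ENNReal.ofReal ((C * r) ^ s) * ENNReal.ofReal m2 := mul_le_mul_right h2 _
      _ = ENNReal.ofReal ((C * r) ^ s * m2) :=
          (ENNReal.ofReal_mul (Real.rpow_nonneg (by positivity) s)).symm
      _ ≤ ENNReal.ofReal (C' * r ^ s) := by
          refine ENNReal.ofReal_le_ofReal ?_
          rw [Real.mul_rpow hC0.le hr.le]
          calc C ^ s * r ^ s * m2 = (C ^ s * m2) * r ^ s := by ring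
            _ ≤ C' * r ^ s := mul_le_mul_of_nonneg_right hC'2 hrs.le

end Pool.Agent.KlCD94
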